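import Pool.Agent.H24.PV.AtDef

/-!
# AtC: Casimir identities from the check

Model: `DtP.lean`.  `ck p r = ev z hz (CW p r) / 128`, `CW p r = 0` unless `dc p = r`.
`e_mul_sound`: scale `128 * 4 = 512`.  `cas_sound`: scale `128 * 4 ^ 4` on both sides; the `cnd`
tests `Nat.beq (dc r) s'` only skip terms with `ck r s' = 0`.  `(128 : k) ≠ 0` from
`128 = 4 * 4 * 4 * 2`, `4 = 2 * 2`.
-/

universe u

namespace H24PV
namespace TAlg
variable {q : ℕ} (A : TAlg q) {n m : ℕ} (S : TData n) (I : TData m)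
  {k : Type u} [Field k] (z : k) (hz : z ^ 16 = -1)

theorem ck_supp {p r : ℕ} (h : A.ck z hz p r ≠ 0) : A.dc p = r := by
  by_contra hc
  apply h
  have h1 : ¬ Nat.beq (A.dc p) r = true := fun h2 => hc (Nat.eq_of_beq_eq_true h2)
  rw [ck, CW, if_neg h1, map_zero, zero_mul]

theorem AtC_128 (h4 : (4 : k) ≠ 0) : (128 : k) ≠ 0 := by
  have h2 : (2 : k) ≠ 0 := by
    intro h
    apply h4
    have : (4 : k) = 2 * 2 := by norm_num
    rw [this, h, mul_zero]
  have h1 : (128 : k) = 4 * 4 * 4 * 2 := by norm_num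
  rw [h1]
  exact mul_ne_zero (mul_ne_zero (mul_ne_zero h4 h4) h4) h2

theorem AtC_ev (h4 : (4 : k) ≠ 0) (p r : ℕ) : ev z hz (A.CW p r) = 128 * A.ck z hz p r := by
  have h := AtC_128 (k := k) h4
  rw [ck]; field_simp

theorem e_mul_sound (hq : q ≤ 16) (h4 : (4 : k) ≠ 0) (h : A.chkCa S I = true) (r : Fin q)
    (h1 : A.x1 r = 0) (h2 : A.x2 r = 0) (h3 : A.x3 r = 0) :
    ∑ p : Fin q, ∑ s : Fin q, A.ck z hz p s * A.muk z hz p s r =
      if (r : ℕ) = 0 then 1 else 0 := by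
  have key := allN_fin (andB_iff.1 h).1 r
  have hp : andB (Nat.beq (A.x1 r) 0) (andB (Nat.beq (A.x2 r) 0) (Nat.beq (A.x3 r) 0)) = true := by
    rw [h1, h2, h3]
    rfl
  have key := imp_eq key hp
  have r1 : Rep (sumN q fun p => sumN q fun s => mulM (A.CK p s) (A.MK p s r))
      (∑ p : Fin q, ∑ s : Fin q, A.CW p s * A.MW p s r) (q * (q * (5745 * 5745))) :=
    Rep.sum (g := fun p => ∑ s : Fin q, A.CW p s * A.MW p s r)
      (fun p => Rep.sum (g := fun s => A.CW p s * A.MW p s r)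
        (fun s => (A.repC p s).mulM (A.repM p s r)))
  have r2 := (Rep.nat 512).cnd (Nat.beq r 0)
  have key := Rep.ev_eq z hz r1 r2 (lt_of_le_of_lt (Nat.add_le_add_right
    (Nat.mul_le_mul hq (Nat.mul_le_mul_right _ hq)) _) (by decide +kernel)) key
  have e1 : ev z hz (∑ p : Fin q, ∑ s : Fin q, A.CW p s * A.MW p s r) =
      512 * ∑ p : Fin q, ∑ s : Fin q, A.ck z hz p s * A.muk z hz p s r := by
    rw [map_sum, Finset.mul_sum]
    apply Finset.sum_congr rfl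
    intro p _
    rw [map_sum, Finset.mul_sum]
    apply Finset.sum_congr rfl
    intro s _
    rw [map_mul, A.AtC_ev z hz h4, A.ev_MW z hz h4]
    ring
  have h512 : (512 : k) ≠ 0 := by
    have : (512 : k) = 128 * 4 := by norm_num
    rw [this]
    exact mul_ne_zero (AtC_128 h4) h4
  rw [e1] at key
  apply mul_left_cancel₀ h512
  rw [key]
  by_cases h0 : (r : ℕ) = 0
  · rw [if_pos h0, h0]
    have : Nat.beq 0 0 = true := rfl
    rw [if_pos this, map_natCast]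
    push_cast
    ring
  · have : ¬ Nat.beq (r : ℕ) 0 = true := fun h2 => h0 (Nat.eq_of_beq_eq_true h2)
    rw [if_neg h0, if_neg this, map_zero, mul_zero]

theorem cas_sound (hq : q ≤ 16) (h4 : (4 : k) ≠ 0) (h : A.chkCa S I = true) (t r s : Fin q) :
    ∑ s' : Fin q, A.ck z hz r s' *
        (S.Fk z hz (A.x1 r) (A.x1 s') (A.x1 t) (A.x1 t) 0 (A.x1 s) *
          S.Fk z hz (A.x2 r) (A.x2 s') (A.x2 t) (A.x2 t) 0 (A.x2 s) *
          I.Fk z hz (A.x3 r) (A.x3 s') (A.x3 t) (A.x3 t) 0 (A.x3 s)) *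
        A.muk z hz s' t s =
      ∑ r' : Fin q, A.ck z hz r' s *
        (S.Gk z hz (A.x1 t) (A.x1 r') (A.x1 s) (A.x1 t) 0 (A.x1 r) *
          S.Gk z hz (A.x2 t) (A.x2 r') (A.x2 s) (A.x2 t) 0 (A.x2 r) *
          I.Gk z hz (A.x3 t) (A.x3 r') (A.x3 s) (A.x3 t) 0 (A.x3 r)) *
        A.muk z hz t r' r := by
  have key := allN_fin (allN_fin (allN_fin (andB_iff.1 h).2 t) r) s
  have r1 : Rep (sumN q fun s' => cnd (Nat.beq (A.dc r) s')
        (mulM (mulM (mulM (A.CK r s')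
          (S.FK (A.x1 r) (A.x1 s') (A.x1 t) (A.x1 t) 0 (A.x1 s)))
          (mulM (S.FK (A.x2 r) (A.x2 s') (A.x2 t) (A.x2 t) 0 (A.x2 s))
            (I.FK (A.x3 r) (A.x3 s') (A.x3 t) (A.x3 t) 0 (A.x3 s)))) (A.MK s' t s)) 0)
      (∑ s' : Fin q, if Nat.beq (A.dc r) s' = true then
        A.CW r s' * S.FW (A.x1 r) (A.x1 s') (A.x1 t) (A.x1 t) 0 (A.x1 s) *
          (S.FW (A.x2 r) (A.x2 s') (A.x2 t) (A.x2 t) 0 (A.x2 s) *
            I.FW (A.x3 r) (A.x3 s') (A.x3 t) (A.x3 t) 0 (A.x3 s)) * A.MW s' t s else 0)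
      (q * (5745 * 5745 * (5745 * 5745) * 5745)) :=
    Rep.sum (g := fun s' => if Nat.beq (A.dc r) s' = true then
        A.CW r s' * S.FW (A.x1 r) (A.x1 s') (A.x1 t) (A.x1 t) 0 (A.x1 s) *
          (S.FW (A.x2 r) (A.x2 s') (A.x2 t) (A.x2 t) 0 (A.x2 s) *
            I.FW (A.x3 r) (A.x3 s') (A.x3 t) (A.x3 t) 0 (A.x3 s)) * A.MW s' t s else 0)
      (fun s' => ((((A.repC r s').mulM (S.repF _ _ _ _ _ _)).mulM
        ((S.repF _ _ _ _ _ _).mulM (I.repF _ _ _ _ _ _))).mulM (A.repM s' t s)).cnd _)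
  have r2 : Rep (sumN q fun r' => cnd (Nat.beq (A.dc r') s)
        (mulM (mulM (mulM (A.CK r' s)
          (S.GK (A.x1 t) (A.x1 r') (A.x1 s) (A.x1 t) 0 (A.x1 r)))
          (mulM (S.GK (A.x2 t) (A.x2 r') (A.x2 s) (A.x2 t) 0 (A.x2 r))
            (I.GK (A.x3 t) (A.x3 r') (A.x3 s) (A.x3 t) 0 (A.x3 r)))) (A.MK t r' r)) 0)
      (∑ r' : Fin q, if Nat.beq (A.dc r') s = true then
        A.CW r' s * S.GW (A.x1 t) (A.x1 r') (A.x1 s) (A.x1 t) 0 (A.x1 r) *
          (S.GW (A.x2 t) (A.x2 r') (A.x2 s) (A.x2 t) 0 (A.x2 r) *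
            I.GW (A.x3 t) (A.x3 r') (A.x3 s) (A.x3 t) 0 (A.x3 r)) * A.MW t r' r else 0)
      (q * (5745 * 5745 * (5745 * 5745) * 5745)) :=
    Rep.sum (g := fun r' => if Nat.beq (A.dc r') s = true then
        A.CW r' s * S.GW (A.x1 t) (A.x1 r') (A.x1 s) (A.x1 t) 0 (A.x1 r) *
          (S.GW (A.x2 t) (A.x2 r') (A.x2 s) (A.x2 t) 0 (A.x2 r) *
            I.GW (A.x3 t) (A.x3 r') (A.x3 s) (A.x3 t) 0 (A.x3 r)) * A.MW t r' r else 0)
      (fun r' => ((((A.repC r' s).mulM (S.repG _ _ _ _ _ _)).mulM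
        ((S.repG _ _ _ _ _ _).mulM (I.repG _ _ _ _ _ _))).mulM (A.repM t r' r)).cnd _)
  have key := Rep.ev_eq z hz r1 r2 (lt_of_le_of_lt (Nat.add_le_add
    (Nat.mul_le_mul_right _ hq) (Nat.mul_le_mul_right _ hq)) (by decide +kernel)) key
  have h0 : (128 * 4 ^ 4 : k) ≠ 0 := mul_ne_zero (AtC_128 h4) (pow_ne_zero _ h4)
  apply mul_left_cancel₀ h0
  rw [map_sum, map_sum] at key
  rw [Finset.mul_sum, Finset.mul_sum]
  refine Eq.trans (Eq.trans (Finset.sum_congr rfl ?_) key) (Finset.sum_congr rfl ?_)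
  · intro s' _
    by_cases hs : Nat.beq (A.dc r) s' = true
    · rw [if_pos hs, map_mul, map_mul, map_mul, map_mul, A.AtC_ev z hz h4, S.ev_FW z hz h4,
        S.ev_FW z hz h4, I.ev_FW z hz h4, A.ev_MW z hz h4]
      ring
    · have hc : A.ck z hz r s' = 0 := by
        by_contra hne
        apply hs
        rw [A.ck_supp z hz hne]
        exact Nat.beq_refl _
      rw [if_neg hs, hc, map_zero]
      ring
  · intro r' _
    by_cases hs : Nat.beq (A.dc r') s = true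
    · rw [if_pos hs, map_mul, map_mul, map_mul, map_mul, A.AtC_ev z hz h4, S.ev_GW z hz h4,
        S.ev_GW z hz h4, I.ev_GW z hz h4, A.ev_MW z hz h4]
      ring
    · have hc : A.ck z hz r' s = 0 := by
        by_contra hne
        apply hs
        rw [A.ck_supp z hz hne]
        exact Nat.beq_refl _
      rw [if_neg hs, hc, map_zero]
      ring

end TAlg
end H24PV
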