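import Pool.Agent.H24.PV.DtDef

/-!
# AtDef: tabulated algebra data over `S × S × I`, and the Boolean checks

Components `p < q`, labels `(x1 p, x2 p, x3 p)`; multiplication words `lM` (scaled by `4`),
Casimir words `lC p` for the pair `(p, dc p)` (scaled by `128`); swap `sw`, parity `od`, swap
scalars `y ^ (od p) * lL p / 4` with `y ^ 2 = √2 = c ^ 2 - 2`.
-/

universe u

namespace H24PV

/-- Tabulated algebra data. -/
structure TAlg (q : ℕ) where
  x1 : ℕ → ℕ
  x2 : ℕ → ℕ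
  x3 : ℕ → ℕ
  NP : ℕ → ℕ → ℕ → Bool
  lM : ℕ → ℕ → ℕ → ℕ
  dc : ℕ → ℕ
  lC : ℕ → ℕ
  sw : ℕ → ℕ
  od : ℕ → Bool
  lL : ℕ → ℕ

/-- The word of `√2 = c ^ 2 - 2`, unscaled. -/
def wS2 : ℕ := 0x8081807e

/-- Boolean equality test. -/
noncomputable def beqB (s t : Bool) : Bool := cnd s t (cnd t false true)

theorem beqB_eq {s t : Bool} (h : beqB s t = true) : s = t := by
  cases s <;> cases t <;> simp_all [beqB, cnd]

/-- Boolean conjunction. -/
noncomputable def andB (s t : Bool) : Bool := cnd s t false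

theorem andB_iff {s t : Bool} : andB s t = true ↔ s = true ∧ t = true := by
  cases s <;> cases t <;> simp [andB, cnd]

namespace TAlg
variable {q : ℕ} (A : TAlg q) {n m : ℕ} (S : TData n) (I : TData m)

/-- Kronecker value of the multiplication constants (times `4`). -/
noncomputable def MK (p r s : ℕ) : ℕ := cnd (A.NP p r s) (kv (A.lM p r s)) 0
/-- The multiplication constants (times `4`). -/
noncomputable def MW (p r s : ℕ) : W := if A.NP p r s = true then wd (A.lM p r s) else 0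

theorem repM (p r s : ℕ) : Rep (A.MK p r s) (A.MW p r s) 5745 := (rep_wd _).cnd _

/-- The fusion rule of the product, on components. -/
noncomputable def N3 (p r s : ℕ) : Bool :=
  andB (S.N (A.x1 p) (A.x1 r) (A.x1 s)) (andB (S.N (A.x2 p) (A.x2 r) (A.x2 s))
    (I.N (A.x3 p) (A.x3 r) (A.x3 s)))

/-- Check: bounds, supports, unit. -/
noncomputable def chkS : Bool :=
  andB (andB (Nat.beq (A.x1 0) 0) (andB (Nat.beq (A.x2 0) 0) (Nat.beq (A.x3 0) 0)))
  (allN q fun p =>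
    andB (andB (Nat.ble (Nat.succ (A.x1 p)) n) (andB (Nat.ble (Nat.succ (A.x2 p)) n)
      (Nat.ble (Nat.succ (A.x3 p)) m)))
    (andB (andB (S.N (A.x1 p) (A.x1 (A.dc p)) 0) (andB (S.N (A.x2 p) (A.x2 (A.dc p)) 0)
      (I.N (A.x3 p) (A.x3 (A.dc p)) 0)))
    (allN q fun r => andB
      (andB (beqB (A.NP 0 p r) (Nat.beq p r)) (andB (beqB (A.NP p 0 r) (Nat.beq p r))
        (imp (Nat.beq p r) (andB (eqM (A.MK 0 p r) 4) (eqM (A.MK p 0 r) 4)))))
      (allN q fun s => imp (A.NP p r s) (A.N3 S I p r s)))))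

/-- Check: associativity with first component `p`. -/
noncomputable def chkAs (p : ℕ) : Bool :=
  allN q fun p2 => allN q fun r => allN q fun s =>
  allN n fun a1 => imp (S.N (A.x1 p) (A.x1 p2) a1) <| imp (S.N a1 (A.x1 r) (A.x1 s)) <|
  allN n fun a2 => imp (S.N (A.x2 p) (A.x2 p2) a2) <| imp (S.N a2 (A.x2 r) (A.x2 s)) <|
  allN m fun a3 => imp (I.N (A.x3 p) (A.x3 p2) a3) <| imp (I.N a3 (A.x3 r) (A.x3 s)) <|
  eqM (Nat.mul 64 (sumN q fun w => cnd (Nat.beq (A.x1 w) a1) (cnd (Nat.beq (A.x2 w) a2)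
      (cnd (Nat.beq (A.x3 w) a3) (mulM (A.MK p p2 w) (A.MK w r s)) 0) 0) 0))
    (sumN q fun w => cnd (A.NP p2 r w) (cnd (A.NP p w s)
      (mulM (mulM (mulM (S.FK (A.x1 p) (A.x1 p2) (A.x1 r) (A.x1 s) a1 (A.x1 w))
        (S.FK (A.x2 p) (A.x2 p2) (A.x2 r) (A.x2 s) a2 (A.x2 w)))
        (I.FK (A.x3 p) (A.x3 p2) (A.x3 r) (A.x3 s) a3 (A.x3 w)))
        (mulM (A.MK p2 r w) (A.MK p w s))) 0) 0)

/-- Check: commutativity. -/
noncomputable def chkCo (BS : TBr n) (BI : TBr m) : Bool :=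
  allN q fun p => allN q fun r => allN q fun s =>
    eqM (mulM (mulM (mulM (S.RK BS (A.x1 p) (A.x1 r) (A.x1 s))
        (S.RK BS (A.x2 p) (A.x2 r) (A.x2 s))) (I.RK BI (A.x3 p) (A.x3 r) (A.x3 s)))
        (A.MK r p s))
      (A.MK p r s)

/-- Kronecker value of the Casimir element (times `128`). -/
noncomputable def CK (p r : ℕ) : ℕ := cnd (Nat.beq (A.dc p) r) (kv (A.lC p)) 0
/-- The Casimir element (times `128`). -/
noncomputable def CW (p r : ℕ) : W := if Nat.beq (A.dc p) r = true then wd (A.lC p) else 0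

theorem repC (p r : ℕ) : Rep (A.CK p r) (A.CW p r) 5745 := (rep_wd _).cnd _

/-- Check: Casimir identities. -/
noncomputable def chkCa : Bool :=
  andB (allN q fun r => imp (andB (Nat.beq (A.x1 r) 0) (andB (Nat.beq (A.x2 r) 0)
      (Nat.beq (A.x3 r) 0)))
    (eqM (sumN q fun p => sumN q fun s => mulM (A.CK p s) (A.MK p s r))
      (cnd (Nat.beq r 0) 512 0)))
  (allN q fun t => allN q fun r => allN q fun s =>
    eqM (sumN q fun s' => cnd (Nat.beq (A.dc r) s')
        (mulM (mulM (mulM (A.CK r s')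
          (S.FK (A.x1 r) (A.x1 s') (A.x1 t) (A.x1 t) 0 (A.x1 s)))
          (mulM (S.FK (A.x2 r) (A.x2 s') (A.x2 t) (A.x2 t) 0 (A.x2 s))
            (I.FK (A.x3 r) (A.x3 s') (A.x3 t) (A.x3 t) 0 (A.x3 s)))) (A.MK s' t s)) 0)
      (sumN q fun r' => cnd (Nat.beq (A.dc r') s)
        (mulM (mulM (mulM (A.CK r' s)
          (S.GK (A.x1 t) (A.x1 r') (A.x1 s) (A.x1 t) 0 (A.x1 r)))
          (mulM (S.GK (A.x2 t) (A.x2 r') (A.x2 s) (A.x2 t) 0 (A.x2 r))
            (I.GK (A.x3 t) (A.x3 r') (A.x3 s) (A.x3 t) 0 (A.x3 r)))) (A.MK t r' r)) 0))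

/-- Check: the swap of components; `neg = true` iff the square of the swap is `-1` on the odd
components. -/
noncomputable def chkSw (neg : Bool) : Bool :=
  andB (andB (Nat.beq (A.sw 0) 0) (andB (eqM (kv (A.lL 0)) 4) (beqB (A.od 0) false)))
  (andB (allN q fun p => andB (andB (Nat.ble (Nat.succ (A.sw p)) q)
    (andB (Nat.beq (A.sw (A.sw p)) p) (andB (Nat.beq (A.x1 (A.sw p)) (A.x2 p))
      (andB (Nat.beq (A.x2 (A.sw p)) (A.x1 p)) (Nat.beq (A.x3 (A.sw p)) (A.x3 p))))))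
    (andB (beqB (A.od (A.sw p)) (A.od p))
      (cnd (A.od p)
        (eqM (mulM (kv wS2) (mulM (kv (A.lL p)) (kv (A.lL (A.sw p)))))
          (cnd neg (Nat.shiftLeft 16 (Nat.mul 96 16)) 16))
        (eqM (mulM (kv (A.lL p)) (kv (A.lL (A.sw p)))) 16))))
  (allN q fun p => allN q fun r => allN q fun s =>
    cnd (A.od p)
      (cnd (A.od r)
        (cnd (A.od s)
          (andB (beqB (A.NP p r s) false) (beqB (A.NP (A.sw p) (A.sw r) (A.sw s)) false))
          (eqM (Nat.mul 4 (mulM (A.MK (A.sw p) (A.sw r) (A.sw s)) (kv (A.lL s))))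
            (mulM (mulM (kv wS2) (kv (A.lL p))) (mulM (kv (A.lL r)) (A.MK p r s)))))
        (cnd (A.od s)
          (eqM (Nat.mul 4 (mulM (A.MK (A.sw p) (A.sw r) (A.sw s)) (kv (A.lL s))))
            (mulM (kv (A.lL p)) (mulM (kv (A.lL r)) (A.MK p r s))))
          (andB (beqB (A.NP p r s) false) (beqB (A.NP (A.sw p) (A.sw r) (A.sw s)) false))))
      (cnd (A.od r)
        (cnd (A.od s)
          (eqM (Nat.mul 4 (mulM (A.MK (A.sw p) (A.sw r) (A.sw s)) (kv (A.lL s))))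
            (mulM (kv (A.lL p)) (mulM (kv (A.lL r)) (A.MK p r s))))
          (andB (beqB (A.NP p r s) false) (beqB (A.NP (A.sw p) (A.sw r) (A.sw s)) false)))
        (cnd (A.od s)
          (andB (beqB (A.NP p r s) false) (beqB (A.NP (A.sw p) (A.sw r) (A.sw s)) false))
          (eqM (Nat.mul 4 (mulM (A.MK (A.sw p) (A.sw r) (A.sw s)) (kv (A.lL s))))
            (mulM (kv (A.lL p)) (mulM (kv (A.lL r)) (A.MK p r s))))))))

/-- All checks. -/
structure Ok (BS : TBr n) (BI : TBr m) (neg : Bool) : Prop where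
  Su : A.chkS S I = true
  As : ∀ p < q, A.chkAs S I p = true
  Co : A.chkCo S I BS BI = true
  Ca : A.chkCa S I = true
  Sw : A.chkSw neg = true

section
variable {k : Type u} [Field k] (z : k) (hz : z ^ 16 = -1)

/-- The multiplication constants. -/
noncomputable def muk (p r s : ℕ) : k := ev z hz (A.MW p r s) * (4 : k)⁻¹
/-- The Casimir element. -/
noncomputable def ck (p r : ℕ) : k := ev z hz (A.CW p r) * (128 : k)⁻¹
/-- The swap scalars, for `y ^ 2 = √2`. -/
noncomputable def lk (y : k) (p : ℕ) : k :=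
  (if A.od p = true then y else 1) * (ev z hz (wd (A.lL p)) * (4 : k)⁻¹)

theorem ev_MW (h4 : (4 : k) ≠ 0) (p r s : ℕ) : ev z hz (A.MW p r s) = 4 * A.muk z hz p r s := by
  rw [muk]; field_simp

end
end TAlg
end H24PV
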