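import Pool.Agent.H24.PV.AtDef

/-!
# AtL: the swap of components from the check

`lk y p = y ^ (od p) * ev z hz (wd (lL p)) / 4`, `y ^ 2 = ev z hz (wd wS2)` (the word `wS2`,
`√2 = c ^ 2 - 2`, is not scaled).  `lk_swap`: case on `od p` (equal to `od (sw p)`), with
`Rep.ev_eq` for the `eqM` in the check: odd: `√2 * (4 μ) (4 μ') = ± 16`, where `-16` is
represented by `Nat.shiftLeft 16 (96 * 16)` and `((16 : ℕ) : W) * zp 16`
(`(Rep.nat 16).mul (Rep.zpow 16)`, `16 <<< i = 16 * (1 <<< i)`).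
`muk_swap`: case on `od p`, `od r`, `od s`; if the parities do not match both constants are `0`
(`NP = false`); otherwise the factors `y` give `y ^ 2` or cancel.
-/

universe u

namespace H24PV
namespace TAlg
variable {q : ℕ} (A : TAlg q) {k : Type u} [Field k] (z : k) (hz : z ^ 16 = -1)

theorem AtL_one {neg : Bool} (h : A.chkSw neg = true) :
    A.sw 0 = 0 ∧ eqM (kv (A.lL 0)) 4 = true ∧ A.od 0 = false := by
  have h1 := (andB_iff.1 (andB_iff.1 h).1)
  have h2 := andB_iff.1 h1.2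
  exact ⟨Nat.eq_of_beq_eq_true h1.1, h2.1, beqB_eq h2.2⟩

theorem sw_zero {neg : Bool} (h : A.chkSw neg = true) : A.sw 0 = 0 := (A.AtL_one h).1

theorem lk_zero {neg : Bool} (h4 : (4 : k) ≠ 0) (h : A.chkSw neg = true) (y : k) :
    A.lk z hz y 0 = 1 := by
  obtain ⟨-, h2, h3⟩ := A.AtL_one h
  have key := Rep.ev_eq z hz (rep_wd (A.lL 0)) (Rep.nat 4) (by decide +kernel) h2
  rw [map_natCast] at key
  rw [lk, h3, key, if_neg (by simp), one_mul]
  push_cast
  exact mul_inv_cancel₀ h4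

theorem AtL_two {neg : Bool} (h : A.chkSw neg = true) (p : Fin q) :
    A.sw p < q ∧ A.sw (A.sw p) = p ∧ A.x1 (A.sw p) = A.x2 p ∧ A.x2 (A.sw p) = A.x1 p ∧
      A.x3 (A.sw p) = A.x3 p ∧ A.od (A.sw p) = A.od p ∧
      cnd (A.od p)
        (eqM (mulM (kv wS2) (mulM (kv (A.lL p)) (kv (A.lL (A.sw p)))))
          (cnd neg (Nat.shiftLeft 16 (Nat.mul 96 16)) 16))
        (eqM (mulM (kv (A.lL p)) (kv (A.lL (A.sw p)))) 16) = true := by
  have h1 := allN_fin (andB_iff.1 (andB_iff.1 h).2).1 p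
  obtain ⟨h2, h3⟩ := andB_iff.1 h1
  obtain ⟨h4, h5⟩ := andB_iff.1 h2
  obtain ⟨h6, h7⟩ := andB_iff.1 h5
  obtain ⟨h8, h9⟩ := andB_iff.1 h7
  obtain ⟨h10, h11⟩ := andB_iff.1 h9
  obtain ⟨h12, h13⟩ := andB_iff.1 h3
  exact ⟨Nat.le_of_ble_eq_true h4, Nat.eq_of_beq_eq_true h6, Nat.eq_of_beq_eq_true h8,
    Nat.eq_of_beq_eq_true h10, Nat.eq_of_beq_eq_true h11, beqB_eq h12, h13⟩

theorem sw_lt {neg : Bool} (h : A.chkSw neg = true) (p : Fin q) : A.sw p < q :=
  (A.AtL_two h p).1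

theorem sw_sw {neg : Bool} (h : A.chkSw neg = true) (p : Fin q) : A.sw (A.sw p) = p :=
  (A.AtL_two h p).2.1

theorem x_sw {neg : Bool} (h : A.chkSw neg = true) (p : Fin q) :
    A.x1 (A.sw p) = A.x2 p ∧ A.x2 (A.sw p) = A.x1 p ∧ A.x3 (A.sw p) = A.x3 p :=
  ⟨(A.AtL_two h p).2.2.1, (A.AtL_two h p).2.2.2.1, (A.AtL_two h p).2.2.2.2.1⟩

theorem AtL_ll (h4 : (4 : k) ≠ 0) (x : ℕ) :
    ev z hz (wd (A.lL x)) = 4 * (ev z hz (wd (A.lL x)) * (4 : k)⁻¹) := by
  field_simp

theorem AtL_rep16 : Rep (Nat.shiftLeft 16 (Nat.mul 96 16)) (((16 : ℕ) : W) * zp 16) 16 := by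
  have h := (Rep.nat 16).mul (Rep.zpow 16)
  have e : Nat.shiftLeft 16 (Nat.mul 96 16) = Nat.mul 16 (Nat.shiftLeft 1 (Nat.mul 96 16)) := by
    decide +kernel
  rw [e]
  exact h

theorem AtL_16 (h4 : (4 : k) ≠ 0) : (16 : k) ≠ 0 := by
  have : (16 : k) = 4 * 4 := by norm_num
  rw [this]; exact mul_ne_zero h4 h4

theorem lk_swap {neg : Bool} (h4 : (4 : k) ≠ 0) (h : A.chkSw neg = true) (y : k)
    (hy : y ^ 2 = ev z hz (wd wS2)) (p : Fin q) :
    A.lk z hz y p * A.lk z hz y (A.sw p) =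
      if A.od p = true ∧ neg = true then -1 else 1 := by
  obtain ⟨-, -, -, -, -, ho, hc⟩ := A.AtL_two h p
  rw [lk, lk, ho]
  have hp := A.AtL_ll z hz h4 p
  have hs := A.AtL_ll z hz h4 (A.sw p)
  cases hod : A.od p
  · rw [hod, cnd_false] at hc
    have key := Rep.ev_eq z hz ((rep_wd (A.lL p)).mulM (rep_wd (A.lL (A.sw p)))) (Rep.nat 16)
      (by decide +kernel) hc
    rw [map_mul, map_natCast, hp, hs] at key
    rw [if_neg (by simp), if_neg (by simp)]
    apply mul_left_cancel₀ (AtL_16 h4)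
    push_cast at key
    linear_combination key
  · rw [hod, cnd_true] at hc
    cases neg
    · rw [cnd_false] at hc
      have key := Rep.ev_eq z hz ((rep_wd wS2).mulM ((rep_wd (A.lL p)).mulM
        (rep_wd (A.lL (A.sw p))))) (Rep.nat 16) (by decide +kernel) hc
      rw [map_mul, map_mul, map_natCast, hp, hs, ← hy] at key
      rw [if_pos rfl, if_neg (by simp)]
      apply mul_left_cancel₀ (AtL_16 h4)
      push_cast at key
      linear_combination key
    · rw [cnd_true] at hc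
      have key := Rep.ev_eq z hz ((rep_wd wS2).mulM ((rep_wd (A.lL p)).mulM
        (rep_wd (A.lL (A.sw p))))) AtL_rep16 (by decide +kernel) hc
      rw [map_mul, map_mul, map_mul, map_natCast, hp, hs, ← hy, ev_zp, hz] at key
      rw [if_pos rfl, if_pos ⟨rfl, rfl⟩]
      apply mul_left_cancel₀ (AtL_16 h4)
      push_cast at key
      linear_combination key

theorem od_sw {neg : Bool} (h : A.chkSw neg = true) (p : Fin q) : A.od (A.sw p) = A.od p :=
  (A.AtL_two h p).2.2.2.2.2.1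

theorem AtL_muk0 {p r s : ℕ} (h : A.NP p r s = false) : A.muk z hz p r s = 0 := by
  rw [muk, MW, h, if_neg (by simp), map_zero, zero_mul]

theorem AtL_case {a b c Z S2 S : Bool}
    (h : cnd a (cnd b (cnd c Z S2) (cnd c S Z)) (cnd b (cnd c S Z) (cnd c Z S)) = true) :
    Z = true ∨ (S2 = true ∧ a = true ∧ b = true ∧ c = false) ∨
      (S = true ∧ a = true ∧ b = false ∧ c = true) ∨
      (S = true ∧ a = false ∧ b = true ∧ c = true) ∨
      (S = true ∧ a = false ∧ b = false ∧ c = false) := by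
  cases a <;> cases b <;> cases c <;> simp only [cnd_true, cnd_false] at h <;> simp [h]

theorem muk_swap {neg : Bool} (h4 : (4 : k) ≠ 0) (h : A.chkSw neg = true) (y : k)
    (hy0 : y ≠ 0) (hy : y ^ 2 = ev z hz (wd wS2)) (p r s : Fin q) :
    A.muk z hz (A.sw p) (A.sw r) (A.sw s) * A.lk z hz y s =
      A.lk z hz y p * A.lk z hz y r * A.muk z hz p r s := by
  have hc := allN_fin (allN_fin (allN_fin (andB_iff.1 (andB_iff.1 h).2).2 p) r) s
  have hp := A.AtL_ll z hz h4 p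
  have hr := A.AtL_ll z hz h4 r
  have hs := A.AtL_ll z hz h4 s
  have h64 : (64 : k) ≠ 0 := by
    have : (64 : k) = 4 * 4 * 4 := by norm_num
    rw [this]; exact mul_ne_zero (mul_ne_zero h4 h4) h4
  have zero : andB (beqB (A.NP p r s) false) (beqB (A.NP (A.sw p) (A.sw r) (A.sw s)) false) = true →
      A.muk z hz (A.sw p) (A.sw r) (A.sw s) * A.lk z hz y s =
      A.lk z hz y p * A.lk z hz y r * A.muk z hz p r s := by
    intro h0
    obtain ⟨h1, h2⟩ := andB_iff.1 h0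
    rw [A.AtL_muk0 z hz (beqB_eq h1), A.AtL_muk0 z hz (beqB_eq h2), zero_mul, mul_zero]
  have same : eqM (Nat.mul 4 (mulM (A.MK (A.sw p) (A.sw r) (A.sw s)) (kv (A.lL s))))
            (mulM (kv (A.lL p)) (mulM (kv (A.lL r)) (A.MK p r s))) = true →
      A.muk z hz (A.sw p) (A.sw r) (A.sw s) * (ev z hz (wd (A.lL s)) * (4 : k)⁻¹) =
      (ev z hz (wd (A.lL p)) * (4 : k)⁻¹) * (ev z hz (wd (A.lL r)) * (4 : k)⁻¹) *
        A.muk z hz p r s := by
    intro h0
    have key := Rep.ev_eq z hz ((Rep.nat 4).mul ((A.repM (A.sw p) (A.sw r) (A.sw s)).mulM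
      (rep_wd (A.lL s)))) ((rep_wd (A.lL p)).mulM ((rep_wd (A.lL r)).mulM (A.repM p r s)))
      (by decide +kernel) h0
    rw [map_mul, map_mul, map_mul, map_mul, map_natCast, A.ev_MW z hz h4, A.ev_MW z hz h4,
      hp, hr, hs] at key
    apply mul_left_cancel₀ h64
    push_cast at key
    linear_combination key
  have sqr : eqM (Nat.mul 4 (mulM (A.MK (A.sw p) (A.sw r) (A.sw s)) (kv (A.lL s))))
            (mulM (mulM (kv wS2) (kv (A.lL p))) (mulM (kv (A.lL r)) (A.MK p r s))) = true →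
      A.muk z hz (A.sw p) (A.sw r) (A.sw s) * (ev z hz (wd (A.lL s)) * (4 : k)⁻¹) =
      y ^ 2 * ((ev z hz (wd (A.lL p)) * (4 : k)⁻¹) * (ev z hz (wd (A.lL r)) * (4 : k)⁻¹)) *
        A.muk z hz p r s := by
    intro h0
    have key := Rep.ev_eq z hz ((Rep.nat 4).mul ((A.repM (A.sw p) (A.sw r) (A.sw s)).mulM
      (rep_wd (A.lL s)))) (((rep_wd wS2).mulM (rep_wd (A.lL p))).mulM
      ((rep_wd (A.lL r)).mulM (A.repM p r s)))
      (by decide +kernel) h0
    rw [map_mul, map_mul, map_mul, map_mul, map_mul, map_natCast, A.ev_MW z hz h4,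
      A.ev_MW z hz h4, hp, hr, hs, ← hy] at key
    apply mul_left_cancel₀ h64
    push_cast at key
    linear_combination key
  rcases AtL_case hc with h0 | ⟨h0, hop, hor, hos⟩ | ⟨h0, hop, hor, hos⟩ | ⟨h0, hop, hor, hos⟩ |
    ⟨h0, hop, hor, hos⟩
  · exact zero h0
  · have h1 := sqr h0
    rw [lk, lk, lk, hop, hor, hos, if_pos rfl, if_neg (by simp)]
    linear_combination h1
  · have h1 := same h0
    rw [lk, lk, lk, hop, hor, hos, if_pos rfl, if_neg (by simp)]
    linear_combination y * h1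
  · have h1 := same h0
    rw [lk, lk, lk, hop, hor, hos, if_pos rfl, if_neg (by simp)]
    linear_combination y * h1
  · have h1 := same h0
    rw [lk, lk, lk, hop, hor, hos, if_neg (by simp)]
    linear_combination h1

end TAlg
end H24PV
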