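import Pool.Agent.H24.PV.AtDef

/-!
# AtU: supports, unit and commutativity from the checks

`chkS` is unfolded with `andB_iff`, `allN_fin`, `imp_eq`, `beqB_eq`, `Nat.eq_of_beq_eq_true`,
`Nat.ble_eq`.  Commutativity: `Rep.ev_eq` as in `DtP.lean`, scale `1`, no case distinction needed.
-/

universe u

namespace H24PV
namespace TAlg
variable {q : ℕ} (A : TAlg q) {n m : ℕ} (S : TData n) (I : TData m)
  {k : Type u} [Field k] (z : k) (hz : z ^ 16 = -1)

theorem x_zero (h : A.chkS S I = true) : A.x1 0 = 0 ∧ A.x2 0 = 0 ∧ A.x3 0 = 0 := by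
  rw [chkS, andB_iff, andB_iff, andB_iff] at h
  obtain ⟨⟨h1, h2, h3⟩, -⟩ := h
  exact ⟨Nat.eq_of_beq_eq_true h1, Nat.eq_of_beq_eq_true h2, Nat.eq_of_beq_eq_true h3⟩

theorem x_lt (h : A.chkS S I = true) (p : Fin q) : A.x1 p < n ∧ A.x2 p < n ∧ A.x3 p < m := by
  rw [chkS, andB_iff] at h
  have h1 := allN_fin h.2 p
  rw [andB_iff, andB_iff, andB_iff] at h1
  obtain ⟨⟨h1, h2, h3⟩, -⟩ := h1
  exact ⟨Nat.le_of_ble_eq_true h1, Nat.le_of_ble_eq_true h2, Nat.le_of_ble_eq_true h3⟩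

theorem NP_supp (h : A.chkS S I = true) (p r s : Fin q) (hN : A.NP p r s = true) :
    A.N3 S I p r s = true := by
  rw [chkS, andB_iff] at h
  have h1 := allN_fin h.2 p
  rw [andB_iff, andB_iff (s := andB _ _)] at h1
  have h2 := allN_fin h1.2.2 r
  rw [andB_iff] at h2
  exact imp_eq (allN_fin h2.2 s) hN

theorem N_dc (h : A.chkS S I = true) (p : Fin q) :
    S.N (A.x1 p) (A.x1 (A.dc p)) 0 = true ∧ S.N (A.x2 p) (A.x2 (A.dc p)) 0 = true ∧
      I.N (A.x3 p) (A.x3 (A.dc p)) 0 = true := by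
  rw [chkS, andB_iff] at h
  have h1 := allN_fin h.2 p
  rw [andB_iff] at h1
  have h2 := (andB_iff.mp h1.2).1
  rw [andB_iff, andB_iff] at h2
  exact h2

theorem NP_zero (h : A.chkS S I = true) (p r : Fin q) :
    (A.NP 0 p r = true ↔ p = r) ∧ (A.NP p 0 r = true ↔ p = r) := by
  rw [chkS, andB_iff] at h
  have h1 := allN_fin h.2 p
  rw [andB_iff] at h1
  have h2 := allN_fin (andB_iff.mp h1.2).2 r
  rw [andB_iff, andB_iff, andB_iff] at h2
  obtain ⟨⟨h3, h4, -⟩, -⟩ := h2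
  rw [beqB_eq h3, beqB_eq h4, Nat.beq_eq]
  exact ⟨Fin.val_inj, Fin.val_inj⟩

theorem muk_one_left (h4 : (4 : k) ≠ 0) (h : A.chkS S I = true) (p r : Fin q) :
    A.muk z hz 0 p r = if p = r then 1 else 0 := by
  have hz0 := (A.NP_zero S I h p r).1
  rw [chkS, andB_iff] at h
  have h1 := allN_fin h.2 p
  rw [andB_iff] at h1
  have h2 := allN_fin (andB_iff.mp h1.2).2 r
  rw [andB_iff, andB_iff, andB_iff] at h2
  obtain ⟨⟨-, -, h5⟩, -⟩ := h2
  split_ifs with hpr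
  · have h6 := imp_eq h5 (Nat.beq_eq ▸ (congrArg Fin.val hpr))
    rw [andB_iff] at h6
    have key := Rep.ev_eq z hz (A.repM 0 p r) (Rep.nat 4) (by decide +kernel) h6.1
    rw [map_natCast] at key
    rw [muk, key]
    push_cast
    exact mul_inv_cancel₀ h4
  · rw [muk, MW, if_neg (fun hc => hpr (hz0.mp hc)), map_zero, zero_mul]

theorem muk_one_right (h4 : (4 : k) ≠ 0) (h : A.chkS S I = true) (p r : Fin q) :
    A.muk z hz p 0 r = if p = r then 1 else 0 := by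
  have hz0 := (A.NP_zero S I h p r).2
  rw [chkS, andB_iff] at h
  have h1 := allN_fin h.2 p
  rw [andB_iff] at h1
  have h2 := allN_fin (andB_iff.mp h1.2).2 r
  rw [andB_iff, andB_iff, andB_iff] at h2
  obtain ⟨⟨-, -, h5⟩, -⟩ := h2
  split_ifs with hpr
  · have h6 := imp_eq h5 (Nat.beq_eq ▸ (congrArg Fin.val hpr))
    rw [andB_iff] at h6
    have key := Rep.ev_eq z hz (A.repM p 0 r) (Rep.nat 4) (by decide +kernel) h6.2
    rw [map_natCast] at key
    rw [muk, key]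
    push_cast
    exact mul_inv_cancel₀ h4
  · rw [muk, MW, if_neg (fun hc => hpr (hz0.mp hc)), map_zero, zero_mul]

theorem comm_sound (BS : TBr n) (BI : TBr m)
    (h : A.chkCo S I BS BI = true) (p r s : Fin q) :
    S.Rk BS z hz (A.x1 p) (A.x1 r) (A.x1 s) * S.Rk BS z hz (A.x2 p) (A.x2 r) (A.x2 s) *
      I.Rk BI z hz (A.x3 p) (A.x3 r) (A.x3 s) * A.muk z hz r p s = A.muk z hz p r s := by
  have key := allN_fin (allN_fin (allN_fin h p) r) s
  have r1 := (((S.repR BS (A.x1 p) (A.x1 r) (A.x1 s)).mulM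
    (S.repR BS (A.x2 p) (A.x2 r) (A.x2 s))).mulM
    (I.repR BI (A.x3 p) (A.x3 r) (A.x3 s))).mulM (A.repM r p s)
  have key := Rep.ev_eq z hz r1 (A.repM p r s) (by decide +kernel) key
  rw [map_mul, map_mul, map_mul] at key
  rw [muk, muk, ← key]
  simp only [TData.Rk]
  ring

end TAlg
end H24PV
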