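import Pool.Agent.H24.PV.FM

/-!
# FAct: action of morphisms of families on vectors

`act f v j = ∑ i, v i * f i j`.  Two morphisms are equal iff they act in the same way on all
vectors, and the action of the structural morphisms involves at most one sum over a channel.
-/

open CategoryTheory MonoidalCategory

universe u

namespace H24PV
namespace Fam

variable {k : Type u} [Field k] {L : Type} [Fintype L] [DecidableEq L] {D : FData k L}

/-- Action on vectors. -/
def act {X Y : Fam D} (f : X ⟶ Y) (v : X.ι → k) (j : Y.ι) : k := ∑ i, v i * Hom.m f i j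

theorem act_comp {X Y Z : Fam D} (f : X ⟶ Y) (g : Y ⟶ Z) (v : X.ι → k) :
    act (f ≫ g) v = act g (act f v) := by
  funext j
  simp only [act, comp_m, Finset.mul_sum, Finset.sum_mul, mul_assoc]
  rw [Finset.sum_comm]

theorem act_ext {X Y : Fam D} {f g : X ⟶ Y} (h : ∀ v j, act f v j = act g v j) : f = g := by
  ext i j
  have := h (fun l => if l = i then 1 else 0) j
  simpa [act] using this

theorem act_id {X : Fam D} (v : X.ι → k) (j : X.ι) :
    act (𝟙 X) v j = if X.pres j = true then v j else 0 := by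
  simp only [act, id_m]
  rw [Finset.sum_eq_single j]
  · by_cases h : X.pres j = true <;> simp [h]
  · intro b _ hb; simp [hb]
  · simp

theorem act_assoc (X Y Z : Fam D) (v : (tObj (tObj X Y) Z).ι → k) (i j l f d) :
    act (tAssoc X Y Z) v (i, (j, l, f), d) =
      if X.pres i = true ∧ Y.pres j = true ∧ Z.pres l = true then
        ∑ e, v ((i, j, e), l, d) * D.F (X.lab i) (Y.lab j) (Z.lab l) d e f else 0 := by
  show ∑ s : (X.ι × Y.ι × L) × Z.ι × L, v s * Hom.m (tAssoc X Y Z) s (i, (j, l, f), d) = _
  by_cases h : X.pres i = true ∧ Y.pres j = true ∧ Z.pres l = true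
  · rw [if_pos h]
    rw [Fintype.sum_prod_type, Fintype.sum_prod_type]
    rw [Finset.sum_eq_single i]
    · rw [Fintype.sum_prod_type, Finset.sum_eq_single j]
      · apply Finset.sum_congr rfl
        intro e _
        rw [Fintype.sum_prod_type, Finset.sum_eq_single l]
        · rw [Finset.sum_eq_single d]
          · rw [tAssoc_m]; simp [h]
          · intro b _ hb; rw [tAssoc_m]; simp [hb]
          · simp
        · intro b _ hb
          apply Finset.sum_eq_zero; intro c _; rw [tAssoc_m]; simp [hb]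
        · simp
      · intro b _ hb
        apply Finset.sum_eq_zero; intro c _
        apply Finset.sum_eq_zero; rintro ⟨c', c''⟩ _; rw [tAssoc_m]; simp [hb]
      · simp
    · intro b _ hb
      apply Finset.sum_eq_zero; rintro ⟨c, c'⟩ _
      apply Finset.sum_eq_zero; rintro ⟨c'', c'''⟩ _; rw [tAssoc_m]; simp [hb]
    · simp
  · rw [if_neg h]
    apply Finset.sum_eq_zero; rintro ⟨⟨a, b, c⟩, a', b'⟩ _
    rw [tAssoc_m, if_neg (fun hh => h ⟨hh.2.2.2.2.1, hh.2.2.2.2.2.1, hh.2.2.2.2.2.2⟩), mul_zero]

theorem act_assocInv (X Y Z : Fam D) (v : (tObj X (tObj Y Z)).ι → k) (i j e l d) :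
    act (tAssocInv X Y Z) v ((i, j, e), l, d) =
      if X.pres i = true ∧ Y.pres j = true ∧ Z.pres l = true then
        ∑ f, v (i, (j, l, f), d) * D.G (X.lab i) (Y.lab j) (Z.lab l) d f e else 0 := by
  show ∑ s : X.ι × (Y.ι × Z.ι × L) × L, v s * Hom.m (tAssocInv X Y Z) s ((i, j, e), l, d) = _
  by_cases h : X.pres i = true ∧ Y.pres j = true ∧ Z.pres l = true
  · rw [if_pos h]
    rw [Fintype.sum_prod_type, Finset.sum_eq_single i]
    · rw [Fintype.sum_prod_type, Fintype.sum_prod_type, Finset.sum_eq_single j]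
      · rw [Fintype.sum_prod_type, Finset.sum_eq_single l]
        · apply Finset.sum_congr rfl
          intro f _
          rw [Finset.sum_eq_single d]
          · rw [tAssocInv_m]; simp [h]
          · intro b _ hb; rw [tAssocInv_m]; simp [Ne.symm hb]
          · simp
        · intro b _ hb
          apply Finset.sum_eq_zero; intro c _
          apply Finset.sum_eq_zero; intro c' _; rw [tAssocInv_m]; simp [Ne.symm hb]
        · simp
      · intro b _ hb
        apply Finset.sum_eq_zero; rintro ⟨c, c'⟩ _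
        apply Finset.sum_eq_zero; intro c'' _; rw [tAssocInv_m]; simp [Ne.symm hb]
      · simp
    · intro b _ hb
      apply Finset.sum_eq_zero; rintro ⟨⟨c, c', c''⟩, c'''⟩ _
      rw [tAssocInv_m]; simp [Ne.symm hb]
    · simp
  · rw [if_neg h]
    apply Finset.sum_eq_zero; rintro ⟨a, ⟨b, c, a'⟩, b'⟩ _
    rw [tAssocInv_m, if_neg, mul_zero]
    rintro ⟨rfl, rfl, rfl, rfl, h1, h2, h3⟩
    exact h ⟨h1, h2, h3⟩

theorem act_lam (X : Fam D) (v : (tObj (tUnit D) X).ι → k) (j) :
    act (tLam X) v j = if X.pres j = true then v ((), j, X.lab j) else 0 := by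
  show ∑ s : Unit × X.ι × L, v s * Hom.m (tLam X) s j = _
  rw [Fintype.sum_prod_type, Finset.sum_eq_single (), Fintype.sum_prod_type,
    Finset.sum_eq_single j, Finset.sum_eq_single (X.lab j)]
  · rw [tLam_m]; by_cases h : X.pres j = true <;> simp [h]
  · intro b _ hb; rw [tLam_m]; simp [hb]
  · simp
  · intro b _ hb
    apply Finset.sum_eq_zero; intro c _; rw [tLam_m]; simp [hb]
  · simp
  · intro b _ hb; exact absurd rfl hb
  · simp

theorem act_lamInv (X : Fam D) (v : X.ι → k) (u : Unit) (j c) :
    act (tLamInv X) v (u, j, c) = if c = X.lab j ∧ X.pres j = true then v j else 0 := by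
  show ∑ s, v s * Hom.m (tLamInv X) s (u, j, c) = _
  rw [Finset.sum_eq_single j]
  · rw [tLamInv_m]; by_cases h : c = X.lab j ∧ X.pres j = true <;> simp [h]
  · intro b _ hb; rw [tLamInv_m]; simp [Ne.symm hb]
  · simp

theorem act_rho (X : Fam D) (v : (tObj X (tUnit D)).ι → k) (j) :
    act (tRho X) v j = if X.pres j = true then v (j, (), X.lab j) else 0 := by
  show ∑ s : X.ι × Unit × L, v s * Hom.m (tRho X) s j = _
  rw [Fintype.sum_prod_type, Finset.sum_eq_single j, Fintype.sum_prod_type,
    Finset.sum_eq_single (), Finset.sum_eq_single (X.lab j)]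
  · rw [tRho_m]; by_cases h : X.pres j = true <;> simp [h]
  · intro b _ hb; rw [tRho_m]; simp [hb]
  · simp
  · intro b _ hb; exact absurd rfl hb
  · simp
  · intro b _ hb
    apply Finset.sum_eq_zero; rintro ⟨c, c'⟩ _; rw [tRho_m]; simp [hb]
  · simp

theorem act_rhoInv (X : Fam D) (v : X.ι → k) (u : Unit) (j c) :
    act (tRhoInv X) v (j, u, c) = if c = X.lab j ∧ X.pres j = true then v j else 0 := by
  show ∑ s, v s * Hom.m (tRhoInv X) s (j, u, c) = _
  rw [Finset.sum_eq_single j]
  · rw [tRhoInv_m]; by_cases h : c = X.lab j ∧ X.pres j = true <;> simp [h]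
  · intro b _ hb; rw [tRhoInv_m]; simp [Ne.symm hb]
  · simp

theorem act_tHom {X X' Y Y' : Fam D} (f : X ⟶ X') (g : Y ⟶ Y') (v : (tObj X Y).ι → k)
    (i' j' c) :
    act (tHom f g) v (i', j', c) =
      if D.N (X'.lab i') (Y'.lab j') c = true then
        ∑ i, ∑ j, v (i, j, c) * (Hom.m f i i' * Hom.m g j j') else 0 := by
  show ∑ s : X.ι × Y.ι × L, v s * Hom.m (tHom f g) s (i', j', c) = _
  rw [Fintype.sum_prod_type]
  simp_rw [Fintype.sum_prod_type]
  by_cases hN : D.N (X'.lab i') (Y'.lab j') c = true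
  · rw [if_pos hN]
    apply Finset.sum_congr rfl; intro i _
    apply Finset.sum_congr rfl; intro j _
    rw [Finset.sum_eq_single c]
    · rw [tHom_m]
      by_cases h1 : Hom.m f i i' = 0
      · simp [h1]
      by_cases h2 : Hom.m g j j' = 0
      · simp [h2]
      rw [if_pos ⟨rfl, by rw [Hom.eq f h1, Hom.eq g h2]; exact hN⟩]
    · intro b _ hb; rw [tHom_m, if_neg (fun h => hb h.1), mul_zero]
    · simp
  · rw [if_neg hN]
    apply Finset.sum_eq_zero; intro i _
    apply Finset.sum_eq_zero; intro j _
    apply Finset.sum_eq_zero; intro b _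
    rw [tHom_m]
    by_cases h1 : Hom.m f i i' = 0
    · simp [h1]
    by_cases h2 : Hom.m g j j' = 0
    · simp [h2]
    rw [if_neg, mul_zero]
    rintro ⟨rfl, h3⟩
    rw [Hom.eq f h1, Hom.eq g h2] at h3
    exact hN h3

/-- Action of a left whiskering. -/
theorem act_wl (X : Fam D) {Y Y' : Fam D} (g : Y ⟶ Y') (v : (tObj X Y).ι → k) (i j' c) :
    act (tHom (𝟙 X) g) v (i, j', c) =
      if D.N (X.lab i) (Y'.lab j') c = true ∧ X.pres i = true then
        act g (fun j => v (i, j, c)) j' else 0 := by
  rw [act_tHom]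
  by_cases hN : D.N (X.lab i) (Y'.lab j') c = true
  · rw [if_pos hN]
    rw [Finset.sum_eq_single i]
    · by_cases hp : X.pres i = true
      · simp [hN, hp, id_m, act]
      · simp [hp, id_m]
    · intro b _ hb
      apply Finset.sum_eq_zero; intro j _
      simp [id_m, hb]
    · simp
  · simp [hN]

/-- Action of a right whiskering. -/
theorem act_wr {X X' : Fam D} (f : X ⟶ X') (Y : Fam D) (v : (tObj X Y).ι → k) (i' j c) :
    act (tHom f (𝟙 Y)) v (i', j, c) =
      if D.N (X'.lab i') (Y.lab j) c = true ∧ Y.pres j = true then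
        act f (fun i => v (i, j, c)) i' else 0 := by
  rw [act_tHom]
  by_cases hN : D.N (X'.lab i') (Y.lab j) c = true
  · rw [if_pos hN]
    by_cases hp : Y.pres j = true
    · rw [if_pos ⟨hN, hp⟩]
      simp only [act]
      apply Finset.sum_congr rfl; intro i _
      rw [Finset.sum_eq_single j]
      · simp [id_m, hp]
      · intro b _ hb; simp [id_m, hb]
      · simp
    · rw [if_neg (fun h => hp h.2)]
      apply Finset.sum_eq_zero; intro i _
      apply Finset.sum_eq_zero; intro j' _
      by_cases hj : j' = j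
      · subst hj; simp [id_m, hp]
      · simp [id_m, hj]
  · simp [hN]

end Fam
end H24PV
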