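import Mathlib

/-!
# Central commutative monoids and their Kleisli categories: definitions
-/

open CategoryTheory MonoidalCategory

universe v w

namespace H24PV

/-- von Neumann regularity: every morphism has a generalised inverse. -/
def Regular (C : Type w) [Category.{v} C] : Prop :=
  ∀ ⦃X Y : C⦄ (f : X ⟶ Y), ∃ g : Y ⟶ X, f ≫ g ≫ f = f

/-- A commutative monoid with a central structure (half braiding) in a monoidal category. -/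
structure CCM (C : Type w) [Category.{v} C] [MonoidalCategory C] where
  A : C
  mul : A ⊗ A ⟶ A
  one : 𝟙_ C ⟶ A
  β : ∀ U : C, A ⊗ U ≅ U ⊗ A
  one_mul : (one ▷ A) ≫ mul = (λ_ A).hom
  mul_one : (A ◁ one) ≫ mul = (ρ_ A).hom
  mul_assoc : (mul ▷ A) ≫ mul = (α_ A A A).hom ≫ (A ◁ mul) ≫ mul
  β_nat : ∀ {U V : C} (f : U ⟶ V), (A ◁ f) ≫ (β V).hom = (β U).hom ≫ (f ▷ A)
  β_unit : (β (𝟙_ C)).hom = (ρ_ A).hom ≫ (λ_ A).inv
  β_tensor : ∀ U V : C, (β (U ⊗ V)).hom = (α_ _ _ _).inv ≫ ((β U).hom ▷ V) ≫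
    (α_ _ _ _).hom ≫ (U ◁ (β V).hom) ≫ (α_ _ _ _).inv
  one_central : ∀ U : C, (one ▷ U) ≫ (β U).hom = (λ_ U).hom ≫ (ρ_ U).inv ≫ (U ◁ one)
  mul_central : ∀ U : C, (mul ▷ U) ≫ (β U).hom = (α_ A A U).hom ≫ (A ◁ (β U).hom) ≫
    (α_ A U A).inv ≫ ((β U).hom ▷ A) ≫ (α_ U A A).hom ≫ (U ◁ mul)
  comm : (β A).hom ≫ mul = mul

section
variable {C : Type w} [Category.{v} C] [MonoidalCategory C]

/-- A Casimir element splitting the multiplication. -/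
structure Casimir (A : CCM C) where
  e : 𝟙_ C ⟶ A.A ⊗ A.A
  e_mul : e ≫ A.mul = A.one
  cas : (λ_ A.A).inv ≫ (e ▷ A.A) ≫ (α_ _ _ _).hom ≫ (A.A ◁ A.mul) =
    (ρ_ A.A).inv ≫ (A.A ◁ e) ≫ (α_ _ _ _).inv ≫ (A.mul ▷ A.A)

/-- Two central monoids centralise each other. -/
def Centralize (A B : CCM C) : Prop := (A.β B.A).hom ≫ (B.β A.A).hom = 𝟙 _

namespace CCM
variable (A : CCM C)

/-- Kleisli morphisms. -/
abbrev H (X Y : C) := X ⟶ Y ⊗ A.A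

/-- Kleisli identity. -/
def kid (X : C) : A.H X X := (ρ_ X).inv ≫ (X ◁ A.one)
/-- Kleisli composition. -/
def kcomp {X Y Z : C} (f : A.H X Y) (g : A.H Y Z) : A.H X Z :=
  f ≫ (g ▷ A.A) ≫ (α_ _ _ _).hom ≫ (Z ◁ A.mul)
/-- The image of a morphism of `C`. -/
def kJ {X Y : C} (f : X ⟶ Y) : A.H X Y := f ≫ A.kid Y
/-- Left whiskering. -/
def kwl (X : C) {Y Z : C} (f : A.H Y Z) : A.H (X ⊗ Y) (X ⊗ Z) :=
  (X ◁ f) ≫ (α_ _ _ _).inv
/-- Right whiskering. -/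
def kwr {X Y : C} (f : A.H X Y) (W : C) : A.H (X ⊗ W) (Y ⊗ W) :=
  (f ▷ W) ≫ (α_ _ _ _).hom ≫ (Y ◁ (A.β W).hom) ≫ (α_ _ _ _).inv

end CCM
end
end H24PV
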