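import Pool.Agent.H24.PV.FL
import Pool.Agent.H24.PV.FAct
import Pool.Agent.H24.PV.KlDef

/-!
# FCDef: central commutative algebra data and the corresponding morphisms of families

`A = ⊕_p x p`, multiplication constants `m p q r` (`x p ⊗ x q ⟶ x r`), half braiding
`h y p q z` : component of `A ⊗ y ⟶ y ⊗ A` from the summand `p` to the summand `q` on the
channel `z`; `h' y q p z` its inverse.
-/

open CategoryTheory MonoidalCategory

universe u

namespace H24PV

variable {k : Type u} [Field k] {L : Type} [Fintype L] [DecidableEq L]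

/-- Central commutative algebra data. -/
structure CData (D : FData k L) (P : Type) [Fintype P] [DecidableEq P] where
  x : P → L
  u : P
  m : P → P → P → k
  h : L → P → P → L → k
  h' : L → P → P → L → k
  x_u : x u = D.one
  m_supp : ∀ {p q r}, m p q r ≠ 0 → D.N (x p) (x q) (x r) = true
  h_supp : ∀ {y p q z}, h y p q z ≠ 0 → D.N (x p) y z = true ∧ D.N y (x q) z = true
  h'_supp : ∀ {y q p z}, h' y q p z ≠ 0 → D.N (x p) y z = true ∧ D.N y (x q) z = true
  hh' : ∀ y p p' z, ∑ q, h y p q z * h' y q p' z =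
    if p = p' ∧ D.N (x p) y z = true then 1 else 0
  h'h : ∀ y q q' z, ∑ p, h' y q p z * h y p q' z =
    if q = q' ∧ D.N y (x q) z = true then 1 else 0
  one_mul : ∀ q r, m u q r = if q = r then 1 else 0
  mul_one : ∀ p r, m p u r = if p = r then 1 else 0
  assoc : ∀ p q r s e, ∑ w, (if x w = e then m p q w * m w r s else 0) =
    ∑ w, D.F (x p) (x q) (x r) (x s) e (x w) * (m q r w * m p w s)
  h_unit : ∀ p q z, h D.one p q z = if p = q ∧ z = x p then 1 else 0
  h_u : ∀ y q z, h y u q z = if q = u ∧ z = y then 1 else 0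
  hex : ∀ p q y y' v e f, ∑ r, h y p r e * D.F y (x r) y' v e f * h y' r q f =
    ∑ w, D.F (x p) y y' v e w * h w p q v * D.F y y' (x q) v w f
  central : ∀ p q r y v e, ∑ w, (if x w = e then m p q w * h y w r v else 0) =
    ∑ f, ∑ q', ∑ g, ∑ p', D.F (x p) (x q) y v e f * h y q q' f * D.G (x p) y (x q') v f g *
      h y p p' g * D.F y (x p') (x q') v g (x r) * m p' q' r
  comm : ∀ p q r, ∑ p', h (x q) p p' (x r) * m q p' r = m p q r

/-- Casimir data. -/
structure CasData {D : FData k L} {P : Type} [Fintype P] [DecidableEq P] (c : CData D P) where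
  e : P → P → k
  e_supp : ∀ {p q}, e p q ≠ 0 → D.N (c.x p) (c.x q) D.one = true
  e_mul : ∀ r, c.x r = D.one → ∑ p, ∑ q, e p q * c.m p q r = if r = c.u then 1 else 0
  cas : ∀ q r s, ∑ s', e r s' * D.F (c.x r) (c.x s') (c.x q) (c.x q) D.one (c.x s) *
      c.m s' q s =
    ∑ r', e r' s * D.G (c.x q) (c.x r') (c.x s) (c.x q) D.one (c.x r) * c.m q r' r

namespace CData
variable {D : FData k L} {P : Type} [Fintype P] [DecidableEq P] (c : CData D P)

/-- The underlying object. -/
@[reducible] def obj : Fam D where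
  ι := P
  lab := c.x
  pres _ := true

/-- Multiplication. -/
def mulM : Fam.tObj c.obj c.obj ⟶ c.obj :=
  Fam.Hom.mk (X := Fam.tObj c.obj c.obj) (Y := c.obj)
    (fun (s : P × P × L) (r : P) => if s.2.2 = c.x r then c.m s.1 s.2.1 r else 0) (by
    apply Fam.Hom.ofne
    rintro ⟨p, q, z⟩ r h
    by_cases hc : z = c.x r
    · subst hc
      have h' : c.m p q r ≠ 0 := by simpa using h
      simp [Fam.tObj, c.m_supp h']
    · exact absurd (if_neg hc) h)

theorem mulM_m (p q z r) :
    Fam.Hom.m c.mulM (p, q, z) r = if z = c.x r then c.m p q r else 0 := rfl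

/-- Unit. -/
def oneM : Fam.tUnit D ⟶ c.obj :=
  Fam.Hom.mk (X := Fam.tUnit D) (Y := c.obj)
    (fun (_ : Unit) (r : P) => if r = c.u then 1 else 0) (by
    apply Fam.Hom.ofne
    rintro v r h
    by_cases hc : r = c.u
    · subst hc
      simp [c.x_u]
    · exact absurd (if_neg hc) h)

theorem oneM_m (v : Unit) (r) : Fam.Hom.m c.oneM v r = if r = c.u then 1 else 0 := rfl

/-- Half braiding. -/
def betaM (U : Fam D) : Fam.tObj c.obj U ⟶ Fam.tObj U c.obj :=
  Fam.Hom.mk (X := Fam.tObj c.obj U) (Y := Fam.tObj U c.obj)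
    (fun (s : P × U.ι × L) (t : U.ι × P × L) =>
      if s.2.1 = t.1 ∧ s.2.2 = t.2.2 ∧ U.pres t.1 = true then
        c.h (U.lab s.2.1) s.1 t.2.1 s.2.2 else 0) (by
    apply Fam.Hom.ofne
    rintro ⟨p, i, z⟩ ⟨i', q, z'⟩ h
    by_cases hc : i = i' ∧ z = z' ∧ U.pres i' = true
    · obtain ⟨rfl, rfl, h1⟩ := hc
      have h' : c.h (U.lab i) p q z ≠ 0 := by simpa [h1] using h
      obtain ⟨a1, a2⟩ := c.h_supp h'
      simp [Fam.tObj, h1, a1, a2]
    · exact absurd (if_neg hc) h)

theorem betaM_m (U : Fam D) (p i z i' q z') :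
    Fam.Hom.m (c.betaM U) (p, i, z) (i', q, z') =
      if i = i' ∧ z = z' ∧ U.pres i' = true then c.h (U.lab i) p q z else 0 := rfl

/-- Inverse of the half braiding. -/
def betaInvM (U : Fam D) : Fam.tObj U c.obj ⟶ Fam.tObj c.obj U :=
  Fam.Hom.mk (X := Fam.tObj U c.obj) (Y := Fam.tObj c.obj U)
    (fun (t : U.ι × P × L) (s : P × U.ι × L) =>
      if s.2.1 = t.1 ∧ s.2.2 = t.2.2 ∧ U.pres t.1 = true then
        c.h' (U.lab s.2.1) t.2.1 s.1 s.2.2 else 0) (by
    apply Fam.Hom.ofne
    rintro ⟨i', q, z'⟩ ⟨p, i, z⟩ h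
    by_cases hc : i = i' ∧ z = z' ∧ U.pres i' = true
    · obtain ⟨rfl, rfl, h1⟩ := hc
      have h' : c.h' (U.lab i) q p z ≠ 0 := by simpa [h1] using h
      obtain ⟨a1, a2⟩ := c.h'_supp h'
      simp [Fam.tObj, h1, a1, a2]
    · exact absurd (if_neg hc) h)

theorem betaInvM_m (U : Fam D) (p i z i' q z') :
    Fam.Hom.m (c.betaInvM U) (i', q, z') (p, i, z) =
      if i = i' ∧ z = z' ∧ U.pres i' = true then c.h' (U.lab i) q p z else 0 := rfl

open Fam in
theorem act_mulM (v : (tObj c.obj c.obj).ι → k) (r : P) :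
    act c.mulM v r = ∑ p, ∑ q, v (p, q, c.x r) * c.m p q r := by
  show ∑ s : P × P × L, v s * Hom.m c.mulM s r = _
  rw [Fintype.sum_prod_type]
  apply Finset.sum_congr rfl; intro p _
  rw [Fintype.sum_prod_type]
  apply Finset.sum_congr rfl; intro q _
  rw [Finset.sum_eq_single (c.x r)]
  · rw [mulM_m]; simp
  · intro b _ hb; rw [mulM_m]; simp [hb]
  · simp

open Fam in
theorem act_oneM (v : Unit → k) (r : P) :
    act c.oneM v r = if r = c.u then v () else 0 := by
  show ∑ s : Unit, v s * Hom.m c.oneM s r = _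
  simp [oneM_m]

open Fam in
theorem act_betaM (U : Fam D) (v : (tObj c.obj U).ι → k) (i q z) :
    act (c.betaM U) v (i, q, z) =
      if U.pres i = true then ∑ p, v (p, i, z) * c.h (U.lab i) p q z else 0 := by
  show ∑ s : P × U.ι × L, v s * Hom.m (c.betaM U) s (i, q, z) = _
  rw [Fintype.sum_prod_type]
  by_cases h : U.pres i = true
  · rw [if_pos h]
    apply Finset.sum_congr rfl; intro p _
    rw [Fintype.sum_prod_type, Finset.sum_eq_single i, Finset.sum_eq_single z]
    · rw [betaM_m]; simp [h]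
    · intro b _ hb; rw [betaM_m]; simp [hb]
    · simp
    · intro b _ hb
      apply Finset.sum_eq_zero; intro b' _; rw [betaM_m]; simp [hb]
    · simp
  · rw [if_neg h]
    apply Finset.sum_eq_zero; intro p _
    apply Finset.sum_eq_zero; rintro ⟨i', z'⟩ _
    rw [betaM_m]; simp [h]

end CData
end H24PV
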