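import Pool.Agent.H24.PV.FX
import Pool.Agent.H24.PV.FCDef

/-!
# DaDef: braidings, algebra data, symmetries of fusion data (scalar level)
-/

universe u

namespace H24PV

variable {k : Type u} [Field k] {L : Type} [Fintype L] [DecidableEq L]

/-- Braiding data: `R a b c` is the component of `a ⊗ b ⟶ b ⊗ a` on the channel `c`. -/
structure BData (D : FData k L) where
  R : L → L → L → k
  R_ne : ∀ {a b c}, D.N a b c = true → R a b c ≠ 0
  R_supp : ∀ {a b c}, R a b c ≠ 0 → D.N a b c = true
  N_comm : ∀ a b c, D.N a b c = D.N b a c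
  R_one_left : ∀ a, R D.one a a = 1
  R_one_right : ∀ a, R a D.one a = 1
  hexA : ∀ a b c d e g, R a b e * D.F b a c d e g * R a c g =
    ∑ f, D.F a b c d e f * R a f d * D.F b c a d f g
  hexB : ∀ a b c d f g, R b c f * D.G a c b d f g * R a c g =
    ∑ e, D.G a b c d f e * R e c d * D.G c a b d e g

/-- Algebra data (associative unital, with a Casimir element). -/
structure Alg (D : FData k L) (P : Type) [Fintype P] [DecidableEq P] where
  x : P → L
  u : P
  m : P → P → P → k
  e : P → P → k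
  x_u : x u = D.one
  m_supp : ∀ {p q r}, m p q r ≠ 0 → D.N (x p) (x q) (x r) = true
  one_mul : ∀ q r, m u q r = if q = r then 1 else 0
  mul_one : ∀ p r, m p u r = if p = r then 1 else 0
  assoc : ∀ p q r s a, ∑ w, (if x w = a then m p q w * m w r s else 0) =
    ∑ w, D.F (x p) (x q) (x r) (x s) a (x w) * (m q r w * m p w s)
  e_supp : ∀ {p q}, e p q ≠ 0 → D.N (x p) (x q) D.one = true
  e_mul : ∀ r, x r = D.one → ∑ p, ∑ q, e p q * m p q r = if r = u then 1 else 0
  cas : ∀ q r s, ∑ s', e r s' * D.F (x r) (x s') (x q) (x q) D.one (x s) * m s' q s =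
    ∑ r', e r' s * D.G (x q) (x r') (x s) (x q) D.one (x r) * m q r' r

/-- Commutativity of algebra data with respect to a braiding. -/
def Alg.Comm {D : FData k L} {P : Type} [Fintype P] [DecidableEq P] (A : Alg D P)
    (B : BData D) : Prop :=
  ∀ p q r, B.R (A.x p) (A.x q) (A.x r) * A.m q p r = A.m p q r

/-- A group acting on the labels and preserving the fusion data. -/
structure FSym (D : FData k L) (Γ : Type) [Group Γ] [MulAction Γ L] : Prop where
  one_inv : ∀ g : Γ, g • D.one = D.one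
  N_inv : ∀ (g : Γ) (a b c : L), D.N (g • a) (g • b) (g • c) = D.N a b c
  F_inv : ∀ (g : Γ) (a b c d e f : L),
    D.F (g • a) (g • b) (g • c) (g • d) (g • e) (g • f) = D.F a b c d e f
  G_inv : ∀ (g : Γ) (a b c d f e : L),
    D.G (g • a) (g • b) (g • c) (g • d) (g • f) (g • e) = D.G a b c d f e

/-- Equivariance data for a commutative algebra. -/
structure EqAlg {D : FData k L} {P : Type} [Fintype P] [DecidableEq P] (A : Alg D P)
    (B : BData D) (Γ : Type) [Group Γ] [MulAction Γ L] [MulAction Γ P] where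
  lam : Γ → P → k
  x_eq : ∀ (g : Γ) (p : P), A.x (g • p) = g • A.x p
  u_eq : ∀ g : Γ, g • A.u = A.u
  lam_ne : ∀ g p, lam g p ≠ 0
  lam_mul : ∀ g h p, lam (g * h) p = lam g (h • p) * lam h p
  lam_u : ∀ g, lam g A.u = 1
  m_eq : ∀ (g : Γ) (p q r : P),
    A.m (g • p) (g • q) (g • r) * lam g r = lam g p * lam g q * A.m p q r
  R_inv : ∀ (g : Γ) (a b c : L), B.R (g • a) (g • b) (g • c) = B.R a b c

/-- An embedding of fusion data. -/
structure FEmb {L' : Type} [Fintype L'] [DecidableEq L'] (D : FData k L) (D' : FData k L')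
    where
  φ : L → L'
  inj : Function.Injective φ
  one_eq : φ D.one = D'.one
  N_eq : ∀ a b c, D'.N (φ a) (φ b) (φ c) = D.N a b c
  N_im : ∀ a b c', D'.N (φ a) (φ b) c' = true → ∃ c, c' = φ c
  F_eq : ∀ a b c d e f, D'.F (φ a) (φ b) (φ c) (φ d) (φ e) (φ f) = D.F a b c d e f
  G_eq : ∀ a b c d f e, D'.G (φ a) (φ b) (φ c) (φ d) (φ f) (φ e) = D.G a b c d f e

end H24PV
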