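import Pool.Agent.H24.PV.DtDef

/-!
# DtA: braiding from the checks: commutativity, units, first hexagon

Model: `DtP.lean`.  `chkNc` gives `N_comm` and `lR 0 a a = 0`, `lR a 0 a = 0`.
`hexA_sound`: common conditions of both sides: `N a b e`, `N e c d`, `N a c g`, `N b g d`
(`Fk_supp`, `Rk_supp`, `N_comm`); scale `4` on the left.
-/

universe u

namespace H24PV
namespace TData
variable {n : ℕ} (T : TData n) (B : TBr n) {k : Type u} [Field k] (z : k) (hz : z ^ 16 = -1)

theorem DtA_and {x y : Bool} (h : cnd x y false = true) : x = true ∧ y = true := by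
  cases x
  · exact absurd h (by simp [cnd])
  · exact ⟨rfl, h⟩

theorem N_comm (h : T.chkNc B = true) (a b c : Fin n) : T.N a b c = T.N b a c := by
  have h1 := allN_fin (allN_fin (allN_fin (DtA_and h).1 a) b) c
  revert h1
  cases T.N a b c <;> cases T.N b a c <;> simp [cnd]

theorem Rk_ne {a b c : ℕ} (h : T.N a b c = true) : T.Rk B z hz a b c ≠ 0 := by
  have hz0 : z ≠ 0 := by
    intro h0
    rw [h0] at hz
    simp at hz
  rw [Rk, RW, if_pos h, ev_zp]
  exact pow_ne_zero _ hz0

theorem Rk_one_left (hN : T.chkN = true) (h : T.chkNc B = true) (a : Fin n) :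
    T.Rk B z hz 0 a a = 1 := by
  have h1 := (DtA_and (allN_fin (allN_fin hN a) a)).1
  rw [show Nat.beq (a : ℕ) (a : ℕ) = true from Nat.beq_refl _, cnd_true] at h1
  have h2 := (DtA_and (allN_fin (DtA_and h).2 a)).1
  have h3 : B.lR 0 a a = 0 := Nat.eq_of_beq_eq_true h2
  rw [Rk, RW, if_pos h1, ev_zp, h3, pow_zero]

theorem Rk_one_right (hN : T.chkN = true) (h : T.chkNc B = true) (a : Fin n) :
    T.Rk B z hz a 0 a = 1 := by
  have h1 := (DtA_and (allN_fin (allN_fin hN a) a)).2
  rw [show Nat.beq (a : ℕ) (a : ℕ) = true from Nat.beq_refl _, cnd_true] at h1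
  have h2 := (DtA_and (allN_fin (DtA_and h).2 a)).2
  have h3 : B.lR a 0 a = 0 := Nat.eq_of_beq_eq_true h2
  rw [Rk, RW, if_pos h1, ev_zp, h3, pow_zero]

theorem hexA_sound (hn : n ≤ 16) (h4 : (4 : k) ≠ 0) (hc : T.chkNc B = true)
    (hA : ∀ a < n, T.chkHA B a = true) (a b c d e g : Fin n) :
    T.Rk B z hz a b e * T.Fk z hz b a c d e g * T.Rk B z hz a c g =
      ∑ f : Fin n, T.Fk z hz a b c d e f * T.Rk B z hz a f d * T.Fk z hz b c a d f g := by
  by_cases hcd : (T.N a b e = true ∧ T.N e c d = true ∧ T.N a c g = true ∧ T.N b g d = true)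
  · obtain ⟨h1, h2, h3, h4'⟩ := hcd
    have key := hA a a.2
    have key := imp_eq (allN_fin (allN_fin key b) e) h1
    have key := imp_eq (allN_fin (allN_fin key c) d) h2
    have key := imp_eq (imp_eq (allN_fin key g) h3) h4'
    have r1 := (Rep.nat 4).mul (((T.repR B a b e).mulM (T.repF b a c d e g)).mulM (T.repR B a c g))
    have r2 : Rep (sumN n fun f => mulM (mulM (T.FK a b c d e f) (T.RK B a f d))
        (T.FK b c a d f g))
        (∑ f : Fin n, T.FW a b c d e f * T.RW B a f d * T.FW b c a d f g)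
        (n * (5745 * 1 * 5745)) :=
      Rep.sum (g := fun f => T.FW a b c d e f * T.RW B a f d * T.FW b c a d f g)
        (fun f => ((T.repF a b c d e f).mulM (T.repR B a f d)).mulM (T.repF b c a d f g))
    have key := Rep.ev_eq z hz r1 r2 (lt_of_le_of_lt (Nat.add_le_add_left
      (Nat.mul_le_mul_right _ hn) _) (by decide +kernel)) key
    rw [map_mul, map_mul, map_mul, map_sum, T.ev_FW z hz h4, map_natCast] at key
    have e2 : ∑ f : Fin n, ev z hz (T.FW a b c d e f * T.RW B a f d * T.FW b c a d f g) =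
        16 * ∑ f : Fin n, T.Fk z hz a b c d e f * T.Rk B z hz a f d * T.Fk z hz b c a d f g := by
      rw [Finset.mul_sum]
      apply Finset.sum_congr rfl
      intro f _
      rw [map_mul, map_mul, T.ev_FW z hz h4, T.ev_FW z hz h4]
      show _ * T.Rk B z hz a f d * _ = _
      ring
    rw [e2] at key
    have h16 : (16 : k) ≠ 0 := by
      have : (16 : k) = 4 * 4 := by norm_num
      rw [this]; exact mul_ne_zero h4 h4
    apply mul_left_cancel₀ h16
    rw [← key]
    show 16 * (T.Rk B z hz a b e * T.Fk z hz b a c d e g * T.Rk B z hz a c g) =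
      ((4 : ℕ) : k) * (T.Rk B z hz a b e * (4 * T.Fk z hz b a c d e g) * T.Rk B z hz a c g)
    push_cast
    ring
  · have hl : T.Rk B z hz a b e * T.Fk z hz b a c d e g * T.Rk B z hz a c g = 0 := by
      by_contra hne
      apply hcd
      have s1 := T.Rk_supp B z hz (left_ne_zero_of_mul (left_ne_zero_of_mul hne))
      have s2 := T.Fk_supp z hz (right_ne_zero_of_mul (left_ne_zero_of_mul hne))
      exact ⟨s1, s2.2.1, s2.2.2.1, s2.2.2.2⟩
    rw [hl]
    symm
    apply Finset.sum_eq_zero
    intro f _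
    by_contra hne
    apply hcd
    have s1 := T.Fk_supp z hz (left_ne_zero_of_mul (left_ne_zero_of_mul hne))
    have s2 := T.Fk_supp z hz (right_ne_zero_of_mul hne)
    refine ⟨s1.1, s1.2.1, ?_, s2.2.2.2⟩
    rw [T.N_comm B hc a c g]
    exact s2.2.2.1

end TData
end H24PV
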