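import Pool.Agent.H24.PV.DtDef

/-!
# DtB: second hexagon and duality from the checks

Model: `DtP.lean`.  `hexB_sound`: common conditions of both sides: `N b c f`, `N a f d`,
`N a c g`, `N g b d` (`Gk_supp`, `Rk_supp`, and `hNc`); scale `4` on the left.
Duality: `evc x = ev z hz (wd (lE x)) / 4`; `Rep.ev_eq` with `(T.repF ..).mulM (rep_wd _)` and
`Rep.nat 16`.
-/

universe u

namespace H24PV
namespace TData
variable {n : ℕ} (T : TData n) (B : TBr n) (E : TDu n) {k : Type u} [Field k] (z : k)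
  (hz : z ^ 16 = -1)

theorem hexB_sound (hn : n ≤ 16) (h4 : (4 : k) ≠ 0)
    (hNc : ∀ a b c : Fin n, T.N a b c = T.N b a c)
    (hB : ∀ a < n, T.chkHB B a = true) (a b c d f g : Fin n) :
    T.Rk B z hz b c f * T.Gk z hz a c b d f g * T.Rk B z hz a c g =
      ∑ e : Fin n, T.Gk z hz a b c d f e * T.Rk B z hz e c d * T.Gk z hz c a b d e g := by
  by_cases hc : (T.N b c f = true ∧ T.N a f d = true ∧ T.N a c g = true ∧ T.N g b d = true)
  · obtain ⟨h1, h2, h3, h5⟩ := hc
    have key := hB a a.2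
    have key := imp_eq (allN_fin (allN_fin (allN_fin key b) c) f) h1
    have key := imp_eq (allN_fin key d) h2
    have key := imp_eq (imp_eq (allN_fin key g) h3) h5
    have r1 := (Rep.nat 4).mul (((T.repR B b c f).mulM (T.repG a c b d f g)).mulM (T.repR B a c g))
    have r2 : Rep (sumN n fun e => mulM (mulM (T.GK a b c d f e) (T.RK B e c d))
        (T.GK c a b d e g))
        (∑ e : Fin n, T.GW a b c d f e * T.RW B e c d * T.GW c a b d e g)
        (n * (5745 * 1 * 5745)) :=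
      Rep.sum (g := fun e => T.GW a b c d f e * T.RW B e c d * T.GW c a b d e g)
        (fun e => (((T.repG a b c d f e).mulM (T.repR B e c d)).mulM (T.repG c a b d e g)))
    have key := Rep.ev_eq z hz r1 r2 (lt_of_le_of_lt (Nat.add_le_add_left
      (Nat.mul_le_mul_right _ hn) _) (by decide +kernel)) key
    rw [map_mul, map_mul, map_mul, map_sum, T.ev_GW z hz h4, map_natCast] at key
    have e2 : ∑ e : Fin n, ev z hz (T.GW a b c d f e * T.RW B e c d * T.GW c a b d e g) =
        16 * ∑ e : Fin n, T.Gk z hz a b c d f e * T.Rk B z hz e c d * T.Gk z hz c a b d e g := by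
      rw [Finset.mul_sum]
      apply Finset.sum_congr rfl
      intro e _
      rw [map_mul, map_mul, T.ev_GW z hz h4, T.ev_GW z hz h4]
      show 4 * T.Gk z hz a b c d f e * T.Rk B z hz e c d * (4 * T.Gk z hz c a b d e g) = _
      ring
    rw [e2] at key
    have h16 : (16 : k) ≠ 0 := by
      have : (16 : k) = 4 * 4 := by norm_num
      rw [this]
      exact mul_ne_zero h4 h4
    apply mul_left_cancel₀ h16
    rw [← key]
    show 16 * (T.Rk B z hz b c f * T.Gk z hz a c b d f g * T.Rk B z hz a c g) =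
      ((4 : ℕ) : k) * (T.Rk B z hz b c f * (4 * T.Gk z hz a c b d f g) * T.Rk B z hz a c g)
    push_cast
    ring
  · have hl : T.Rk B z hz b c f * T.Gk z hz a c b d f g * T.Rk B z hz a c g = 0 := by
      by_contra hne
      apply hc
      have s1 := T.Gk_supp z hz (right_ne_zero_of_mul (left_ne_zero_of_mul hne))
      have s2 := T.Rk_supp B z hz (left_ne_zero_of_mul (left_ne_zero_of_mul hne))
      exact ⟨s2, s1.2.2.2, s1.1, s1.2.1⟩
    rw [hl]
    symm
    apply Finset.sum_eq_zero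
    intro e _
    by_contra hne
    apply hc
    have s1 := T.Gk_supp z hz (left_ne_zero_of_mul (left_ne_zero_of_mul hne))
    have s3 := T.Gk_supp z hz (right_ne_zero_of_mul hne)
    exact ⟨s1.2.2.1, s1.2.2.2, (hNc a c g).trans s3.1, s3.2.1⟩

theorem DtB_cnd {p q : Bool} (h : cnd p q false = true) : p = true ∧ q = true := by
  cases p
  · exact absurd h (by simp [cnd_false])
  · exact ⟨rfl, h⟩

theorem DtB_chk (h : T.chkD E = true) (x : Fin n) :
    E.du x < n ∧ E.du (E.du x) = x ∧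
      eqM (mulM (T.FK x (E.du x) x x 0 0) (kv (E.lE x))) 16 = true ∧
      eqM (mulM (T.GK (E.du x) x (E.du x) (E.du x) 0 0) (kv (E.lE x))) 16 = true := by
  have h1 := allN_fin h x
  obtain ⟨h2, h3⟩ := DtB_cnd h1
  obtain ⟨h4, h5⟩ := DtB_cnd h3
  obtain ⟨h6, h7⟩ := DtB_cnd h5
  exact ⟨Nat.le_of_ble_eq_true h2, Nat.eq_of_beq_eq_true h4, h6, h7⟩

theorem du_lt (h : T.chkD E = true) (x : Fin n) : E.du x < n := (T.DtB_chk E h x).1

theorem du_du (h : T.chkD E = true) (x : Fin n) : E.du (E.du x) = x := (T.DtB_chk E h x).2.1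

theorem DtB_fin {a b : k} (h4 : (4 : k) ≠ 0) (h : 4 * a * b = 16) : a * (b * (4 : k)⁻¹) = 1 := by
  apply mul_left_cancel₀ (mul_ne_zero h4 h4)
  have h1 : (4 : k) * 4 * (a * (b * (4 : k)⁻¹)) = (4 * a * b) * (4 * (4 : k)⁻¹) := by ring
  rw [h1, h, mul_inv_cancel₀ h4]
  norm_num

theorem z1_sound (h4 : (4 : k) ≠ 0) (h : T.chkD E = true) (x : Fin n) :
    T.Fk z hz x (E.du x) x x 0 0 * (ev z hz (wd (E.lE x)) * (4 : k)⁻¹) = 1 := by
  have key := Rep.ev_eq z hz ((T.repF x (E.du x) x x 0 0).mulM (rep_wd (E.lE x))) (Rep.nat 16)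
    (by decide +kernel) (T.DtB_chk E h x).2.2.1
  rw [map_mul, T.ev_FW z hz h4, map_natCast] at key
  refine DtB_fin h4 (key.trans ?_)
  norm_num

theorem z2_sound (h4 : (4 : k) ≠ 0) (h : T.chkD E = true) (x : Fin n) :
    T.Gk z hz (E.du x) x (E.du x) (E.du x) 0 0 * (ev z hz (wd (E.lE x)) * (4 : k)⁻¹) = 1 := by
  have key := Rep.ev_eq z hz ((T.repG (E.du x) x (E.du x) (E.du x) 0 0).mulM (rep_wd (E.lE x)))
    (Rep.nat 16) (by decide +kernel) (T.DtB_chk E h x).2.2.2
  rw [map_mul, T.ev_GW z hz h4, map_natCast] at key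
  refine DtB_fin h4 (key.trans ?_)
  norm_num

end TData
end H24PV
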