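import Pool.Agent.H24.PV.DtDef

/-!
# DtF: `F G = 1` and `G F = 1` from the checks

Model: `DtP.lean` (`allN_fin`, `imp_eq`, `Rep.sum`, `Rep.ev_eq`, `ev_FW`, `ev_GW`, `Fk_supp`,
`Gk_supp`).  Scale: the check compares `∑ (4 F) (4 G)` with `16` or `0`.
`FG`: if `N a b e ∧ N e c d ∧ N a b e' ∧ N e' c d` use the check, with `Rep.nat 16`, `Rep.cnd` for
the right side; otherwise all terms vanish, and the right side is `0` (if `e = e'` the four
conditions are the two in the statement).
-/

universe u

namespace H24PV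
namespace TData
variable {n : ℕ} (T : TData n) {k : Type u} [Field k] (z : k) (hz : z ^ 16 = -1)

theorem DtF_16 {k : Type u} [Field k] (h4 : (4 : k) ≠ 0) : (16 : k) ≠ 0 := by
  have : (16 : k) = 4 * 4 := by norm_num
  rw [this]
  exact mul_ne_zero h4 h4

theorem FG_sound (hn : n ≤ 16) (h4 : (4 : k) ≠ 0) (hF : ∀ a < n, T.chkFG a = true)
    (a b c d e e' : Fin n) :
    ∑ f : Fin n, T.Fk z hz a b c d e f * T.Gk z hz a b c d f e' =
      if e = e' ∧ T.N a b e = true ∧ T.N e c d = true then 1 else 0 := by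
  by_cases hc : T.N a b e = true ∧ T.N e c d = true ∧ T.N a b e' = true ∧ T.N e' c d = true
  · obtain ⟨h1, h2, h3, h5⟩ := hc
    have key := hF a a.2
    have key := imp_eq (allN_fin (allN_fin key b) e) h1
    have key := imp_eq (allN_fin (allN_fin key c) d) h2
    have key := imp_eq (imp_eq (allN_fin key e') h3) h5
    have r1 : Rep (sumN n fun f => mulM (T.FK a b c d e f) (T.GK a b c d f e'))
        (∑ f : Fin n, T.FW a b c d e f * T.GW a b c d f e') (n * (5745 * 5745)) :=
      Rep.sum (g := fun f => T.FW a b c d e f * T.GW a b c d f e')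
        (fun f => (T.repF a b c d e f).mulM (T.repG a b c d f e'))
    have r2 := (Rep.nat 16).cnd (Nat.beq e e')
    have key := Rep.ev_eq z hz r1 r2 (lt_of_le_of_lt (Nat.add_le_add_right
      (Nat.mul_le_mul_right _ hn) _) (by decide +kernel)) key
    rw [map_sum] at key
    have e2 : ∑ f : Fin n, ev z hz (T.FW a b c d e f * T.GW a b c d f e') =
        16 * ∑ f : Fin n, T.Fk z hz a b c d e f * T.Gk z hz a b c d f e' := by
      rw [Finset.mul_sum]
      apply Finset.sum_congr rfl
      intro f _
      rw [map_mul, T.ev_FW z hz h4, T.ev_GW z hz h4]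
      ring
    rw [e2] at key
    apply mul_left_cancel₀ (DtF_16 h4)
    rw [key]
    by_cases he : e = e'
    · subst he
      rw [if_pos (Nat.beq_refl _), if_pos ⟨rfl, h1, h2⟩, map_natCast]
      push_cast
      ring
    · have hb : ¬ (Nat.beq e e' = true) := fun h => he (Fin.ext (Nat.eq_of_beq_eq_true h))
      rw [if_neg hb, if_neg (fun h => he h.1), map_zero, mul_zero]
  · have hl : ∑ f : Fin n, T.Fk z hz a b c d e f * T.Gk z hz a b c d f e' = 0 := by
      apply Finset.sum_eq_zero
      intro f _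
      by_contra hne
      apply hc
      have s1 := T.Fk_supp z hz (left_ne_zero_of_mul hne)
      have s2 := T.Gk_supp z hz (right_ne_zero_of_mul hne)
      exact ⟨s1.1, s1.2.1, s2.1, s2.2.1⟩
    rw [hl]
    symm
    apply if_neg
    rintro ⟨rfl, h1, h2⟩
    exact hc ⟨h1, h2, h1, h2⟩

theorem GF_sound (hn : n ≤ 16) (h4 : (4 : k) ≠ 0) (hG : ∀ a < n, T.chkGF a = true)
    (a b c d f f' : Fin n) :
    ∑ e : Fin n, T.Gk z hz a b c d f e * T.Fk z hz a b c d e f' =
      if f = f' ∧ T.N b c f = true ∧ T.N a f d = true then 1 else 0 := by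
  by_cases hc : T.N b c f = true ∧ T.N a f d = true ∧ T.N b c f' = true ∧ T.N a f' d = true
  · obtain ⟨h1, h2, h3, h5⟩ := hc
    have key := hG a a.2
    have key := imp_eq (allN_fin (allN_fin (allN_fin key b) c) f) h1
    have key := imp_eq (allN_fin key d) h2
    have key := imp_eq (imp_eq (allN_fin key f') h3) h5
    have r1 : Rep (sumN n fun e => mulM (T.GK a b c d f e) (T.FK a b c d e f'))
        (∑ e : Fin n, T.GW a b c d f e * T.FW a b c d e f') (n * (5745 * 5745)) :=
      Rep.sum (g := fun e => T.GW a b c d f e * T.FW a b c d e f')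
        (fun e => (T.repG a b c d f e).mulM (T.repF a b c d e f'))
    have r2 := (Rep.nat 16).cnd (Nat.beq f f')
    have key := Rep.ev_eq z hz r1 r2 (lt_of_le_of_lt (Nat.add_le_add_right
      (Nat.mul_le_mul_right _ hn) _) (by decide +kernel)) key
    rw [map_sum] at key
    have e2 : ∑ e : Fin n, ev z hz (T.GW a b c d f e * T.FW a b c d e f') =
        16 * ∑ e : Fin n, T.Gk z hz a b c d f e * T.Fk z hz a b c d e f' := by
      rw [Finset.mul_sum]
      apply Finset.sum_congr rfl
      intro e _
      rw [map_mul, T.ev_FW z hz h4, T.ev_GW z hz h4]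
      ring
    rw [e2] at key
    apply mul_left_cancel₀ (DtF_16 h4)
    rw [key]
    by_cases he : f = f'
    · subst he
      rw [if_pos (Nat.beq_refl _), if_pos ⟨rfl, h1, h2⟩, map_natCast]
      push_cast
      ring
    · have hb : ¬ (Nat.beq f f' = true) := fun h => he (Fin.ext (Nat.eq_of_beq_eq_true h))
      rw [if_neg hb, if_neg (fun h => he h.1), map_zero, mul_zero]
  · have hl : ∑ e : Fin n, T.Gk z hz a b c d f e * T.Fk z hz a b c d e f' = 0 := by
      apply Finset.sum_eq_zero
      intro e _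
      by_contra hne
      apply hc
      have s1 := T.Gk_supp z hz (left_ne_zero_of_mul hne)
      have s2 := T.Fk_supp z hz (right_ne_zero_of_mul hne)
      exact ⟨s1.2.2.1, s1.2.2.2, s2.2.2.1, s2.2.2.2⟩
    rw [hl]
    symm
    apply if_neg
    rintro ⟨rfl, h1, h2⟩
    exact hc ⟨h1, h2, h1, h2⟩

end TData
end H24PV
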