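import Pool.Agent.H24.PV.DtDef

/-!
# DtP: the pentagon equation from the check
-/

universe u

namespace H24PV
namespace TData
variable {n : ℕ} (T : TData n) {k : Type u} [Field k] (z : k) (hz : z ^ 16 = -1)

theorem pent_sound (hn : n ≤ 16) (h4 : (4 : k) ≠ 0) (hP : ∀ a < n, T.chkPent a = true)
    (a b c d e f g q l : Fin n) :
    T.Fk z hz f c d e g l * T.Fk z hz a b l e f q =
      ∑ h : Fin n, T.Fk z hz a b c g f h * T.Fk z hz a h d e g q * T.Fk z hz b c d q h l := by
  by_cases hc : (T.N a b f = true ∧ T.N f c g = true ∧ T.N g d e = true ∧ T.N c d l = true ∧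
      T.N b l q = true ∧ T.N a q e = true)
  · obtain ⟨h1, h2, h3, h4', h5, h6⟩ := hc
    have key := hP a a.2
    have key := imp_eq (allN_fin (allN_fin key b) f) h1
    have key := imp_eq (allN_fin (allN_fin key c) g) h2
    have key := imp_eq (allN_fin (allN_fin key d) e) h3
    have key := imp_eq (allN_fin key l) h4'
    have key := imp_eq (imp_eq (allN_fin key q) h5) h6
    have r1 := (Rep.nat 4).mul ((T.repF f c d e g l).mulM (T.repF a b l e f q))
    have r2 : Rep (sumN n fun h => cnd (T.N b c h) (cnd (T.N a h g) (cnd (T.N h d q)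
        (mulM (mulM (T.FK a b c g f h) (T.FK a h d e g q)) (T.FK b c d q h l)) 0) 0) 0)
        (∑ h : Fin n, if T.N b c h = true then if T.N a h g = true then if T.N h d q = true then
          T.FW a b c g f h * T.FW a h d e g q * T.FW b c d q h l else 0 else 0 else 0)
        (n * (5745 * 5745 * 5745)) :=
      Rep.sum (g := fun h => if T.N b c h = true then if T.N a h g = true then
        if T.N h d q = true then
          T.FW a b c g f h * T.FW a h d e g q * T.FW b c d q h l else 0 else 0 else 0)
        (fun h => ((((((T.repF a b c g f h).mulM (T.repF a h d e g q)).mulM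
        (T.repF b c d q h l)).cnd _).cnd _).cnd _))
    have key := Rep.ev_eq z hz r1 r2 (lt_of_le_of_lt (Nat.add_le_add_left
      (Nat.mul_le_mul_right _ hn) _) (by decide +kernel)) key
    rw [map_mul, map_mul, map_sum, T.ev_FW z hz h4, T.ev_FW z hz h4, map_natCast] at key
    have e2 : ∑ h : Fin n, ev z hz (if T.N b c h = true then if T.N a h g = true then
        if T.N h d q = true then
          T.FW a b c g f h * T.FW a h d e g q * T.FW b c d q h l else 0 else 0 else 0) =
        64 * ∑ h : Fin n, T.Fk z hz a b c g f h * T.Fk z hz a h d e g q *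
          T.Fk z hz b c d q h l := by
      rw [Finset.mul_sum]
      apply Finset.sum_congr rfl
      intro h _
      by_cases c1 : T.N b c h = true ∧ T.N a h g = true ∧ T.N h d q = true
      · obtain ⟨c1, c2, c3⟩ := c1
        rw [if_pos c1, if_pos c2, if_pos c3, map_mul, map_mul, T.ev_FW z hz h4,
          T.ev_FW z hz h4, T.ev_FW z hz h4]
        ring
      · have hl : (if T.N b c h = true then if T.N a h g = true then
            if T.N h d q = true then
            T.FW a b c g f h * T.FW a h d e g q * T.FW b c d q h l else 0 else 0 else 0) = 0 := by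
          split_ifs with d1 d2 d3
          · exact absurd ⟨d1, d2, d3⟩ c1
          all_goals rfl
        rw [hl, map_zero]
        symm
        by_contra hne
        apply c1
        have hne := right_ne_zero_of_mul hne
        have s1 := T.Fk_supp z hz (left_ne_zero_of_mul (left_ne_zero_of_mul hne))
        have s2 := T.Fk_supp z hz (right_ne_zero_of_mul (left_ne_zero_of_mul hne))
        exact ⟨s1.2.2.1, s1.2.2.2, s2.2.2.1⟩
    rw [e2] at key
    have h64 : (64 : k) ≠ 0 := by
      have : (64 : k) = 4 * 4 * 4 := by norm_num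
      rw [this]; exact mul_ne_zero (mul_ne_zero h4 h4) h4
    apply mul_left_cancel₀ h64
    rw [← key]
    push_cast
    ring
  · have hl : T.Fk z hz f c d e g l * T.Fk z hz a b l e f q = 0 := by
      by_contra hne
      apply hc
      have s1 := T.Fk_supp z hz (left_ne_zero_of_mul hne)
      have s2 := T.Fk_supp z hz (right_ne_zero_of_mul hne)
      exact ⟨s2.1, s1.1, s1.2.1, s1.2.2.1, s2.2.2.1, s2.2.2.2⟩
    rw [hl]
    symm
    apply Finset.sum_eq_zero
    intro h _
    by_contra hne
    apply hc
    have s1 := T.Fk_supp z hz (left_ne_zero_of_mul (left_ne_zero_of_mul hne))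
    have s2 := T.Fk_supp z hz (right_ne_zero_of_mul (left_ne_zero_of_mul hne))
    have s3 := T.Fk_supp z hz (right_ne_zero_of_mul hne)
    exact ⟨s1.1, s1.2.1, s2.2.1, s3.2.2.1, s3.2.2.2, s2.2.2.2⟩

end TData
end H24PV
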