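import Pool.Agent.H24.PV.DtN
import Pool.Agent.H24.PV.DtF
import Pool.Agent.H24.PV.DtP
import Pool.Agent.H24.PV.DtA
import Pool.Agent.H24.PV.DtB
import Pool.Agent.H24.PV.DaDef

/-!
# DtG: fusion data, braiding and duality from checked tables
-/

universe u

namespace H24PV
namespace TData
variable {n : ℕ} [NeZero n] (T : TData n) {k : Type u} [Field k] (z : k) (hz : z ^ 16 = -1)

/-- Fusion data from checked tables. -/
noncomputable def fdata (hn : n ≤ 16) (h4 : (4 : k) ≠ 0) (ok : T.Ok) : FData k (Fin n) where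
  one := 0
  N a b c := T.N a b c
  F a b c d e f := T.Fk z hz a b c d e f
  G a b c d f e := T.Gk z hz a b c d f e
  N_one_left a b := T.N_left ok.N a b
  N_one_right a b := T.N_right ok.N a b
  F_supp h := T.Fk_supp z hz h
  G_supp h := T.Gk_supp z hz h
  FG := T.FG_sound z hz hn h4 ok.FG
  GF := T.GF_sound z hz hn h4 ok.GF
  F_one_left b c d h := T.U_left z hz h4 ok.U b c d h
  F_one_mid a c d h := T.U_mid z hz h4 ok.U a c d h
  F_one_right a b d h := T.U_right z hz h4 ok.U a b d h
  pentagon a b c d e f g q l := T.pent_sound z hz hn h4 ok.P a b c d e f g q l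

/-- Braiding from checked tables. -/
noncomputable def bdata (hn : n ≤ 16) (h4 : (4 : k) ≠ 0) (ok : T.Ok) (B : TBr n)
    (okB : T.OkB B) : BData (T.fdata z hz hn h4 ok) where
  R a b c := T.Rk B z hz a b c
  R_ne h := T.Rk_ne B z hz h
  R_supp h := T.Rk_supp B z hz h
  N_comm a b c := T.N_comm B okB.N a b c
  R_one_left a := T.Rk_one_left B z hz ok.N okB.N a
  R_one_right a := T.Rk_one_right B z hz ok.N okB.N a
  hexA a b c d e g := T.hexA_sound B z hz hn h4 okB.N okB.A a b c d e g
  hexB a b c d f g := T.hexB_sound B z hz hn h4 (T.N_comm B okB.N) okB.B a b c d f g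

/-- Duality from checked tables. -/
noncomputable def fdual (hn : n ≤ 16) (h4 : (4 : k) ≠ 0) (ok : T.Ok) (E : TDu n)
    (okD : T.chkD E = true) : FDual (T.fdata z hz hn h4 ok) where
  dual x := ⟨E.du x, T.du_lt E okD x⟩
  evc x := ev z hz (wd (E.lE x)) * (4 : k)⁻¹
  dual_dual x := Fin.ext (T.du_du E okD x)
  z1 x := T.z1_sound E z hz h4 okD x
  z2 x := T.z2_sound E z hz h4 okD x

end TData
end H24PV
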