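import Pool.Agent.H24.PV.DaDef

/-!
# PrDef: products of fusion data

Sums over `L₁ × L₂` of products factor: `Fintype.sum_prod_type`, `Finset.sum_mul_sum`.
`if (c = c' ∧ ..) then 1 else 0` factors as a product of two such.
-/

universe u

namespace H24PV

variable {k : Type u} [Field k] {L₁ L₂ : Type} [Fintype L₁] [DecidableEq L₁] [Fintype L₂]
  [DecidableEq L₂]

omit [DecidableEq L₁] [DecidableEq L₂] in
private theorem prdef_sum (f : L₁ → k) (g : L₂ → k) :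
    ∑ x : L₁ × L₂, f x.1 * g x.2 = (∑ x, f x) * ∑ y, g y := by
  rw [Fintype.sum_prod_type, Finset.sum_mul_sum]

private theorem prdef_ite (P Q R : Prop) [Decidable P] [Decidable Q] [Decidable R] (h : R ↔ P ∧ Q) :
    (if R then (1 : k) else 0) = (if P then 1 else 0) * (if Q then 1 else 0) := by
  by_cases hP : P
  · by_cases hQ : Q
    · rw [if_pos hP, if_pos hQ, if_pos (h.2 ⟨hP, hQ⟩), one_mul]
    · rw [if_neg hQ, if_neg (fun hR => hQ (h.1 hR).2), mul_zero]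
  · rw [if_neg hP, if_neg (fun hR => hP (h.1 hR).1), zero_mul]

/-- Product of fusion data. -/
def FData.prod (D₁ : FData k L₁) (D₂ : FData k L₂) : FData k (L₁ × L₂) where
  one := (D₁.one, D₂.one)
  N a b c := D₁.N a.1 b.1 c.1 && D₂.N a.2 b.2 c.2
  F a b c d e f := D₁.F a.1 b.1 c.1 d.1 e.1 f.1 * D₂.F a.2 b.2 c.2 d.2 e.2 f.2
  G a b c d f e := D₁.G a.1 b.1 c.1 d.1 f.1 e.1 * D₂.G a.2 b.2 c.2 d.2 f.2 e.2
  N_one_left := by
    rintro ⟨a, a'⟩ ⟨b, b'⟩
    simp [D₁.N_one_left, D₂.N_one_left, Prod.ext_iff]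
  N_one_right := by
    rintro ⟨a, a'⟩ ⟨b, b'⟩
    simp [D₁.N_one_right, D₂.N_one_right, Prod.ext_iff]
  F_supp := by
    intro a b c d e f h
    obtain ⟨h1, h2, h3, h4⟩ := D₁.F_supp (left_ne_zero_of_mul h)
    obtain ⟨h1', h2', h3', h4'⟩ := D₂.F_supp (right_ne_zero_of_mul h)
    refine ⟨?_, ?_, ?_, ?_⟩
    · rw [h1, h1']; rfl
    · rw [h2, h2']; rfl
    · rw [h3, h3']; rfl
    · rw [h4, h4']; rfl
  G_supp := by
    intro a b c d f e h
    obtain ⟨h1, h2, h3, h4⟩ := D₁.G_supp (left_ne_zero_of_mul h)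
    obtain ⟨h1', h2', h3', h4'⟩ := D₂.G_supp (right_ne_zero_of_mul h)
    refine ⟨?_, ?_, ?_, ?_⟩
    · rw [h1, h1']; rfl
    · rw [h2, h2']; rfl
    · rw [h3, h3']; rfl
    · rw [h4, h4']; rfl
  FG := by
    intro a b c d e e'
    rw [prdef_ite (k := k) (e.1 = e'.1 ∧ D₁.N a.1 b.1 e.1 = true ∧ D₁.N e.1 c.1 d.1 = true)
      (e.2 = e'.2 ∧ D₂.N a.2 b.2 e.2 = true ∧ D₂.N e.2 c.2 d.2 = true) _
      (by rw [Prod.ext_iff, Bool.and_eq_true, Bool.and_eq_true]; tauto),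
      ← D₁.FG, ← D₂.FG, ← prdef_sum]
    exact Finset.sum_congr rfl fun x _ => by ring
  GF := by
    intro a b c d f f'
    rw [prdef_ite (k := k) (f.1 = f'.1 ∧ D₁.N b.1 c.1 f.1 = true ∧ D₁.N a.1 f.1 d.1 = true)
      (f.2 = f'.2 ∧ D₂.N b.2 c.2 f.2 = true ∧ D₂.N a.2 f.2 d.2 = true) _
      (by rw [Prod.ext_iff, Bool.and_eq_true, Bool.and_eq_true]; tauto),
      ← D₁.GF, ← D₂.GF, ← prdef_sum]
    exact Finset.sum_congr rfl fun x _ => by ring
  F_one_left := by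
    intro b c d h
    rw [Bool.and_eq_true] at h
    dsimp only
    rw [D₁.F_one_left _ _ _ h.1, D₂.F_one_left _ _ _ h.2, one_mul]
  F_one_mid := by
    intro a c d h
    rw [Bool.and_eq_true] at h
    dsimp only
    rw [D₁.F_one_mid _ _ _ h.1, D₂.F_one_mid _ _ _ h.2, one_mul]
  F_one_right := by
    intro a b d h
    rw [Bool.and_eq_true] at h
    dsimp only
    rw [D₁.F_one_right _ _ _ h.1, D₂.F_one_right _ _ _ h.2, one_mul]
  pentagon := by
    intro a b c d e f g k' l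
    have h1 := D₁.pentagon a.1 b.1 c.1 d.1 e.1 f.1 g.1 k'.1 l.1
    have h2 := D₂.pentagon a.2 b.2 c.2 d.2 e.2 f.2 g.2 k'.2 l.2
    have e1 : ∀ p q r s : k, (p * q) * (r * s) = (p * r) * (q * s) := by intro p q r s; ring
    rw [e1, h1, h2, ← prdef_sum]
    exact Finset.sum_congr rfl fun x _ => by ring

/-- Product of duals. -/
def FDual.prod {D₁ : FData k L₁} {D₂ : FData k L₂} (E₁ : FDual D₁) (E₂ : FDual D₂) :
    FDual (D₁.prod D₂) where
  dual a := (E₁.dual a.1, E₂.dual a.2)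
  evc a := E₁.evc a.1 * E₂.evc a.2
  dual_dual := by
    intro x
    dsimp only
    rw [E₁.dual_dual, E₂.dual_dual]
  z1 := by
    intro x
    have h1 := E₁.z1 x.1
    have h2 := E₂.z1 x.2
    calc _ = (D₁.F x.1 (E₁.dual x.1) x.1 x.1 D₁.one D₁.one * E₁.evc x.1) *
          (D₂.F x.2 (E₂.dual x.2) x.2 x.2 D₂.one D₂.one * E₂.evc x.2) := by
          dsimp only [FData.prod]; ring
      _ = 1 := by rw [h1, h2, one_mul]
  z2 := by
    intro x
    have h1 := E₁.z2 x.1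
    have h2 := E₂.z2 x.2
    calc _ = (D₁.G (E₁.dual x.1) x.1 (E₁.dual x.1) (E₁.dual x.1) D₁.one D₁.one * E₁.evc x.1) *
          (D₂.G (E₂.dual x.2) x.2 (E₂.dual x.2) (E₂.dual x.2) D₂.one D₂.one * E₂.evc x.2) := by
          dsimp only [FData.prod]; ring
      _ = 1 := by rw [h1, h2, one_mul]

/-- Product of braidings. -/
def BData.prod {D₁ : FData k L₁} {D₂ : FData k L₂} (B₁ : BData D₁) (B₂ : BData D₂) :
    BData (D₁.prod D₂) where
  R a b c := B₁.R a.1 b.1 c.1 * B₂.R a.2 b.2 c.2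
  R_ne := by
    intro a b c h
    have h' : (D₁.N a.1 b.1 c.1 && D₂.N a.2 b.2 c.2) = true := h
    rw [Bool.and_eq_true] at h'
    exact mul_ne_zero (B₁.R_ne h'.1) (B₂.R_ne h'.2)
  R_supp := by
    intro a b c h
    have h1 := B₁.R_supp (left_ne_zero_of_mul h)
    have h2 := B₂.R_supp (right_ne_zero_of_mul h)
    show (D₁.N a.1 b.1 c.1 && D₂.N a.2 b.2 c.2) = true
    rw [h1, h2]; rfl
  N_comm := by
    intro a b c
    show (D₁.N a.1 b.1 c.1 && D₂.N a.2 b.2 c.2) = (D₁.N b.1 a.1 c.1 && D₂.N b.2 a.2 c.2)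
    rw [B₁.N_comm, B₂.N_comm]
  R_one_left := by
    intro a
    show B₁.R D₁.one a.1 a.1 * B₂.R D₂.one a.2 a.2 = 1
    rw [B₁.R_one_left, B₂.R_one_left, one_mul]
  R_one_right := by
    intro a
    show B₁.R a.1 D₁.one a.1 * B₂.R a.2 D₂.one a.2 = 1
    rw [B₁.R_one_right, B₂.R_one_right, one_mul]
  hexA := by
    intro a b c d e g
    have h1 := B₁.hexA a.1 b.1 c.1 d.1 e.1 g.1
    have h2 := B₂.hexA a.2 b.2 c.2 d.2 e.2 g.2
    dsimp only [FData.prod]
    have e1 : ∀ p q r s t u : k, ((p * q) * (r * s)) * (t * u) = ((p * r) * t) * ((q * s) * u) := by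
      intro p q r s t u; ring
    rw [e1, h1, h2, ← prdef_sum]
    exact Finset.sum_congr rfl fun x _ => by ring
  hexB := by
    intro a b c d f g
    have h1 := B₁.hexB a.1 b.1 c.1 d.1 f.1 g.1
    have h2 := B₂.hexB a.2 b.2 c.2 d.2 f.2 g.2
    dsimp only [FData.prod]
    have e1 : ∀ p q r s t u : k, ((p * q) * (r * s)) * (t * u) = ((p * r) * t) * ((q * s) * u) := by
      intro p q r s t u; ring
    rw [e1, h1, h2, ← prdef_sum]
    exact Finset.sum_congr rfl fun x _ => by ring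

end H24PV
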