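import Pool.Agent.H24.PV.AtS
import Pool.Agent.H24.PV.AtU
import Pool.Agent.H24.PV.AtC
import Pool.Agent.H24.PV.AtL
import Pool.Agent.H24.PV.DtG
import Pool.Agent.H24.PV.PrDef

/-!
# AtG: algebra data from checked tables
-/

universe u

namespace H24PV
namespace TAlg
variable {q : ℕ} [NeZero q] (A : TAlg q) {n m : ℕ} [NeZero n] [NeZero m] (S : TData n)
  (I : TData m) {k : Type u} [Field k] (z : k) (hz : z ^ 16 = -1)

/-- Algebra data from checked tables. -/
noncomputable def alg (hn : n ≤ 16) (hm : m ≤ 16) (hq : q ≤ 16) (h4 : (4 : k) ≠ 0)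
    (okS : S.Ok) (okI : I.Ok) {BS : TBr n} {BI : TBr m} {neg : Bool}
    (ok : A.Ok S I BS BI neg) :
    Alg (((S.fdata z hz hn h4 okS).prod (S.fdata z hz hn h4 okS)).prod
      (I.fdata z hz hm h4 okI)) (Fin q) where
  x p := ((⟨A.x1 p, (A.x_lt S I ok.Su p).1⟩, ⟨A.x2 p, (A.x_lt S I ok.Su p).2.1⟩),
    ⟨A.x3 p, (A.x_lt S I ok.Su p).2.2⟩)
  u := 0
  m p r s := A.muk z hz p r s
  e p r := A.ck z hz p r
  x_u := by
    obtain ⟨h1, h2, h3⟩ := A.x_zero S I ok.Su
    refine Prod.ext (Prod.ext (Fin.ext ?_) (Fin.ext ?_)) (Fin.ext ?_)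
    · show A.x1 ((0 : Fin q) : ℕ) = ((0 : Fin n) : ℕ)
      simpa using h1
    · show A.x2 ((0 : Fin q) : ℕ) = ((0 : Fin n) : ℕ)
      simpa using h2
    · show A.x3 ((0 : Fin q) : ℕ) = ((0 : Fin m) : ℕ)
      simpa using h3
  m_supp {p r s} h := by
    have hN : A.NP p r s = true := by
      by_contra hc
      apply h
      rw [muk, MW, if_neg hc, map_zero, zero_mul]
    have := A.NP_supp S I ok.Su p r s hN
    rw [A.N3_iff S I] at this
    obtain ⟨h1, h2, h3⟩ := this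
    show ((S.N (A.x1 p) (A.x1 r) (A.x1 s) && S.N (A.x2 p) (A.x2 r) (A.x2 s)) &&
      I.N (A.x3 p) (A.x3 r) (A.x3 s)) = true
    rw [h1, h2, h3]; rfl
  one_mul r s := by
    have := A.muk_one_left S I z hz h4 ok.Su r s
    simpa using this
  mul_one r s := by
    have := A.muk_one_right S I z hz h4 ok.Su r s
    simpa using this
  assoc p r s t a := by
    obtain ⟨⟨a1, a2⟩, a3⟩ := a
    have := A.assoc_sound S I z hz hq h4 ok.As (A.NP_supp S I ok.Su) p r s t a1 a2 a3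
    have e1 : ∀ w : Fin q, ((((⟨A.x1 w, (A.x_lt S I ok.Su w).1⟩,
        ⟨A.x2 w, (A.x_lt S I ok.Su w).2.1⟩), ⟨A.x3 w, (A.x_lt S I ok.Su w).2.2⟩) :
        (Fin n × Fin n) × Fin m) = ((a1, a2), a3)) ↔
        (A.x1 w = a1 ∧ A.x2 w = a2 ∧ A.x3 w = a3) := by
      intro w
      simp only [Prod.mk.injEq, Fin.ext_iff, and_assoc]
    simp only [e1]
    exact this
  e_supp {p r} h := by
    have hd := A.ck_supp z hz h
    obtain ⟨h1, h2, h3⟩ := A.N_dc S I ok.Su p
    rw [hd] at h1 h2 h3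
    show ((S.N (A.x1 p) (A.x1 r) ((0 : Fin n) : ℕ) && S.N (A.x2 p) (A.x2 r) ((0 : Fin n) : ℕ)) &&
      I.N (A.x3 p) (A.x3 r) ((0 : Fin m) : ℕ)) = true
    simp only [Fin.val_zero]
    rw [h1, h2, h3]; rfl
  e_mul r hr := by
    have h1 : A.x1 r = 0 := by
      have := congrArg (fun t => ((t.1.1 : Fin n) : ℕ)) hr
      simpa [FData.prod, TData.fdata] using this
    have h2 : A.x2 r = 0 := by
      have := congrArg (fun t => ((t.1.2 : Fin n) : ℕ)) hr
      simpa [FData.prod, TData.fdata] using this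
    have h3 : A.x3 r = 0 := by
      have := congrArg (fun t => ((t.2 : Fin m) : ℕ)) hr
      simpa [FData.prod, TData.fdata] using this
    rw [A.e_mul_sound S I z hz hq h4 ok.Ca r h1 h2 h3]
    by_cases hc : r = 0
    · subst hc; simp
    · rw [if_neg hc, if_neg]
      intro h0; exact hc (Fin.ext (by simpa using h0))
  cas t r s := by
    have := A.cas_sound S I z hz hq h4 ok.Ca t r s
    simp only [FData.prod, TData.fdata, Fin.val_zero]
    exact this

theorem alg_comm (hn : n ≤ 16) (hm : m ≤ 16) (hq : q ≤ 16) (h4 : (4 : k) ≠ 0)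
    (okS : S.Ok) (okI : I.Ok) {BS : TBr n} {BI : TBr m} (okBS : S.OkB BS) (okBI : I.OkB BI)
    {neg : Bool} (ok : A.Ok S I BS BI neg) :
    (A.alg S I z hz hn hm hq h4 okS okI ok).Comm
      (((S.bdata z hz hn h4 okS BS okBS).prod (S.bdata z hz hn h4 okS BS okBS)).prod
        (I.bdata z hz hm h4 okI BI okBI)) := fun p r s =>
  A.comm_sound S I z hz BS BI ok.Co p r s

end TAlg
end H24PV
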