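import Pool.Agent.H24.PV.AtDef

/-!
# AtS: associativity from the check

Model: `DtP.lean`.  If `N (x p) (x r) a` and `N a (x s) (x t)` hold (componentwise) use the check;
otherwise all terms on both sides vanish (`hsu`: `NP` implies the fusion rules; `Fk_supp`).
Scale: `64 * (4 m) (4 m)` on the left, `(4 F) (4 F) (4 F) (4 m) (4 m)` on the right (`4 ^ 5`).
Mass: `64 * (q * (5745 * 5745))`, `q * 5745 ^ 5` (in the bracketing of the check) with `q ≤ 16`.
-/

universe u

namespace H24PV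
namespace TAlg
variable {q : ℕ} (A : TAlg q) {n m : ℕ} (S : TData n) (I : TData m)
  {k : Type u} [Field k] (z : k) (hz : z ^ 16 = -1)

theorem N3_iff (p r s : ℕ) : A.N3 S I p r s = true ↔
    S.N (A.x1 p) (A.x1 r) (A.x1 s) = true ∧ S.N (A.x2 p) (A.x2 r) (A.x2 s) = true ∧
      I.N (A.x3 p) (A.x3 r) (A.x3 s) = true := by
  rw [N3, andB_iff, andB_iff]

theorem muk_supp {p r s : ℕ} (h : A.muk z hz p r s ≠ 0) : A.NP p r s = true := by
  by_contra hc
  apply h
  rw [muk, MW, if_neg hc, map_zero, zero_mul]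

theorem assoc_sound (hq : q ≤ 16) (h4 : (4 : k) ≠ 0) (h : ∀ p < q, A.chkAs S I p = true)
    (hsu : ∀ p r s : Fin q, A.NP p r s = true → A.N3 S I p r s = true)
    (p r s t : Fin q) (a1 a2 : Fin n) (a3 : Fin m) :
    ∑ w : Fin q, (if A.x1 w = a1 ∧ A.x2 w = a2 ∧ A.x3 w = a3 then
        A.muk z hz p r w * A.muk z hz w s t else 0) =
      ∑ w : Fin q, (S.Fk z hz (A.x1 p) (A.x1 r) (A.x1 s) (A.x1 t) a1 (A.x1 w) *
        S.Fk z hz (A.x2 p) (A.x2 r) (A.x2 s) (A.x2 t) a2 (A.x2 w) *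
        I.Fk z hz (A.x3 p) (A.x3 r) (A.x3 s) (A.x3 t) a3 (A.x3 w)) *
          (A.muk z hz r s w * A.muk z hz p w t) := by
  by_cases hc : (S.N (A.x1 p) (A.x1 r) a1 = true ∧ S.N a1 (A.x1 s) (A.x1 t) = true) ∧
      (S.N (A.x2 p) (A.x2 r) a2 = true ∧ S.N a2 (A.x2 s) (A.x2 t) = true) ∧
      (I.N (A.x3 p) (A.x3 r) a3 = true ∧ I.N a3 (A.x3 s) (A.x3 t) = true)
  · obtain ⟨⟨c1, c2⟩, ⟨c3, c4⟩, ⟨c5, c6⟩⟩ := hc
    have key := h p p.2
    have key := allN_fin (allN_fin (allN_fin key r) s) t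
    have key := imp_eq (imp_eq (allN_fin key a1) c1) c2
    have key := imp_eq (imp_eq (allN_fin key a2) c3) c4
    have key := imp_eq (imp_eq (allN_fin key a3) c5) c6
    have r1 : Rep (Nat.mul 64 (sumN q fun w => cnd (Nat.beq (A.x1 w) a1)
        (cnd (Nat.beq (A.x2 w) a2) (cnd (Nat.beq (A.x3 w) a3)
          (mulM (A.MK p r w) (A.MK w s t)) 0) 0) 0))
        (((64 : ℕ) : W) * ∑ w : Fin q, if Nat.beq (A.x1 w) a1 = true then
          if Nat.beq (A.x2 w) a2 = true then if Nat.beq (A.x3 w) a3 = true then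
          A.MW p r w * A.MW w s t else 0 else 0 else 0)
        (64 * (q * (5745 * 5745))) :=
      (Rep.nat 64).mul (Rep.sum (g := fun w => if Nat.beq (A.x1 w) a1 = true then
          if Nat.beq (A.x2 w) a2 = true then if Nat.beq (A.x3 w) a3 = true then
          A.MW p r w * A.MW w s t else 0 else 0 else 0)
        (fun w => (((((A.repM p r w).mulM (A.repM w s t)).cnd _).cnd _).cnd _)))
    have r2 : Rep (sumN q fun w => cnd (A.NP r s w) (cnd (A.NP p w t)
        (mulM (mulM (mulM (S.FK (A.x1 p) (A.x1 r) (A.x1 s) (A.x1 t) a1 (A.x1 w))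
          (S.FK (A.x2 p) (A.x2 r) (A.x2 s) (A.x2 t) a2 (A.x2 w)))
          (I.FK (A.x3 p) (A.x3 r) (A.x3 s) (A.x3 t) a3 (A.x3 w)))
          (mulM (A.MK r s w) (A.MK p w t))) 0) 0)
        (∑ w : Fin q, if A.NP r s w = true then if A.NP p w t = true then
          S.FW (A.x1 p) (A.x1 r) (A.x1 s) (A.x1 t) a1 (A.x1 w) *
          S.FW (A.x2 p) (A.x2 r) (A.x2 s) (A.x2 t) a2 (A.x2 w) *
          I.FW (A.x3 p) (A.x3 r) (A.x3 s) (A.x3 t) a3 (A.x3 w) *
          (A.MW r s w * A.MW p w t) else 0 else 0)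
        (q * (5745 * 5745 * 5745 * (5745 * 5745))) :=
      Rep.sum (g := fun w => if A.NP r s w = true then if A.NP p w t = true then
          S.FW (A.x1 p) (A.x1 r) (A.x1 s) (A.x1 t) a1 (A.x1 w) *
          S.FW (A.x2 p) (A.x2 r) (A.x2 s) (A.x2 t) a2 (A.x2 w) *
          I.FW (A.x3 p) (A.x3 r) (A.x3 s) (A.x3 t) a3 (A.x3 w) *
          (A.MW r s w * A.MW p w t) else 0 else 0)
        (fun w => (((((S.repF _ _ _ _ _ _).mulM (S.repF _ _ _ _ _ _)).mulM
          (I.repF _ _ _ _ _ _)).mulM ((A.repM r s w).mulM (A.repM p w t))).cnd _).cnd _)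
    have key := Rep.ev_eq z hz r1 r2 (lt_of_le_of_lt (Nat.add_le_add
      (Nat.mul_le_mul_left _ (Nat.mul_le_mul_right _ hq)) (Nat.mul_le_mul_right _ hq))
      (by decide +kernel)) key
    rw [map_mul, map_sum, map_sum, map_natCast] at key
    have e1 : ∑ w : Fin q, ev z hz (if Nat.beq (A.x1 w) a1 = true then
          if Nat.beq (A.x2 w) a2 = true then if Nat.beq (A.x3 w) a3 = true then
          A.MW p r w * A.MW w s t else 0 else 0 else 0) =
        16 * ∑ w : Fin q, (if A.x1 w = a1 ∧ A.x2 w = a2 ∧ A.x3 w = a3 then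
          A.muk z hz p r w * A.muk z hz w s t else 0) := by
      rw [Finset.mul_sum]
      apply Finset.sum_congr rfl
      intro w _
      by_cases d : A.x1 w = a1 ∧ A.x2 w = a2 ∧ A.x3 w = a3
      · rw [if_pos d]
        obtain ⟨d1, d2, d3⟩ := d
        rw [if_pos (Nat.beq_eq.mpr d1), if_pos (Nat.beq_eq.mpr d2), if_pos (Nat.beq_eq.mpr d3),
          map_mul, A.ev_MW z hz h4, A.ev_MW z hz h4]
        ring
      · rw [if_neg d, mul_zero]
        have hl : (if Nat.beq (A.x1 w) a1 = true then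
          if Nat.beq (A.x2 w) a2 = true then if Nat.beq (A.x3 w) a3 = true then
          A.MW p r w * A.MW w s t else 0 else 0 else 0) = 0 := by
          split_ifs with d1 d2 d3
          · exact absurd ⟨Nat.beq_eq.mp d1, Nat.beq_eq.mp d2, Nat.beq_eq.mp d3⟩ d
          all_goals rfl
        rw [hl, map_zero]
    have e2 : ∑ w : Fin q, ev z hz (if A.NP r s w = true then if A.NP p w t = true then
          S.FW (A.x1 p) (A.x1 r) (A.x1 s) (A.x1 t) a1 (A.x1 w) *
          S.FW (A.x2 p) (A.x2 r) (A.x2 s) (A.x2 t) a2 (A.x2 w) *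
          I.FW (A.x3 p) (A.x3 r) (A.x3 s) (A.x3 t) a3 (A.x3 w) *
          (A.MW r s w * A.MW p w t) else 0 else 0) =
        4 ^ 5 * ∑ w : Fin q, (S.Fk z hz (A.x1 p) (A.x1 r) (A.x1 s) (A.x1 t) a1 (A.x1 w) *
        S.Fk z hz (A.x2 p) (A.x2 r) (A.x2 s) (A.x2 t) a2 (A.x2 w) *
        I.Fk z hz (A.x3 p) (A.x3 r) (A.x3 s) (A.x3 t) a3 (A.x3 w)) *
          (A.muk z hz r s w * A.muk z hz p w t) := by
      rw [Finset.mul_sum]
      apply Finset.sum_congr rfl
      intro w _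
      by_cases d : A.NP r s w = true ∧ A.NP p w t = true
      · obtain ⟨d1, d2⟩ := d
        rw [if_pos d1, if_pos d2, map_mul, map_mul, map_mul, map_mul, S.ev_FW z hz h4,
          S.ev_FW z hz h4, I.ev_FW z hz h4, A.ev_MW z hz h4, A.ev_MW z hz h4]
        ring
      · have hl : (if A.NP r s w = true then if A.NP p w t = true then
          S.FW (A.x1 p) (A.x1 r) (A.x1 s) (A.x1 t) a1 (A.x1 w) *
          S.FW (A.x2 p) (A.x2 r) (A.x2 s) (A.x2 t) a2 (A.x2 w) *
          I.FW (A.x3 p) (A.x3 r) (A.x3 s) (A.x3 t) a3 (A.x3 w) *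
          (A.MW r s w * A.MW p w t) else 0 else 0) = 0 := by
          split_ifs with d1 d2
          · exact absurd ⟨d1, d2⟩ d
          all_goals rfl
        rw [hl, map_zero]
        symm
        by_contra hne
        apply d
        have hne := right_ne_zero_of_mul (right_ne_zero_of_mul hne)
        exact ⟨A.muk_supp z hz (left_ne_zero_of_mul hne),
          A.muk_supp z hz (right_ne_zero_of_mul hne)⟩
    rw [e1, e2] at key
    have h1024 : (4 : k) ^ 5 ≠ 0 := pow_ne_zero 5 h4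
    apply mul_left_cancel₀ h1024
    rw [← key]
    push_cast
    ring
  · have hl : ∀ w : Fin q, (if A.x1 w = a1 ∧ A.x2 w = a2 ∧ A.x3 w = a3 then
        A.muk z hz p r w * A.muk z hz w s t else 0) = 0 := by
      intro w
      by_contra hne
      apply hc
      have hd : A.x1 w = a1 ∧ A.x2 w = a2 ∧ A.x3 w = a3 := by
        by_contra hd
        exact hne (if_neg hd)
      rw [if_pos hd] at hne
      obtain ⟨d1, d2, d3⟩ := hd
      have s1 := (A.N3_iff S I _ _ _).mp (hsu p r w (A.muk_supp z hz (left_ne_zero_of_mul hne)))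
      have s2 := (A.N3_iff S I _ _ _).mp (hsu w s t (A.muk_supp z hz (right_ne_zero_of_mul hne)))
      rw [d1, d2, d3] at s1 s2
      exact ⟨⟨s1.1, s2.1⟩, ⟨s1.2.1, s2.2.1⟩, ⟨s1.2.2, s2.2.2⟩⟩
    rw [Finset.sum_congr rfl fun w _ => hl w, Finset.sum_const_zero]
    symm
    apply Finset.sum_eq_zero
    intro w _
    by_contra hne
    apply hc
    have hne := left_ne_zero_of_mul hne
    have s1 := S.Fk_supp z hz (left_ne_zero_of_mul (left_ne_zero_of_mul hne))
    have s2 := S.Fk_supp z hz (right_ne_zero_of_mul (left_ne_zero_of_mul hne))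
    have s3 := I.Fk_supp z hz (right_ne_zero_of_mul hne)
    exact ⟨⟨s1.1, s1.2.1⟩, ⟨s2.1, s2.2.1⟩, ⟨s3.1, s3.2.1⟩⟩

end TAlg
end H24PV
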