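import Pool.Agent.H24.PV.TbIS

/-!
# Kernel checks: Ising
-/

set_option maxRecDepth 100000

namespace H24PV

theorem IS_ok : IS.Ok where
  N := by decide +kernel
  U := by decide +kernel
  FG := (allN_iff 3 IS.chkFG).mp (by decide +kernel)
  GF := (allN_iff 3 IS.chkGF).mp (by decide +kernel)
  P := (allN_iff 3 IS.chkPent).mp (by decide +kernel)

theorem IS9_ok : IS.OkB IS9 where
  N := by decide +kernel
  A := (allN_iff 3 (IS.chkHA IS9)).mp (by decide +kernel)
  B := (allN_iff 3 (IS.chkHB IS9)).mp (by decide +kernel)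

theorem IS7_ok : IS.OkB IS7 where
  N := by decide +kernel
  A := (allN_iff 3 (IS.chkHA IS7)).mp (by decide +kernel)
  B := (allN_iff 3 (IS.chkHB IS7)).mp (by decide +kernel)

theorem ISd_ok : IS.chkD ISd = true := by decide +kernel

end H24PV
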