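import Pool.Agent.H24.PV.DtDef

/-!
# Tables: braiding and duality of SA (generated)
-/

namespace H24PV

/-- The braiding. -/
noncomputable def SAb : TBr 7 where
  lR a b c := Nat.mod (Nat.shiftRight 0x1000000000001800000000000000000000000800000000001000000000001800000000000000000000000000000000001800000000001f001300000006001c0000000d000500000014000e0000001b001700000000000000000000000000000000000000000006001c0000000c000400180012000c000200180014000c0000001c0016000000000000000000000000000800000000000d000500000012000c000200170013000b001f001a0014000a0000001d0015000000000000000000000010000000000014000e000000180014000c0000001a0014000a0000001c001400080000001e00140000000000000000001800000000001b001700000000001c001600000000001d001500000000001e001400000000001f00130000000000000000000000000000000000000000000000000000000000000000000000000000000000000000000000000000000000000000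
    (Nat.mul 8 (Nat.add (Nat.mul (Nat.add (Nat.mul a 7) b) 7) c))) 256

/-- Duality. -/
noncomputable def SAd : TDu 7 where
  du := getL [0, 1, 2, 3, 4, 5, 6]
  lE := getL [0x80808084, 0x80807c80, 0x8084807c, 0x7c808880, 0x8084807c, 0x80807c80, 0x80808084]

end H24PV
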