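import Pool.Agent.H24.PV.TbLA
import Pool.Agent.H24.PV.TbSA
import Pool.Agent.H24.PV.TbSAR
import Pool.Agent.H24.PV.TbIS

/-!
# Kernel checks: the algebra `LA` over `SA × SA × IS`
-/

set_option maxRecDepth 100000

namespace H24PV

theorem LA_As : allN 12 (LA.chkAs SA IS) = true := by decide +kernel

theorem LA_ok : LA.Ok SA IS SAb IS9 true where
  Su := by decide +kernel
  As := (allN_iff 12 (LA.chkAs SA IS)).mp LA_As
  Co := by decide +kernel
  Ca := by decide +kernel
  Sw := by decide +kernel

end H24PV
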