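import Pool.Agent.H24.PV.DtDef

/-!
# Tables: braiding and duality of SB (generated)
-/

namespace H24PV

/-- The braiding. -/
noncomputable def SBb : TBr 7 where
  lR a b c := Nat.mod (Nat.shiftRight 0x1000000000000800000000000000000000001800000000001000000000000800000000000000000000000000000000000800050009000000000000001200140000001b00130000001c000a0000000000000011001d000000000000000000000000000000000012001400000004000c00080016000400060008001c0004000000140002000000000000000000000000001800000000001b001300000016000400060009000d00050011000e001c001e0000000b000300000000000000000000001000000000001c000a00000008001c00040000000e001c001e00000014001c00180000001a001c0000000000000000000800000000000000000011001d0014000200000000000b000300000000001a001c00050009000000000000000000000000000000000000000000000000000000000000000000000000000000000000000000000000000000000000000000000000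
    (Nat.mul 8 (Nat.add (Nat.mul (Nat.add (Nat.mul a 7) b) 7) c))) 256

/-- Duality. -/
noncomputable def SBd : TDu 7 where
  du := getL [0, 5, 2, 3, 4, 1, 6]
  lE := getL [0x80808084, 0x84807480, 0x807c808c, 0x7c809080, 0x807c808c, 0x84807480, 0x80808084]

end H24PV
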