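import Pool.Agent.H24.PV.TbLB
import Pool.Agent.H24.PV.TbSB
import Pool.Agent.H24.PV.TbSBR
import Pool.Agent.H24.PV.TbIS

/-!
# Kernel checks: the algebra `LB` over `SB × SB × IS`
-/

set_option maxRecDepth 100000

namespace H24PV

theorem LB_As : allN 12 (LB.chkAs SB IS) = true := by decide +kernel

theorem LB_ok : LB.Ok SB IS SBb IS7 false where
  Su := by decide +kernel
  As := (allN_iff 12 (LB.chkAs SB IS)).mp LB_As
  Co := by decide +kernel
  Ca := by decide +kernel
  Sw := by decide +kernel

end H24PV
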