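import Pool.Agent.H24.PV.TbSA
import Pool.Agent.H24.PV.TbSAR

/-!
# Kernel checks: SA
-/

set_option maxRecDepth 100000

namespace H24PV

theorem SA_P : allN 7 SA.chkPent = true := by decide +kernel

theorem SA_ok : SA.Ok where
  N := by decide +kernel
  U := by decide +kernel
  FG := (allN_iff 7 SA.chkFG).mp (by decide +kernel)
  GF := (allN_iff 7 SA.chkGF).mp (by decide +kernel)
  P := (allN_iff 7 SA.chkPent).mp SA_P

theorem SAb_ok : SA.OkB SAb where
  N := by decide +kernel
  A := (allN_iff 7 (SA.chkHA SAb)).mp (by decide +kernel)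
  B := (allN_iff 7 (SA.chkHB SAb)).mp (by decide +kernel)

theorem SAd_ok : SA.chkD SAd = true := by decide +kernel

end H24PV
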