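import Pool.Agent.H24.PV.TbSB
import Pool.Agent.H24.PV.TbSBR

/-!
# Kernel checks: SB
-/

set_option maxRecDepth 100000

namespace H24PV

theorem SB_P : allN 7 SB.chkPent = true := by decide +kernel

theorem SB_ok : SB.Ok where
  N := by decide +kernel
  U := by decide +kernel
  FG := (allN_iff 7 SB.chkFG).mp (by decide +kernel)
  GF := (allN_iff 7 SB.chkGF).mp (by decide +kernel)
  P := (allN_iff 7 SB.chkPent).mp SB_P

theorem SBb_ok : SB.OkB SBb where
  N := by decide +kernel
  A := (allN_iff 7 (SB.chkHA SBb)).mp (by decide +kernel)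
  B := (allN_iff 7 (SB.chkHB SBb)).mp (by decide +kernel)

theorem SBd_ok : SB.chkD SBd = true := by decide +kernel

end H24PV
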