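import Pool.Agent.H24.PV.DaDef

/-!
# CxDef: crossing fusion data with a group acting on the labels

All fields are scalar identities.  `FG`, `GF`, `pentagon`: the `Γ`-components of the channels are
forced; the remaining sum over `L` is reindexed by the bijection `f ↦ g • f`
(`Fintype.sum_equiv (MulAction.toPerm g)` / `Fintype.sum_bijective`), and the factor of the form
`F b (h • c) (..)` is rewritten with `F_inv a.2` as in:
`F (b.1) (b.2 • c.1) ((b.2 * c.2) • d.1) k.1 h.1 (b.2 • l.1) =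
 F (a.2 • b.1) ((a.2 * b.2) • c.1) ((a.2 * b.2 * c.2) • d.1) (a.2 • k.1) (a.2 • h.1)
   ((a.2 * b.2) • l.1)`.
-/

universe u

namespace H24PV

variable {k : Type u} [Field k] {L : Type} [Fintype L] [DecidableEq L]

theorem CxDef_sum {Γ : Type} [Group Γ] [Fintype Γ] [DecidableEq Γ] [MulAction Γ L] (g γ : Γ)
    (X : L → k) : ∑ f : L × Γ, (if f.2 = γ then X (g • f.1) else 0) = ∑ f, X f := by
  rw [Fintype.sum_prod_type]
  have h1 : ∀ x : L, ∑ y : Γ, (if (x, y).2 = γ then X (g • (x, y).1) else 0) = X (g • x) := by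
    intro x
    show ∑ y : Γ, (if y = γ then X (g • x) else 0) = X (g • x)
    rw [Finset.sum_ite_eq' Finset.univ γ (fun _ => X (g • x)), if_pos (Finset.mem_univ _)]
  rw [Finset.sum_congr rfl (fun x _ => h1 x)]
  exact Equiv.sum_comp (MulAction.toPerm g) X

/-- Crossed product of fusion data with a finite group acting on the labels. -/
def FData.cross (D : FData k L) (Γ : Type) [Group Γ] [Fintype Γ] [DecidableEq Γ]
    [MulAction Γ L] (S : FSym D Γ) : FData k (L × Γ) where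
  one := (D.one, 1)
  N a b c := D.N a.1 (a.2 • b.1) c.1 && decide (c.2 = a.2 * b.2)
  F a b c d e f := if e.2 = a.2 * b.2 ∧ f.2 = b.2 * c.2 ∧ d.2 = a.2 * b.2 * c.2 then
    D.F a.1 (a.2 • b.1) ((a.2 * b.2) • c.1) d.1 e.1 (a.2 • f.1) else 0
  G a b c d f e := if e.2 = a.2 * b.2 ∧ f.2 = b.2 * c.2 ∧ d.2 = a.2 * b.2 * c.2 then
    D.G a.1 (a.2 • b.1) ((a.2 * b.2) • c.1) d.1 (a.2 • f.1) e.1 else 0
  N_one_left := by
    rintro ⟨a1, a2⟩ ⟨b1, b2⟩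
    show (D.N D.one ((1 : Γ) • a1) b1 && decide (b2 = 1 * a2)) = decide ((a1, a2) = (b1, b2))
    rw [one_smul, one_mul, D.N_one_left, ← Bool.decide_and]
    congr 1
    rw [Prod.mk.injEq, eq_comm (a := b2)]
  N_one_right := by
    rintro ⟨a1, a2⟩ ⟨b1, b2⟩
    show (D.N a1 (a2 • D.one) b1 && decide (b2 = a2 * 1)) = decide ((a1, a2) = (b1, b2))
    rw [S.one_inv, mul_one, D.N_one_right, ← Bool.decide_and]
    congr 1
    rw [Prod.mk.injEq, eq_comm (a := b2)]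
  F_supp := by
    rintro ⟨a1, a2⟩ ⟨b1, b2⟩ ⟨c1, c2⟩ ⟨d1, d2⟩ ⟨e1, e2⟩ ⟨f1, f2⟩ h
    by_cases hc : e2 = a2 * b2 ∧ f2 = b2 * c2 ∧ d2 = a2 * b2 * c2
    · obtain ⟨rfl, rfl, rfl⟩ := hc
      have h1 : D.F a1 (a2 • b1) ((a2 * b2) • c1) d1 e1 (a2 • f1) ≠ 0 := by
        intro h0
        apply h
        exact (if_pos ⟨rfl, rfl, rfl⟩).trans h0
      obtain ⟨h2, h3, h4, h5⟩ := D.F_supp h1
      rw [mul_smul, S.N_inv] at h4
      refine ⟨?_, ?_, ?_, ?_⟩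
      · show (D.N a1 (a2 • b1) e1 && decide (a2 * b2 = a2 * b2)) = true
        rw [h2, decide_eq_true rfl, Bool.true_and]
      · show (D.N e1 ((a2 * b2) • c1) d1 && decide (a2 * b2 * c2 = a2 * b2 * c2)) = true
        rw [h3, decide_eq_true rfl, Bool.true_and]
      · show (D.N b1 (b2 • c1) f1 && decide (b2 * c2 = b2 * c2)) = true
        rw [h4, decide_eq_true rfl, Bool.true_and]
      · show (D.N a1 (a2 • f1) d1 && decide (a2 * b2 * c2 = a2 * (b2 * c2))) = true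
        rw [h5, decide_eq_true (mul_assoc a2 b2 c2), Bool.true_and]
    · exact absurd (if_neg hc) h
  G_supp := by
    rintro ⟨a1, a2⟩ ⟨b1, b2⟩ ⟨c1, c2⟩ ⟨d1, d2⟩ ⟨f1, f2⟩ ⟨e1, e2⟩ h
    by_cases hc : e2 = a2 * b2 ∧ f2 = b2 * c2 ∧ d2 = a2 * b2 * c2
    · obtain ⟨rfl, rfl, rfl⟩ := hc
      have h1 : D.G a1 (a2 • b1) ((a2 * b2) • c1) d1 (a2 • f1) e1 ≠ 0 := by
        intro h0
        apply h
        exact (if_pos ⟨rfl, rfl, rfl⟩).trans h0
      obtain ⟨h2, h3, h4, h5⟩ := D.G_supp h1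
      rw [mul_smul, S.N_inv] at h4
      refine ⟨?_, ?_, ?_, ?_⟩
      · show (D.N a1 (a2 • b1) e1 && decide (a2 * b2 = a2 * b2)) = true
        rw [h2, decide_eq_true rfl, Bool.true_and]
      · show (D.N e1 ((a2 * b2) • c1) d1 && decide (a2 * b2 * c2 = a2 * b2 * c2)) = true
        rw [h3, decide_eq_true rfl, Bool.true_and]
      · show (D.N b1 (b2 • c1) f1 && decide (b2 * c2 = b2 * c2)) = true
        rw [h4, decide_eq_true rfl, Bool.true_and]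
      · show (D.N a1 (a2 • f1) d1 && decide (a2 * b2 * c2 = a2 * (b2 * c2))) = true
        rw [h5, decide_eq_true (mul_assoc a2 b2 c2), Bool.true_and]
    · exact absurd (if_neg hc) h
  FG := by
    rintro ⟨a1, a2⟩ ⟨b1, b2⟩ ⟨c1, c2⟩ ⟨d1, d2⟩ ⟨e1, e2⟩ ⟨e1', e2'⟩
    by_cases hc : e2 = a2 * b2 ∧ d2 = a2 * b2 * c2
    · obtain ⟨rfl, rfl⟩ := hc
      by_cases he : e2' = a2 * b2
      · subst he
        have h1 : ∀ f : L × Γ, ((if a2 * b2 = a2 * b2 ∧ f.2 = b2 * c2 ∧ a2 * b2 * c2 = a2 * b2 * c2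
            then D.F a1 (a2 • b1) ((a2 * b2) • c1) d1 e1 (a2 • f.1) else 0) *
            (if a2 * b2 = a2 * b2 ∧ f.2 = b2 * c2 ∧ a2 * b2 * c2 = a2 * b2 * c2
            then D.G a1 (a2 • b1) ((a2 * b2) • c1) d1 (a2 • f.1) e1' else 0)) =
            (if f.2 = b2 * c2 then (fun x => D.F a1 (a2 • b1) ((a2 * b2) • c1) d1 e1 x *
              D.G a1 (a2 • b1) ((a2 * b2) • c1) d1 x e1') (a2 • f.1) else 0) := by
          intro f
          by_cases hf : f.2 = b2 * c2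
          · rw [if_pos ⟨rfl, hf, rfl⟩, if_pos ⟨rfl, hf, rfl⟩, if_pos hf]
          · rw [if_neg (fun h => hf h.2.1), if_neg hf, zero_mul]
        refine (Finset.sum_congr rfl (fun f _ => h1 f)).trans ?_
        refine (CxDef_sum a2 (b2 * c2) (fun x => D.F a1 (a2 • b1) ((a2 * b2) • c1) d1 e1 x *
          D.G a1 (a2 • b1) ((a2 * b2) • c1) d1 x e1')).trans ?_
        rw [D.FG]
        congr 1
        show (e1 = e1' ∧ D.N a1 (a2 • b1) e1 = true ∧ D.N e1 ((a2 * b2) • c1) d1 = true) =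
          ((e1, a2 * b2) = (e1', a2 * b2) ∧
            (D.N a1 (a2 • b1) e1 && decide (a2 * b2 = a2 * b2)) = true ∧
            (D.N e1 ((a2 * b2) • c1) d1 && decide (a2 * b2 * c2 = a2 * b2 * c2)) = true)
        simp
      · refine (Finset.sum_eq_zero ?_).trans (if_neg ?_).symm
        · intro f _
          exact mul_eq_zero_of_right _ (if_neg (fun h => he h.1))
        · rintro ⟨h1, _⟩
          exact he (Prod.mk.inj h1).2.symm
    · refine (Finset.sum_eq_zero ?_).trans (if_neg ?_).symm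
      · intro f _
        exact mul_eq_zero_of_left (if_neg (fun h => hc ⟨h.1, h.2.2⟩)) _
      · rintro ⟨_, h2, h3⟩
        replace h2 : (D.N a1 (a2 • b1) e1 && decide (e2 = a2 * b2)) = true := h2
        replace h3 : (D.N e1 (e2 • c1) d1 && decide (d2 = e2 * c2)) = true := h3
        rw [Bool.and_eq_true, decide_eq_true_iff] at h2 h3
        refine hc ⟨h2.2, ?_⟩
        rw [h3.2, h2.2]
  GF := by
    rintro ⟨a1, a2⟩ ⟨b1, b2⟩ ⟨c1, c2⟩ ⟨d1, d2⟩ ⟨f1, f2⟩ ⟨f1', f2'⟩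
    by_cases hc : f2 = b2 * c2 ∧ d2 = a2 * b2 * c2
    · obtain ⟨rfl, rfl⟩ := hc
      by_cases he : f2' = b2 * c2
      · subst he
        have h1 : ∀ e : L × Γ, ((if e.2 = a2 * b2 ∧ b2 * c2 = b2 * c2 ∧ a2 * b2 * c2 = a2 * b2 * c2
            then D.G a1 (a2 • b1) ((a2 * b2) • c1) d1 (a2 • f1) e.1 else 0) *
            (if e.2 = a2 * b2 ∧ b2 * c2 = b2 * c2 ∧ a2 * b2 * c2 = a2 * b2 * c2
            then D.F a1 (a2 • b1) ((a2 * b2) • c1) d1 e.1 (a2 • f1') else 0)) =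
            (if e.2 = a2 * b2 then (fun x => D.G a1 (a2 • b1) ((a2 * b2) • c1) d1 (a2 • f1) x *
              D.F a1 (a2 • b1) ((a2 * b2) • c1) d1 x (a2 • f1')) ((1 : Γ) • e.1) else 0) := by
          intro e
          by_cases hf : e.2 = a2 * b2
          · rw [if_pos ⟨hf, rfl, rfl⟩, if_pos ⟨hf, rfl, rfl⟩, if_pos hf, one_smul]
          · rw [if_neg (fun h => hf h.1), if_neg hf, zero_mul]
        refine (Finset.sum_congr rfl (fun f _ => h1 f)).trans ?_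
        refine (CxDef_sum (1 : Γ) (a2 * b2) (fun x => D.G a1 (a2 • b1) ((a2 * b2) • c1) d1
          (a2 • f1) x * D.F a1 (a2 • b1) ((a2 * b2) • c1) d1 x (a2 • f1'))).trans ?_
        rw [D.GF]
        congr 1
        show (a2 • f1 = a2 • f1' ∧ D.N (a2 • b1) ((a2 * b2) • c1) (a2 • f1) = true ∧
            D.N a1 (a2 • f1) d1 = true) =
          ((f1, b2 * c2) = (f1', b2 * c2) ∧
            (D.N b1 (b2 • c1) f1 && decide (b2 * c2 = b2 * c2)) = true ∧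
            (D.N a1 (a2 • f1) d1 && decide (a2 * b2 * c2 = a2 * (b2 * c2))) = true)
        rw [mul_smul, S.N_inv]
        simp [mul_assoc]
      · refine (Finset.sum_eq_zero ?_).trans (if_neg ?_).symm
        · intro e _
          exact mul_eq_zero_of_right _ (if_neg (fun h => he h.2.1))
        · rintro ⟨h1, _⟩
          exact he (Prod.mk.inj h1).2.symm
    · refine (Finset.sum_eq_zero ?_).trans (if_neg ?_).symm
      · intro e _
        exact mul_eq_zero_of_left (if_neg (fun h => hc ⟨h.2.1, h.2.2⟩)) _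
      · rintro ⟨_, h2, h3⟩
        replace h2 : (D.N b1 (b2 • c1) f1 && decide (f2 = b2 * c2)) = true := h2
        replace h3 : (D.N a1 (a2 • f1) d1 && decide (d2 = a2 * f2)) = true := h3
        rw [Bool.and_eq_true, decide_eq_true_iff] at h2 h3
        refine hc ⟨h2.2, ?_⟩
        rw [h3.2, h2.2, mul_assoc]
  F_one_left := by
    rintro ⟨b1, b2⟩ ⟨c1, c2⟩ ⟨d1, d2⟩ h
    replace h : (D.N b1 (b2 • c1) d1 && decide (d2 = b2 * c2)) = true := h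
    rw [Bool.and_eq_true, decide_eq_true_iff] at h
    obtain ⟨h1, rfl⟩ := h
    show (if b2 = 1 * b2 ∧ b2 * c2 = b2 * c2 ∧ b2 * c2 = 1 * b2 * c2 then
      D.F D.one ((1 : Γ) • b1) (((1 : Γ) * b2) • c1) d1 b1 ((1 : Γ) • d1) else 0) = 1
    rw [one_mul, one_smul, one_smul, if_pos ⟨rfl, rfl, rfl⟩]
    exact D.F_one_left _ _ _ h1
  F_one_mid := by
    rintro ⟨a1, a2⟩ ⟨c1, c2⟩ ⟨d1, d2⟩ h
    replace h : (D.N a1 (a2 • c1) d1 && decide (d2 = a2 * c2)) = true := h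
    rw [Bool.and_eq_true, decide_eq_true_iff] at h
    obtain ⟨h1, rfl⟩ := h
    show (if a2 = a2 * 1 ∧ c2 = 1 * c2 ∧ a2 * c2 = a2 * 1 * c2 then
      D.F a1 (a2 • D.one) ((a2 * 1) • c1) d1 a1 (a2 • c1) else 0) = 1
    rw [one_mul, mul_one, S.one_inv, if_pos ⟨rfl, rfl, rfl⟩]
    exact D.F_one_mid _ _ _ h1
  F_one_right := by
    rintro ⟨a1, a2⟩ ⟨b1, b2⟩ ⟨d1, d2⟩ h
    replace h : (D.N a1 (a2 • b1) d1 && decide (d2 = a2 * b2)) = true := h
    rw [Bool.and_eq_true, decide_eq_true_iff] at h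
    obtain ⟨h1, rfl⟩ := h
    show (if a2 * b2 = a2 * b2 ∧ b2 = b2 * 1 ∧ a2 * b2 = a2 * b2 * 1 then
      D.F a1 (a2 • b1) ((a2 * b2) • D.one) d1 d1 (a2 • b1) else 0) = 1
    rw [mul_one, mul_one, S.one_inv, if_pos ⟨rfl, rfl, rfl⟩]
    exact D.F_one_right _ _ _ h1
  pentagon := by
    rintro ⟨a1, a2⟩ ⟨b1, b2⟩ ⟨c1, c2⟩ ⟨d1, d2⟩ ⟨e1, e2⟩ ⟨f1, f2⟩ ⟨g1, g2⟩ ⟨k1, k2⟩ ⟨l1, l2⟩
    show (if g2 = f2 * c2 ∧ l2 = c2 * d2 ∧ e2 = f2 * c2 * d2 then
        D.F f1 (f2 • c1) ((f2 * c2) • d1) e1 g1 (f2 • l1) else 0) *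
      (if f2 = a2 * b2 ∧ k2 = b2 * l2 ∧ e2 = a2 * b2 * l2 then
        D.F a1 (a2 • b1) ((a2 * b2) • l1) e1 f1 (a2 • k1) else 0) =
      ∑ h : L × Γ, (if f2 = a2 * b2 ∧ h.2 = b2 * c2 ∧ g2 = a2 * b2 * c2 then
        D.F a1 (a2 • b1) ((a2 * b2) • c1) g1 f1 (a2 • h.1) else 0) *
      (if g2 = a2 * h.2 ∧ k2 = h.2 * d2 ∧ e2 = a2 * h.2 * d2 then
        D.F a1 (a2 • h.1) ((a2 * h.2) • d1) e1 g1 (a2 • k1) else 0) *
      (if h.2 = b2 * c2 ∧ l2 = c2 * d2 ∧ k2 = b2 * c2 * d2 then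
        D.F b1 (b2 • c1) ((b2 * c2) • d1) k1 h.1 (b2 • l1) else 0)
    by_cases hall : f2 = a2 * b2 ∧ g2 = a2 * b2 * c2 ∧ l2 = c2 * d2 ∧ k2 = b2 * c2 * d2 ∧
        e2 = a2 * b2 * c2 * d2
    · obtain ⟨rfl, rfl, rfl, rfl, rfl⟩ := hall
      rw [if_pos ⟨rfl, rfl, rfl⟩, if_pos ⟨rfl, mul_assoc _ _ _, mul_assoc _ _ _⟩]
      have h1 : ∀ h : L × Γ, (if a2 * b2 = a2 * b2 ∧ h.2 = b2 * c2 ∧ a2 * b2 * c2 = a2 * b2 * c2 then
          D.F a1 (a2 • b1) ((a2 * b2) • c1) g1 f1 (a2 • h.1) else 0) *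
          (if a2 * b2 * c2 = a2 * h.2 ∧ b2 * c2 * d2 = h.2 * d2 ∧
              a2 * b2 * c2 * d2 = a2 * h.2 * d2 then
            D.F a1 (a2 • h.1) ((a2 * h.2) • d1) e1 g1 (a2 • k1) else 0) *
          (if h.2 = b2 * c2 ∧ c2 * d2 = c2 * d2 ∧ b2 * c2 * d2 = b2 * c2 * d2 then
            D.F b1 (b2 • c1) ((b2 * c2) • d1) k1 h.1 (b2 • l1) else 0) =
          (if h.2 = b2 * c2 then (fun x => D.F a1 (a2 • b1) ((a2 * b2) • c1) g1 f1 x *
            D.F a1 x ((a2 * b2 * c2) • d1) e1 g1 (a2 • k1) *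
            D.F (a2 • b1) ((a2 * b2) • c1) ((a2 * b2 * c2) • d1) (a2 • k1) x
              ((a2 * b2) • l1)) (a2 • h.1) else 0) := by
        rintro ⟨h1, h2⟩
        by_cases hh : h2 = b2 * c2
        · subst hh
          have e1' : a2 * b2 * c2 = a2 * (b2 * c2) := mul_assoc _ _ _
          rw [if_pos ⟨rfl, rfl, rfl⟩, if_pos ⟨e1', rfl, by rw [e1']⟩, if_pos ⟨rfl, rfl, rfl⟩,
            if_pos rfl]
          show _ = D.F a1 (a2 • b1) ((a2 * b2) • c1) g1 f1 (a2 • h1) *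
            D.F a1 (a2 • h1) ((a2 * b2 * c2) • d1) e1 g1 (a2 • k1) *
            D.F (a2 • b1) ((a2 * b2) • c1) ((a2 * b2 * c2) • d1) (a2 • k1) (a2 • h1)
              ((a2 * b2) • l1)
          have e2' : D.F (a2 • b1) ((a2 * b2) • c1) ((a2 * b2 * c2) • d1) (a2 • k1) (a2 • h1)
              ((a2 * b2) • l1) = D.F b1 (b2 • c1) ((b2 * c2) • d1) k1 h1 (b2 • l1) := by
            rw [e1', mul_smul a2 b2 c1, mul_smul a2 (b2 * c2) d1, mul_smul a2 b2 l1, S.F_inv]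
          rw [e2', e1']
        · rw [if_neg (fun h => hh h.2.1), if_neg hh, zero_mul, zero_mul]
      rw [Finset.sum_congr rfl (fun h _ => h1 h)]
      refine Eq.trans ?_ (CxDef_sum a2 (b2 * c2) (fun x =>
        D.F a1 (a2 • b1) ((a2 * b2) • c1) g1 f1 x * D.F a1 x ((a2 * b2 * c2) • d1) e1 g1 (a2 • k1) *
          D.F (a2 • b1) ((a2 * b2) • c1) ((a2 * b2 * c2) • d1) (a2 • k1) x
            ((a2 * b2) • l1))).symm
      exact D.pentagon _ _ _ _ _ _ _ _ _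
    · have hL : (if g2 = f2 * c2 ∧ l2 = c2 * d2 ∧ e2 = f2 * c2 * d2 then
          D.F f1 (f2 • c1) ((f2 * c2) • d1) e1 g1 (f2 • l1) else 0) *
          (if f2 = a2 * b2 ∧ k2 = b2 * l2 ∧ e2 = a2 * b2 * l2 then
          D.F a1 (a2 • b1) ((a2 * b2) • l1) e1 f1 (a2 • k1) else 0) = 0 := by
        by_cases h1 : g2 = f2 * c2 ∧ l2 = c2 * d2 ∧ e2 = f2 * c2 * d2
        · by_cases h2 : f2 = a2 * b2 ∧ k2 = b2 * l2 ∧ e2 = a2 * b2 * l2
          · exfalso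
            obtain ⟨rfl, rfl, rfl⟩ := h1
            obtain ⟨rfl, rfl, _⟩ := h2
            exact hall ⟨rfl, rfl, rfl, (mul_assoc _ _ _).symm, rfl⟩
          · rw [if_neg h2, mul_zero]
        · rw [if_neg h1, zero_mul]
      rw [hL]
      symm
      refine Finset.sum_eq_zero ?_
      rintro ⟨h1, h2⟩ _
      show (if f2 = a2 * b2 ∧ h2 = b2 * c2 ∧ g2 = a2 * b2 * c2 then
        D.F a1 (a2 • b1) ((a2 * b2) • c1) g1 f1 (a2 • h1) else 0) *
        (if g2 = a2 * h2 ∧ k2 = h2 * d2 ∧ e2 = a2 * h2 * d2 then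
        D.F a1 (a2 • h1) ((a2 * h2) • d1) e1 g1 (a2 • k1) else 0) *
        (if h2 = b2 * c2 ∧ l2 = c2 * d2 ∧ k2 = b2 * c2 * d2 then
        D.F b1 (b2 • c1) ((b2 * c2) • d1) k1 h1 (b2 • l1) else 0) = 0
      by_cases g1' : f2 = a2 * b2 ∧ h2 = b2 * c2 ∧ g2 = a2 * b2 * c2
      · by_cases g2' : g2 = a2 * h2 ∧ k2 = h2 * d2 ∧ e2 = a2 * h2 * d2
        · by_cases g3' : h2 = b2 * c2 ∧ l2 = c2 * d2 ∧ k2 = b2 * c2 * d2
          · exfalso
            obtain ⟨r1, rfl, r2⟩ := g1'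
            obtain ⟨_, _, r3⟩ := g2'
            obtain ⟨_, r4, r5⟩ := g3'
            refine hall ⟨r1, r2, r4, r5, ?_⟩
            rw [r3, mul_assoc a2 b2 c2]
          · rw [if_neg g3', mul_zero]
        · rw [if_neg g2', mul_zero, zero_mul]
      · rw [if_neg g1', zero_mul, zero_mul]

/-- Duals in the crossed product: `(x, g)* = (g⁻¹ • x*, g⁻¹)`. -/
def FDual.cross {D : FData k L} (E : FDual D) (Γ : Type) [Group Γ] [Fintype Γ]
    [DecidableEq Γ] [MulAction Γ L] (S : FSym D Γ)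
    (hE : ∀ (g : Γ) x, E.dual (g • x) = g • E.dual x) : FDual (D.cross Γ S) where
  dual a := (a.2⁻¹ • E.dual a.1, a.2⁻¹)
  evc a := E.evc a.1
  dual_dual := by
    rintro ⟨a1, a2⟩
    show ((a2⁻¹)⁻¹ • E.dual (a2⁻¹ • E.dual a1), (a2⁻¹)⁻¹) = (a1, a2)
    rw [hE, E.dual_dual, inv_inv, smul_inv_smul]
  z1 := by
    rintro ⟨x1, x2⟩
    show (if 1 = x2 * x2⁻¹ ∧ 1 = x2⁻¹ * x2 ∧ x2 = x2 * x2⁻¹ * x2 then
      D.F x1 (x2 • (x2⁻¹ • E.dual x1)) ((x2 * x2⁻¹) • x1) x1 D.one (x2 • D.one) else 0) *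
      E.evc x1 = 1
    rw [if_pos ⟨(mul_inv_cancel x2).symm, (inv_mul_cancel x2).symm, by
      rw [mul_inv_cancel, one_mul]⟩, smul_inv_smul, mul_inv_cancel, one_smul, S.one_inv]
    exact E.z1 x1
  z2 := by
    rintro ⟨x1, x2⟩
    show (if 1 = x2⁻¹ * x2 ∧ 1 = x2 * x2⁻¹ ∧ x2⁻¹ = x2⁻¹ * x2 * x2⁻¹ then
      D.G (x2⁻¹ • E.dual x1) (x2⁻¹ • x1) ((x2⁻¹ * x2) • (x2⁻¹ • E.dual x1)) (x2⁻¹ • E.dual x1)
        (x2⁻¹ • D.one) D.one else 0) * E.evc x1 = 1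
    rw [if_pos ⟨(inv_mul_cancel x2).symm, (mul_inv_cancel x2).symm, by
      rw [inv_mul_cancel, one_mul]⟩, inv_mul_cancel, one_smul]
    have h := S.G_inv x2⁻¹ (E.dual x1) x1 (E.dual x1) (E.dual x1) D.one D.one
    rw [S.one_inv] at h ⊢
    rw [h]
    exact E.z2 x1

end H24PV
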