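import Pool.Agent.H24.PV.CyDef

/-!
# CyA: support, inverse, unit laws and commutativity for the crossed half braiding

`(D.cross Γ S).N (x, 1) y z = D.N x y.1 z.1 && (z.2 = y.2)` and
`(D.cross Γ S).N y (x, 1) z = D.N y.1 (y.2 • x) z.1 && (z.2 = y.2)`; `Q.x_eq`, `B.N_comm`,
`B.R_supp`, `B.R_ne`, `Q.lam_ne`; `lam 1 p = 1` from `lam_mul 1 1 p` and `lam_ne`.
-/

universe u

namespace H24PV

variable {k : Type u} [Field k] {L : Type} [Fintype L] [DecidableEq L]
  {D : FData k L} {P : Type} [Fintype P] [DecidableEq P] {A : Alg D P} {B : BData D}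
  {Γ : Type} [Group Γ] [Fintype Γ] [DecidableEq Γ] [MulAction Γ L] [MulAction Γ P]

namespace EqAlg
variable (S : FSym D Γ) (Q : EqAlg A B Γ)

theorem lam_one (p : P) : Q.lam 1 p = 1 := by
  have h := Q.lam_mul 1 1 p
  rw [one_smul, mul_one] at h
  exact mul_left_cancel₀ (Q.lam_ne 1 p) (by rw [mul_one]; exact h.symm)

private theorem cyA_N1 (p : P) (y z : L × Γ) :
    (D.cross Γ S).N (A.x p, 1) y z = true ↔ D.N (A.x p) y.1 z.1 = true ∧ z.2 = y.2 := by
  show (D.N (A.x p) ((1 : Γ) • y.1) z.1 && decide (z.2 = 1 * y.2)) = true ↔ _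
  rw [one_smul, one_mul, Bool.and_eq_true, decide_eq_true_eq]

include Q in
private theorem cyA_N2 (q : P) (y z : L × Γ) :
    (D.cross Γ S).N y (A.x q, 1) z = true ↔
      D.N (A.x (y.2 • q)) y.1 z.1 = true ∧ z.2 = y.2 := by
  show (D.N y.1 (y.2 • A.x q) z.1 && decide (z.2 = y.2 * 1)) = true ↔ _
  rw [mul_one, Bool.and_eq_true, decide_eq_true_eq, ← Q.x_eq, B.N_comm]

theorem hC_supp {y : L × Γ} {p q : P} {z : L × Γ} (h : Q.hC y p q z ≠ 0) :
    (D.cross Γ S).N (A.x p, 1) y z = true ∧ (D.cross Γ S).N y (A.x q, 1) z = true := by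
  unfold hC at h
  split_ifs at h with hc
  · obtain ⟨h1, rfl⟩ := hc
    have hR : B.R (A.x (y.2 • q)) y.1 z.1 ≠ 0 := left_ne_zero_of_mul h
    exact ⟨(cyA_N1 S _ y z).2 ⟨B.R_supp hR, h1⟩, (cyA_N2 S Q q y z).2 ⟨B.R_supp hR, h1⟩⟩
  · exact absurd rfl h

theorem hC'_supp {y : L × Γ} {p q : P} {z : L × Γ} (h : Q.hC' y q p z ≠ 0) :
    (D.cross Γ S).N (A.x p, 1) y z = true ∧ (D.cross Γ S).N y (A.x q, 1) z = true := by
  unfold hC' at h
  split_ifs at h with hc
  · obtain ⟨h1, rfl⟩ := hc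
    have hR : B.R (A.x (y.2 • q)) y.1 z.1 ≠ 0 := by
      intro h0
      rw [h0, inv_zero, zero_mul] at h
      exact h rfl
    exact ⟨(cyA_N1 S _ y z).2 ⟨B.R_supp hR, h1⟩, (cyA_N2 S Q q y z).2 ⟨B.R_supp hR, h1⟩⟩
  · exact absurd rfl h

theorem hC_hC' (y : L × Γ) (p p' : P) (z : L × Γ) :
    ∑ q, Q.hC y p q z * Q.hC' y q p' z =
      if p = p' ∧ (D.cross Γ S).N (A.x p, 1) y z = true then 1 else 0 := by
  rw [Finset.sum_eq_single (y.2⁻¹ • p)]
  · unfold hC hC'
    rw [smul_inv_smul]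
    by_cases hz : z.2 = y.2
    · by_cases hp : p' = p
      · subst hp
        rw [if_pos ⟨hz, rfl⟩, if_pos ⟨hz, rfl⟩]
        by_cases hN : D.N (A.x p') y.1 z.1 = true
        · rw [if_pos ⟨rfl, (cyA_N1 S _ y z).2 ⟨hN, hz⟩⟩]
          have h1 := B.R_ne hN
          have h2 := Q.lam_ne y.2 (y.2⁻¹ • p')
          field_simp
        · rw [if_neg (fun hh => hN ((cyA_N1 S _ y z).1 hh.2).1)]
          have h1 : B.R (A.x p') y.1 z.1 = 0 := by
            by_contra hc
            exact hN (B.R_supp hc)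
          rw [h1, zero_mul, zero_mul]
      · rw [if_neg (fun hh : z.2 = y.2 ∧ p' = p => hp hh.2), mul_zero,
          if_neg (fun hh => hp hh.1.symm)]
    · rw [if_neg (fun hh : z.2 = y.2 ∧ p = p => hz hh.1), zero_mul,
        if_neg (fun hh => hz ((cyA_N1 S _ y z).1 hh.2).2)]
  · intro q _ hq
    have : ¬ (z.2 = y.2 ∧ p = y.2 • q) := by
      rintro ⟨_, h⟩
      exact hq (by rw [h, inv_smul_smul])
    unfold hC
    rw [if_neg this, zero_mul]
  · intro h; exact absurd (Finset.mem_univ _) h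

theorem hC'_hC (y : L × Γ) (q q' : P) (z : L × Γ) :
    ∑ p, Q.hC' y q p z * Q.hC y p q' z =
      if q = q' ∧ (D.cross Γ S).N y (A.x q, 1) z = true then 1 else 0 := by
  rw [Finset.sum_eq_single (y.2 • q)]
  · unfold hC hC'
    by_cases hz : z.2 = y.2
    · by_cases hp : q = q'
      · subst hp
        rw [if_pos ⟨hz, rfl⟩, if_pos ⟨hz, rfl⟩]
        by_cases hN : D.N (A.x (y.2 • q)) y.1 z.1 = true
        · rw [if_pos ⟨rfl, (cyA_N2 S Q q y z).2 ⟨hN, hz⟩⟩]
          have h1 := B.R_ne hN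
          have h2 := Q.lam_ne y.2 q
          field_simp
        · rw [if_neg (fun hh => hN ((cyA_N2 S Q q y z).1 hh.2).1)]
          have h1 : B.R (A.x (y.2 • q)) y.1 z.1 = 0 := by
            by_contra hc
            exact hN (B.R_supp hc)
          rw [h1, zero_mul, mul_zero]
      · rw [if_neg (fun hh : z.2 = y.2 ∧ y.2 • q = y.2 • q' =>
            hp (MulAction.injective y.2 hh.2)), mul_zero, if_neg (fun hh => hp hh.1)]
    · rw [if_neg (fun hh : z.2 = y.2 ∧ y.2 • q = y.2 • q => hz hh.1), zero_mul,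
        if_neg (fun hh => hz ((cyA_N2 S Q q y z).1 hh.2).2)]
  · intro p _ hp
    unfold hC'
    rw [if_neg (fun hh => hp hh.2), zero_mul]
  · intro h; exact absurd (Finset.mem_univ _) h

theorem hC_unit (p q : P) (z : L × Γ) :
    Q.hC (D.one, 1) p q z = if p = q ∧ z = (A.x p, 1) then 1 else 0 := by
  obtain ⟨z1, z2⟩ := z
  unfold hC
  simp only [one_smul]
  by_cases hz : z2 = 1
  · subst hz
    by_cases hp : p = q
    · subst hp
      rw [if_pos ⟨rfl, rfl⟩, lam_one, mul_one]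
      by_cases hx : z1 = A.x p
      · subst hx
        rw [if_pos ⟨rfl, rfl⟩]
        exact B.R_one_right _
      · rw [if_neg (fun hh => hx (congrArg Prod.fst hh.2))]
        by_contra hc
        have h1 := B.R_supp hc
        rw [D.N_one_right, decide_eq_true_eq] at h1
        exact hx h1.symm
    · rw [if_neg (fun hh => hp hh.2), if_neg (fun hh => hp hh.1)]
  · rw [if_neg (fun hh => hz hh.1), if_neg (fun hh => hz (congrArg Prod.snd hh.2))]

theorem hC_u (y : L × Γ) (q : P) (z : L × Γ) :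
    Q.hC y A.u q z = if q = A.u ∧ z = y then 1 else 0 := by
  obtain ⟨y1, y2⟩ := y
  obtain ⟨z1, z2⟩ := z
  unfold hC
  simp only
  by_cases hz : z2 = y2
  · subst hz
    by_cases hq : q = A.u
    · subst hq
      rw [if_pos ⟨rfl, (Q.u_eq z2).symm⟩, Q.lam_u, mul_one, A.x_u]
      by_cases hx : z1 = y1
      · subst hx
        rw [if_pos ⟨rfl, rfl⟩]
        exact B.R_one_left _
      · rw [if_neg (fun hh => hx (congrArg Prod.fst hh.2))]
        by_contra hc
        have h1 := B.R_supp hc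
        rw [D.N_one_left, decide_eq_true_eq] at h1
        exact hx h1.symm
    · rw [if_neg, if_neg (fun hh => hq hh.1)]
      rintro ⟨_, h⟩
      apply hq
      apply MulAction.injective z2
      show z2 • q = z2 • A.u
      rw [← h, Q.u_eq]
  · rw [if_neg (fun hh => hz hh.1), if_neg (fun hh => hz (congrArg Prod.snd hh.2))]

theorem hC_comm (hc : A.Comm B) (p q r : P) :
    ∑ p', Q.hC (A.x q, 1) p p' (A.x r, 1) * A.m q p' r = A.m p q r := by
  rw [Finset.sum_eq_single p]
  · unfold hC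
    simp only [one_smul]
    rw [if_pos ⟨trivial, trivial⟩, lam_one, mul_one]
    exact hc p q r
  · intro p' _ hp
    unfold hC
    simp only [one_smul]
    rw [if_neg (fun hh => hp hh.2.symm), zero_mul]
  · intro h; exact absurd (Finset.mem_univ _) h

end EqAlg
end H24PV
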