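import Pool.Agent.H24.PV.CyDef

/-!
# CyB: associativity and the hexagon for the crossed algebra data

* `assocC`: all labels have trivial `Γ`-component; if `a.2 ≠ 1` both sides vanish.
* `hexC`: `r` is forced to be `y.2⁻¹ • p` and `q = y'.2⁻¹ • r`; with
  `a = x p`, `b = y.1`, `c = y.2 • y'.1` it becomes `B.hexA a b c v.1 e.1 (y.2 • f.1)` times
  `lam y.2 r * lam y'.2 q = lam (y.2 * y'.2) q`; on the right the channel `w` has
  `w.2 = y.2 * y'.2`.  Use `Q.x_eq`, `R_inv` (`R (x r) y'.1 f.1 = R (y.2 • x r) (y.2 • y'.1)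
  (y.2 • f.1)`), `F_one`-free; if the group components do not match both sides vanish.
-/

universe u

namespace H24PV

variable {k : Type u} [Field k] {L : Type} [Fintype L] [DecidableEq L]
  {D : FData k L} {P : Type} [Fintype P] [DecidableEq P] {A : Alg D P} {B : BData D}
  {Γ : Type} [Group Γ] [Fintype Γ] [DecidableEq Γ] [MulAction Γ L] [MulAction Γ P]

namespace EqAlg
variable (S : FSym D Γ) (Q : EqAlg A B Γ)

theorem crF (a b c d e f : L × Γ) : (D.cross Γ S).F a b c d e f =
    if e.2 = a.2 * b.2 ∧ f.2 = b.2 * c.2 ∧ d.2 = a.2 * b.2 * c.2 then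
      D.F a.1 (a.2 • b.1) ((a.2 * b.2) • c.1) d.1 e.1 (a.2 • f.1) else 0 := rfl

include Q in
theorem assocC (p q r s : P) (a : L × Γ) :
    ∑ w, (if ((A.x w, 1) : L × Γ) = a then A.m p q w * A.m w r s else 0) =
      ∑ w, (D.cross Γ S).F (A.x p, 1) (A.x q, 1) (A.x r, 1) (A.x s, 1) a (A.x w, 1) *
        (A.m q r w * A.m p w s) := by
  obtain ⟨a1, a2⟩ := a
  by_cases ha : a2 = 1
  · subst ha
    have h := A.assoc p q r s a1
    have h1 : ∀ w, (if ((A.x w, 1) : L × Γ) = (a1, 1) then A.m p q w * A.m w r s else 0) =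
        if A.x w = a1 then A.m p q w * A.m w r s else 0 := by
      intro w
      by_cases hw : A.x w = a1
      · rw [if_pos hw, if_pos (by rw [hw])]
      · rw [if_neg hw, if_neg (fun hc => hw (Prod.mk.inj hc).1)]
    rw [Finset.sum_congr rfl fun w _ => h1 w, h]
    refine Finset.sum_congr rfl fun w _ => ?_
    rw [crF]
    simp
  · rw [Finset.sum_eq_zero, Finset.sum_eq_zero]
    · intro w _
      rw [crF, if_neg, zero_mul]
      intro hc
      exact ha (by simpa using hc.1)
    · intro w _
      rw [if_neg]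
      intro hc
      exact ha (Prod.mk.inj hc).2.symm

theorem hexC (p q : P) (y y' v e f : L × Γ) :
    ∑ r, Q.hC y p r e * (D.cross Γ S).F y (A.x r, 1) y' v e f * Q.hC y' r q f =
      ∑ w, (D.cross Γ S).F (A.x p, 1) y y' v e w * Q.hC w p q v *
        (D.cross Γ S).F y y' (A.x q, 1) v w f := by
  by_cases hK : e.2 = y.2 ∧ f.2 = y'.2 ∧ v.2 = y.2 * y'.2 ∧ p = (y.2 * y'.2) • q
  · obtain ⟨h1, h2, h3, h4⟩ := hK
    have hp : y.2 • y'.2 • q = p := by rw [h4, mul_smul]
    have hxp : (y.2 * y'.2) • A.x q = A.x p := by rw [← Q.x_eq, h4]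
    have hxp2 : y.2 • A.x (y'.2 • q) = A.x p := by rw [← Q.x_eq, hp]
    rw [Finset.sum_eq_single (y'.2 • q), Fintype.sum_prod_type]
    · have hR : ∀ w1 : L, (∑ w2 : Γ, (D.cross Γ S).F (A.x p, 1) y y' v e (w1, w2) *
          Q.hC (w1, w2) p q v * (D.cross Γ S).F y y' (A.x q, 1) v (w1, w2) f) =
          (D.F (A.x p) y.1 (y.2 • y'.1) v.1 e.1 w1 * B.R (A.x p) w1 v.1 *
            D.F y.1 (y.2 • y'.1) (A.x p) v.1 w1 (y.2 • f.1)) * Q.lam (y.2 * y'.2) q := by
        intro w1
        rw [Finset.sum_eq_single (y.2 * y'.2)]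
        · have c1 : (D.cross Γ S).F (A.x p, 1) y y' v e (w1, y.2 * y'.2) =
              D.F (A.x p) y.1 (y.2 • y'.1) v.1 e.1 w1 := by
            rw [crF, if_pos]
            · simp
            · simp [h1, h3]
          have c2 : Q.hC (w1, y.2 * y'.2) p q v = B.R (A.x p) w1 v.1 * Q.lam (y.2 * y'.2) q := by
            unfold hC
            rw [if_pos ⟨h3, h4⟩]
          have c3 : (D.cross Γ S).F y y' (A.x q, 1) v (w1, y.2 * y'.2) f =
              D.F y.1 (y.2 • y'.1) (A.x p) v.1 w1 (y.2 • f.1) := by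
            rw [crF, if_pos]
            · simp only [hxp]
            · simp [h2, h3]
          rw [c1, c2, c3]
          ring
        · intro w2 _ hw2
          rw [crF, if_neg]
          · ring
          · intro hc
            exact hw2 hc.2.1
        · intro hc
          exact absurd (Finset.mem_univ _) hc
      rw [Finset.sum_congr rfl fun w1 _ => hR w1, ← Finset.sum_mul, ← B.hexA]
      have c1 : Q.hC y p (y'.2 • q) e = B.R (A.x p) y.1 e.1 * Q.lam y.2 (y'.2 • q) := by
        unfold hC
        rw [if_pos ⟨h1, hp.symm⟩]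
      have c2 : (D.cross Γ S).F y (A.x (y'.2 • q), 1) y' v e f =
          D.F y.1 (A.x p) (y.2 • y'.1) v.1 e.1 (y.2 • f.1) := by
        rw [crF, if_pos]
        · simp only [hxp2, mul_one]
        · simp [h1, h2, h3]
      have c3 : Q.hC y' (y'.2 • q) q f =
          B.R (A.x p) (y.2 • y'.1) (y.2 • f.1) * Q.lam y'.2 q := by
        unfold hC
        rw [if_pos ⟨h2, rfl⟩, ← hxp2, Q.R_inv]
      rw [c1, c2, c3, Q.lam_mul]
      ring
    · intro r _ hr
      have : Q.hC y' r q f = 0 := by
        unfold hC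
        rw [if_neg]
        intro hc
        exact hr hc.2
      rw [this, mul_zero]
    · intro hc
      exact absurd (Finset.mem_univ _) hc
  · rw [Finset.sum_eq_zero, Finset.sum_eq_zero]
    · intro w _
      by_contra hne
      apply hK
      have n1 := left_ne_zero_of_mul (left_ne_zero_of_mul hne)
      have n2 := right_ne_zero_of_mul (left_ne_zero_of_mul hne)
      have n3 := right_ne_zero_of_mul hne
      rw [crF] at n1 n3
      unfold hC at n2
      have m1 := (ite_ne_right_iff.1 n1).1
      have m2 := (ite_ne_right_iff.1 n2).1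
      have m3 := (ite_ne_right_iff.1 n3).1
      refine ⟨by simpa using m1.1, by simpa using m3.2.1, by simpa using m1.2.2, ?_⟩
      rw [← m3.1]
      exact m2.2
    · intro r _
      by_contra hne
      apply hK
      have n1 := left_ne_zero_of_mul (left_ne_zero_of_mul hne)
      have n2 := right_ne_zero_of_mul (left_ne_zero_of_mul hne)
      have n3 := right_ne_zero_of_mul hne
      rw [crF] at n2
      unfold hC at n1 n3
      have m1 := (ite_ne_right_iff.1 n1).1
      have m2 := (ite_ne_right_iff.1 n2).1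
      have m3 := (ite_ne_right_iff.1 n3).1
      refine ⟨m1.1, m3.1, by simpa using m2.2.2, ?_⟩
      rw [m1.2, m3.2, mul_smul]

end EqAlg
end H24PV
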