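import Pool.Agent.H24.PV.CyDef

/-!
# CyC: the multiplication is central on the crossed product

On the right `q' = y.2⁻¹ • q`, `p' = y.2⁻¹ • p` and the group components are forced
(`f.2 = g.2 = y.2`); with `Q.x_eq` the sum is
`lam y.2 q' * lam y.2 p' * m p' q' r * ∑_f ∑_g F a b c v e f * R b c f * G a c b v f g * R a c g *
 F c a b v g (y.2 • x r)` for `a = x p`, `b = x q`, `c = y.1`.  By `B.hexB` the sum over `g` with
`∑ G c a b v e' g * F c a b v g h = [e' = h]..` (`D.GF`) and `D.FG` the double sum is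
`[e.1 = y.2 • x r] R (e.1) c v` (admissible); now `Q.m_eq` with `g = y.2`:
`m (g•p') (g•q') (g•r) * lam g r = lam g p' * lam g q' * m p' q' r`.  The left side is the term
`w = y.2 • r`.
-/

universe u

namespace H24PV

variable {k : Type u} [Field k] {L : Type} [Fintype L] [DecidableEq L]
  {D : FData k L} {P : Type} [Fintype P] [DecidableEq P] {A : Alg D P} {B : BData D}
  {Γ : Type} [Group Γ] [Fintype Γ] [DecidableEq Γ] [MulAction Γ L] [MulAction Γ P]

/-- The double sum of the second hexagon. -/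
theorem BData.hexBB (B : BData D) (a b c v e h : L) :
    ∑ f, ∑ g, D.F a b c v e f * B.R b c f * D.G a c b v f g * B.R a c g * D.F c a b v g h =
      if e = h ∧ D.N a b e = true ∧ D.N e c v = true then B.R e c v else 0 := by
  have h1 : ∀ f g, D.F a b c v e f * B.R b c f * D.G a c b v f g * B.R a c g * D.F c a b v g h =
      ∑ e', (D.F a b c v e f * D.G a b c v f e') * (B.R e' c v *
        (D.G c a b v e' g * D.F c a b v g h)) := by
    intro f g
    have h2 := B.hexB a b c v f g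
    calc D.F a b c v e f * B.R b c f * D.G a c b v f g * B.R a c g * D.F c a b v g h =
        D.F a b c v e f * (B.R b c f * D.G a c b v f g * B.R a c g) * D.F c a b v g h := by ring
      _ = D.F a b c v e f * (∑ e', D.G a b c v f e' * B.R e' c v * D.G c a b v e' g) *
          D.F c a b v g h := by rw [h2]
      _ = _ := by
        rw [Finset.mul_sum, Finset.sum_mul]
        apply Finset.sum_congr rfl
        intro e' _
        ring
  have h3 : ∑ f, ∑ g, D.F a b c v e f * B.R b c f * D.G a c b v f g * B.R a c g *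
      D.F c a b v g h = ∑ e', (∑ f, D.F a b c v e f * D.G a b c v f e') *
        (B.R e' c v * (∑ g, D.G c a b v e' g * D.F c a b v g h)) := by
    calc ∑ f, ∑ g, D.F a b c v e f * B.R b c f * D.G a c b v f g * B.R a c g *
          D.F c a b v g h = ∑ f, ∑ g, ∑ e', (D.F a b c v e f * D.G a b c v f e') * (B.R e' c v *
            (D.G c a b v e' g * D.F c a b v g h)) :=
          Finset.sum_congr rfl (fun f _ => Finset.sum_congr rfl (fun g _ => h1 f g))
      _ = ∑ f, ∑ e', ∑ g, (D.F a b c v e f * D.G a b c v f e') * (B.R e' c v *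
            (D.G c a b v e' g * D.F c a b v g h)) :=
          Finset.sum_congr rfl (fun f _ => Finset.sum_comm)
      _ = ∑ e', ∑ f, ∑ g, (D.F a b c v e f * D.G a b c v f e') * (B.R e' c v *
            (D.G c a b v e' g * D.F c a b v g h)) := Finset.sum_comm
      _ = _ := by
        apply Finset.sum_congr rfl
        intro e' _
        rw [Finset.sum_mul]
        apply Finset.sum_congr rfl
        intro f _
        rw [Finset.mul_sum, Finset.mul_sum]
  rw [h3]
  simp only [D.FG, D.GF]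
  rw [Finset.sum_eq_single e]
  · rw [B.N_comm c e v]
    by_cases h5 : e = h ∧ D.N a b e = true ∧ D.N e c v = true
    · rw [if_pos h5, if_pos h5, if_pos ⟨rfl, h5.2.1, h5.2.2⟩]
      ring
    · rw [if_neg h5, if_neg h5, mul_zero, mul_zero]
  · intro e' _ hne
    rw [if_neg (fun h9 => hne h9.1.symm), zero_mul]
  · intro h9
    exact absurd (Finset.mem_univ _) h9

theorem cyc_sum {k : Type u} [Field k] {L Γ : Type} [Fintype L] [Fintype Γ] [DecidableEq Γ]
    (t : Γ) (H : L → k) :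
    ∑ f : L × Γ, (if f.2 = t then H f.1 else 0) = ∑ f₁, H f₁ := by
  rw [Fintype.sum_prod_type]
  apply Finset.sum_congr rfl
  intro f₁ _
  simp

namespace EqAlg
variable (S : FSym D Γ) (Q : EqAlg A B Γ)

theorem centralC (p q r : P) (y v e : L × Γ) :
    ∑ w, (if ((A.x w, 1) : L × Γ) = e then A.m p q w * Q.hC y w r v else 0) =
      ∑ f, ∑ q', ∑ g, ∑ p', (D.cross Γ S).F (A.x p, 1) (A.x q, 1) y v e f * Q.hC y q q' f *
        (D.cross Γ S).G (A.x p, 1) y (A.x q', 1) v f g * Q.hC y p p' g *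
        (D.cross Γ S).F y (A.x p', 1) (A.x q', 1) v g (A.x r, 1) * A.m p' q' r := by
  obtain ⟨q₀, hq₀⟩ : ∃ q₀, q₀ = y.2⁻¹ • q := ⟨_, rfl⟩
  obtain ⟨p₀, hp₀⟩ : ∃ p₀, p₀ = y.2⁻¹ • p := ⟨_, rfl⟩
  have hq : q = y.2 • q₀ := by rw [hq₀, smul_inv_smul]
  have hp : p = y.2 • p₀ := by rw [hp₀, smul_inv_smul]
  have hxq : y.2 • A.x q₀ = A.x q := by rw [hq, Q.x_eq]
  have hxp : y.2 • A.x p₀ = A.x p := by rw [hp, Q.x_eq]
  have hterm : ∀ (f : L × Γ) (q' : P) (g : L × Γ) (p' : P),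
      (D.cross Γ S).F (A.x p, 1) (A.x q, 1) y v e f * Q.hC y q q' f *
        (D.cross Γ S).G (A.x p, 1) y (A.x q', 1) v f g * Q.hC y p p' g *
        (D.cross Γ S).F y (A.x p', 1) (A.x q', 1) v g (A.x r, 1) * A.m p' q' r =
      if p' = p₀ then (if q' = q₀ then (if f.2 = y.2 then (if g.2 = y.2 then
        (if e.2 = 1 ∧ v.2 = y.2 then (Q.lam y.2 q₀ * Q.lam y.2 p₀ * A.m p₀ q₀ r) *
          (D.F (A.x p) (A.x q) y.1 v.1 e.1 f.1 * B.R (A.x q) y.1 f.1 *
            D.G (A.x p) y.1 (A.x q) v.1 f.1 g.1 * B.R (A.x p) y.1 g.1 *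
            D.F y.1 (A.x p) (A.x q) v.1 g.1 (y.2 • A.x r)) else 0) else 0) else 0) else 0)
      else 0 := by
    intro f q' g p'
    have hcF1 : (D.cross Γ S).F (A.x p, 1) (A.x q, 1) y v e f =
        if e.2 = 1 * 1 ∧ f.2 = 1 * y.2 ∧ v.2 = 1 * 1 * y.2 then
          D.F (A.x p) ((1 : Γ) • A.x q) (((1 : Γ) * 1) • y.1) v.1 e.1 ((1 : Γ) • f.1) else 0 := rfl
    have hcG : (D.cross Γ S).G (A.x p, 1) y (A.x q', 1) v f g =
        if g.2 = 1 * y.2 ∧ f.2 = y.2 * 1 ∧ v.2 = 1 * y.2 * 1 then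
          D.G (A.x p) ((1 : Γ) • y.1) (((1 : Γ) * y.2) • A.x q') v.1 ((1 : Γ) • f.1) g.1
          else 0 := rfl
    have hcF2 : (D.cross Γ S).F y (A.x p', 1) (A.x q', 1) v g (A.x r, 1) =
        if g.2 = y.2 * 1 ∧ (1 : Γ) = 1 * 1 ∧ v.2 = y.2 * 1 * 1 then
          D.F y.1 (y.2 • A.x p') ((y.2 * 1) • A.x q') v.1 g.1 (y.2 • A.x r) else 0 := rfl
    rw [hcF1, hcG, hcF2]
    unfold hC
    simp only [one_mul, mul_one, one_smul, true_and]
    by_cases h1 : p' = p₀
    · by_cases h2 : q' = q₀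
      · by_cases h3 : f.2 = y.2
        · by_cases h4 : g.2 = y.2
          · by_cases h5 : e.2 = 1
            · by_cases h6 : v.2 = y.2
              · subst h1 h2
                rw [if_pos ⟨h5, h3, h6⟩, if_pos ⟨h3, hq⟩, if_pos ⟨h4, h3, h6⟩, if_pos ⟨h4, hp⟩,
                  if_pos ⟨h4, h6⟩, if_pos rfl, if_pos rfl, if_pos h3, if_pos h4,
                  if_pos ⟨h5, h6⟩, hxq, hxp]
                ring
              · simp [h6]
            · simp [h5]
          · simp [h4]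
        · simp [h3]
      · have h7 : ¬ (f.2 = y.2 ∧ q = y.2 • q') := by
          rintro ⟨_, h8⟩
          apply h2
          rw [hq₀, h8, inv_smul_smul]
        rw [if_neg h7]
        simp [h2]
    · have h7 : ¬ (g.2 = y.2 ∧ p = y.2 • p') := by
        rintro ⟨_, h8⟩
        apply h1
        rw [hp₀, h8, inv_smul_smul]
      rw [if_neg h7]
      simp [h1]
  have hR : ∑ f, ∑ q', ∑ g, ∑ p', (D.cross Γ S).F (A.x p, 1) (A.x q, 1) y v e f * Q.hC y q q' f *
        (D.cross Γ S).G (A.x p, 1) y (A.x q', 1) v f g * Q.hC y p p' g *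
        (D.cross Γ S).F y (A.x p', 1) (A.x q', 1) v g (A.x r, 1) * A.m p' q' r =
      if e.2 = 1 ∧ v.2 = y.2 then (Q.lam y.2 q₀ * Q.lam y.2 p₀ * A.m p₀ q₀ r) *
        (if e.1 = y.2 • A.x r ∧ D.N (A.x p) (A.x q) e.1 = true ∧ D.N e.1 y.1 v.1 = true then
          B.R e.1 y.1 v.1 else 0) else 0 := by
    rw [← B.hexBB (A.x p) (A.x q) y.1 v.1 e.1 (y.2 • A.x r)]
    simp only [hterm, Finset.sum_ite_eq', Finset.mem_univ, if_true]
    have hg : ∀ (f : L × Γ) (q' : P), ∑ g : L × Γ, (if q' = q₀ then (if f.2 = y.2 then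
        (if g.2 = y.2 then (if e.2 = 1 ∧ v.2 = y.2 then
          (Q.lam y.2 q₀ * Q.lam y.2 p₀ * A.m p₀ q₀ r) *
          (D.F (A.x p) (A.x q) y.1 v.1 e.1 f.1 * B.R (A.x q) y.1 f.1 *
            D.G (A.x p) y.1 (A.x q) v.1 f.1 g.1 * B.R (A.x p) y.1 g.1 *
            D.F y.1 (A.x p) (A.x q) v.1 g.1 (y.2 • A.x r)) else 0) else 0) else 0) else 0) =
        if q' = q₀ then (if f.2 = y.2 then (∑ g₁ : L, (if e.2 = 1 ∧ v.2 = y.2 then
          (Q.lam y.2 q₀ * Q.lam y.2 p₀ * A.m p₀ q₀ r) *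
          (D.F (A.x p) (A.x q) y.1 v.1 e.1 f.1 * B.R (A.x q) y.1 f.1 *
            D.G (A.x p) y.1 (A.x q) v.1 f.1 g₁ * B.R (A.x p) y.1 g₁ *
            D.F y.1 (A.x p) (A.x q) v.1 g₁ (y.2 • A.x r)) else 0)) else 0) else 0 := by
      intro f q'
      by_cases h1 : q' = q₀
      · by_cases h2 : f.2 = y.2
        · simp only [if_pos h1, if_pos h2]
          exact cyc_sum y.2 (fun g₁ => if e.2 = 1 ∧ v.2 = y.2 then
            (Q.lam y.2 q₀ * Q.lam y.2 p₀ * A.m p₀ q₀ r) *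
            (D.F (A.x p) (A.x q) y.1 v.1 e.1 f.1 * B.R (A.x q) y.1 f.1 *
              D.G (A.x p) y.1 (A.x q) v.1 f.1 g₁ * B.R (A.x p) y.1 g₁ *
              D.F y.1 (A.x p) (A.x q) v.1 g₁ (y.2 • A.x r)) else 0)
        · simp only [if_neg h2, ite_self, Finset.sum_const_zero]
      · simp only [if_neg h1, Finset.sum_const_zero]
    simp only [hg, Finset.sum_ite_eq', Finset.mem_univ, if_true]
    rw [cyc_sum y.2 (fun f₁ => ∑ g₁ : L, (if e.2 = 1 ∧ v.2 = y.2 then
          (Q.lam y.2 q₀ * Q.lam y.2 p₀ * A.m p₀ q₀ r) *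
          (D.F (A.x p) (A.x q) y.1 v.1 e.1 f₁ * B.R (A.x q) y.1 f₁ *
            D.G (A.x p) y.1 (A.x q) v.1 f₁ g₁ * B.R (A.x p) y.1 g₁ *
            D.F y.1 (A.x p) (A.x q) v.1 g₁ (y.2 • A.x r)) else 0))]
    by_cases h1 : e.2 = 1 ∧ v.2 = y.2
    · simp only [if_pos h1]
      rw [Finset.mul_sum]
      apply Finset.sum_congr rfl
      intro f₁ _
      rw [Finset.mul_sum]
    · simp only [if_neg h1, Finset.sum_const_zero]
  have hLHS : ∑ w, (if ((A.x w, 1) : L × Γ) = e then A.m p q w * Q.hC y w r v else 0) =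
      if v.2 = y.2 ∧ ((y.2 • A.x r, 1) : L × Γ) = e then
        A.m p q (y.2 • r) * (B.R (y.2 • A.x r) y.1 v.1 * Q.lam y.2 r) else 0 := by
    rw [Finset.sum_eq_single (y.2 • r)]
    · unfold hC
      rw [Q.x_eq]
      by_cases h1 : v.2 = y.2
      · by_cases h2 : ((y.2 • A.x r, 1) : L × Γ) = e
        · rw [if_pos h2, if_pos ⟨h1, rfl⟩, if_pos ⟨h1, h2⟩]
        · rw [if_neg h2, if_neg (fun h3 => h2 h3.2)]
      · rw [if_neg (fun h3 : v.2 = y.2 ∧ y.2 • r = y.2 • r => h1 h3.1),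
          if_neg (fun h3 : v.2 = y.2 ∧ ((y.2 • A.x r, 1) : L × Γ) = e => h1 h3.1), mul_zero,
          ite_self]
    · intro w _ hw
      unfold hC
      rw [if_neg (fun h3 : v.2 = y.2 ∧ w = y.2 • r => hw h3.2), mul_zero, ite_self]
    · intro h9
      exact absurd (Finset.mem_univ _) h9
  rw [hLHS, hR]
  by_cases h1 : v.2 = y.2
  · by_cases h2 : ((y.2 • A.x r, 1) : L × Γ) = e
    · have he1 : e.1 = y.2 • A.x r := by rw [← h2]
      have he2 : e.2 = 1 := by rw [← h2]
      rw [if_pos ⟨h1, h2⟩, if_pos ⟨he2, h1⟩]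
      have hm := Q.m_eq y.2 p₀ q₀ r
      rw [← hp, ← hq] at hm
      by_cases h3 : D.N (A.x p) (A.x q) e.1 = true
      · by_cases h4 : D.N e.1 y.1 v.1 = true
        · rw [if_pos ⟨he1, h3, h4⟩, he1]
          calc A.m p q (y.2 • r) * (B.R (y.2 • A.x r) y.1 v.1 * Q.lam y.2 r) =
              (A.m p q (y.2 • r) * Q.lam y.2 r) * B.R (y.2 • A.x r) y.1 v.1 := by ring
            _ = (Q.lam y.2 p₀ * Q.lam y.2 q₀ * A.m p₀ q₀ r) * B.R (y.2 • A.x r) y.1 v.1 := by
              rw [hm]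
            _ = _ := by ring
        · have h5 : B.R (y.2 • A.x r) y.1 v.1 = 0 := by
            by_contra h6
            apply h4
            rw [he1]
            exact B.R_supp h6
          rw [if_neg (fun h6 => h4 h6.2.2), h5]
          ring
      · have h5 : A.m p q (y.2 • r) = 0 := by
          by_contra h6
          apply h3
          rw [he1, ← Q.x_eq]
          exact A.m_supp h6
        rw [if_neg (fun h6 => h3 h6.2.1), h5]
        ring
    · rw [if_neg (fun h3 : v.2 = y.2 ∧ ((y.2 • A.x r, 1) : L × Γ) = e => h2 h3.2)]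
      by_cases h4 : e.2 = 1 ∧ v.2 = y.2
      · have h5 : ¬ (e.1 = y.2 • A.x r) := by
          intro h6
          apply h2
          rw [← h6, ← h4.1]
        rw [if_pos h4, if_neg (fun h6 => h5 h6.1), mul_zero]
      · rw [if_neg h4]
  · rw [if_neg (fun h3 : v.2 = y.2 ∧ ((y.2 • A.x r, 1) : L × Γ) = e => h1 h3.1),
      if_neg (fun h3 : e.2 = 1 ∧ v.2 = y.2 => h1 h3.2)]

end EqAlg
end H24PV
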