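import Pool.Agent.H24.PV.CxDef

/-!
# CyDef: an equivariant commutative algebra gives central algebra data on the crossed product

`h y p q z = [z.2 = y.2 ∧ p = y.2 • q] R (x p) y.1 z.1 * lam y.2 q`.
The fields are proved in the rows CyA .. CyC about the functions `hC`, `hC'` below.
-/

universe u

namespace H24PV

variable {k : Type u} [Field k] {L : Type} [Fintype L] [DecidableEq L]
  {D : FData k L} {P : Type} [Fintype P] [DecidableEq P] {A : Alg D P} {B : BData D}
  {Γ : Type} [Group Γ] [Fintype Γ] [DecidableEq Γ] [MulAction Γ L] [MulAction Γ P]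

namespace EqAlg
variable (Q : EqAlg A B Γ)

/-- Half braiding on the crossed product. -/
def hC (y : L × Γ) (p q : P) (z : L × Γ) : k :=
  if z.2 = y.2 ∧ p = y.2 • q then B.R (A.x p) y.1 z.1 * Q.lam y.2 q else 0

/-- Its inverse. -/
def hC' (y : L × Γ) (q p : P) (z : L × Γ) : k :=
  if z.2 = y.2 ∧ p = y.2 • q then (B.R (A.x p) y.1 z.1)⁻¹ * (Q.lam y.2 q)⁻¹ else 0

end EqAlg
end H24PV
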