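import Pool.Agent.H24.PV.CyA
import Pool.Agent.H24.PV.CyB
import Pool.Agent.H24.PV.CyC

/-!
# The central algebra data on the crossed product
-/

universe u

namespace H24PV

variable {k : Type u} [Field k] {L : Type} [Fintype L] [DecidableEq L]
  {D : FData k L} {P : Type} [Fintype P] [DecidableEq P] {A : Alg D P} {B : BData D}
  {Γ : Type} [Group Γ] [Fintype Γ] [DecidableEq Γ] [MulAction Γ L] [MulAction Γ P]

/-- Central algebra data on the crossed product. -/
def EqAlg.cdata (S : FSym D Γ) (Q : EqAlg A B Γ) (hc : A.Comm B) : CData (D.cross Γ S) P where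
  x p := (A.x p, 1)
  u := A.u
  m := A.m
  h := Q.hC
  h' := Q.hC'
  x_u := by rw [A.x_u]; rfl
  m_supp h := by
    have := A.m_supp h
    simp [FData.cross, this]
  h_supp h := Q.hC_supp S h
  h'_supp h := Q.hC'_supp S h
  hh' := Q.hC_hC' S
  h'h := Q.hC'_hC S
  one_mul := A.one_mul
  mul_one := A.mul_one
  assoc := Q.assocC S
  h_unit p q z := Q.hC_unit p q z
  h_u y q z := Q.hC_u y q z
  hex := Q.hexC S
  central := Q.centralC S
  comm := Q.hC_comm hc

/-- Casimir data on the crossed product. -/
def EqAlg.cas (S : FSym D Γ) (Q : EqAlg A B Γ) (hc : A.Comm B) : CasData (Q.cdata S hc) where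
  e := A.e
  e_supp h := by
    have := A.e_supp h
    simp [FData.cross, EqAlg.cdata, this]
  e_mul r hr := A.e_mul r (congrArg Prod.fst hr)
  cas q r s := by
    have := A.cas q r s
    simpa [FData.cross, EqAlg.cdata] using this

end H24PV
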