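import Pool.Agent.H24.PV.FmG
import Pool.Agent.H24.PV.FAct

/-!
# FX: duals of families

`coev : 𝟙 ⟶ X ⊗ X*`, entry `() → (i, j, c)`: `[i = j ∧ c = one ∧ pres i]`;
`ev : X* ⊗ X ⟶ 𝟙`, entry `(i, j, c) → ()`: `[i = j ∧ c = one ∧ pres i] * evc (lab i)`.
Zigzag equations: with `FAct.lean` (or with matrix entries) they reduce to
`z1 : F x x* x x 1 1 * evc x = 1` and `z2 : G x* x x* x* 1 1 * evc x = 1`.
Second pairing (left duals): the same with `X*` and `X` exchanged (`coev' : 𝟙 ⟶ X* ⊗ X`,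
`ev' : X ⊗ X* ⟶ 𝟙` with the scalar `evc (dual (lab i))`), using `dual_dual`.
-/

open CategoryTheory MonoidalCategory

universe u

namespace H24PV

variable {k : Type u} [Field k] {L : Type} [Fintype L] [DecidableEq L]

section FXaux
variable {D : FData k L}

namespace Fam

@[reducible] def FX_Y (X : Fam D) (b : X.ι → L) : Fam D where
  ι := X.ι
  lab := b
  pres := X.pres

theorem FX_ec (X : Fam D) (b : X.ι → L) (s : X.ι → k)
    (hs : ∀ i, D.F (X.lab i) (b i) (X.lab i) (X.lab i) D.one D.one * s i = 1)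
    (η : tUnit D ⟶ tObj X (FX_Y X b))
    (hη : ∀ (u : Unit) (i j : X.ι) (c : L), Hom.m η u (i, j, c) =
      if i = j ∧ c = D.one ∧ X.pres i = true then 1 else 0)
    (ε : tObj (FX_Y X b) X ⟶ tUnit D)
    (hε : ∀ (i j : X.ι) (c : L) (u : Unit), Hom.m ε (i, j, c) u =
      if i = j ∧ c = D.one ∧ X.pres i = true then s i else 0) :
    tHom η (𝟙 X) ≫ tAssoc X (FX_Y X b) X ≫ tHom (𝟙 X) ε = tLam X ≫ tRhoInv X := by
  apply act_ext
  rintro v ⟨i, u, c⟩
  have hcoev : ∀ (w : (tUnit D).ι → k) (i j : X.ι) (e : L), act η w (i, j, e) =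
      if i = j ∧ e = D.one ∧ X.pres i = true then w () else 0 := by
    intro w i j e
    show ∑ u : Unit, w u * Hom.m η u (i, j, e) = _
    rw [Fintype.sum_unique, hη]
    by_cases h : i = j ∧ e = D.one ∧ X.pres i = true
    · rw [if_pos h, if_pos h, mul_one]
    · rw [if_neg h, if_neg h, mul_zero]
  have hev : ∀ (w : (tObj (FX_Y X b) X).ι → k) (u : Unit), act ε w u =
      ∑ i : X.ι, if X.pres i = true then w (i, i, D.one) * s i else 0 := by
    intro w u
    show ∑ t : X.ι × X.ι × L, w t * Hom.m ε t u = _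
    rw [Fintype.sum_prod_type]
    apply Finset.sum_congr rfl
    intro i _
    rw [Fintype.sum_prod_type, Finset.sum_eq_single i, Finset.sum_eq_single D.one]
    · rw [hε]
      by_cases h : X.pres i = true
      · rw [if_pos ⟨rfl, rfl, h⟩, if_pos h]
      · rw [if_neg (fun hh => h hh.2.2), if_neg h, mul_zero]
    · intro c _ hc
      rw [hε, if_neg (fun hh => hc hh.2.1), mul_zero]
    · simp
    · intro j _ hj
      apply Finset.sum_eq_zero; intro c _
      rw [hε, if_neg (fun hh => hj hh.1.symm), mul_zero]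
    · simp
  rw [act_comp, act_comp, act_comp, act_wl, act_rhoInv, act_lam, hev]
  have hN : D.N (X.lab i) ((tUnit D).lab u) c = decide (X.lab i = c) := D.N_one_right _ _
  rw [hN]
  by_cases hc : c = X.lab i ∧ X.pres i = true
  · obtain ⟨rfl, hp⟩ := hc
    rw [if_pos ⟨by simp, hp⟩, if_pos ⟨rfl, hp⟩, if_pos hp]
    rw [Finset.sum_eq_single i]
    · rw [if_pos hp, act_assoc, if_pos ⟨hp, hp, hp⟩, Finset.sum_eq_single D.one]
      · rw [act_wr, if_pos, hcoev, if_pos ⟨rfl, rfl, hp⟩, mul_assoc, hs, mul_one]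
        refine ⟨?_, hp⟩
        show D.N D.one (X.lab i) (X.lab i) = true
        rw [D.N_one_left]; simp
      · intro e _ he
        rw [act_wr, hcoev]
        split_ifs with h1 h2
        · exact absurd h2.2.1 he
        · rw [zero_mul]
        · rw [zero_mul]
      · simp
    · intro j _ hj
      rw [act_assoc]
      by_cases h : X.pres j = true
      · rw [if_pos h, if_pos ⟨hp, h, h⟩]
        rw [Finset.sum_eq_zero, zero_mul]
        intro e _
        rw [act_wr, hcoev]
        split_ifs with h1 h2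
        · exact absurd h2.1.symm hj
        · rw [zero_mul]
        · rw [zero_mul]
      · rw [if_neg h]
    · simp
  · rw [if_neg hc, if_neg]
    rintro ⟨h1, h2⟩
    exact hc ⟨(of_decide_eq_true h1).symm, h2⟩

theorem FX_ce (X : Fam D) (b : X.ι → L) (s : X.ι → k)
    (hs : ∀ i, D.G (b i) (X.lab i) (b i) (b i) D.one D.one * s i = 1)
    (η : tUnit D ⟶ tObj X (FX_Y X b))
    (hη : ∀ (u : Unit) (i j : X.ι) (c : L), Hom.m η u (i, j, c) =
      if i = j ∧ c = D.one ∧ X.pres i = true then 1 else 0)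
    (ε : tObj (FX_Y X b) X ⟶ tUnit D)
    (hε : ∀ (i j : X.ι) (c : L) (u : Unit), Hom.m ε (i, j, c) u =
      if i = j ∧ c = D.one ∧ X.pres i = true then s i else 0) :
    tHom (𝟙 (FX_Y X b)) η ≫ tAssocInv (FX_Y X b) X (FX_Y X b) ≫ tHom ε (𝟙 (FX_Y X b)) =
      tRho (FX_Y X b) ≫ tLamInv (FX_Y X b) := by
  apply act_ext
  rintro v ⟨u, i, c⟩
  have hcoev : ∀ (w : (tUnit D).ι → k) (i j : X.ι) (e : L), act η w (i, j, e) =
      if i = j ∧ e = D.one ∧ X.pres i = true then w () else 0 := by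
    intro w i j e
    show ∑ u : Unit, w u * Hom.m η u (i, j, e) = _
    rw [Fintype.sum_unique, hη]
    by_cases h : i = j ∧ e = D.one ∧ X.pres i = true
    · rw [if_pos h, if_pos h, mul_one]
    · rw [if_neg h, if_neg h, mul_zero]
  have hev : ∀ (w : (tObj (FX_Y X b) X).ι → k) (u : Unit), act ε w u =
      ∑ i : X.ι, if X.pres i = true then w (i, i, D.one) * s i else 0 := by
    intro w u
    show ∑ t : X.ι × X.ι × L, w t * Hom.m ε t u = _
    rw [Fintype.sum_prod_type]
    apply Finset.sum_congr rfl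
    intro i _
    rw [Fintype.sum_prod_type, Finset.sum_eq_single i, Finset.sum_eq_single D.one]
    · rw [hε]
      by_cases h : X.pres i = true
      · rw [if_pos ⟨rfl, rfl, h⟩, if_pos h]
      · rw [if_neg (fun hh => h hh.2.2), if_neg h, mul_zero]
    · intro c _ hc
      rw [hε, if_neg (fun hh => hc hh.2.1), mul_zero]
    · simp
    · intro j _ hj
      apply Finset.sum_eq_zero; intro c _
      rw [hε, if_neg (fun hh => hj hh.1.symm), mul_zero]
    · simp
  rw [act_comp, act_comp, act_comp, act_wr, act_lamInv, act_rho, hev]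
  have hN : D.N ((tUnit D).lab u) ((FX_Y X b).lab i) c = decide (b i = c) := D.N_one_left _ _
  rw [hN]
  by_cases hc : c = b i ∧ X.pres i = true
  · obtain ⟨rfl, hp⟩ := hc
    rw [if_pos ⟨by simp, hp⟩, if_pos ⟨rfl, hp⟩, if_pos hp]
    rw [Finset.sum_eq_single i]
    · rw [if_pos hp, act_assocInv, if_pos ⟨hp, hp, hp⟩, Finset.sum_eq_single D.one]
      · rw [act_wl, if_pos, hcoev, if_pos ⟨rfl, rfl, hp⟩, mul_assoc, hs, mul_one]
        refine ⟨?_, hp⟩
        show D.N (b i) D.one (b i) = true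
        rw [D.N_one_right]; simp
      · intro e _ he
        rw [act_wl, hcoev]
        split_ifs with h1 h2
        · exact absurd h2.2.1 he
        · rw [zero_mul]
        · rw [zero_mul]
      · simp
    · intro j _ hj
      rw [act_assocInv]
      by_cases h : X.pres j = true
      · rw [if_pos h, if_pos ⟨h, h, hp⟩]
        rw [Finset.sum_eq_zero, zero_mul]
        intro e _
        rw [act_wl, hcoev]
        split_ifs with h1 h2
        · exact absurd h2.1 hj
        · rw [zero_mul]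
        · rw [zero_mul]
      · rw [if_neg h]
    · simp
  · rw [if_neg hc, if_neg]
    rintro ⟨h1, h2⟩
    exact hc ⟨(of_decide_eq_true h1).symm, h2⟩

end Fam

end FXaux


/-- Duality data for fusion data. -/
structure FDual (D : FData k L) where
  dual : L → L
  evc : L → k
  dual_dual : ∀ x, dual (dual x) = x
  z1 : ∀ x, D.F x (dual x) x x D.one D.one * evc x = 1
  z2 : ∀ x, D.G (dual x) x (dual x) (dual x) D.one D.one * evc x = 1

namespace FDual
variable {D : FData k L} (E : FDual D)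

theorem N_dual (x : L) : D.N x (E.dual x) D.one = true :=
  (D.F_supp (left_ne_zero_of_mul (by rw [E.z1 x]; exact one_ne_zero))).1

theorem N_dual' (x : L) : D.N (E.dual x) x D.one = true :=
  (D.F_supp (left_ne_zero_of_mul (by rw [E.z1 x]; exact one_ne_zero))).2.2.1

/-- The dual family. -/
@[reducible] def dualFam (X : Fam D) : Fam D where
  ι := X.ι
  lab i := E.dual (X.lab i)
  pres := X.pres

/-- Coevaluation `𝟙 ⟶ X ⊗ X*`. -/
def coev (X : Fam D) : Fam.tUnit D ⟶ Fam.tObj X (E.dualFam X) :=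
  Fam.Hom.mk (X := Fam.tUnit D) (Y := Fam.tObj X (E.dualFam X))
    (fun (_ : Unit) (s : X.ι × X.ι × L) =>
      if s.1 = s.2.1 ∧ s.2.2 = D.one ∧ X.pres s.1 = true then 1 else 0) (by
    apply Fam.Hom.ofne
    rintro u ⟨i, j, c⟩ h
    by_cases hc : i = j ∧ c = D.one ∧ X.pres i = true
    · obtain ⟨rfl, rfl, h1⟩ := hc
      simp [Fam.tObj, h1, E.N_dual]
    · exact absurd (if_neg hc) h)

/-- Evaluation `X* ⊗ X ⟶ 𝟙`. -/
def evm (X : Fam D) : Fam.tObj (E.dualFam X) X ⟶ Fam.tUnit D :=
  Fam.Hom.mk (X := Fam.tObj (E.dualFam X) X) (Y := Fam.tUnit D)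
    (fun (s : X.ι × X.ι × L) (_ : Unit) =>
      if s.1 = s.2.1 ∧ s.2.2 = D.one ∧ X.pres s.1 = true then E.evc (X.lab s.1) else 0) (by
    apply Fam.Hom.ofne
    rintro ⟨i, j, c⟩ u h
    by_cases hc : i = j ∧ c = D.one ∧ X.pres i = true
    · obtain ⟨rfl, rfl, h1⟩ := hc
      simp [Fam.tObj, h1, E.N_dual']
    · exact absurd (if_neg hc) h)

/-- Coevaluation `𝟙 ⟶ X* ⊗ X`. -/
def coev' (X : Fam D) : Fam.tUnit D ⟶ Fam.tObj (E.dualFam X) X :=
  Fam.Hom.mk (X := Fam.tUnit D) (Y := Fam.tObj (E.dualFam X) X)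
    (fun (_ : Unit) (s : X.ι × X.ι × L) =>
      if s.1 = s.2.1 ∧ s.2.2 = D.one ∧ X.pres s.1 = true then 1 else 0) (by
    apply Fam.Hom.ofne
    rintro u ⟨i, j, c⟩ h
    by_cases hc : i = j ∧ c = D.one ∧ X.pres i = true
    · obtain ⟨rfl, rfl, h1⟩ := hc
      simp [Fam.tObj, h1, E.N_dual']
    · exact absurd (if_neg hc) h)

/-- Evaluation `X ⊗ X* ⟶ 𝟙`. -/
def evm' (X : Fam D) : Fam.tObj X (E.dualFam X) ⟶ Fam.tUnit D :=
  Fam.Hom.mk (X := Fam.tObj X (E.dualFam X)) (Y := Fam.tUnit D)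
    (fun (s : X.ι × X.ι × L) (_ : Unit) =>
      if s.1 = s.2.1 ∧ s.2.2 = D.one ∧ X.pres s.1 = true then
        E.evc (E.dual (X.lab s.1)) else 0) (by
    apply Fam.Hom.ofne
    rintro ⟨i, j, c⟩ u h
    by_cases hc : i = j ∧ c = D.one ∧ X.pres i = true
    · obtain ⟨rfl, rfl, h1⟩ := hc
      simp [Fam.tObj, h1, E.N_dual]
    · exact absurd (if_neg hc) h)

/-- The exact pairing of `X` and `X*`. -/
@[reducible] def pair (X : Fam D) : ExactPairing X (E.dualFam X) where
  coevaluation' := E.coev X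
  evaluation' := E.evm X
  coevaluation_evaluation' := Fam.FX_ce X (fun i => E.dual (X.lab i))
    (fun i => E.evc (X.lab i)) (fun i => E.z2 (X.lab i)) (E.coev X) (fun _ _ _ _ => rfl)
    (E.evm X) (fun _ _ _ _ => rfl)
  evaluation_coevaluation' := Fam.FX_ec X (fun i => E.dual (X.lab i))
    (fun i => E.evc (X.lab i)) (fun i => E.z1 (X.lab i)) (E.coev X) (fun _ _ _ _ => rfl)
    (E.evm X) (fun _ _ _ _ => rfl)

/-- The exact pairing of `X*` and `X`. -/
@[reducible] def pair' (X : Fam D) : ExactPairing (E.dualFam X) X where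
  coevaluation' := E.coev' X
  evaluation' := E.evm' X
  coevaluation_evaluation' := Fam.FX_ce (E.dualFam X) X.lab
    (fun i => E.evc (E.dual (X.lab i)))
    (fun i => by
      have h := E.z2 (E.dual (X.lab i))
      rw [E.dual_dual] at h
      exact h) (E.coev' X) (fun _ _ _ _ => rfl) (E.evm' X) (fun _ _ _ _ => rfl)
  evaluation_coevaluation' := Fam.FX_ec (E.dualFam X) X.lab
    (fun i => E.evc (E.dual (X.lab i)))
    (fun i => by
      have h := E.z1 (E.dual (X.lab i))
      rw [E.dual_dual] at h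
      exact h) (E.coev' X) (fun _ _ _ _ => rfl) (E.evm' X) (fun _ _ _ _ => rfl)

/-- The category of families is rigid. -/
@[reducible] def rigid : RigidCategory (Fam D) where
  rightDual X := { rightDual := E.dualFam X, exact := E.pair X }
  leftDual X := { leftDual := E.dualFam X, exact := E.pair' X }

end FDual
end H24PV
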