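import Pool.Agent.H24.PV.DtR
import Pool.Agent.H24.PV.FX

/-!
# DtDef: tabulated fusion data with `n` labels, and the Boolean checks (evaluated by the kernel)

Words are scaled by `4`: the `F`-entry is `ev z hz (wd (lF ..)) / 4` if all four channels are
admissible and `0` otherwise.  Label `0` is the unit.
-/

universe u

namespace H24PV

/-- Element of a list (recursors, fast in the kernel). -/
noncomputable def getL (l : List ℕ) : ℕ → ℕ :=
  @List.rec ℕ (fun _ => ℕ → ℕ) (fun _ => 0)
    (fun x _ ih i => @Nat.rec (fun _ => ℕ) x (fun j _ => ih j) i) l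

/-- Tabulated fusion data. -/
structure TData (n : ℕ) where
  N : ℕ → ℕ → ℕ → Bool
  lF : ℕ → ℕ → ℕ → ℕ → ℕ → ℕ → ℕ
  lG : ℕ → ℕ → ℕ → ℕ → ℕ → ℕ → ℕ

/-- Tabulated braiding: exponents of `ζ`. -/
structure TBr (n : ℕ) where
  lR : ℕ → ℕ → ℕ → ℕ

/-- Tabulated duality: dual labels and words of the evaluation scalars (scaled by `4`). -/
structure TDu (n : ℕ) where
  du : ℕ → ℕ
  lE : ℕ → ℕ

namespace TData
variable {n : ℕ} (T : TData n)

/-- The four channel conditions. -/
noncomputable def adm (a b c d e f : ℕ) : Bool :=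
  cnd (T.N a b e) (cnd (T.N e c d) (cnd (T.N b c f) (T.N a f d) false) false) false

theorem adm_iff (a b c d e f : ℕ) : T.adm a b c d e f = true ↔
    T.N a b e = true ∧ T.N e c d = true ∧ T.N b c f = true ∧ T.N a f d = true := by
  unfold adm
  cases T.N a b e <;> cases T.N e c d <;> cases T.N b c f <;> cases T.N a f d <;> simp [cnd]

/-- Kronecker value of the `F`-entry (times `4`). -/
noncomputable def FK (a b c d e f : ℕ) : ℕ := cnd (T.adm a b c d e f) (kv (T.lF a b c d e f)) 0
/-- Kronecker value of the `G`-entry (times `4`). -/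
noncomputable def GK (a b c d f e : ℕ) : ℕ := cnd (T.adm a b c d e f) (kv (T.lG a b c d f e)) 0
/-- The `F`-entry (times `4`). -/
noncomputable def FW (a b c d e f : ℕ) : W :=
  if T.adm a b c d e f = true then wd (T.lF a b c d e f) else 0
/-- The `G`-entry (times `4`). -/
noncomputable def GW (a b c d f e : ℕ) : W :=
  if T.adm a b c d e f = true then wd (T.lG a b c d f e) else 0

theorem repF (a b c d e f : ℕ) : Rep (T.FK a b c d e f) (T.FW a b c d e f) 5745 :=
  (rep_wd _).cnd _
theorem repG (a b c d f e : ℕ) : Rep (T.GK a b c d f e) (T.GW a b c d f e) 5745 :=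
  (rep_wd _).cnd _

/-- Check: left and right fusion with the unit. -/
noncomputable def chkN : Bool :=
  allN n fun a => allN n fun b =>
    cnd (cnd (Nat.beq a b) (T.N 0 a b) (cnd (T.N 0 a b) false true))
      (cnd (Nat.beq a b) (T.N a 0 b) (cnd (T.N a 0 b) false true)) false

/-- Check: unit entries of `F`. -/
noncomputable def chkU : Bool :=
  allN n fun a => allN n fun b => allN n fun c => imp (T.N a b c)
    (cnd (eqM (T.FK 0 a b c a c) 4) (cnd (eqM (T.FK a 0 b c a b) 4) (eqM (T.FK a b 0 c c b) 4)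
      false) false)

/-- Check: `F G = 1`. -/
noncomputable def chkFG (a : ℕ) : Bool :=
  allN n fun b => allN n fun e => imp (T.N a b e) <| allN n fun c => allN n fun d =>
    imp (T.N e c d) <| allN n fun e' => imp (T.N a b e') <| imp (T.N e' c d) <|
      eqM (sumN n fun f => mulM (T.FK a b c d e f) (T.GK a b c d f e'))
        (cnd (Nat.beq e e') 16 0)

/-- Check: `G F = 1`. -/
noncomputable def chkGF (a : ℕ) : Bool :=
  allN n fun b => allN n fun c => allN n fun f => imp (T.N b c f) <| allN n fun d =>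
    imp (T.N a f d) <| allN n fun f' => imp (T.N b c f') <| imp (T.N a f' d) <|
      eqM (sumN n fun e => mulM (T.GK a b c d f e) (T.FK a b c d e f'))
        (cnd (Nat.beq f f') 16 0)

/-- Check: the pentagon equation with first label `a`. -/
noncomputable def chkPent (a : ℕ) : Bool :=
  allN n fun b => allN n fun f => imp (T.N a b f) <|
  allN n fun c => allN n fun g => imp (T.N f c g) <|
  allN n fun d => allN n fun e => imp (T.N g d e) <|
  allN n fun l => imp (T.N c d l) <|
  allN n fun k => imp (T.N b l k) <| imp (T.N a k e) <|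
    eqM (Nat.mul 4 (mulM (T.FK f c d e g l) (T.FK a b l e f k)))
      (sumN n fun h => cnd (T.N b c h) (cnd (T.N a h g) (cnd (T.N h d k)
        (mulM (mulM (T.FK a b c g f h) (T.FK a h d e g k)) (T.FK b c d k h l)) 0) 0) 0)

/-- All checks of the fusion data. -/
structure Ok : Prop where
  N : T.chkN = true
  U : T.chkU = true
  FG : ∀ a < n, T.chkFG a = true
  GF : ∀ a < n, T.chkGF a = true
  P : ∀ a < n, T.chkPent a = true

variable (B : TBr n)

/-- Kronecker value of the braiding. -/
noncomputable def RK (a b c : ℕ) : ℕ :=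
  cnd (T.N a b c) (Nat.shiftLeft 1 (Nat.mul 96 (B.lR a b c))) 0
/-- The braiding. -/
noncomputable def RW (a b c : ℕ) : W := if T.N a b c = true then zp (B.lR a b c) else 0

theorem repR (a b c : ℕ) : Rep (T.RK B a b c) (T.RW B a b c) 1 := (Rep.zpow _).cnd _

/-- Check: commutativity of the fusion rules, unit entries of `R`. -/
noncomputable def chkNc : Bool :=
  cnd (allN n fun a => allN n fun b => allN n fun c =>
    cnd (T.N a b c) (T.N b a c) (cnd (T.N b a c) false true))
    (allN n fun a => cnd (Nat.beq (B.lR 0 a a) 0) (Nat.beq (B.lR a 0 a) 0) false) false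

/-- Check: first hexagon with first label `a`. -/
noncomputable def chkHA (a : ℕ) : Bool :=
  allN n fun b => allN n fun e => imp (T.N a b e) <| allN n fun c => allN n fun d =>
  imp (T.N e c d) <| allN n fun g => imp (T.N a c g) <| imp (T.N b g d) <|
    eqM (Nat.mul 4 (mulM (mulM (T.RK B a b e) (T.FK b a c d e g)) (T.RK B a c g)))
      (sumN n fun f => mulM (mulM (T.FK a b c d e f) (T.RK B a f d)) (T.FK b c a d f g))

/-- Check: second hexagon with first label `a`. -/
noncomputable def chkHB (a : ℕ) : Bool :=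
  allN n fun b => allN n fun c => allN n fun f => imp (T.N b c f) <| allN n fun d =>
  imp (T.N a f d) <| allN n fun g => imp (T.N a c g) <| imp (T.N g b d) <|
    eqM (Nat.mul 4 (mulM (mulM (T.RK B b c f) (T.GK a c b d f g)) (T.RK B a c g)))
      (sumN n fun e => mulM (mulM (T.GK a b c d f e) (T.RK B e c d)) (T.GK c a b d e g))

/-- All checks of the braiding. -/
structure OkB : Prop where
  N : T.chkNc B = true
  A : ∀ a < n, T.chkHA B a = true
  B : ∀ a < n, T.chkHB B a = true

variable (E : TDu n)

/-- Check: duality. -/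
noncomputable def chkD : Bool :=
  allN n fun x => cnd (Nat.ble (Nat.succ (E.du x)) n) (cnd (Nat.beq (E.du (E.du x)) x)
    (cnd (eqM (mulM (T.FK x (E.du x) x x 0 0) (kv (E.lE x))) 16)
      (eqM (mulM (T.GK (E.du x) x (E.du x) (E.du x) 0 0) (kv (E.lE x))) 16) false) false) false

section
variable {k : Type u} [Field k] (z : k) (hz : z ^ 16 = -1)

/-- The `F`-entry. -/
noncomputable def Fk (a b c d e f : ℕ) : k := ev z hz (T.FW a b c d e f) * (4 : k)⁻¹
/-- The `G`-entry. -/
noncomputable def Gk (a b c d f e : ℕ) : k := ev z hz (T.GW a b c d f e) * (4 : k)⁻¹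
/-- The braiding entry. -/
noncomputable def Rk (a b c : ℕ) : k := ev z hz (T.RW B a b c)

theorem Fk_supp {a b c d e f : ℕ} (h : T.Fk z hz a b c d e f ≠ 0) :
    T.N a b e = true ∧ T.N e c d = true ∧ T.N b c f = true ∧ T.N a f d = true := by
  rw [← T.adm_iff]
  by_contra hc
  apply h
  rw [Fk, FW, if_neg hc, map_zero, zero_mul]

theorem Gk_supp {a b c d f e : ℕ} (h : T.Gk z hz a b c d f e ≠ 0) :
    T.N a b e = true ∧ T.N e c d = true ∧ T.N b c f = true ∧ T.N a f d = true := by
  rw [← T.adm_iff]
  by_contra hc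
  apply h
  rw [Gk, GW, if_neg hc, map_zero, zero_mul]

theorem Rk_supp {a b c : ℕ} (h : T.Rk B z hz a b c ≠ 0) : T.N a b c = true := by
  by_contra hc
  apply h
  rw [Rk, RW, if_neg hc, map_zero]

theorem ev_FW (h4 : (4 : k) ≠ 0) (a b c d e f : ℕ) :
    ev z hz (T.FW a b c d e f) = 4 * T.Fk z hz a b c d e f := by
  rw [Fk]; field_simp

theorem ev_GW (h4 : (4 : k) ≠ 0) (a b c d f e : ℕ) :
    ev z hz (T.GW a b c d f e) = 4 * T.Gk z hz a b c d f e := by
  rw [Gk]; field_simp

end
end TData
end H24PV
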