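import Pool.Agent.H24.PV.DtDef

/-!
# DtN: unit entries from the checks

Model: `DtP.lean` (uses `allN_fin`, `imp_eq`, `Rep.ev_eq`, `ev_FW`).  `chkN` is a Boolean
equality test written with `cnd`: case on `Nat.beq a b`, `T.N 0 a b`, `T.N a 0 b`
(`Nat.beq a b = true ↔ a = b` via `Nat.beq_eq`/`Nat.eq_of_beq_eq_true`, `Fin.ext`).
For the unit entries: `Rep.ev_eq z hz (T.repF 0 b c d b d) (Rep.nat 4) _ _` gives
`4 * T.Fk .. = 4`.
-/

universe u

namespace H24PV
namespace TData
variable {n : ℕ} (T : TData n) {k : Type u} [Field k] (z : k) (hz : z ^ 16 = -1)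

theorem DtN_and {p q : Bool} (h : cnd p q false = true) : p = true ∧ q = true := by
  cases p
  · exact absurd h (by simp [cnd])
  · exact ⟨rfl, h⟩

theorem DtN_eqv {m : ℕ} (a b : Fin m) {N : Bool}
    (h : cnd (Nat.beq a b) N (cnd N false true) = true) : N = decide (a = b) := by
  by_cases hab : a = b
  · subst hab
    have h1 : Nat.beq (a : ℕ) (a : ℕ) = true := by rw [Nat.beq_eq]
    rw [h1] at h
    rw [decide_eq_true rfl]
    exact h
  · have h1 : Nat.beq (a : ℕ) (b : ℕ) = false := by
      rw [← Bool.not_eq_true, Nat.beq_eq]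
      exact fun hc => hab (Fin.ext hc)
    rw [h1] at h
    rw [decide_eq_false hab]
    cases N
    · rfl
    · exact absurd h (by simp [cnd])

theorem N_left (h : T.chkN = true) (a b : Fin n) : T.N 0 a b = decide (a = b) := by
  have key := allN_fin (allN_fin h a) b
  exact DtN_eqv a b (DtN_and key).1

theorem N_right (h : T.chkN = true) (a b : Fin n) : T.N a 0 b = decide (a = b) := by
  have key := allN_fin (allN_fin h a) b
  exact DtN_eqv a b (DtN_and key).2

theorem DtN_one (h4 : (4 : k) ≠ 0) {a b c d e f : ℕ} (h : eqM (T.FK a b c d e f) 4 = true) :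
    T.Fk z hz a b c d e f = 1 := by
  have key := Rep.ev_eq z hz (T.repF a b c d e f) (Rep.nat 4) (by decide +kernel) h
  rw [T.ev_FW z hz h4, map_natCast] at key
  apply mul_left_cancel₀ h4
  rw [key, mul_one]
  norm_num

theorem U_left (h4 : (4 : k) ≠ 0) (h : T.chkU = true) (b c d : Fin n)
    (hN : T.N b c d = true) : T.Fk z hz 0 b c d b d = 1 := by
  have key := imp_eq (allN_fin (allN_fin (allN_fin h b) c) d) hN
  exact DtN_one T z hz h4 (DtN_and key).1

theorem U_mid (h4 : (4 : k) ≠ 0) (h : T.chkU = true) (a c d : Fin n)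
    (hN : T.N a c d = true) : T.Fk z hz a 0 c d a c = 1 := by
  have key := imp_eq (allN_fin (allN_fin (allN_fin h a) c) d) hN
  exact DtN_one T z hz h4 (DtN_and (DtN_and key).2).1

theorem U_right (h4 : (4 : k) ≠ 0) (h : T.chkU = true) (a b d : Fin n)
    (hN : T.N a b d = true) : T.Fk z hz a b 0 d d b = 1 := by
  have key := imp_eq (allN_fin (allN_fin (allN_fin h a) b) d) hN
  exact DtN_one T z hz h4 (DtN_and (DtN_and key).2).2

end TData
end H24PV
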