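import Pool.Agent.H24.PV.DtW

/-!
# DtR: words, Kronecker representatives

A word `E` (32 bits, digits `d_i = E / 256 ^ i % 256`) stands for `∑ (d_i - 128) c ^ i`,
`c = ζ ^ 2 + ζ ^ 30`.  `wd E : W` is the corresponding element (`-1 = ζ ^ 16`), `kv E` its
Kronecker value modulo `KM`.  `Rep n w b`: `n` represents `w`, whose mass is at most `b`.
The functions below use the kernel-accelerated operations `Nat.add`, .. directly.
-/

universe u

namespace H24PV

/-- `c ↦ KB ^ 2 + KB ^ 30` modulo `KM`. -/
def kC1 : ℕ := 0xffffffffffffffffffffffffffffffffffffffffffffffff000000000000000000000000000000000000000000000000000000000000000000000000000000000000000000000000000000000000000000000000000000000000000000000000000000000000000000000000000000000000000000000000000000000000000000000000000000000000000000000000000000000000000000000000000000000000000000000001000000000000000000000000000000000000000000000001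
/-- `c ^ 2` modulo `KM`. -/
def kC2 : ℕ := 0xffffffffffffffffffffffffffffffffffffffffffffffffffffffffffffffffffffffffffffffffffffffffffffffff000000000000000000000000000000000000000000000000000000000000000000000000000000000000000000000000000000000000000000000000000000000000000000000000000000000000000000000000000000000000000000000001000000000000000000000000000000000000000000000000000000000000000000000000000000000000000000000003
/-- `c ^ 3` modulo `KM`. -/
def kC3 : ℕ := 0xfffffffffffffffffffffffffffffffffffffffffffffffcffffffffffffffffffffffffffffffffffffffffffffffffffffffffffffffffffffffffffffffffffffffffffffffff000000000000000000000000000000000000000000000000000000000000000000000000000000000000000000000001000000000000000000000000000000000000000000000000000000000000000000000000000000000000000000000003000000000000000000000000000000000000000000000001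
/-- The offset. -/
def kOff : ℕ := 0x20000000000000000000000000000000000000000000000008000000000000000000000000000000000000000000000007fffffffffffffffffffffffffffffffffffffffffffffffffffffffffffffffffffffffffffffffffffffffffffffff7fffffffffffffffffffffffffffffffffffffffffffffff7ffffffffffffffffffffffffffffffffffffffffffffffdfffffffffffffffffffffffffffffffffffffffffffffffe80

/-- Kronecker value of a word. -/
def kv (E : ℕ) : ℕ :=
  Nat.mod (Nat.add (Nat.mod E 256)
    (Nat.add (Nat.mul (Nat.mod (Nat.shiftRight E 8) 256) kC1)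
    (Nat.add (Nat.mul (Nat.mod (Nat.shiftRight E 16) 256) kC2)
    (Nat.add (Nat.mul (Nat.mod (Nat.shiftRight E 24) 256) kC3) kOff)))) KM

/-- The element `c`. -/
noncomputable def wc : W := zp 2 + zp 30

/-- The element of a word. -/
noncomputable def wd (E : ℕ) : W :=
  ((E % 256 : ℕ) : W) + ((((E >>> 8) % 256 : ℕ) : W) * wc +
    ((((E >>> 16) % 256 : ℕ) : W) * wc ^ 2 + ((((E >>> 24) % 256 : ℕ) : W) * wc ^ 3 +
      ((128 : ℕ) : W) * zp 16 * (((1 : ℕ) : W) + wc + wc ^ 2 + wc ^ 3))))

/-- `n` represents `w`, of mass at most `b`. -/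
structure Rep (n : ℕ) (w : W) (b : ℕ) : Prop where
  eq : (n : ZMod KM) = evM w
  le : mass w ≤ b

/-- Choice by a Boolean (recursor, fast in the kernel). -/
noncomputable def cnd {α : Sort u} (t : Bool) (x y : α) : α := @Bool.rec (fun _ => α) y x t

theorem cnd_true {α : Sort u} (x y : α) : cnd true x y = x := rfl
theorem cnd_false {α : Sort u} (x y : α) : cnd false x y = y := rfl
theorem cnd_eq {α : Sort u} (t : Bool) (x y : α) : cnd t x y = if t = true then x else y := by
  cases t <;> simp [cnd]

/-- Boolean implication. -/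
noncomputable def imp (p q : Bool) : Bool := cnd p q true

theorem imp_eq {p q : Bool} (h : imp p q = true) (hp : p = true) : q = true := by
  subst hp; exact h

/-- Conjunction over `i < n`. -/
noncomputable def allN (n : ℕ) (p : ℕ → Bool) : Bool :=
  @Nat.rec (fun _ => Bool) true (fun i r => cnd (p i) r false) n

theorem allN_iff (n : ℕ) (p : ℕ → Bool) : allN n p = true ↔ ∀ i < n, p i = true := by
  induction n with
  | zero => simp [allN]
  | succ n ih =>
    show cnd (p n) (allN n p) false = true ↔ _
    rw [cnd_eq]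
    constructor
    · intro h
      have h1 : p n = true := by
        by_contra hc
        rw [if_neg hc] at h
        exact absurd h (by simp)
      rw [if_pos h1] at h
      intro i hi
      rcases Nat.lt_succ_iff_lt_or_eq.mp hi with h2 | h2
      · exact ih.mp h i h2
      · rw [h2]; exact h1
    · intro h
      rw [if_pos (h n (Nat.lt_succ_self n))]
      exact ih.mpr (fun i hi => h i (Nat.lt_succ_of_lt hi))

theorem allN_fin {n : ℕ} {p : ℕ → Bool} (h : allN n p = true) (i : Fin n) : p i = true :=
  (allN_iff n p).mp h i i.2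

/-- Sum over `i < n`. -/
noncomputable def sumN (n : ℕ) (f : ℕ → ℕ) : ℕ :=
  @Nat.rec (fun _ => ℕ) 0 (fun i r => Nat.add (f i) r) n

/-- Equality modulo `KM`. -/
def eqM (a b : ℕ) : Bool := Nat.beq (Nat.mod a KM) (Nat.mod b KM)

/-- Product modulo `KM`. -/
def mulM (a b : ℕ) : ℕ := Nat.mod (Nat.mul a b) KM

namespace Rep

theorem mono {n w b b'} (h : Rep n w b) (hb : b ≤ b') : Rep n w b' := ⟨h.eq, h.le.trans hb⟩

theorem zero : Rep 0 0 0 := ⟨by simp, by simp⟩

theorem nat (c : ℕ) : Rep c (c : W) c := ⟨by simp, by simp⟩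

theorem add {n w b n' w' b'} (h : Rep n w b) (h' : Rep n' w' b') :
    Rep (Nat.add n n') (w + w') (b + b') :=
  ⟨by rw [map_add, ← h.eq, ← h'.eq]; exact Nat.cast_add n n',
   by rw [map_add]; exact add_le_add h.le h'.le⟩

theorem mul {n w b n' w' b'} (h : Rep n w b) (h' : Rep n' w' b') :
    Rep (Nat.mul n n') (w * w') (b * b') :=
  ⟨by rw [map_mul, ← h.eq, ← h'.eq]; exact Nat.cast_mul n n',
   by rw [map_mul]; exact Nat.mul_le_mul h.le h'.le⟩

theorem mod {n w b} (h : Rep n w b) : Rep (Nat.mod n KM) w b :=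
  ⟨by
    rw [← h.eq]
    exact ZMod.natCast_mod n KM, h.le⟩

theorem mulM {n w b n' w' b'} (h : Rep n w b) (h' : Rep n' w' b') :
    Rep (H24PV.mulM n n') (w * w') (b * b') := (h.mul h').mod

theorem zpow (i : ℕ) : Rep (Nat.shiftLeft 1 (Nat.mul 96 i)) (zp i) 1 :=
  ⟨by
    rw [evM_zp]
    congr 1
    show 1 <<< (96 * i) = KB ^ i
    rw [Nat.shiftLeft_eq, one_mul, pow_mul]
    rfl, (mass_zp i).le⟩

theorem sum {n : ℕ} {f : ℕ → ℕ} {g : ℕ → W} {b : ℕ} (h : ∀ i, Rep (f i) (g i) b) :
    Rep (sumN n f) (∑ i : Fin n, g i) (n * b) := by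
  rw [Fin.sum_univ_eq_sum_range (fun i => g i) n]
  induction n with
  | zero =>
    rw [Finset.sum_range_zero, Nat.zero_mul]
    exact zero
  | succ n ih =>
    rw [Finset.sum_range_succ, add_comm (∑ x ∈ Finset.range n, g x) (g n), Nat.succ_mul,
      Nat.add_comm (n * b) b]
    exact (h n).add ih

theorem cnd {n w b} (t : Bool) (h : Rep n w b) :
    Rep (H24PV.cnd t n 0) (if t = true then w else 0) b := by
  cases t
  · exact zero.mono (Nat.zero_le b)
  · exact h

theorem ev_eq {R : Type u} [CommRing R] (z : R) (hz : z ^ 16 = -1) {n w b n' w' b'}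
    (h : Rep n w b) (h' : Rep n' w' b') (hb : b + b' < KB) (he : eqM n n' = true) :
    ev z hz w = ev z hz w' := by
  apply ev_eq_of_evM z hz (lt_of_le_of_lt (add_le_add h.le h'.le) hb)
  have h1 : Nat.mod n KM = Nat.mod n' KM := Nat.eq_of_beq_eq_true he
  rw [← h.mod.eq, ← h'.mod.eq, h1]

end Rep

theorem evM_wc : evM wc = ((kC1 : ℕ) : ZMod KM) := by
  rw [wc, map_add, evM_zp, evM_zp, ← Nat.cast_add, ZMod.natCast_eq_natCast_iff]
  show (KB ^ 2 + KB ^ 30) % KM = kC1 % KM
  decide +kernel

theorem mass_wc : mass wc = 2 := by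
  rw [wc, map_add, mass_zp, mass_zp]

theorem rep_wc : Rep kC1 wc 2 := ⟨evM_wc.symm, mass_wc.le⟩

theorem rep_wc2 : Rep kC2 (wc ^ 2) 4 :=
  ⟨by
    rw [map_pow, evM_wc, ← Nat.cast_pow, ZMod.natCast_eq_natCast_iff]
    show kC2 % KM = (kC1 ^ 2) % KM
    decide +kernel, by rw [map_pow, mass_wc]; rfl⟩

theorem rep_wc3 : Rep kC3 (wc ^ 3) 8 :=
  ⟨by
    rw [map_pow, evM_wc, ← Nat.cast_pow, ZMod.natCast_eq_natCast_iff]
    show kC3 % KM = (kC1 ^ 3) % KM
    decide +kernel, by rw [map_pow, mass_wc]; rfl⟩

theorem rep_off : Rep kOff (((128 : ℕ) : W) * zp 16 * (((1 : ℕ) : W) + wc + wc ^ 2 + wc ^ 3))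
    1920 := by
  have h := ((Rep.nat 128).mul (Rep.zpow 16)).mul
    ((((Rep.nat 1).add rep_wc).add rep_wc2).add rep_wc3)
  refine ⟨?_, h.le⟩
  rw [← h.eq, ZMod.natCast_eq_natCast_iff]
  show kOff % KM = _ % KM
  decide +kernel

/-- The Kronecker value of a word represents it. -/
theorem rep_wd (E : ℕ) : Rep (kv E) (wd E) 5745 := by
  have h8 : ∀ x : ℕ, Rep (Nat.mod x 256) ((x % 256 : ℕ) : W) 255 := fun x =>
    (Rep.nat (x % 256)).mono (Nat.le_of_lt_succ (Nat.mod_lt x (by norm_num)))
  exact ((h8 E).add (((h8 (E >>> 8)).mul rep_wc).add (((h8 (E >>> 16)).mul rep_wc2).add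
    (((h8 (E >>> 24)).mul rep_wc3).add rep_off)))).mod

end H24PV
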