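import Mathlib

/-!
# DtW: Kronecker substitution for the group semiring `ℕ[ℤ/32]`

`W = ℕ[ℤ/32]`, with `ζ = zp 1`.  `ev z hz : W →+* k` (`ζ ↦ z`, `z ^ 16 = -1`), `evM : W →+* ZMod KM`
(`ζ ↦ KB`, `KM = KB ^ 16 + 1`), `mass : W →+* ℕ` (`ζ ↦ 1`).
If `mass u + mass v < KB` and `evM u = evM v` then `ev z hz u = ev z hz v`.
-/

universe u

namespace H24PV

/-- Kronecker base `2 ^ 96`. -/
def KB : ℕ := 0x1000000000000000000000000

/-- Modulus `KB ^ 16 + 1`. -/
def KM : ℕ := 0x1000000000000000000000000000000000000000000000000000000000000000000000000000000000000000000000000000000000000000000000000000000000000000000000000000000000000000000000000000000000000000000000000000000000000000000000000000000000000000000000000000000000000000000000000000000000000000000000000000000000000000000000000000000000000000000000000000000000000000000000000000000000000000000000001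

theorem KM_eq : KM = KB ^ 16 + 1 := by decide +kernel

theorem KB_pos : 1 < KB := by decide +kernel

/-- The semiring `ℕ[ℤ/32]`. -/
abbrev W := AddMonoidAlgebra ℕ (ZMod 32)

/-- Powers of the generator. -/
noncomputable def zp (i : ℕ) : W := AddMonoidAlgebra.single ((i : ℕ) : ZMod 32) 1

section
variable {R : Type u} [CommRing R]

/-- The character `i ↦ z ^ i`. -/
def zchar (z : R) (hz : z ^ 16 = -1) : Multiplicative (ZMod 32) →* R where
  toFun i := z ^ (Multiplicative.toAdd i).val
  map_one' := by simp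
  map_mul' i j := by
    have h32 : z ^ 32 = 1 := by
      calc z ^ 32 = (z ^ 16) ^ 2 := by ring
        _ = 1 := by rw [hz]; ring
    rw [← pow_add]
    show z ^ (Multiplicative.toAdd i + Multiplicative.toAdd j).val = _
    rw [ZMod.val_add]
    exact (pow_eq_pow_mod _ h32).symm

/-- Evaluation at `z`. -/
noncomputable def ev (z : R) (hz : z ^ 16 = -1) : W →+* R :=
  (AddMonoidAlgebra.lift ℕ R (ZMod 32) (zchar z hz)).toRingHom

theorem ev_single (z : R) (hz : z ^ 16 = -1) (i : ZMod 32) (a : ℕ) :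
    ev z hz (AddMonoidAlgebra.single i a) = (a : R) * z ^ i.val := by
  show AddMonoidAlgebra.lift ℕ R (ZMod 32) (zchar z hz) _ = _
  rw [AddMonoidAlgebra.lift_single, nsmul_eq_mul]
  rfl

theorem ev_zp (z : R) (hz : z ^ 16 = -1) (i : ℕ) : ev z hz (zp i) = z ^ i := by
  have h32 : z ^ 32 = 1 := by
    calc z ^ 32 = (z ^ 16) ^ 2 := by ring
      _ = 1 := by rw [hz]; ring
  rw [zp, ev_single, ZMod.val_natCast, Nat.cast_one, one_mul]
  exact (pow_eq_pow_mod _ h32).symm

theorem ev_sum (z : R) (hz : z ^ 16 = -1) (w : W) :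
    ev z hz w = ∑ i ∈ Finset.range 32, (w.coeff (i : ZMod 32) : R) * z ^ i := by
  have h1 : ev z hz w = ∑ i : ZMod 32, (w.coeff i : R) * z ^ i.val := by
    show AddMonoidAlgebra.lift ℕ R (ZMod 32) (zchar z hz) w = _
    rw [AddMonoidAlgebra.lift_apply, Finsupp.sum_fintype]
    · apply Finset.sum_congr rfl
      intro i _
      rw [nsmul_eq_mul]; rfl
    · intro i; simp
  rw [h1, ← Fin.sum_univ_eq_sum_range (fun i : ℕ => (w.coeff (i : ZMod 32) : R) * z ^ i) 32]
  apply Finset.sum_congr rfl
  intro i _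
  have h2 : ((Fin.val (n := 32) i : ℕ) : ZMod 32) = i := ZMod.natCast_zmod_val (n := 32) i
  show _ = (w.coeff ((Fin.val (n := 32) i : ℕ) : ZMod 32) : R) * z ^ (Fin.val (n := 32) i)
  rw [h2]
  rfl

end

/-- The mass (sum of the coefficients). -/
noncomputable def mass : W →+* ℕ :=
  (AddMonoidAlgebra.lift ℕ ℕ (ZMod 32) 1).toRingHom

theorem mass_single (i : ZMod 32) (a : ℕ) : mass (AddMonoidAlgebra.single i a) = a := by
  show AddMonoidAlgebra.lift ℕ ℕ (ZMod 32) 1 _ = _
  rw [AddMonoidAlgebra.lift_single]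
  simp

theorem mass_zp (i : ℕ) : mass (zp i) = 1 := mass_single _ _

theorem coeff_le_mass (w : W) (i : ZMod 32) : w.coeff i ≤ mass w := by
  have h1 : mass w = ∑ i : ZMod 32, w.coeff i := by
    show AddMonoidAlgebra.lift ℕ ℕ (ZMod 32) 1 w = _
    rw [AddMonoidAlgebra.lift_apply, Finsupp.sum_fintype]
    · simp
    · intro i; simp
  rw [h1]
  exact Finset.single_le_sum (f := fun i => w.coeff i) (fun _ _ => Nat.zero_le _)
    (Finset.mem_univ i)

theorem KBM : ((KB : ℕ) : ZMod KM) ^ 16 = -1 := by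
  have h : ((KB ^ 16 + 1 : ℕ) : ZMod KM) = 0 := by
    rw [← KM_eq]; exact ZMod.natCast_self KM
  push_cast at h
  exact eq_neg_of_add_eq_zero_left h

/-- Evaluation at the Kronecker base. -/
noncomputable def evM : W →+* ZMod KM := ev ((KB : ℕ) : ZMod KM) KBM

theorem evM_zp (i : ℕ) : evM (zp i) = ((KB ^ i : ℕ) : ZMod KM) := by
  rw [evM, ev_zp]; push_cast; rfl

private theorem ev_split {R : Type u} [CommRing R] (z : R) (hz : z ^ 16 = -1) (w : W) :
    ev z hz w + ∑ i ∈ Finset.range 16, (w.coeff ((16 + i : ℕ) : ZMod 32) : R) * z ^ i =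
      ∑ i ∈ Finset.range 16, (w.coeff (i : ZMod 32) : R) * z ^ i := by
  have h32 : Finset.range 32 = Finset.range (16 + 16) := rfl
  rw [ev_sum, h32, Finset.sum_range_add]
  have : ∑ x ∈ Finset.range 16, (w.coeff ((16 + x : ℕ) : ZMod 32) : R) * z ^ (16 + x) =
      - ∑ x ∈ Finset.range 16, (w.coeff ((16 + x : ℕ) : ZMod 32) : R) * z ^ x := by
    rw [← Finset.sum_neg_distrib]
    apply Finset.sum_congr rfl
    intro x _
    rw [pow_add, hz]; ring
  rw [this]
  ring

private theorem digits_eq (B M : ℕ) (hB : 1 < B) (hM : M = B ^ 16 + 1) (a b : ℕ → ℕ)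
    (ha : ∀ i, a i < B) (hb : ∀ i, b i < B)
    (h : ((∑ i ∈ Finset.range 16, a i * B ^ i : ℕ) : ZMod M) =
      ((∑ i ∈ Finset.range 16, b i * B ^ i : ℕ) : ZMod M)) :
    ∀ i < 16, a i = b i := by
  have key : ∀ (c : ℕ → ℕ),
      ∑ i ∈ Finset.range 16, c i * B ^ i = Nat.ofDigits B ((List.range 16).map c) := by
    intro c
    simp only [Finset.sum_range_succ, List.range_succ, List.range_zero, List.nil_append,
      List.map_cons, List.map_nil, List.cons_append, Nat.ofDigits_cons,
      Nat.ofDigits_nil, Finset.sum_range_zero]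
    ring
  have lt : ∀ (c : ℕ → ℕ), (∀ i, c i < B) →
      ∑ i ∈ Finset.range 16, c i * B ^ i < M := by
    intro c hc
    rw [key c]
    have := Nat.ofDigits_lt_base_pow_length (b := B) (l := (List.range 16).map c) hB
      (by intro x hx; obtain ⟨i, _, rfl⟩ := List.mem_map.mp hx; exact hc i)
    simp only [List.length_map, List.length_range] at this
    rw [hM]; omega
  rw [ZMod.natCast_eq_natCast_iff, Nat.ModEq, Nat.mod_eq_of_lt (lt a ha),
    Nat.mod_eq_of_lt (lt b hb), key a, key b] at h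
  have h2 := Nat.ofDigits_inj_of_len_eq hB (by simp)
    (by intro x hx; obtain ⟨i, _, rfl⟩ := List.mem_map.mp hx; exact ha i)
    (by intro x hx; obtain ⟨i, _, rfl⟩ := List.mem_map.mp hx; exact hb i) h
  intro i hi
  exact List.map_inj_left.mp h2 i (List.mem_range.mpr hi)

/-- Kronecker substitution is faithful on elements of small mass. -/
theorem ev_eq_of_evM {R : Type u} [CommRing R] (z : R) (hz : z ^ 16 = -1) {u v : W}
    (hm : mass u + mass v < KB) (h : evM u = evM v) : ev z hz u = ev z hz v := by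
  have h1 := ev_split ((KB : ℕ) : ZMod KM) KBM u
  have h2 := ev_split ((KB : ℕ) : ZMod KM) KBM v
  have e1 := ev_split z hz u
  have e2 := ev_split z hz v
  have hd : ∀ i : ℕ, i < 16 → u.coeff (i : ZMod 32) + v.coeff ((16 + i : ℕ) : ZMod 32) =
      v.coeff (i : ZMod 32) + u.coeff ((16 + i : ℕ) : ZMod 32) := by
    apply digits_eq KB KM KB_pos KM_eq (fun i : ℕ => u.coeff (i : ZMod 32) + v.coeff ((16 + i : ℕ) : ZMod 32))
      (fun i : ℕ => v.coeff (i : ZMod 32) + u.coeff ((16 + i : ℕ) : ZMod 32))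
    · intro i
      have a1 := coeff_le_mass u (i : ZMod 32)
      have a2 := coeff_le_mass v ((16 + i : ℕ) : ZMod 32)
      show _ + _ < _
      omega
    · intro i
      have a1 := coeff_le_mass v (i : ZMod 32)
      have a2 := coeff_le_mass u ((16 + i : ℕ) : ZMod 32)
      show _ + _ < _
      omega
    · push_cast
      simp only [add_mul, Finset.sum_add_distrib]
      rw [← evM] at h1 h2
      push_cast at h1 h2
      rw [h] at h1
      rw [← h1, ← h2]
      ring
  have hs : ∑ i ∈ Finset.range 16, (u.coeff (i : ZMod 32) : R) * z ^ i +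
      ∑ i ∈ Finset.range 16, (v.coeff ((16 + i : ℕ) : ZMod 32) : R) * z ^ i =
      ∑ i ∈ Finset.range 16, (v.coeff (i : ZMod 32) : R) * z ^ i +
      ∑ i ∈ Finset.range 16, (u.coeff ((16 + i : ℕ) : ZMod 32) : R) * z ^ i := by
    rw [← Finset.sum_add_distrib, ← Finset.sum_add_distrib]
    apply Finset.sum_congr rfl
    intro i hi
    rw [← add_mul, ← add_mul, ← Nat.cast_add, ← Nat.cast_add, hd i (Finset.mem_range.mp hi)]
  rw [← e1, ← e2] at hs
  linear_combination hs

end H24PV
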