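import Pool.Agent.H24.PV.DaDef

/-!
# EmDef: transport of algebra data along an embedding of fusion data

`assoc` for a label `a'` of `L'`: if `a' = φ a` use `A.assoc` (`φ` injective); if `a'` is not in the
image then all `if φ (x w) = a'` fail and `D'.F (φ _) (φ _) _ _ a' _ = 0` because
`D'.F_supp` gives `D'.N (φ _) (φ _) a'`, so `a'` is in the image by `N_im`.
-/

universe u

namespace H24PV

variable {k : Type u} [Field k] {L L' : Type} [Fintype L] [DecidableEq L] [Fintype L']
  [DecidableEq L'] {D : FData k L} {D' : FData k L'}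

/-- Transport of algebra data along an embedding. -/
def Alg.map {P : Type} [Fintype P] [DecidableEq P] (A : Alg D P) (i : FEmb D D') :
    Alg D' P where
  x p := i.φ (A.x p)
  u := A.u
  m := A.m
  e := A.e
  x_u := by
    rw [A.x_u, i.one_eq]
  m_supp := by
    intro p q r h
    rw [i.N_eq]
    exact A.m_supp h
  one_mul := A.one_mul
  mul_one := A.mul_one
  assoc := by
    intro p q r s a'
    by_cases ha : ∃ a, a' = i.φ a
    · obtain ⟨a, rfl⟩ := ha
      simp only [i.F_eq, i.inj.eq_iff]
      exact A.assoc p q r s a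
    · rw [Finset.sum_eq_zero, Finset.sum_eq_zero]
      · intro w _
        have h0 : D'.F (i.φ (A.x p)) (i.φ (A.x q)) (i.φ (A.x r)) (i.φ (A.x s)) a'
            (i.φ (A.x w)) = 0 := by
          by_contra hne
          exact ha (i.N_im _ _ _ (D'.F_supp hne).1)
        rw [h0, zero_mul]
      · intro w _
        rw [if_neg (fun h => ha ⟨_, h.symm⟩)]
  e_supp := by
    intro p q h
    rw [← i.one_eq, i.N_eq]
    exact A.e_supp h
  e_mul r hr := A.e_mul r (i.inj (hr.trans i.one_eq.symm))
  cas := by
    intro q r s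
    simp only [← i.one_eq, i.F_eq, i.G_eq]
    exact A.cas q r s

theorem Alg.map_comm {P : Type} [Fintype P] [DecidableEq P] (A : Alg D P) (i : FEmb D D')
    (B : BData D) (B' : BData D') (hB : ∀ a b c, B'.R (i.φ a) (i.φ b) (i.φ c) = B.R a b c)
    (h : A.Comm B) : (A.map i).Comm B' := by
  intro p q r
  change B'.R (i.φ (A.x p)) (i.φ (A.x q)) (i.φ (A.x r)) * A.m q p r = A.m p q r
  rw [hB]
  exact h p q r

variable {L₁ L₂ L₃ : Type} [Fintype L₁] [DecidableEq L₁] [Fintype L₂] [DecidableEq L₂]
  [Fintype L₃] [DecidableEq L₃]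

end H24PV
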