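import Pool.Agent.H24.PV.KlH

/-!
# KlI: finite biproducts, finite-dimensional Homs and generators of the Kleisli category

The functor `J A : C ⥤ Kl A` is additive and the identity on objects (up to the wrapper `⟨_⟩`).
* `hasFiniteBiproducts`: for `F : Fin n → Kl A` take the biproduct bicone of
  `fun i => (F i).un` in `C`, map it with `J A` (`Functor.mapBicone`), it is a bilimit
  (`CategoryTheory.Limits.isBilimitOfPreserves` / `hasBiproduct_of_total` with
  `∑ i, π i ≫ ι i = 𝟙`, `(J A).map_sum`).  `J A` preserves biproducts because it is additive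
  (`Functor.preservesFiniteBiproductsOfAdditive` or so).
* `finDim`: `homLin`.
* `gen`: `𝟙 (⟨X⟩) = (J A).map (𝟙 X)`; apply the additive hom `(J A).mapAddHom` to the membership
  (`AddSubgroup.closure_induction` or `AddSubgroup.map_closure`).
-/

open CategoryTheory MonoidalCategory CategoryTheory.Limits

universe v w u

namespace H24PV

/-- The objects `G i` generate `C` under finite direct sums and summands. -/
def Gen (C : Type w) [Category.{v} C] [Preadditive C] {I : Type} (G : I → C) : Prop :=
  ∀ X : C, 𝟙 X ∈ AddSubgroup.closure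
    {f : X ⟶ X | ∃ (i : I) (a : X ⟶ G i) (b : G i ⟶ X), f = a ≫ b}

variable {C : Type w} [Category.{v} C] [MonoidalCategory C] [Preadditive C]
  [MonoidalPreadditive C] {A : CCM C}

namespace Kl

theorem hasFiniteBiproducts [HasFiniteBiproducts C] : HasFiniteBiproducts (Kl A) := by
  constructor
  intro n
  constructor
  intro F
  let f : Fin n → C := fun j => (F j).un
  let B : Bicone F :=
    { pt := (J A).obj (⨁ f)
      π := fun j => (J A).map (biproduct.π f j)
      ι := fun j => (J A).map (biproduct.ι f j)
      ι_π := by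
        intro j j'
        have h1 : (J A).map (biproduct.ι f j) ≫ (J A).map (biproduct.π f j') =
            (J A).map (biproduct.ι f j ≫ biproduct.π f j') := ((J A).map_comp _ _).symm
        refine h1.trans ?_
        rw [biproduct.ι_π]
        by_cases h : j = j'
        · subst h
          rw [dif_pos rfl, dif_pos rfl]
          exact (J A).map_id _
        · rw [dif_neg h, dif_neg h]
          exact (J A).map_zero _ _ }
  refine hasBiproduct_of_total B ?_
  have h1 : ∑ j, B.π j ≫ B.ι j = ∑ j, (J A).map (biproduct.π f j ≫ biproduct.ι f j) :=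
    Finset.sum_congr rfl fun j _ => ((J A).map_comp _ _).symm
  rw [h1, ← (J A).map_sum, biproduct.total]
  exact (J A).map_id _

theorem finDim {k : Type u} [Field k] [Linear k C]
    (h : ∀ X Y : C, FiniteDimensional k (X ⟶ Y)) (X Y : Kl A) :
    FiniteDimensional k (X ⟶ Y) := by
  haveI := h X.un (Y.un ⊗ A.A)
  exact (homLin X Y).symm.finiteDimensional

theorem gen {I : Type} (G : I → C) (h : Gen C G) : Gen (Kl A) (fun i => (J A).obj (G i)) := by
  intro X
  have h1 : ∀ g : X.un ⟶ X.un, g ∈ AddSubgroup.closure
      {f : X.un ⟶ X.un | ∃ (i : I) (a : X.un ⟶ G i) (b : G i ⟶ X.un), f = a ≫ b} →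
      (J A).map g ∈ AddSubgroup.closure
      {f : X ⟶ X | ∃ (i : I) (a : X ⟶ (J A).obj (G i)) (b : (J A).obj (G i) ⟶ X), f = a ≫ b} := by
    intro g hg
    induction hg using AddSubgroup.closure_induction with
    | mem x hx =>
      obtain ⟨i, a, b, rfl⟩ := hx
      apply AddSubgroup.subset_closure
      exact ⟨i, (J A).map a, (J A).map b, (J A).map_comp a b⟩
    | zero =>
      rw [(J A).map_zero]
      exact zero_mem _
    | add x y _ _ h1 h2 =>
      rw [(J A).map_add]
      exact add_mem h1 h2
    | neg x _ h1 =>
      rw [(J A).map_neg]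
      exact neg_mem h1
  have h2 := h1 _ (h X.un)
  have h3 : (J A).map (𝟙 X.un) = 𝟙 X := (J A).map_id X.un
  rw [h3] at h2
  exact h2

end Kl
end H24PV
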