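import Pool.Agent.H24.PV.FL
import Pool.Agent.H24.PV.KlI

/-!
# FB: biproducts, finite-dimensional Homs, generators of the category of families

* `hasFiniteBiproducts`: for `F : Fin n → Fam D` take `ι := Σ i, (F i).ι`, `lab ⟨i, j⟩`,
  `pres ⟨i, j⟩`; projections and inclusions are 0/1 matrices; `hasBiproduct_of_total`.
* `finDim`: `homLin`.
* `gen`: `𝟙 X = ∑_{i, pres i} (pr i) ≫ (inc i)` with `pr i : X ⟶ lb (X.lab i)`.
-/

open CategoryTheory MonoidalCategory CategoryTheory.Limits

universe u

namespace H24PV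
namespace Fam

variable {k : Type u} [Field k] {L : Type} [Fintype L] [DecidableEq L] {D : FData k L}

theorem FB_sum_m {X Y : Fam D} {J : Type} (s : Finset J) (f : J → (X ⟶ Y)) (i j) :
    Hom.m (∑ a ∈ s, f a : X ⟶ Y) i j = ∑ a ∈ s, Hom.m (f a) i j := by
  classical
  induction s using Finset.induction_on with
  | empty => rw [Finset.sum_empty, Finset.sum_empty, zero_m]
  | insert a s ha ih => rw [Finset.sum_insert ha, Finset.sum_insert ha, add_m, ih]

/-- the direct sum. -/
@[reducible] def FB_big {n : ℕ} (F : Fin n → Fam D) : Fam D where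
  ι := Σ i, (F i).ι
  lab s := (F s.1).lab s.2
  pres s := (F s.1).pres s.2

/-- the projections. -/
def FB_pi {n : ℕ} (F : Fin n → Fam D) (i : Fin n) : FB_big F ⟶ F i :=
  Hom.mk (X := FB_big F) (Y := F i)
    (fun (s : Σ i, (F i).ι) (j : (F i).ι) => if s = ⟨i, j⟩ ∧ (F i).pres j = true then 1 else 0) (by
    apply Hom.ofne
    rintro s j h
    by_cases hc : s = ⟨i, j⟩ ∧ (F i).pres j = true
    · obtain ⟨rfl, h1⟩ := hc
      exact ⟨h1, h1, rfl⟩
    · exact absurd (if_neg hc) h)

theorem FB_pi_m {n : ℕ} (F : Fin n → Fam D) (i : Fin n) (s j) :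
    Hom.m (FB_pi F i) s j = if s = ⟨i, j⟩ ∧ (F i).pres j = true then 1 else 0 := rfl

/-- the inclusions. -/
def FB_inc {n : ℕ} (F : Fin n → Fam D) (i : Fin n) : F i ⟶ FB_big F :=
  Hom.mk (X := F i) (Y := FB_big F)
    (fun (j : (F i).ι) (s : Σ i, (F i).ι) => if s = ⟨i, j⟩ ∧ (F i).pres j = true then 1 else 0) (by
    apply Hom.ofne
    rintro j s h
    by_cases hc : s = ⟨i, j⟩ ∧ (F i).pres j = true
    · obtain ⟨rfl, h1⟩ := hc
      exact ⟨h1, h1, rfl⟩
    · exact absurd (if_neg hc) h)

theorem FB_inc_m {n : ℕ} (F : Fin n → Fam D) (i : Fin n) (s j) :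
    Hom.m (FB_inc F i) j s = if s = ⟨i, j⟩ ∧ (F i).pres j = true then 1 else 0 := rfl

theorem hasFiniteBiproducts : HasFiniteBiproducts (Fam D) := by
  refine ⟨fun n => ⟨fun F => ?_⟩⟩
  refine hasBiproduct_of_total (f := F)
    { pt := FB_big F
      π := FB_pi F
      ι := FB_inc F
      ι_π := ?_ } ?_
  · intro j j'
    by_cases h : j = j'
    · subst h
      rw [dif_pos rfl, eqToHom_refl]
      ext a b
      rw [comp_m, id_m, Finset.sum_eq_single (⟨j, a⟩ : Σ i, (F i).ι)]
      · rw [FB_inc_m, FB_pi_m]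
        by_cases hab : a = b
        · subst hab
          by_cases hp : (F j).pres a = true <;> simp [hp]
        · have : (⟨j, a⟩ : Σ i, (F i).ι) ≠ ⟨j, b⟩ := by
            intro h
            exact hab (by simpa using h)
          simp [hab, this]
      · intro s _ hs
        rw [FB_inc_m, if_neg (fun h => hs h.1), zero_mul]
      · intro h
        exact absurd (Finset.mem_univ _) h
    · rw [dif_neg h]
      ext a b
      rw [comp_m, zero_m]
      refine Finset.sum_eq_zero fun s _ => ?_
      rw [FB_inc_m, FB_pi_m]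
      by_cases h1 : s = ⟨j, a⟩
      · subst h1
        rw [if_neg (c := (⟨j, a⟩ : Σ i, (F i).ι) = ⟨j', b⟩ ∧ _), mul_zero]
        rintro ⟨h2, -⟩
        exact h (congrArg Sigma.fst h2)
      · rw [if_neg (fun h => h1 h.1), zero_mul]
  · ext s t
    rw [FB_sum_m, id_m]
    rw [Finset.sum_eq_single s.1]
    · change Hom.m (FB_pi F s.1 ≫ FB_inc F s.1) s t = _
      rw [comp_m, Finset.sum_eq_single s.2]
      · rw [FB_pi_m, FB_inc_m]
        by_cases hp : (F s.1).pres s.2 = true
        · by_cases hst : s = t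
          · subst hst
            simp [hp]
          · have : t ≠ ⟨s.1, s.2⟩ := fun h => hst h.symm
            simp [hst, this]
        · simp [hp]
      · intro a _ ha
        rw [FB_pi_m, if_neg, zero_mul]
        rintro ⟨h, -⟩
        apply ha
        have := (Sigma.mk.inj_iff.1 h).2
        exact (eq_of_heq this).symm
      · intro h
        exact absurd (Finset.mem_univ _) h
    · intro j _ hj
      change Hom.m (FB_pi F j ≫ FB_inc F j) s t = _
      rw [comp_m]
      refine Finset.sum_eq_zero fun a _ => ?_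
      rw [FB_pi_m, if_neg, zero_mul]
      rintro ⟨h, -⟩
      exact hj (congrArg Sigma.fst h).symm
    · intro h
      exact absurd (Finset.mem_univ _) h

theorem finDim (X Y : Fam D) : FiniteDimensional k (X ⟶ Y) :=
  Module.Finite.equiv (homLin X Y).symm

/-- projection to one label. -/
def FB_pr (X : Fam D) (i : X.ι) : X ⟶ lb D (X.lab i) :=
  Hom.mk (X := X) (Y := lb D (X.lab i))
    (fun (j : X.ι) (_ : Unit) => if j = i ∧ X.pres i = true then 1 else 0) (by
    apply Hom.ofne
    rintro j u h
    by_cases hc : j = i ∧ X.pres i = true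
    · obtain ⟨rfl, h1⟩ := hc
      exact ⟨h1, rfl, rfl⟩
    · exact absurd (if_neg hc) h)

/-- inclusion of one label. -/
def FB_in (X : Fam D) (i : X.ι) : lb D (X.lab i) ⟶ X :=
  Hom.mk (X := lb D (X.lab i)) (Y := X)
    (fun (_ : Unit) (j : X.ι) => if j = i ∧ X.pres i = true then 1 else 0) (by
    apply Hom.ofne
    rintro u j h
    by_cases hc : j = i ∧ X.pres i = true
    · obtain ⟨rfl, h1⟩ := hc
      exact ⟨rfl, h1, rfl⟩
    · exact absurd (if_neg hc) h)

theorem FB_comp_m (X : Fam D) (i s t : X.ι) :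
    Hom.m (FB_pr X i ≫ FB_in X i) s t =
      (if s = i ∧ X.pres i = true then (1 : k) else 0) *
        if t = i ∧ X.pres i = true then (1 : k) else 0 := by
  rw [comp_m]
  exact Fintype.sum_unique _

theorem gen (D : FData k L) : Gen (Fam D) (fun x : L => lb D x) := by
  intro X
  have h : 𝟙 X = ∑ i, FB_pr X i ≫ FB_in X i := by
    ext s t
    rw [FB_sum_m, id_m, Finset.sum_eq_single s]
    · rw [FB_comp_m]
      by_cases hp : X.pres s = true
      · by_cases hst : s = t
        · simp [hst, hst ▸ hp]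
        · have hts : ¬ t = s := fun h => hst h.symm
          simp [hst, hts]
      · simp [hp]
    · intro i _ hi
      rw [FB_comp_m, if_neg (fun h => hi h.1.symm), zero_mul]
    · intro h
      exact absurd (Finset.mem_univ _) h
  rw [h]
  exact AddSubgroup.sum_mem _ fun i _ =>
    AddSubgroup.subset_closure ⟨X.lab i, FB_pr X i, FB_in X i, rfl⟩

end Fam
end H24PV
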