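import Mathlib

/-!
# Skeletal multiplicity-free fusion data and the category of families of labels
-/

open CategoryTheory MonoidalCategory

universe u

namespace H24PV

/-- Skeletal, multiplicity-free fusion data over `k` with label set `L`.
`F a b c d e f` is the matrix entry of the associator `(a ⊗ b) ⊗ c ⟶ a ⊗ (b ⊗ c)` on the
summand `d`, from the channel `e` of `a ⊗ b` to the channel `f` of `b ⊗ c`; `G a b c d f e` is
the entry of its inverse. -/
structure FData (k : Type u) [Field k] (L : Type) [Fintype L] [DecidableEq L] where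
  one : L
  N : L → L → L → Bool
  F : L → L → L → L → L → L → k
  G : L → L → L → L → L → L → k
  N_one_left : ∀ a b, N one a b = decide (a = b)
  N_one_right : ∀ a b, N a one b = decide (a = b)
  F_supp : ∀ {a b c d e f}, F a b c d e f ≠ 0 →
    N a b e = true ∧ N e c d = true ∧ N b c f = true ∧ N a f d = true
  G_supp : ∀ {a b c d f e}, G a b c d f e ≠ 0 →
    N a b e = true ∧ N e c d = true ∧ N b c f = true ∧ N a f d = true
  FG : ∀ a b c d e e', ∑ f, F a b c d e f * G a b c d f e' =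
    if e = e' ∧ N a b e = true ∧ N e c d = true then 1 else 0
  GF : ∀ a b c d f f', ∑ e, G a b c d f e * F a b c d e f' =
    if f = f' ∧ N b c f = true ∧ N a f d = true then 1 else 0
  F_one_left : ∀ b c d, N b c d = true → F one b c d b d = 1
  F_one_mid : ∀ a c d, N a c d = true → F a one c d a c = 1
  F_one_right : ∀ a b d, N a b d = true → F a b one d d b = 1
  pentagon : ∀ a b c d e f g k l,
    F f c d e g l * F a b l e f k = ∑ h, F a b c g f h * F a h d e g k * F b c d k h l

variable {k : Type u} [Field k] {L : Type} [Fintype L] [DecidableEq L]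

/-- Objects: finite families of labels (entries with `pres = false` are absent). -/
structure Fam (D : FData k L) : Type 1 where
  ι : Type
  [fin : Fintype ι]
  [dec : DecidableEq ι]
  lab : ι → L
  pres : ι → Bool

attribute [instance] Fam.fin Fam.dec

variable {D : FData k L}

namespace Fam

/-- The entries which may be nonzero. -/
def cmp (X Y : Fam D) (i : X.ι) (j : Y.ι) : Bool :=
  X.pres i && Y.pres j && decide (X.lab i = Y.lab j)

/-- Morphisms are matrices supported on pairs with equal labels. -/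
def homSub (X Y : Fam D) : Submodule k (X.ι → Y.ι → k) where
  carrier := {M | ∀ i j, cmp X Y i j = false → M i j = 0}
  zero_mem' := by intro i j _; rfl
  add_mem' := by
    intro a b ha hb i j h
    simp [ha i j h, hb i j h]
  smul_mem' := by
    intro c a ha i j h
    simp [ha i j h]

/-- Morphisms of families. -/
@[ext] structure Hom (X Y : Fam D) where
  m : X.ι → Y.ι → k
  supp : ∀ i j, cmp X Y i j = false → m i j = 0

theorem Hom.cmp_of_ne {X Y : Fam D} (f : Hom X Y) {i j} (h : f.m i j ≠ 0) :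
    X.pres i = true ∧ Y.pres j = true ∧ X.lab i = Y.lab j := by
  by_contra hc
  apply h
  apply f.supp
  simp only [cmp]
  by_contra hcc
  apply hc
  simp at hcc
  exact ⟨hcc.1, hcc.2.1, hcc.2.2⟩

theorem Hom.pl {X Y : Fam D} (f : Hom X Y) {i j} (h : f.m i j ≠ 0) : X.pres i = true :=
  (f.cmp_of_ne h).1
theorem Hom.pr {X Y : Fam D} (f : Hom X Y) {i j} (h : f.m i j ≠ 0) : Y.pres j = true :=
  (f.cmp_of_ne h).2.1
theorem Hom.eq {X Y : Fam D} (f : Hom X Y) {i j} (h : f.m i j ≠ 0) : X.lab i = Y.lab j :=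
  (f.cmp_of_ne h).2.2

theorem Hom.ofne {X Y : Fam D} (m : X.ι → Y.ι → k)
    (h : ∀ i j, m i j ≠ 0 → X.pres i = true ∧ Y.pres j = true ∧ X.lab i = Y.lab j) :
    ∀ i j, cmp X Y i j = false → m i j = 0 := by
  intro i j hc
  by_contra hne
  obtain ⟨h1, h2, h3⟩ := h i j hne
  simp [cmp, h1, h2, h3] at hc

instance : Category (Fam D) where
  Hom X Y := Hom X Y
  id X := ⟨fun i j => if i = j ∧ X.pres i = true then 1 else 0, by
    apply Hom.ofne
    intro i j h
    by_cases hc : i = j ∧ X.pres i = true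
    · obtain ⟨rfl, h2⟩ := hc
      exact ⟨h2, h2, rfl⟩
    · simp [hc] at h⟩
  comp {X Y Z} f g := ⟨fun i j => ∑ l, f.m i l * g.m l j, by
    apply Hom.ofne
    intro i j h
    obtain ⟨l, -, hl⟩ := Finset.exists_ne_zero_of_sum_ne_zero h
    have h1 : f.m i l ≠ 0 := left_ne_zero_of_mul hl
    have h2 : g.m l j ≠ 0 := right_ne_zero_of_mul hl
    exact ⟨f.pl h1, g.pr h2, (f.eq h1).trans (g.eq h2)⟩⟩
  id_comp {X Y} f := by
    apply Hom.ext
    funext i j
    show ∑ l, (if i = l ∧ X.pres i = true then (1:k) else 0) * f.m l j = f.m i j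
    by_cases hp : X.pres i = true
    · simp [hp]
    · have : f.m i j = 0 := by
        by_contra h
        exact hp (f.pl h)
      simp [hp, this]
  comp_id {X Y} f := by
    apply Hom.ext
    funext i j
    show ∑ l, f.m i l * (if l = j ∧ Y.pres l = true then (1:k) else 0) = f.m i j
    by_cases hp : Y.pres j = true
    · rw [Finset.sum_eq_single j]
      · simp [hp]
      · intro b _ hb; simp [hb]
      · simp
    · have : f.m i j = 0 := by
        by_contra h
        exact hp (f.pr h)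
      rw [this]
      apply Finset.sum_eq_zero
      intro l _
      by_cases hl : l = j
      · subst hl; simp [hp]
      · simp [hl]
  assoc {W X Y Z} f g h := by
    apply Hom.ext
    funext i j
    show ∑ l, (∑ l', f.m i l' * g.m l' l) * h.m l j = ∑ l, f.m i l * ∑ l', g.m l l' * h.m l' j
    simp only [Finset.sum_mul, Finset.mul_sum]
    rw [Finset.sum_comm]
    simp only [mul_assoc]

theorem id_m (X : Fam D) (i j : X.ι) :
    Hom.m (𝟙 X) i j = if i = j ∧ X.pres i = true then 1 else 0 := rfl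

theorem comp_m {X Y Z : Fam D} (f : X ⟶ Y) (g : Y ⟶ Z) (i : X.ι) (j : Z.ι) :
    Hom.m (f ≫ g) i j = ∑ l, Hom.m f i l * Hom.m g l j := rfl

@[ext] theorem hom_ext {X Y : Fam D} (f g : X ⟶ Y) (h : ∀ i j, Hom.m f i j = Hom.m g i j) :
    f = g := Hom.ext (by funext i j; exact h i j)

/-- Tensor product of families. -/
@[reducible] def tObj (X Y : Fam D) : Fam D where
  ι := X.ι × Y.ι × L
  lab t := t.2.2
  pres t := X.pres t.1 && Y.pres t.2.1 && D.N (X.lab t.1) (Y.lab t.2.1) t.2.2

def tHom {X X' Y Y' : Fam D} (f : X ⟶ X') (g : Y ⟶ Y') : tObj X Y ⟶ tObj X' Y' :=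
  Hom.mk (X := tObj X Y) (Y := tObj X' Y')
    (fun (s : X.ι × Y.ι × L) (t : X'.ι × Y'.ι × L) => if s.2.2 = t.2.2 ∧ D.N (X.lab s.1) (Y.lab s.2.1) s.2.2 = true then
      Hom.m f s.1 t.1 * Hom.m g s.2.1 t.2.1 else 0) (by
    apply Hom.ofne
    rintro ⟨i, j, c⟩ ⟨i', j', c'⟩ h
    by_cases hc : c = c' ∧ D.N (X.lab i) (Y.lab j) c = true
    · obtain ⟨rfl, hN⟩ := hc
      rw [if_pos ⟨rfl, hN⟩] at h
      have h1 := left_ne_zero_of_mul h
      have h2 := right_ne_zero_of_mul h
      have e1 := Hom.eq f h1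
      have e2 := Hom.eq g h2
      refine ⟨?_, ?_, rfl⟩
      · simp [tObj, Hom.pl f h1, Hom.pl g h2, hN]
      · simp [tObj, Hom.pr f h1, Hom.pr g h2, ← e1, ← e2, hN]
    · exact absurd (if_neg hc) h)

theorem tHom_m {X X' Y Y' : Fam D} (f : X ⟶ X') (g : Y ⟶ Y') (i j c i' j' c') :
    Hom.m (tHom f g) (i, j, c) (i', j', c') =
      if c = c' ∧ D.N (X.lab i) (Y.lab j) c = true then
      Hom.m f i i' * Hom.m g j j' else 0 := rfl

theorem tHom_id (X Y : Fam D) : tHom (𝟙 X) (𝟙 Y) = 𝟙 (tObj X Y) := by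
  ext ⟨i, j, c⟩ ⟨i', j', c'⟩
  rw [tHom_m, id_m, id_m, id_m]
  by_cases h1 : i = i' <;> by_cases h2 : j = j' <;> by_cases h3 : c = c' <;>
    by_cases h4 : X.pres i = true <;> by_cases h5 : Y.pres j = true <;>
    by_cases h6 : D.N (X.lab i) (Y.lab j) c = true <;> simp_all [tObj]

theorem tHom_comp {X X' X'' Y Y' Y'' : Fam D} (f : X ⟶ X') (f' : X' ⟶ X'')
    (g : Y ⟶ Y') (g' : Y' ⟶ Y'') :
    tHom (f ≫ f') (g ≫ g') = tHom f g ≫ tHom f' g' := by
  ext ⟨i, j, c⟩ ⟨i', j', c'⟩
  rw [tHom_m, comp_m, comp_m, comp_m]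
  erw [Fintype.sum_prod_type]
  simp_rw [Fintype.sum_prod_type]
  by_cases hc : c = c' ∧ D.N (X.lab i) (Y.lab j) c = true
  · obtain ⟨rfl, hN⟩ := hc
    rw [if_pos ⟨rfl, hN⟩, Finset.sum_mul]
    apply Finset.sum_congr rfl
    intro l _
    rw [Finset.mul_sum]
    apply Finset.sum_congr rfl
    intro l' _
    rw [Finset.sum_eq_single c]
    · rw [tHom_m, tHom_m, if_pos ⟨rfl, hN⟩]
      by_cases h1 : Hom.m f i l = 0
      · simp [h1]
      by_cases h2 : Hom.m g j l' = 0
      · simp [h2]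
      rw [if_pos ⟨rfl, by rw [← Hom.eq f h1, ← Hom.eq g h2]; exact hN⟩]
      ring
    · intro b _ hb
      rw [tHom_m, if_neg (fun h => hb h.1.symm), zero_mul]
    · simp
  · rw [if_neg hc]
    symm
    apply Finset.sum_eq_zero; intro l _
    apply Finset.sum_eq_zero; intro l' _
    apply Finset.sum_eq_zero; intro d _
    rw [tHom_m, tHom_m]
    by_cases h1 : c = d ∧ D.N (X.lab i) (Y.lab j) c = true
    · obtain ⟨rfl, hN⟩ := h1
      rw [if_neg (c := c = c' ∧ _) (fun h => hc ⟨h.1, hN⟩), mul_zero]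
    · rw [if_neg h1, zero_mul]

end Fam
end H24PV
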