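import Pool.Agent.H24.PV.FmG

/-!
# FL: linear structure on families
-/

open CategoryTheory MonoidalCategory

universe u

namespace H24PV
namespace Fam

variable {k : Type u} [Field k] {L : Type} [Fintype L] [DecidableEq L] {D : FData k L}

/-- Morphisms as elements of a submodule of a function space. -/
def homEquiv (X Y : Fam D) : (X ⟶ Y) ≃ homSub X Y where
  toFun f := ⟨Hom.m f, Hom.supp f⟩
  invFun f := ⟨f.1, f.2⟩
  left_inv _ := rfl
  right_inv _ := rfl

instance (X Y : Fam D) : AddCommGroup (X ⟶ Y) := (homEquiv X Y).addCommGroup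
instance (X Y : Fam D) : Module k (X ⟶ Y) := (homEquiv X Y).module k

theorem add_m {X Y : Fam D} (f g : X ⟶ Y) (i j) :
    Hom.m (f + g) i j = Hom.m f i j + Hom.m g i j := rfl
theorem zero_m {X Y : Fam D} (i j) : Hom.m (0 : X ⟶ Y) i j = 0 := rfl
theorem neg_m {X Y : Fam D} (f : X ⟶ Y) (i j) : Hom.m (-f) i j = - Hom.m f i j := rfl
theorem smul_m {X Y : Fam D} (r : k) (f : X ⟶ Y) (i j) :
    Hom.m (r • f) i j = r * Hom.m f i j := rfl

/-- Linear version of `homEquiv`. -/
def homLin (X Y : Fam D) : (X ⟶ Y) ≃ₗ[k] homSub X Y where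
  toFun f := ⟨Hom.m f, Hom.supp f⟩
  invFun f := ⟨f.1, f.2⟩
  left_inv _ := rfl
  right_inv _ := rfl
  map_add' _ _ := rfl
  map_smul' _ _ := rfl

instance : Preadditive (Fam D) where
  homGroup X Y := inferInstance
  add_comp X Y Z f g h := by
    ext i j
    simp only [comp_m, add_m, add_mul, Finset.sum_add_distrib]
  comp_add X Y Z f g h := by
    ext i j
    simp only [comp_m, add_m, mul_add, Finset.sum_add_distrib]

instance : Linear k (Fam D) where
  homModule X Y := inferInstance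
  smul_comp X Y Z r f g := by
    ext i j
    simp only [comp_m, smul_m, Finset.mul_sum, mul_assoc]
  comp_smul X Y Z f r g := by
    ext i j
    simp only [comp_m, smul_m, Finset.mul_sum]
    apply Finset.sum_congr rfl; intro l _; ring

instance : MonoidalPreadditive (Fam D) where
  whiskerLeft_zero {X Y Z} := by
    ext ⟨i, j, c⟩ ⟨i', j', c'⟩
    rw [whiskerLeft_eq]
    erw [tHom_m, zero_m]
    simp
  zero_whiskerRight {X Y Z} := by
    ext ⟨i, j, c⟩ ⟨i', j', c'⟩
    rw [whiskerRight_eq]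
    erw [tHom_m, zero_m]
    simp
  whiskerLeft_add {X Y Z} f g := by
    ext ⟨i, j, c⟩ ⟨i', j', c'⟩
    rw [whiskerLeft_eq, whiskerLeft_eq, whiskerLeft_eq]
    erw [add_m, tHom_m, tHom_m, tHom_m, add_m]
    split_ifs <;> simp [mul_add]
  add_whiskerRight {X Y Z} f g := by
    ext ⟨i, j, c⟩ ⟨i', j', c'⟩
    rw [whiskerRight_eq, whiskerRight_eq, whiskerRight_eq]
    erw [add_m, tHom_m, tHom_m, tHom_m, add_m]
    split_ifs <;> simp [add_mul]

instance : MonoidalLinear k (Fam D) where
  whiskerLeft_smul X {Y Z} r f := by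
    ext ⟨i, j, c⟩ ⟨i', j', c'⟩
    rw [whiskerLeft_eq, whiskerLeft_eq]
    erw [smul_m, tHom_m, tHom_m, smul_m]
    split_ifs
    · ring
    · simp
  smul_whiskerRight r {Y Z} f X := by
    ext ⟨i, j, c⟩ ⟨i', j', c'⟩
    rw [whiskerRight_eq, whiskerRight_eq]
    erw [smul_m, tHom_m, tHom_m, smul_m]
    split_ifs
    · ring
    · simp

end Fam
end H24PV
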