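import Pool.Agent.H24.PV.FD

/-!
# FM: structural isomorphisms of the category of families

Index sets: `(X ⊗ Y) ⊗ Z` has elements `((i, j, e), k, d)`, `X ⊗ (Y ⊗ Z)` has elements
`(i, (j, k, f), d)`.
-/

open CategoryTheory MonoidalCategory

universe u

namespace H24PV
namespace Fam

variable {k : Type u} [Field k] {L : Type} [Fintype L] [DecidableEq L] {D : FData k L}

/-- The unit object. -/
@[reducible] def tUnit (D : FData k L) : Fam D where
  ι := Unit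
  lab _ := D.one
  pres _ := true

/-- The object with one label. -/
@[reducible] def lb (D : FData k L) (x : L) : Fam D where
  ι := Unit
  lab _ := x
  pres _ := true

/-- Associator, as a morphism. -/
def tAssoc (X Y Z : Fam D) : tObj (tObj X Y) Z ⟶ tObj X (tObj Y Z) :=
  Hom.mk (X := tObj (tObj X Y) Z) (Y := tObj X (tObj Y Z))
    (fun (s : (X.ι × Y.ι × L) × Z.ι × L) (t : X.ι × (Y.ι × Z.ι × L) × L) =>
      if s.1.1 = t.1 ∧ s.1.2.1 = t.2.1.1 ∧ s.2.1 = t.2.1.2.1 ∧ s.2.2 = t.2.2 ∧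
        X.pres t.1 = true ∧ Y.pres t.2.1.1 = true ∧ Z.pres t.2.1.2.1 = true then
        D.F (X.lab s.1.1) (Y.lab s.1.2.1) (Z.lab s.2.1) s.2.2 s.1.2.2 t.2.1.2.2 else 0) (by
    apply Hom.ofne
    rintro ⟨⟨i, j, e⟩, l, d⟩ ⟨i', ⟨j', l', f⟩, d'⟩ h
    by_cases hc : i = i' ∧ j = j' ∧ l = l' ∧ d = d' ∧ X.pres i' = true ∧ Y.pres j' = true ∧
        Z.pres l' = true
    · obtain ⟨rfl, rfl, rfl, rfl, h1, h2, h3⟩ := hc
      have h' : D.F (X.lab i) (Y.lab j) (Z.lab l) d e f ≠ 0 := by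
        simpa [h1, h2, h3] using h
      obtain ⟨a1, a2, a3, a4⟩ := D.F_supp h'
      simp [tObj, h1, h2, h3, a1, a2, a3, a4]
    · exact absurd (if_neg hc) h)

theorem tAssoc_m (X Y Z : Fam D) (i j e l d i' j' l' f d') :
    Hom.m (tAssoc X Y Z) ((i, j, e), l, d) (i', (j', l', f), d') =
      if i = i' ∧ j = j' ∧ l = l' ∧ d = d' ∧ X.pres i' = true ∧ Y.pres j' = true ∧
        Z.pres l' = true then
        D.F (X.lab i) (Y.lab j) (Z.lab l) d e f else 0 := rfl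

/-- Inverse associator, as a morphism. -/
def tAssocInv (X Y Z : Fam D) : tObj X (tObj Y Z) ⟶ tObj (tObj X Y) Z :=
  Hom.mk (X := tObj X (tObj Y Z)) (Y := tObj (tObj X Y) Z)
    (fun (t : X.ι × (Y.ι × Z.ι × L) × L) (s : (X.ι × Y.ι × L) × Z.ι × L) =>
      if s.1.1 = t.1 ∧ s.1.2.1 = t.2.1.1 ∧ s.2.1 = t.2.1.2.1 ∧ s.2.2 = t.2.2 ∧
        X.pres t.1 = true ∧ Y.pres t.2.1.1 = true ∧ Z.pres t.2.1.2.1 = true then
        D.G (X.lab s.1.1) (Y.lab s.1.2.1) (Z.lab s.2.1) s.2.2 t.2.1.2.2 s.1.2.2 else 0) (by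
    apply Hom.ofne
    rintro ⟨i', ⟨j', l', f⟩, d'⟩ ⟨⟨i, j, e⟩, l, d⟩ h
    by_cases hc : i = i' ∧ j = j' ∧ l = l' ∧ d = d' ∧ X.pres i' = true ∧ Y.pres j' = true ∧
        Z.pres l' = true
    · obtain ⟨rfl, rfl, rfl, rfl, h1, h2, h3⟩ := hc
      have h' : D.G (X.lab i) (Y.lab j) (Z.lab l) d f e ≠ 0 := by
        simpa [h1, h2, h3] using h
      obtain ⟨a1, a2, a3, a4⟩ := D.G_supp h'
      simp [tObj, h1, h2, h3, a1, a2, a3, a4]
    · exact absurd (if_neg hc) h)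

theorem tAssocInv_m (X Y Z : Fam D) (i j e l d i' j' l' f d') :
    Hom.m (tAssocInv X Y Z) (i', (j', l', f), d') ((i, j, e), l, d) =
      if i = i' ∧ j = j' ∧ l = l' ∧ d = d' ∧ X.pres i' = true ∧ Y.pres j' = true ∧
        Z.pres l' = true then
        D.G (X.lab i) (Y.lab j) (Z.lab l) d f e else 0 := rfl

/-- Left unitor, as a morphism. -/
def tLam (X : Fam D) : tObj (tUnit D) X ⟶ X :=
  Hom.mk (X := tObj (tUnit D) X) (Y := X)
    (fun (s : Unit × X.ι × L) (t : X.ι) =>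
      if s.2.1 = t ∧ s.2.2 = X.lab t ∧ X.pres t = true then 1 else 0) (by
    apply Hom.ofne
    rintro ⟨u, j, c⟩ t h
    by_cases hc : j = t ∧ c = X.lab t ∧ X.pres t = true
    · obtain ⟨rfl, rfl, h1⟩ := hc
      simp [tObj, tUnit, h1, D.N_one_left]
    · exact absurd (if_neg hc) h)

theorem tLam_m (X : Fam D) (u : Unit) (j c t) :
    Hom.m (tLam X) (u, j, c) t = if j = t ∧ c = X.lab t ∧ X.pres t = true then 1 else 0 := rfl

/-- Inverse of the left unitor, as a morphism. -/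
def tLamInv (X : Fam D) : X ⟶ tObj (tUnit D) X :=
  Hom.mk (X := X) (Y := tObj (tUnit D) X)
    (fun (t : X.ι) (s : Unit × X.ι × L) =>
      if s.2.1 = t ∧ s.2.2 = X.lab t ∧ X.pres t = true then 1 else 0) (by
    apply Hom.ofne
    rintro t ⟨u, j, c⟩ h
    by_cases hc : j = t ∧ c = X.lab t ∧ X.pres t = true
    · obtain ⟨rfl, rfl, h1⟩ := hc
      simp [tObj, tUnit, h1, D.N_one_left]
    · exact absurd (if_neg hc) h)

theorem tLamInv_m (X : Fam D) (u : Unit) (j c t) :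
    Hom.m (tLamInv X) t (u, j, c) = if j = t ∧ c = X.lab t ∧ X.pres t = true then 1 else 0 := rfl

/-- Right unitor, as a morphism. -/
def tRho (X : Fam D) : tObj X (tUnit D) ⟶ X :=
  Hom.mk (X := tObj X (tUnit D)) (Y := X)
    (fun (s : X.ι × Unit × L) (t : X.ι) =>
      if s.1 = t ∧ s.2.2 = X.lab t ∧ X.pres t = true then 1 else 0) (by
    apply Hom.ofne
    rintro ⟨j, u, c⟩ t h
    by_cases hc : j = t ∧ c = X.lab t ∧ X.pres t = true
    · obtain ⟨rfl, rfl, h1⟩ := hc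
      simp [tObj, tUnit, h1, D.N_one_right]
    · exact absurd (if_neg hc) h)

theorem tRho_m (X : Fam D) (u : Unit) (j c t) :
    Hom.m (tRho X) (j, u, c) t = if j = t ∧ c = X.lab t ∧ X.pres t = true then 1 else 0 := rfl

/-- Inverse of the right unitor, as a morphism. -/
def tRhoInv (X : Fam D) : X ⟶ tObj X (tUnit D) :=
  Hom.mk (X := X) (Y := tObj X (tUnit D))
    (fun (t : X.ι) (s : X.ι × Unit × L) =>
      if s.1 = t ∧ s.2.2 = X.lab t ∧ X.pres t = true then 1 else 0) (by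
    apply Hom.ofne
    rintro t ⟨j, u, c⟩ h
    by_cases hc : j = t ∧ c = X.lab t ∧ X.pres t = true
    · obtain ⟨rfl, rfl, h1⟩ := hc
      simp [tObj, tUnit, h1, D.N_one_right]
    · exact absurd (if_neg hc) h)

theorem tRhoInv_m (X : Fam D) (u : Unit) (j c t) :
    Hom.m (tRhoInv X) t (j, u, c) = if j = t ∧ c = X.lab t ∧ X.pres t = true then 1 else 0 := rfl

end Fam
end H24PV
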