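import Pool.Agent.H24.PV.FL
import Pool.Agent.H24.PV.KlDef

/-!
# FR: dimensions of Homs and regularity of the category of families

* `finrank_hom`: a basis of `homSub X Y` is given by the pairs with `cmp X Y i j = true`
  (linear equivalence `homSub X Y ≃ₗ ({p : X.ι × Y.ι // cmp X Y p.1 p.2 = true} → k)`).
* `regular`: a linear map `f` between vector spaces has `g` with `f g f = f` (complements); apply it
  to the matrix of `f` (or to `Matrix.toLin'`), and then replace `g` by its part supported on
  `cmp Y X`: in `∑ f i a * g a b * f b j` only `a, b` with the same label as `i, j`, present,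
  contribute.
-/

open CategoryTheory MonoidalCategory CategoryTheory.Limits

universe u

namespace H24PV
namespace Fam

variable {k : Type u} [Field k] {L : Type} [Fintype L] [DecidableEq L] {D : FData k L}

/-- Morphisms as functions on the compatible pairs. -/
def FR_lin (X Y : Fam D) : (X ⟶ Y) ≃ₗ[k] ({p : X.ι × Y.ι // cmp X Y p.1 p.2 = true} → k) where
  toFun f p := Hom.m f p.1.1 p.1.2
  invFun g := Hom.mk (fun i j => if h : cmp X Y i j = true then g ⟨(i, j), h⟩ else 0) (by
    intro i j h
    rw [dif_neg (by rw [h]; exact Bool.false_ne_true)])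
  left_inv f := by
    ext i j
    show (if h : cmp X Y i j = true then Hom.m f i j else 0) = Hom.m f i j
    by_cases h : cmp X Y i j = true
    · rw [dif_pos h]
    · rw [dif_neg h]
      exact (Hom.supp f i j (by simpa using h)).symm
  right_inv g := by
    funext p
    show (if h : cmp X Y p.1.1 p.1.2 = true then g ⟨(p.1.1, p.1.2), h⟩ else 0) = g p
    rw [dif_pos p.2]
  map_add' _ _ := rfl
  map_smul' _ _ := rfl

theorem finrank_hom (X Y : Fam D) :
    Module.finrank k (X ⟶ Y) =
      Fintype.card {p : X.ι × Y.ι // cmp X Y p.1 p.2 = true} := by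
  rw [(FR_lin X Y).finrank_eq, Module.finrank_fintype_fun_eq_card]

theorem FR_mat {ι κ : Type} [Fintype ι] [DecidableEq ι] [Fintype κ] [DecidableEq κ] (f : ι → κ → k) :
    ∃ G : κ → ι → k, ∀ i j, ∑ a, f i a * ∑ b, G a b * f b j = f i j := by
  set T : (ι → k) →ₗ[k] (κ → k) :=
    { toFun := fun v j => ∑ i, v i * f i j
      map_add' := fun v w => by
        funext j
        simp only [Pi.add_apply, add_mul, Finset.sum_add_distrib]
      map_smul' := fun c v => by
        funext j
        simp only [Pi.smul_apply, smul_eq_mul, RingHom.id_apply, Finset.mul_sum, mul_assoc] } with hT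
  have hTa : ∀ v j, T v j = ∑ i, v i * f i j := fun v j => rfl
  obtain ⟨p, hp⟩ := (LinearMap.range T).subtype.exists_leftInverse_of_injective
    (Submodule.ker_subtype _)
  obtain ⟨r, hr⟩ := T.rangeRestrict.exists_rightInverse_of_surjective
    (LinearMap.range_rangeRestrict T)
  have hTS : ∀ v, T (r (p (T v))) = T v := by
    intro v
    have h1 : p (T v) = T.rangeRestrict v := by
      have := LinearMap.congr_fun hp (T.rangeRestrict v)
      exact this
    rw [h1]
    have h2 := LinearMap.congr_fun hr (T.rangeRestrict v)
    exact congrArg Subtype.val h2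
  refine ⟨fun a b => r (p (Pi.single a 1)) b, fun i j => ?_⟩
  have h3 := congrFun (hTS (Pi.single i 1)) j
  have h4 : T (Pi.single i 1) = f i := by
    funext a
    rw [hTa, Finset.sum_eq_single i]
    · rw [Pi.single_eq_same, one_mul]
    · intro b _ hb
      rw [Pi.single_eq_of_ne hb, zero_mul]
    · intro h
      exact absurd (Finset.mem_univ i) h
  rw [h4, hTa] at h3
  have h5 : r (p (f i)) = ∑ a, f i a • r (p (Pi.single a 1)) := by
    have h6 : f i = ∑ a, f i a • (Pi.single a (1 : k) : κ → k) := by
      funext a
      rw [Finset.sum_apply, Finset.sum_eq_single a]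
      · simp
      · intro b _ hb
        rw [Pi.smul_apply, Pi.single_eq_of_ne hb.symm, smul_zero]
      · intro h
        exact absurd (Finset.mem_univ a) h
    conv_lhs => rw [h6]
    rw [map_sum, map_sum]
    refine Finset.sum_congr rfl fun a _ => ?_
    rw [map_smul, map_smul]
  rw [← h3, h5]
  simp only [Finset.sum_apply, Pi.smul_apply, smul_eq_mul, Finset.sum_mul, Finset.mul_sum]
  rw [Finset.sum_comm]
  simp only [mul_assoc]

theorem regular (D : FData k L) : Regular (Fam D) := by
  intro X Y f
  -- `FR_mat` is applied to the matrix of `f` with rows `X.ι`, columns `Y.ι`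
  obtain ⟨G, hG⟩ := FR_mat (k := k) (fun (i : X.ι) (j : Y.ι) => Hom.m f i j)
  refine ⟨Hom.mk (X := Y) (Y := X) (fun a b => if cmp Y X a b = true then G a b else 0) ?_, ?_⟩
  · intro i j h
    rw [if_neg (by rw [h]; exact Bool.false_ne_true)]
  · ext i j
    rw [comp_m]
    simp only [comp_m]
    show ∑ a, Hom.m f i a * ∑ b, (if cmp Y X a b = true then G a b else 0) * Hom.m f b j = Hom.m f i j
    by_cases hl : X.lab i = Y.lab j
    · rw [← hG i j]
      refine Finset.sum_congr rfl fun a _ => ?_
      by_cases h1 : Hom.m f i a = 0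
      · rw [h1, zero_mul, zero_mul]
      · congr 1
        refine Finset.sum_congr rfl fun b _ => ?_
        by_cases h2 : Hom.m f b j = 0
        · rw [h2, mul_zero, mul_zero]
        · rw [if_pos]
          simp only [cmp, Bool.and_eq_true, decide_eq_true_eq]
          exact ⟨⟨Hom.pr f h1, Hom.pl f h2⟩, (Hom.eq f h1).symm.trans (hl.trans (Hom.eq f h2).symm)⟩
    · have h0 : Hom.m f i j = 0 := by
        by_contra h
        exact hl (Hom.eq f h)
      rw [h0]
      refine Finset.sum_eq_zero fun a _ => ?_
      by_cases h1 : Hom.m f i a = 0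
      · rw [h1, zero_mul]
      · rw [Finset.sum_eq_zero, mul_zero]
        intro b _
        by_cases h2 : Hom.m f b j = 0
        · rw [h2, mul_zero]
        · rw [if_neg, zero_mul]
          simp only [cmp, Bool.and_eq_true, decide_eq_true_eq]
          rintro ⟨-, h3⟩
          exact hl ((Hom.eq f h1).trans (h3.trans (Hom.eq f h2)))

end Fam
end H24PV
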