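import Pool.Agent.H24.PV.FCDef

/-!
# FcA: the half braiding of central algebra data is invertible and natural

Use `FAct.lean` (`act_ext`, `act_comp`, `act_id`, `act_wl`, `act_wr`) and `act_betaM` of
`FCDef.lean` (an analogous lemma for `betaInvM` is easy), with `c.hh'`, `c.h'h`.
`beta_nat`: left `(A ◁ f) ≫ β_V`, right `β_U ≫ (f ▷ A)`; the coefficient `h (lab i) p q z` on the
right is at the label of the source index, on the left at the label of the target index; they agree
by `Hom.eq` when the entry of `f` is nonzero.  The conditions `N ..` in `act_wl`, `act_wr` follow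
from `c.h_supp`.
-/

open CategoryTheory MonoidalCategory

universe u

namespace H24PV
namespace CData
variable {k : Type u} [Field k] {L : Type} [Fintype L] [DecidableEq L]
  {D : FData k L} {P : Type} [Fintype P] [DecidableEq P] (c : CData D P)

open Fam in
theorem FcA_act_betaInvM (U : Fam D) (v : (tObj U c.obj).ι → k) (p i z) :
    act (c.betaInvM U) v (p, i, z) =
      if U.pres i = true then ∑ q, v (i, q, z) * c.h' (U.lab i) q p z else 0 := by
  show ∑ s : U.ι × P × L, v s * Hom.m (c.betaInvM U) s (p, i, z) = _
  rw [Fintype.sum_prod_type, Finset.sum_eq_single i]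
  · rw [Fintype.sum_prod_type]
    by_cases h : U.pres i = true
    · rw [if_pos h]
      apply Finset.sum_congr rfl; intro q _
      rw [Finset.sum_eq_single z]
      · rw [betaInvM_m]; simp [h]
      · intro b _ hb; rw [betaInvM_m]; simp [Ne.symm hb]
      · simp
    · rw [if_neg h]
      apply Finset.sum_eq_zero; intro q _
      apply Finset.sum_eq_zero; intro z' _
      rw [betaInvM_m]; simp [h]
  · intro b _ hb
    apply Finset.sum_eq_zero; rintro ⟨q, z'⟩ _
    rw [betaInvM_m]; simp [Ne.symm hb]
  · simp

open Fam in
theorem beta_inv (U : Fam D) : c.betaM U ≫ c.betaInvM U = 𝟙 (Fam.tObj c.obj U) := by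
  apply act_ext
  rintro v ⟨p', i, z⟩
  rw [act_comp, FcA_act_betaInvM, act_id]
  by_cases h : U.pres i = true
  · rw [if_pos h]
    have e1 : ∀ q, act (c.betaM U) v (i, q, z) = ∑ p, v (p, i, z) * c.h (U.lab i) p q z := by
      intro q
      rw [act_betaM, if_pos h]
    simp only [e1, Finset.sum_mul]
    rw [Finset.sum_comm]
    simp only [mul_assoc, ← Finset.mul_sum, c.hh']
    rw [Finset.sum_eq_single p']
    · by_cases hN : D.N (c.x p') (U.lab i) z = true
      · simp [hN, h]
      · simp [hN]
    · intro b _ hb
      simp [hb]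
    · simp
  · rw [if_neg h, if_neg]
    simp [h]

open Fam in
theorem inv_beta (U : Fam D) : c.betaInvM U ≫ c.betaM U = 𝟙 (Fam.tObj U c.obj) := by
  apply act_ext
  rintro v ⟨i, q', z⟩
  rw [act_comp, act_betaM, act_id]
  by_cases h : U.pres i = true
  · rw [if_pos h]
    have e1 : ∀ p, act (c.betaInvM U) v (p, i, z) = ∑ q, v (i, q, z) * c.h' (U.lab i) q p z := by
      intro p
      rw [FcA_act_betaInvM, if_pos h]
    simp only [e1, Finset.sum_mul]
    rw [Finset.sum_comm]
    simp only [mul_assoc, ← Finset.mul_sum, c.h'h]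
    rw [Finset.sum_eq_single q']
    · by_cases hN : D.N (U.lab i) (c.x q') z = true
      · simp [hN, h]
      · simp [hN]
    · intro b _ hb
      simp [hb]
    · simp
  · rw [if_neg h, if_neg]
    simp [h]

open Fam in
theorem beta_nat {U V : Fam D} (f : U ⟶ V) :
    Fam.tHom (𝟙 c.obj) f ≫ c.betaM V = c.betaM U ≫ Fam.tHom f (𝟙 c.obj) := by
  apply act_ext
  rintro v ⟨j, q, z⟩
  rw [act_comp, act_comp, act_betaM, act_wr]
  have hL : (if V.pres j = true then
      ∑ p, act (tHom (𝟙 c.obj) f) v (p, j, z) * c.h (V.lab j) p q z else 0) =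
      ∑ p, ∑ i, v (p, i, z) * Hom.m f i j * c.h (V.lab j) p q z := by
    by_cases hV : V.pres j = true
    · rw [if_pos hV]
      apply Finset.sum_congr rfl; intro p _
      rw [act_wl]
      by_cases hN : D.N (c.x p) (V.lab j) z = true
      · rw [if_pos ⟨hN, rfl⟩]
        simp only [act, Finset.sum_mul]
      · have h0 : c.h (V.lab j) p q z = 0 := by
          by_contra h1
          exact hN (c.h_supp h1).1
        simp [h0]
    · rw [if_neg hV]
      symm
      apply Finset.sum_eq_zero; intro p _
      apply Finset.sum_eq_zero; intro i _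
      have h0 : Hom.m f i j = 0 := by
        by_contra h1
        exact hV (Hom.pr f h1)
      rw [h0, mul_zero, zero_mul]
  have hR : (if D.N (V.lab j) (c.obj.lab q) z = true ∧ c.obj.pres q = true then
      act f (fun i => act (c.betaM U) v (i, q, z)) j else 0) =
      ∑ p, ∑ i, v (p, i, z) * Hom.m f i j * c.h (V.lab j) p q z := by
    by_cases hN : D.N (V.lab j) (c.x q) z = true
    · rw [if_pos ⟨hN, rfl⟩, Finset.sum_comm]
      show ∑ i, act (c.betaM U) v (i, q, z) * Hom.m f i j = _
      apply Finset.sum_congr rfl; intro i _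
      by_cases h0 : Hom.m f i j = 0
      · simp [h0]
      · rw [act_betaM, if_pos (Hom.pl f h0), Hom.eq f h0, Finset.sum_mul]
        apply Finset.sum_congr rfl; intro p _
        ring
    · rw [if_neg (fun h => hN h.1)]
      symm
      apply Finset.sum_eq_zero; intro p _
      apply Finset.sum_eq_zero; intro i _
      have h0 : c.h (V.lab j) p q z = 0 := by
        by_contra h1
        exact hN (c.h_supp h1).2
      rw [h0, mul_zero]
  rw [hL, hR]

end CData
end H24PV
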