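import Pool.Agent.H24.PV.FCDef

/-!
# FcB: monoid laws of central algebra data

Use `FAct.lean` and `act_mulM`, `act_oneM` of `FCDef.lean`.
`mul_assoc`: target index `s`, vector `v` on `((p, q, e), r, z)`; left side
`∑_w ∑_r (∑_p ∑_q v((p,q,x w), r, x s) * m p q w) * m w r s` (the `N` condition of `act_wr` follows
from `c.m_supp` for `m w r s`), right side `∑_p ∑_w (∑_q ∑_r (∑_e v((p,q,e),r,x s) * F .. e (x w)) *
m q r w) * m p w s`; group by `e` (`∑_e`, `x w = e`) and use `c.assoc`.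
-/

open CategoryTheory MonoidalCategory

universe u

namespace H24PV
namespace CData
variable {k : Type u} [Field k] {L : Type} [Fintype L] [DecidableEq L]
  {D : FData k L} {P : Type} [Fintype P] [DecidableEq P] (c : CData D P)

theorem one_mulM : Fam.tHom c.oneM (𝟙 c.obj) ≫ c.mulM = Fam.tLam c.obj := by
  apply Fam.act_ext
  intro v r
  rw [Fam.act_comp, c.act_mulM, Fam.act_lam]
  rw [Finset.sum_eq_single c.u]
  · rw [Finset.sum_eq_single r]
    · rw [Fam.act_wr, c.act_oneM, c.one_mul]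
      simp [c.x_u, D.N_one_left]
    · intro q _ hq
      rw [c.one_mul, if_neg hq, mul_zero]
    · simp
  · intro p _ hp
    apply Finset.sum_eq_zero; intro q _
    rw [Fam.act_wr, c.act_oneM, if_neg hp]
    simp
  · simp

theorem mul_oneM : Fam.tHom (𝟙 c.obj) c.oneM ≫ c.mulM = Fam.tRho c.obj := by
  apply Fam.act_ext
  intro v r
  rw [Fam.act_comp, c.act_mulM, Fam.act_rho]
  rw [Finset.sum_eq_single r]
  · rw [Finset.sum_eq_single c.u]
    · rw [Fam.act_wl, c.act_oneM, c.mul_one]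
      simp [c.x_u, D.N_one_right]
    · intro q _ hq
      rw [Fam.act_wl, c.act_oneM, if_neg hq]
      simp
    · simp
  · intro p _ hp
    apply Finset.sum_eq_zero; intro q _
    by_cases hq : q = c.u
    · subst hq
      rw [c.mul_one, if_neg hp, mul_zero]
    · rw [Fam.act_wl, c.act_oneM, if_neg hq]
      simp
  · simp

theorem mul_assocM_l (v : (Fam.tObj (Fam.tObj c.obj c.obj) c.obj).ι → k) (s : P) :
    Fam.act (Fam.tHom c.mulM (𝟙 c.obj) ≫ c.mulM) v s =
      ∑ w, ∑ r, ∑ p, ∑ q, v ((p, q, c.x w), r, c.x s) * (c.m p q w * c.m w r s) := by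
  rw [Fam.act_comp, c.act_mulM]
  apply Finset.sum_congr rfl; intro w _
  apply Finset.sum_congr rfl; intro r _
  rw [Fam.act_wr, c.act_mulM]
  by_cases hm : c.m w r s = 0
  · simp [hm]
  · rw [if_pos ⟨c.m_supp hm, rfl⟩, Finset.sum_mul]
    apply Finset.sum_congr rfl; intro p _
    rw [Finset.sum_mul]
    apply Finset.sum_congr rfl; intro q _
    ring

theorem mul_assocM_r (v : (Fam.tObj (Fam.tObj c.obj c.obj) c.obj).ι → k) (s : P) :
    Fam.act (Fam.tAssoc c.obj c.obj c.obj ≫ Fam.tHom (𝟙 c.obj) c.mulM ≫ c.mulM) v s =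
      ∑ p, ∑ w, ∑ q, ∑ r, ∑ e, v ((p, q, e), r, c.x s) *
        (D.F (c.x p) (c.x q) (c.x r) (c.x s) e (c.x w) * (c.m q r w * c.m p w s)) := by
  rw [Fam.act_comp, Fam.act_comp, c.act_mulM]
  apply Finset.sum_congr rfl; intro p _
  apply Finset.sum_congr rfl; intro w _
  rw [Fam.act_wl, c.act_mulM]
  by_cases hm : c.m p w s = 0
  · simp [hm]
  · rw [if_pos ⟨c.m_supp hm, rfl⟩, Finset.sum_mul]
    apply Finset.sum_congr rfl; intro q _
    rw [Finset.sum_mul]
    apply Finset.sum_congr rfl; intro r _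
    rw [Fam.act_assoc, if_pos ⟨rfl, rfl, rfl⟩, Finset.sum_mul, Finset.sum_mul]
    apply Finset.sum_congr rfl; intro e _
    ring

theorem mul_assocM : Fam.tHom c.mulM (𝟙 c.obj) ≫ c.mulM =
    Fam.tAssoc c.obj c.obj c.obj ≫ Fam.tHom (𝟙 c.obj) c.mulM ≫ c.mulM := by
  apply Fam.act_ext
  intro v s
  rw [mul_assocM_l, mul_assocM_r]
  have hL : ∑ w, ∑ r, ∑ p, ∑ q, v ((p, q, c.x w), r, c.x s) * (c.m p q w * c.m w r s) =
      ∑ p, ∑ q, ∑ r, ∑ e, v ((p, q, e), r, c.x s) *
        ∑ w, (if c.x w = e then c.m p q w * c.m w r s else 0) := by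
    rw [Finset.sum_comm]
    have h1 : ∀ r, ∑ w, ∑ p, ∑ q, v ((p, q, c.x w), r, c.x s) * (c.m p q w * c.m w r s) =
        ∑ p, ∑ q, ∑ w, v ((p, q, c.x w), r, c.x s) * (c.m p q w * c.m w r s) := by
      intro r
      rw [Finset.sum_comm]
      apply Finset.sum_congr rfl; intro p _
      rw [Finset.sum_comm]
    simp_rw [h1]
    rw [Finset.sum_comm]
    apply Finset.sum_congr rfl; intro p _
    rw [Finset.sum_comm]
    apply Finset.sum_congr rfl; intro q _
    apply Finset.sum_congr rfl; intro r _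
    simp_rw [Finset.mul_sum]
    rw [Finset.sum_comm]
    apply Finset.sum_congr rfl; intro w _
    rw [Finset.sum_eq_single (c.x w)]
    · simp
    · intro b _ hb
      rw [if_neg (Ne.symm hb), mul_zero]
    · simp
  rw [hL]
  apply Finset.sum_congr rfl; intro p _
  have h2 : ∀ q, ∑ w, ∑ r, ∑ e, v ((p, q, e), r, c.x s) *
        (D.F (c.x p) (c.x q) (c.x r) (c.x s) e (c.x w) * (c.m q r w * c.m p w s)) =
      ∑ r, ∑ e, v ((p, q, e), r, c.x s) *
        ∑ w, D.F (c.x p) (c.x q) (c.x r) (c.x s) e (c.x w) * (c.m q r w * c.m p w s) := by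
    intro q
    rw [Finset.sum_comm]
    apply Finset.sum_congr rfl; intro r _
    rw [Finset.sum_comm]
    apply Finset.sum_congr rfl; intro e _
    rw [Finset.mul_sum]
  rw [Finset.sum_comm (f := fun w q => ∑ r, ∑ e, v ((p, q, e), r, c.x s) *
        (D.F (c.x p) (c.x q) (c.x r) (c.x s) e (c.x w) * (c.m q r w * c.m p w s)))]
  apply Finset.sum_congr rfl; intro q _
  rw [h2]
  apply Finset.sum_congr rfl; intro r _
  apply Finset.sum_congr rfl; intro e _
  rw [c.assoc]

end CData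
end H24PV
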