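import Pool.Agent.H24.PV.FCDef

/-!
# FcC: unit laws of the half braiding, commutativity

Use `FAct.lean` and `act_mulM`, `act_oneM`, `act_betaM` of `FCDef.lean`; `c.h_unit`, `c.h_u`,
`c.comm`.
-/

open CategoryTheory MonoidalCategory

universe u

namespace H24PV
namespace CData
variable {k : Type u} [Field k] {L : Type} [Fintype L] [DecidableEq L]
  {D : FData k L} {P : Type} [Fintype P] [DecidableEq P] (c : CData D P)

theorem beta_unitM : c.betaM (Fam.tUnit D) = Fam.tRho c.obj ≫ Fam.tLamInv c.obj := by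
  apply Fam.act_ext
  rintro v ⟨i, q, z⟩
  rw [act_betaM, Fam.act_comp, Fam.act_lamInv]
  have h1 : (Fam.tUnit D).pres i = true := rfl
  have h2 : (Fam.tUnit D).lab i = D.one := rfl
  rw [if_pos h1, h2, Finset.sum_eq_single q]
  · rw [c.h_unit, Fam.act_rho]
    by_cases hz : z = c.x q
    · subst hz
      simp
    · simp [hz]
  · intro b _ hb
    rw [c.h_unit, if_neg (fun h => hb h.1), mul_zero]
  · simp

theorem one_centralM (U : Fam D) : Fam.tHom c.oneM (𝟙 U) ≫ c.betaM U =
    Fam.tLam U ≫ Fam.tRhoInv U ≫ Fam.tHom (𝟙 U) c.oneM := by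
  apply Fam.act_ext
  rintro v ⟨i, q, z⟩
  rw [Fam.act_comp, Fam.act_comp, Fam.act_comp, act_betaM, Fam.act_wl, act_oneM]
  by_cases hp : U.pres i = true
  swap
  · rw [if_neg hp, if_neg (fun h => hp h.2)]
  rw [if_pos hp, Finset.sum_eq_single c.u]
  · rw [Fam.act_wr, act_oneM, c.h_u, Fam.act_rhoInv, Fam.act_lam]
    by_cases hq : q = c.u ∧ z = U.lab i
    · obtain ⟨rfl, rfl⟩ := hq
      have h1 : c.h (U.lab i) c.u c.u (U.lab i) ≠ 0 := by rw [c.h_u]; simp
      obtain ⟨a1, a2⟩ := c.h_supp h1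
      simp [hp, a1, a2]
    · rw [if_neg hq, mul_zero]
      by_cases h1 : q = c.u
      · have h2 : z ≠ U.lab i := fun h => hq ⟨h1, h⟩
        simp [h2]
      · simp [h1]
  · intro b _ hb
    rw [Fam.act_wr, act_oneM, if_neg hb]
    simp
  · simp

theorem commM : c.betaM c.obj ≫ c.mulM = c.mulM := by
  apply Fam.act_ext
  intro v r
  rw [Fam.act_comp, act_mulM, act_mulM]
  have h1 : ∀ p q : P, Fam.act (c.betaM c.obj) v (p, q, c.x r) =
      ∑ p', v (p', p, c.x r) * c.h (c.x p) p' q (c.x r) := by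
    intro p q
    rw [act_betaM, if_pos rfl]
  simp only [h1]
  have h2 : ∀ p q : P, v (p, q, c.x r) * c.m p q r =
      ∑ p', v (p, q, c.x r) * (c.h (c.x q) p p' (c.x r) * c.m q p' r) := by
    intro p q
    rw [← Finset.mul_sum, c.comm]
  simp only [h2]
  rw [Finset.sum_comm (s := Finset.univ) (t := Finset.univ)
    (f := fun p q => ∑ p', v (p, q, c.x r) * (c.h (c.x q) p p' (c.x r) * c.m q p' r))]
  apply Finset.sum_congr rfl; intro q _
  rw [Finset.sum_comm]
  simp only [Finset.sum_mul]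
  apply Finset.sum_congr rfl; intro p _
  apply Finset.sum_congr rfl; intro p' _
  ring

end CData
end H24PV
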