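import Pool.Agent.H24.PV.FCDef

/-!
# FcD: the hexagon for the half braiding

It is easier to prove the form without inverses
`α_{A,U,V} ≫ β_{U ⊗ V} ≫ α_{U,V,A} = (β_U ▷ V) ≫ α_{U,A,V} ≫ (U ◁ β_V)` first
(target index `(i, (j, q, f), v)`, source `((p, i, e), j, v)`: this is exactly `c.hex`, with the
channel sum over `w`; `FAct.lean`, `act_betaM`; the `N` conditions follow from `h_supp`, `F_supp`),
and then multiply with `tAssocInv` on both sides (`assoc_inv`, `inv_assoc` of `FmA.lean`).
-/

open CategoryTheory MonoidalCategory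

universe u

namespace H24PV
namespace CData
variable {k : Type u} [Field k] {L : Type} [Fintype L] [DecidableEq L]
  {D : FData k L} {P : Type} [Fintype P] [DecidableEq P] (c : CData D P)

open Fam in
theorem beta_tensor' (U V : Fam D) :
    Fam.tAssoc c.obj U V ≫ c.betaM (Fam.tObj U V) ≫ Fam.tAssoc U V c.obj =
      Fam.tHom (c.betaM U) (𝟙 V) ≫ Fam.tAssoc U c.obj V ≫ Fam.tHom (𝟙 U) (c.betaM V) := by
  apply act_ext
  rintro v ⟨i, ⟨j, q, f⟩, z⟩
  simp only [act_comp]
  by_cases hi : U.pres i = true
  · by_cases hj : V.pres j = true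
    · -- the left side
      have hL : act (tAssoc U V c.obj) (act (c.betaM (tObj U V)) (act (tAssoc c.obj U V) v))
          (i, (j, q, f), z) = ∑ p, ∑ e, v ((p, i, e), j, z) *
            ∑ w, D.F (c.x p) (U.lab i) (V.lab j) z e w * c.h w p q z *
              D.F (U.lab i) (V.lab j) (c.x q) z w f := by
        rw [act_assoc, if_pos ⟨hi, hj, rfl⟩]
        have h1 : ∀ w, act (c.betaM (tObj U V)) (act (tAssoc c.obj U V) v) ((i, j, w), q, z) *
            D.F (U.lab i) (V.lab j) (c.x q) z w f =
            ∑ p, ∑ e, v ((p, i, e), j, z) * (D.F (c.x p) (U.lab i) (V.lab j) z e w *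
              c.h w p q z * D.F (U.lab i) (V.lab j) (c.x q) z w f) := by
          intro w
          by_cases hF : D.F (U.lab i) (V.lab j) (c.x q) z w f = 0
          · simp [hF]
          · have hN := (D.F_supp hF).1
            rw [act_betaM, if_pos (by simp [tObj, hi, hj, hN]), Finset.sum_mul]
            refine Finset.sum_congr rfl fun p _ => ?_
            rw [act_assoc, if_pos ⟨rfl, hi, hj⟩, Finset.sum_mul, Finset.sum_mul]
            refine Finset.sum_congr rfl fun e _ => ?_
            show _ * _ * c.h w p q z * _ = _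
            ring
        rw [Finset.sum_congr rfl fun w _ => h1 w, Finset.sum_comm]
        refine Finset.sum_congr rfl fun p _ => ?_
        rw [Finset.sum_comm]
        refine Finset.sum_congr rfl fun e _ => ?_
        rw [Finset.mul_sum]
      -- the right side
      have hR : act (tHom (𝟙 U) (c.betaM V)) (act (tAssoc U c.obj V)
          (act (tHom (c.betaM U) (𝟙 V)) v)) (i, (j, q, f), z) = ∑ p, ∑ e, v ((p, i, e), j, z) *
            ∑ r, c.h (U.lab i) p r e * D.F (U.lab i) (c.x r) (V.lab j) z e f *
              c.h (V.lab j) r q f := by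
        have h2 : ∀ r, (∑ e, act (tHom (c.betaM U) (𝟙 V)) v ((i, r, e), j, z) *
            D.F (U.lab i) (c.x r) (V.lab j) z e f) * c.h (V.lab j) r q f =
            ∑ p, ∑ e, v ((p, i, e), j, z) * (c.h (U.lab i) p r e *
              D.F (U.lab i) (c.x r) (V.lab j) z e f * c.h (V.lab j) r q f) := by
          intro r
          rw [Finset.sum_comm, Finset.sum_mul]
          refine Finset.sum_congr rfl fun e _ => ?_
          by_cases hF : D.F (U.lab i) (c.x r) (V.lab j) z e f = 0
          · simp [hF]
          · have hN := (D.F_supp hF).2.1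
            rw [act_wr, if_pos ⟨hN, hj⟩, act_betaM, if_pos hi, Finset.sum_mul, Finset.sum_mul]
            refine Finset.sum_congr rfl fun p _ => ?_
            ring
        have h3 : act (tHom (𝟙 U) (c.betaM V)) (act (tAssoc U c.obj V)
            (act (tHom (c.betaM U) (𝟙 V)) v)) (i, (j, q, f), z) =
            ∑ r, (∑ e, act (tHom (c.betaM U) (𝟙 V)) v ((i, r, e), j, z) *
              D.F (U.lab i) (c.x r) (V.lab j) z e f) * c.h (V.lab j) r q f := by
          rw [act_wl]
          by_cases hN : D.N (U.lab i) f z = true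
          · rw [if_pos ⟨hN, hi⟩, act_betaM, if_pos hj]
            refine Finset.sum_congr rfl fun r _ => ?_
            rw [act_assoc, if_pos ⟨hi, rfl, hj⟩]
          · rw [if_neg (fun h => hN h.1)]
            symm
            refine Finset.sum_eq_zero fun r _ => ?_
            rw [Finset.sum_eq_zero, zero_mul]
            intro e _
            have : D.F (U.lab i) (c.x r) (V.lab j) z e f = 0 := by
              by_contra hF
              exact hN (D.F_supp hF).2.2.2
            rw [this, mul_zero]
        rw [h3, Finset.sum_congr rfl fun r _ => h2 r, Finset.sum_comm]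
        refine Finset.sum_congr rfl fun p _ => ?_
        rw [Finset.sum_comm]
        refine Finset.sum_congr rfl fun e _ => ?_
        rw [Finset.mul_sum]
      rw [hL, hR]
      refine Finset.sum_congr rfl fun p _ => Finset.sum_congr rfl fun e _ => ?_
      rw [c.hex]
    · rw [act_assoc, if_neg (fun h => hj h.2.1), act_wl]
      split_ifs with h
      · rw [act_betaM, if_neg hj]
      · rfl
  · rw [act_assoc, if_neg (fun h => hi h.1), act_wl, if_neg (fun h => hi h.2)]

theorem beta_tensorM (U V : Fam D) :
    c.betaM (Fam.tObj U V) = Fam.tAssocInv c.obj U V ≫ Fam.tHom (c.betaM U) (𝟙 V) ≫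
      Fam.tAssoc U c.obj V ≫ Fam.tHom (𝟙 U) (c.betaM V) ≫ Fam.tAssocInv U V c.obj := by
  have h := c.beta_tensor' U V
  have h1 : c.betaM (Fam.tObj U V) = Fam.tAssocInv c.obj U V ≫ (Fam.tAssoc c.obj U V ≫
      c.betaM (Fam.tObj U V) ≫ Fam.tAssoc U V c.obj) ≫ Fam.tAssocInv U V c.obj := by
    rw [Category.assoc, Category.assoc, Fam.assoc_inv, ← Category.assoc (Fam.tAssocInv c.obj U V),
      Fam.inv_assoc, Category.id_comp, Category.comp_id]
  rw [h1, h]
  simp only [Category.assoc]

end CData
end H24PV
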