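import Pool.Agent.H24.PV.FCDef

/-!
# FcE: the multiplication is central

Target index `(i, r, v)`, vector on `((p, q, e), i, v)` (label `y` of `i`).  Left side:
`∑_w (∑_p ∑_q vec((p,q,x w), i, v) * m p q w) * h y w r v`; right side: the composite through
`(p, (q, i, f), v)`, `(p, (i, q', f), v)`, `((p, i, g), q', v)`, `((i, p', g), q', v)`,
`(i, (p', q', x r), v)`, `(i, r, v)`; it is exactly `c.central` after grouping the left side by
`e` (`x w = e`).  Use `FAct.lean`, `act_betaM`, `act_mulM`; the `N` conditions follow from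
`F_supp`, `G_supp`, `h_supp`, `m_supp`.
-/

open CategoryTheory MonoidalCategory

universe u

namespace H24PV
namespace CData
variable {k : Type u} [Field k] {L : Type} [Fintype L] [DecidableEq L]
  {D : FData k L} {P : Type} [Fintype P] [DecidableEq P] (c : CData D P)

private theorem FcE_ite {b : Prop} [Decidable b] {x y : k} (h : y ≠ 0 → b) :
    (if b then x else 0) * y = x * y := by
  by_cases hy : y = 0
  · rw [hy, mul_zero, mul_zero]
  · rw [if_pos (h hy)]

private theorem FcE_mv3 {α β γ δ : Type} [Fintype α] [Fintype β] [Fintype γ] [Fintype δ]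
    (f : α → β → γ → δ → k) :
    ∑ a, ∑ b, ∑ c, ∑ x, f a b c x = ∑ x, ∑ a, ∑ b, ∑ c, f a b c x := by
  have h1 : ∀ a b, ∑ c, ∑ x, f a b c x = ∑ x, ∑ c, f a b c x := fun a b => Finset.sum_comm
  have h2 : ∀ a, ∑ b, ∑ x, ∑ c, f a b c x = ∑ x, ∑ b, ∑ c, f a b c x := fun a => Finset.sum_comm
  simp only [h1, h2]
  exact Finset.sum_comm

private theorem FcE_mv4 {α β γ δ ε : Type} [Fintype α] [Fintype β] [Fintype γ] [Fintype δ]
    [Fintype ε] (f : α → β → γ → δ → ε → k) :
    ∑ a, ∑ b, ∑ c, ∑ d, ∑ x, f a b c d x = ∑ x, ∑ a, ∑ b, ∑ c, ∑ d, f a b c d x := by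
  have h1 : ∀ a, ∑ b, ∑ c, ∑ d, ∑ x, f a b c d x = ∑ x, ∑ b, ∑ c, ∑ d, f a b c d x :=
    fun a => FcE_mv3 _
  simp only [h1]
  exact Finset.sum_comm

private theorem FcE_perm {A1 A2 A3 A4 A5 A6 A7 : Type} [Fintype A1] [Fintype A2] [Fintype A3]
    [Fintype A4] [Fintype A5] [Fintype A6] [Fintype A7]
    (T : A1 → A2 → A3 → A4 → A5 → A6 → A7 → k) :
    ∑ p', ∑ q', ∑ g, ∑ p, ∑ f, ∑ q, ∑ e, T p' q' g p f q e =
      ∑ p, ∑ q, ∑ e, ∑ f, ∑ q', ∑ g, ∑ p', T p' q' g p f q e := by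
  rw [FcE_mv3]
  apply Finset.sum_congr rfl; intro p _
  rw [FcE_mv4]
  apply Finset.sum_congr rfl; intro q _
  rw [FcE_mv4]
  apply Finset.sum_congr rfl; intro e _
  rw [FcE_mv3]
  apply Finset.sum_congr rfl; intro f _
  rw [Finset.sum_comm]
  apply Finset.sum_congr rfl; intro q' _
  exact Finset.sum_comm

theorem mul_centralM (U : Fam D) : Fam.tHom c.mulM (𝟙 U) ≫ c.betaM U =
    Fam.tAssoc c.obj c.obj U ≫ Fam.tHom (𝟙 c.obj) (c.betaM U) ≫ Fam.tAssocInv c.obj U c.obj ≫
      Fam.tHom (c.betaM U) (𝟙 c.obj) ≫ Fam.tAssoc U c.obj c.obj ≫ Fam.tHom (𝟙 U) c.mulM := by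
  apply Fam.act_ext
  rintro vec ⟨i, r, v⟩
  simp only [Fam.act_comp]
  by_cases hp : U.pres i = true
  swap
  · rw [act_betaM, if_neg hp]
    erw [Fam.act_wl, if_neg (fun h => hp h.2)]
  -- left side
  have hL : Fam.act (c.betaM U) (Fam.act (Fam.tHom c.mulM (𝟙 U)) vec) (i, r, v) =
      ∑ w, ∑ p, ∑ q, vec ((p, q, c.x w), i, v) * (c.m p q w * c.h (U.lab i) w r v) := by
    rw [act_betaM, if_pos hp]
    apply Finset.sum_congr rfl; intro w _
    have h1 : Fam.act (Fam.tHom c.mulM (𝟙 U)) vec (w, i, v) =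
        if D.N (c.x w) (U.lab i) v = true then
          ∑ p, ∑ q, vec ((p, q, c.x w), i, v) * c.m p q w else 0 := by
      erw [Fam.act_wr]
      by_cases hN : D.N (c.x w) (U.lab i) v = true
      · rw [if_pos ⟨hN, hp⟩, if_pos hN]
        exact c.act_mulM _ w
      · rw [if_neg (fun h => hN h.1), if_neg hN]
    rw [h1, FcE_ite (fun h => (c.h_supp h).1), Finset.sum_mul]
    apply Finset.sum_congr rfl; intro p _
    rw [Finset.sum_mul]
    apply Finset.sum_congr rfl; intro q _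
    ring
  rw [hL]
  -- right side
  set V1 := Fam.act (Fam.tAssoc c.obj c.obj U) vec with hV1
  set V2 := Fam.act (Fam.tHom (𝟙 c.obj) (c.betaM U)) V1 with hV2
  set V3 := Fam.act (Fam.tAssocInv c.obj U c.obj) V2 with hV3
  set V4 := Fam.act (Fam.tHom (c.betaM U) (𝟙 c.obj)) V3 with hV4
  set V5 := Fam.act (Fam.tAssoc U c.obj c.obj) V4 with hV5
  have e1 : ∀ p q f, V1 (p, (q, i, f), v) =
      ∑ e, vec ((p, q, e), i, v) * D.F (c.x p) (c.x q) (U.lab i) v e f := by
    intro p q f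
    rw [hV1]
    erw [Fam.act_assoc]
    rw [if_pos ⟨rfl, rfl, hp⟩]
  have e2 : ∀ p q' f, V2 (p, (i, q', f), v) =
      if D.N (c.x p) f v = true then ∑ q, V1 (p, (q, i, f), v) * c.h (U.lab i) q q' f else 0 := by
    intro p q' f
    rw [hV2]
    erw [Fam.act_wl]
    by_cases hN : D.N (c.x p) f v = true
    · rw [if_pos ⟨hN, rfl⟩, if_pos hN]
      erw [act_betaM]
      rw [if_pos hp]
    · rw [if_neg (fun h => hN h.1), if_neg hN]
  have e3 : ∀ p g q', V3 ((p, i, g), q', v) =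
      ∑ f, V2 (p, (i, q', f), v) * D.G (c.x p) (U.lab i) (c.x q') v f g := by
    intro p g q'
    rw [hV3]
    erw [Fam.act_assocInv]
    rw [if_pos ⟨rfl, hp, rfl⟩]
  have e4 : ∀ p' g q', V4 ((i, p', g), q', v) =
      if D.N g (c.x q') v = true then ∑ p, V3 ((p, i, g), q', v) * c.h (U.lab i) p p' g else 0 := by
    intro p' g q'
    rw [hV4]
    erw [Fam.act_wr]
    by_cases hN : D.N g (c.x q') v = true
    · rw [if_pos ⟨hN, rfl⟩, if_pos hN]
      erw [act_betaM]
      rw [if_pos hp]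
    · rw [if_neg (fun h => hN h.1), if_neg hN]
  have e5 : ∀ p' q' s, V5 (i, (p', q', s), v) =
      ∑ g, V4 ((i, p', g), q', v) * D.F (U.lab i) (c.x p') (c.x q') v g s := by
    intro p' q' s
    rw [hV5]
    erw [Fam.act_assoc]
    rw [if_pos ⟨hp, rfl, rfl⟩]
  have e6 : Fam.act (Fam.tHom (𝟙 U) c.mulM) V5 (i, r, v) =
      if D.N (U.lab i) (c.x r) v = true then
        ∑ p', ∑ q', V5 (i, (p', q', c.x r), v) * c.m p' q' r else 0 := by
    erw [Fam.act_wl]
    by_cases hN : D.N (U.lab i) (c.x r) v = true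
    · rw [if_pos ⟨hN, hp⟩, if_pos hN]
      exact c.act_mulM _ r
    · rw [if_neg (fun h => hN h.1), if_neg hN]
  have e7 : Fam.act (Fam.tHom (𝟙 U) c.mulM) V5 (i, r, v) =
      ∑ p', ∑ q', V5 (i, (p', q', c.x r), v) * c.m p' q' r := by
    rw [e6]
    by_cases hN : D.N (U.lab i) (c.x r) v = true
    · rw [if_pos hN]
    · rw [if_neg hN]
      symm
      apply Finset.sum_eq_zero; intro p' _
      apply Finset.sum_eq_zero; intro q' _
      rw [e5]
      rw [Finset.sum_eq_zero, zero_mul]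
      intro g _
      by_cases hF : D.F (U.lab i) (c.x p') (c.x q') v g (c.x r) = 0
      · rw [hF, mul_zero]
      · exact absurd (D.F_supp hF).2.2.2 hN
  have e5' : ∀ p' q', V5 (i, (p', q', c.x r), v) =
      ∑ g, (∑ p, V3 ((p, i, g), q', v) * c.h (U.lab i) p p' g) *
        D.F (U.lab i) (c.x p') (c.x q') v g (c.x r) := by
    intro p' q'
    rw [e5]
    apply Finset.sum_congr rfl; intro g _
    rw [e4, FcE_ite (fun h => (D.F_supp h).2.1)]
  have e3' : ∀ p g q', V3 ((p, i, g), q', v) =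
      ∑ f, (∑ q, V1 (p, (q, i, f), v) * c.h (U.lab i) q q' f) *
        D.G (c.x p) (U.lab i) (c.x q') v f g := by
    intro p g q'
    rw [e3]
    apply Finset.sum_congr rfl; intro f _
    rw [e2, FcE_ite (fun h => (D.G_supp h).2.2.2)]
  have hR : Fam.act (Fam.tHom (𝟙 U) c.mulM) V5 (i, r, v) =
      ∑ p, ∑ q, ∑ e, vec ((p, q, e), i, v) *
        ∑ f, ∑ q', ∑ g, ∑ p', D.F (c.x p) (c.x q) (U.lab i) v e f * c.h (U.lab i) q q' f *
          D.G (c.x p) (U.lab i) (c.x q') v f g * c.h (U.lab i) p p' g *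
          D.F (U.lab i) (c.x p') (c.x q') v g (c.x r) * c.m p' q' r := by
    rw [e7]
    simp only [e5', e3', e1, Finset.sum_mul, Finset.mul_sum]
    rw [FcE_perm]
    apply Finset.sum_congr rfl; intro p _
    apply Finset.sum_congr rfl; intro q _
    apply Finset.sum_congr rfl; intro e _
    apply Finset.sum_congr rfl; intro f _
    apply Finset.sum_congr rfl; intro q' _
    apply Finset.sum_congr rfl; intro g _
    apply Finset.sum_congr rfl; intro p' _
    ring
  rw [hR]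
  simp only [← c.central, Finset.mul_sum, mul_ite, mul_zero]
  rw [Finset.sum_comm]
  apply Finset.sum_congr rfl; intro p _
  rw [Finset.sum_comm]
  apply Finset.sum_congr rfl; intro q _
  rw [Finset.sum_comm]
  apply Finset.sum_congr rfl; intro w _
  rw [Finset.sum_ite_eq]
  simp

end CData
end H24PV
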