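import Pool.Agent.H24.PV.FCDef

/-!
# FcF: Casimir element

`e : 𝟙 ⟶ A ⊗ A`, entry `() → (p, q, z)`: `[z = one] * e p q`.  `casM`: target index `(r, s, z)`,
source `q` with `z = x q`: exactly `e.cas q r s`.  Use matrix entries or `FAct.lean`.
-/

open CategoryTheory MonoidalCategory

universe u

namespace H24PV
namespace CasData
variable {k : Type u} [Field k] {L : Type} [Fintype L] [DecidableEq L]
  {D : FData k L} {P : Type} [Fintype P] [DecidableEq P] {c : CData D P} (E : CasData c)

/-- The Casimir morphism. -/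
def eM : Fam.tUnit D ⟶ Fam.tObj c.obj c.obj :=
  Fam.Hom.mk (X := Fam.tUnit D) (Y := Fam.tObj c.obj c.obj)
    (fun (_ : Unit) (s : P × P × L) => if s.2.2 = D.one then E.e s.1 s.2.1 else 0) (by
    apply Fam.Hom.ofne
    rintro v ⟨p, q, z⟩ h
    by_cases hc : z = D.one
    · subst hc
      have h' : E.e p q ≠ 0 := by simpa using h
      simp [Fam.tObj, E.e_supp h']
    · exact absurd (if_neg hc) h)

theorem eM_m (v : Unit) (p q z) :
    Fam.Hom.m E.eM v (p, q, z) = if z = D.one then E.e p q else 0 := rfl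

open Fam in
theorem act_eM (v : Unit → k) (p q z) :
    act E.eM v (p, q, z) = if z = D.one then v () * E.e p q else 0 := by
  show ∑ s : Unit, v s * (if z = D.one then E.e p q else 0) = _
  rw [Fintype.sum_unique]
  split_ifs with h
  · rfl
  · rw [mul_zero]

open Fam in
theorem e_mulM : E.eM ≫ c.mulM = c.oneM := by
  apply act_ext
  intro v r
  rw [act_comp, CData.act_mulM, CData.act_oneM]
  rw [show (∑ p, ∑ q, act E.eM v (p, q, c.x r) * c.m p q r) =
      ∑ p, ∑ q, (if c.x r = D.one then v () * E.e p q else 0) * c.m p q r from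
    Finset.sum_congr rfl fun p _ => Finset.sum_congr rfl fun q _ => by rw [act_eM]]
  by_cases hr : c.x r = D.one
  · simp only [if_pos hr]
    have h := E.e_mul r hr
    calc ∑ p, ∑ q, v () * E.e p q * c.m p q r = v () * ∑ p, ∑ q, E.e p q * c.m p q r := by
          simp only [Finset.mul_sum, mul_assoc]
      _ = _ := by rw [h]; split_ifs <;> simp
  · simp only [if_neg hr, zero_mul, Finset.sum_const_zero]
    rw [if_neg]
    intro h
    exact hr (by rw [h, c.x_u])

open Fam in
theorem casM : Fam.tLamInv c.obj ≫ Fam.tHom E.eM (𝟙 c.obj) ≫ Fam.tAssoc c.obj c.obj c.obj ≫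
      Fam.tHom (𝟙 c.obj) c.mulM =
    Fam.tRhoInv c.obj ≫ Fam.tHom (𝟙 c.obj) E.eM ≫ Fam.tAssocInv c.obj c.obj c.obj ≫
      Fam.tHom c.mulM (𝟙 c.obj) := by
  apply act_ext
  rintro v ⟨r, s, z⟩
  simp only [act_comp]
  rw [act_wl, act_wr]
  by_cases hN : D.N (c.x r) (c.x s) z = true
  swap
  · rw [if_neg (fun h => hN h.1), if_neg (fun h => hN h.1)]
  rw [if_pos ⟨hN, rfl⟩, if_pos ⟨hN, rfl⟩, CData.act_mulM, CData.act_mulM]
  have hL : ∀ p q : P, act (tAssoc c.obj c.obj c.obj)
      (act (tHom E.eM (𝟙 c.obj)) (act (tLamInv c.obj) v)) (r, (p, q, c.x s), z) =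
      if z = c.x q then v q * (E.e r p * D.F (c.x r) (c.x p) (c.x q) z D.one (c.x s)) else 0 := by
    intro p q
    rw [act_assoc, if_pos ⟨rfl, rfl, rfl⟩, Finset.sum_eq_single D.one]
    · rw [act_wr, act_eM, if_pos rfl, act_lamInv]
      by_cases hz : z = c.x q
      · subst hz
        have hn : D.N D.one (c.x q) (c.x q) = true := by
          rw [D.N_one_left]
          simp
        rw [if_pos ⟨hn, rfl⟩, if_pos ⟨rfl, rfl⟩, if_pos rfl]
        ring
      · have hz2 : ¬ (z = c.obj.lab q ∧ c.obj.pres q = true) := fun h => hz h.1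
        rw [if_neg hz, if_neg hz2]
        simp
    · intro b _ hb
      rw [act_wr, act_eM, if_neg hb]
      simp
    · simp
  have hR : ∀ p q : P, act (tAssocInv c.obj c.obj c.obj)
      (act (tHom (𝟙 c.obj) E.eM) (act (tRhoInv c.obj) v)) ((p, q, c.x r), s, z) =
      if z = c.x p then v p * (E.e q s * D.G (c.x p) (c.x q) (c.x s) z D.one (c.x r)) else 0 := by
    intro p q
    rw [act_assocInv, if_pos ⟨rfl, rfl, rfl⟩, Finset.sum_eq_single D.one]
    · rw [act_wl, act_eM, if_pos rfl, act_rhoInv]
      by_cases hz : z = c.x p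
      · subst hz
        have hn : D.N (c.x p) D.one (c.x p) = true := by
          rw [D.N_one_right]
          simp
        rw [if_pos ⟨hn, rfl⟩, if_pos ⟨rfl, rfl⟩, if_pos rfl]
        ring
      · have hz2 : ¬ (z = c.obj.lab p ∧ c.obj.pres p = true) := fun h => hz h.1
        rw [if_neg hz, if_neg hz2]
        simp
    · intro b _ hb
      rw [act_wl, act_eM, if_neg hb]
      simp
    · simp
  simp only [hL, hR]
  rw [Finset.sum_comm]
  refine Finset.sum_congr rfl fun q _ => ?_
  by_cases hz : z = c.x q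
  · subst hz
    simp only [if_pos]
    have h := E.cas q r s
    calc ∑ p, v q * (E.e r p * D.F (c.x r) (c.x p) (c.x q) (c.x q) D.one (c.x s)) * c.m p q s
        = v q * ∑ s', E.e r s' * D.F (c.x r) (c.x s') (c.x q) (c.x q) D.one (c.x s) *
            c.m s' q s := by
          rw [Finset.mul_sum]
          refine Finset.sum_congr rfl fun p _ => ?_
          ring
      _ = v q * ∑ r', E.e r' s * D.G (c.x q) (c.x r') (c.x s) (c.x q) D.one (c.x r) *
            c.m q r' r := by rw [h]
      _ = _ := by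
          rw [Finset.mul_sum]
          refine Finset.sum_congr rfl fun p _ => ?_
          ring
  · simp only [if_neg hz, zero_mul, Finset.sum_const_zero]

end CasData
end H24PV
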