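import Pool.Agent.H24.PV.FCDef

/-!
# FcH: criterion for two central algebras to centralise each other

Entries of the composite `A ⊗ B ⟶ B ⊗ A ⟶ A ⊗ B`:
`(p, q, z) → (q, p', z) → (p', q', z)`; use `act_betaM` for both algebras (the second one applied to
`U = c₁.obj`) and `act_id`.
-/

open CategoryTheory MonoidalCategory

universe u

namespace H24PV
namespace CData
variable {k : Type u} [Field k] {L : Type} [Fintype L] [DecidableEq L]
  {D : FData k L} {P Q : Type} [Fintype P] [DecidableEq P] [Fintype Q] [DecidableEq Q]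

theorem centralizeM (c₁ : CData D P) (c₂ : CData D Q)
    (H : ∀ p p' q q' z, c₁.h (c₂.x q) p p' z * c₂.h (c₁.x p') q q' z =
      if p = p' ∧ q = q' ∧ D.N (c₁.x p) (c₂.x q) z = true then 1 else 0) :
    c₁.betaM c₂.obj ≫ c₂.betaM c₁.obj = 𝟙 (Fam.tObj c₁.obj c₂.obj) := by
  apply Fam.act_ext
  rintro v ⟨p', q', z⟩
  rw [Fam.act_comp, act_betaM, if_pos rfl, Fam.act_id]
  have h1 : ∀ q : Q, Fam.act (c₁.betaM c₂.obj) v (q, p', z) *
      c₂.h (c₁.x p') q q' z = ∑ p : P, v (p, q, z) *
        (if p = p' ∧ q = q' ∧ D.N (c₁.x p) (c₂.x q) z = true then 1 else 0) := by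
    intro q
    rw [act_betaM, if_pos rfl, Finset.sum_mul]
    refine Finset.sum_congr rfl fun p _ => ?_
    rw [← H p p' q q' z, mul_assoc]
  refine (Finset.sum_congr rfl fun q _ => h1 q).trans ?_
  rw [Finset.sum_eq_single q', Finset.sum_eq_single p']
  · by_cases hN : D.N (c₁.x p') (c₂.x q') z = true <;> simp [hN]
  · intro p _ hp
    simp [hp]
  · intro h
    exact absurd (Finset.mem_univ _) h
  · intro q _ hq
    refine Finset.sum_eq_zero fun p _ => ?_
    simp [hq]
  · intro h
    exact absurd (Finset.mem_univ _) h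

end CData
end H24PV
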