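import Pool.Agent.H24.PV.FcA
import Pool.Agent.H24.PV.FcB
import Pool.Agent.H24.PV.FcC
import Pool.Agent.H24.PV.FcD
import Pool.Agent.H24.PV.FcE
import Pool.Agent.H24.PV.FcF
import Pool.Agent.H24.PV.FcH

/-!
# The central commutative monoid of families given by central algebra data
-/

open CategoryTheory MonoidalCategory

universe u

namespace H24PV
variable {k : Type u} [Field k] {L : Type} [Fintype L] [DecidableEq L]
  {D : FData k L} {P : Type} [Fintype P] [DecidableEq P]

/-- The central commutative monoid of central algebra data. -/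
def CData.ccm (c : CData D P) : CCM (Fam D) where
  A := c.obj
  mul := c.mulM
  one := c.oneM
  β U := ⟨c.betaM U, c.betaInvM U, c.beta_inv U, c.inv_beta U⟩
  one_mul := c.one_mulM
  mul_one := c.mul_oneM
  mul_assoc := c.mul_assocM
  β_nat f := c.beta_nat f
  β_unit := c.beta_unitM
  β_tensor U V := c.beta_tensorM U V
  one_central U := c.one_centralM U
  mul_central U := c.mul_centralM U
  comm := c.commM

/-- The Casimir element of Casimir data. -/
def CasData.casimir {c : CData D P} (E : CasData c) : Casimir c.ccm where
  e := E.eM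
  e_mul := E.e_mulM
  cas := E.casM

theorem CData.centralize {Q : Type} [Fintype Q] [DecidableEq Q] (c₁ : CData D P)
    (c₂ : CData D Q)
    (H : ∀ p p' q q' z, c₁.h (c₂.x q) p p' z * c₂.h (c₁.x p') q q' z =
      if p = p' ∧ q = q' ∧ D.N (c₁.x p) (c₂.x q) z = true then 1 else 0) :
    Centralize c₁.ccm c₂.ccm :=
  CData.centralizeM c₁ c₂ H

end H24PV
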