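import Pool.Agent.H24.PV.FAct

/-!
# FmA: the associator of families is an isomorphism and natural

Use `act_ext`, `act_comp`, `act_assoc`, `act_assocInv`, `act_id`, `act_tHom` from `FAct.lean`
(vector `v` arbitrary, target index a tuple; split on the presence conditions).
* inverse laws: after `act` the sum is `∑ f, (∑ e', v e' * F e' f) * G f e`; swap and use
  `D.FG` (resp. `D.GF`); on the target index `((i, j, e), l, d)` the presence condition of `𝟙` is
  `pres i, pres j, N a b e, pres l, N e c d`, exactly the condition in `FG`.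
* naturality: left: `act (tAssoc X' Y' Z') (act (tHom (tHom f g) h) v)`: the sums over indices
  commute with the sum over the channel; `F` is evaluated at the labels of the target indices
  `i', j', l'`, and `Hom.eq` (labels equal when the entry is nonzero) identifies them with the labels
  of the source indices.  Split on whether the matrix entries vanish.
-/

open CategoryTheory MonoidalCategory

universe u

namespace H24PV
namespace Fam

variable {k : Type u} [Field k] {L : Type} [Fintype L] [DecidableEq L] {D : FData k L}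

theorem assoc_inv (X Y Z : Fam D) :
    tAssoc X Y Z ≫ tAssocInv X Y Z = 𝟙 (tObj (tObj X Y) Z) := by
  apply act_ext
  rintro v ⟨⟨i, j, e⟩, l, d⟩
  rw [act_comp, act_assocInv, act_id]
  by_cases h : X.pres i = true ∧ Y.pres j = true ∧ Z.pres l = true
  · rw [if_pos h]
    have e1 : ∀ f, act (tAssoc X Y Z) v (i, (j, l, f), d) * D.G (X.lab i) (Y.lab j) (Z.lab l) d f e
        = ∑ e', v ((i, j, e'), l, d) * (D.F (X.lab i) (Y.lab j) (Z.lab l) d e' f *
          D.G (X.lab i) (Y.lab j) (Z.lab l) d f e) := by
      intro f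
      rw [act_assoc, if_pos h, Finset.sum_mul]
      exact Finset.sum_congr rfl fun e' _ => mul_assoc _ _ _
    rw [Finset.sum_congr rfl fun f _ => e1 f, Finset.sum_comm]
    simp_rw [← Finset.mul_sum, D.FG]
    rw [Finset.sum_eq_single e]
    · obtain ⟨h1, h2, h3⟩ := h
      by_cases hN : D.N (X.lab i) (Y.lab j) e = true ∧ D.N e (Z.lab l) d = true
      · rw [if_pos ⟨rfl, hN⟩, mul_one, if_pos (by simp [h1, h2, h3, hN.1, hN.2])]
      · rw [if_neg (fun hh => hN hh.2), mul_zero, if_neg]
        intro hh
        apply hN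
        simp only [Bool.and_eq_true] at hh
        exact ⟨hh.1.1.2, hh.2⟩
    · intro b _ hb
      rw [if_neg (fun hh => hb hh.1), mul_zero]
    · intro hh
      exact absurd (Finset.mem_univ _) hh
  · rw [if_neg h, if_neg]
    intro hh
    apply h
    simp only [Bool.and_eq_true] at hh
    exact ⟨hh.1.1.1.1, hh.1.1.1.2, hh.1.2⟩

theorem inv_assoc (X Y Z : Fam D) :
    tAssocInv X Y Z ≫ tAssoc X Y Z = 𝟙 (tObj X (tObj Y Z)) := by
  apply act_ext
  rintro v ⟨i, ⟨j, l, f⟩, d⟩
  rw [act_comp, act_assoc, act_id]
  by_cases h : X.pres i = true ∧ Y.pres j = true ∧ Z.pres l = true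
  · rw [if_pos h]
    have e1 : ∀ e, act (tAssocInv X Y Z) v ((i, j, e), l, d) *
          D.F (X.lab i) (Y.lab j) (Z.lab l) d e f
        = ∑ f', v (i, (j, l, f'), d) * (D.G (X.lab i) (Y.lab j) (Z.lab l) d f' e *
          D.F (X.lab i) (Y.lab j) (Z.lab l) d e f) := by
      intro e
      rw [act_assocInv, if_pos h, Finset.sum_mul]
      exact Finset.sum_congr rfl fun e' _ => mul_assoc _ _ _
    rw [Finset.sum_congr rfl fun f _ => e1 f, Finset.sum_comm]
    simp_rw [← Finset.mul_sum, D.GF]
    rw [Finset.sum_eq_single f]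
    · obtain ⟨h1, h2, h3⟩ := h
      by_cases hN : D.N (Y.lab j) (Z.lab l) f = true ∧ D.N (X.lab i) f d = true
      · rw [if_pos ⟨rfl, hN⟩, mul_one, if_pos (by simp [h1, h2, h3, hN.1, hN.2])]
      · rw [if_neg (fun hh => hN hh.2), mul_zero, if_neg]
        intro hh
        apply hN
        simp only [Bool.and_eq_true] at hh
        exact ⟨hh.1.2.2, hh.2⟩
    · intro b _ hb
      rw [if_neg (fun hh => hb hh.1), mul_zero]
    · intro hh
      exact absurd (Finset.mem_univ _) hh
  · rw [if_neg h, if_neg]
    intro hh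
    apply h
    simp only [Bool.and_eq_true] at hh
    exact ⟨hh.1.1, hh.1.2.1.1, hh.1.2.1.2⟩

end Fam
end H24PV
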