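import Pool.Agent.H24.PV.FAct

/-!
# FmB: naturality of the associator of families

Use `act_ext`, `act_comp`, `act_assoc`, `act_tHom` from `FAct.lean` (vector `v` arbitrary, target
index `(i', (j', l', f'), d')`; split on the presence conditions).
Left: `act (tAssoc X' Y' Z') (act (tHom (tHom f g) h) v)`; right:
`act (tHom f (tHom g h)) (act (tAssoc X Y Z) v)`.  The sums over the indices `i, j, l` commute with
the sum over the channel `e`; on the left `F` is evaluated at the labels of `i', j', l'`, on the
right at those of `i, j, l`: `Hom.eq` (labels equal when the entry is nonzero) identifies them.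
(Alternatively compare matrix entries with `comp_m`, `tAssoc_m`, `tHom_m`.)
-/

open CategoryTheory MonoidalCategory

universe u

namespace H24PV
namespace Fam

variable {k : Type u} [Field k] {L : Type} [Fintype L] [DecidableEq L] {D : FData k L}

private theorem FmB_left {X X' Y Y' Z Z' : Fam D} (f : X ⟶ X') (g : Y ⟶ Y') (h : Z ⟶ Z')
    (v : (tObj (tObj X Y) Z).ι → k) (i' : X'.ι) (j' : Y'.ι) (e : L) (l' : Z'.ι) (d' : L) :
    act (tHom (tHom f g) h) v ((i', j', e), l', d') =
      if D.N (X'.lab i') (Y'.lab j') e = true ∧ D.N e (Z'.lab l') d' = true then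
        ∑ i, ∑ j, ∑ l, v ((i, j, e), l, d') *
          (Hom.m f i i' * Hom.m g j j' * Hom.m h l l') else 0 := by
  rw [act_tHom]
  show (if D.N e (Z'.lab l') d' = true then ∑ s : X.ι × Y.ι × L, ∑ l, v (s, l, d') *
    (Hom.m (tHom f g) s (i', j', e) * Hom.m h l l') else 0) = _
  by_cases h2 : D.N e (Z'.lab l') d' = true
  · rw [if_pos h2]
    rw [Fintype.sum_prod_type]
    simp_rw [Fintype.sum_prod_type]
    by_cases h1 : D.N (X'.lab i') (Y'.lab j') e = true
    · rw [if_pos ⟨h1, h2⟩]
      apply Finset.sum_congr rfl; intro i _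
      apply Finset.sum_congr rfl; intro j _
      rw [Finset.sum_eq_single e]
      · apply Finset.sum_congr rfl; intro l _
        rw [tHom_m]
        by_cases hf : Hom.m f i i' = 0
        · simp [hf]
        by_cases hg : Hom.m g j j' = 0
        · simp [hg]
        rw [if_pos ⟨rfl, by rw [Hom.eq f hf, Hom.eq g hg]; exact h1⟩]
      · intro b _ hb
        apply Finset.sum_eq_zero; intro l _
        rw [tHom_m, if_neg (fun hh => hb hh.1), zero_mul, mul_zero]
      · intro hh; exact absurd (Finset.mem_univ _) hh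
    · rw [if_neg (fun hh => h1 hh.1)]
      apply Finset.sum_eq_zero; intro i _
      apply Finset.sum_eq_zero; intro j _
      apply Finset.sum_eq_zero; intro b _
      apply Finset.sum_eq_zero; intro l _
      rw [tHom_m]
      by_cases hf : Hom.m f i i' = 0
      · simp [hf]
      by_cases hg : Hom.m g j j' = 0
      · simp [hg]
      rw [if_neg, zero_mul, mul_zero]
      rintro ⟨rfl, h3⟩
      rw [Hom.eq f hf, Hom.eq g hg] at h3
      exact h1 h3
  · rw [if_neg h2, if_neg (fun hh => h2 hh.2)]

private theorem FmB_right {X X' Y Y' Z Z' : Fam D} (f : X ⟶ X') (g : Y ⟶ Y') (h : Z ⟶ Z')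
    (w : (tObj X (tObj Y Z)).ι → k) (i' : X'.ι) (j' : Y'.ι) (l' : Z'.ι) (f' : L) (d' : L) :
    act (tHom f (tHom g h)) w (i', (j', l', f'), d') =
      if D.N (Y'.lab j') (Z'.lab l') f' = true ∧ D.N (X'.lab i') f' d' = true then
        ∑ i, ∑ j, ∑ l, w (i, (j, l, f'), d') *
          (Hom.m f i i' * Hom.m g j j' * Hom.m h l l') else 0 := by
  rw [act_tHom]
  show (if D.N (X'.lab i') f' d' = true then ∑ i, ∑ s : Y.ι × Z.ι × L, w (i, s, d') *
    (Hom.m f i i' * Hom.m (tHom g h) s (j', l', f')) else 0) = _
  by_cases h2 : D.N (X'.lab i') f' d' = true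
  · rw [if_pos h2]
    simp_rw [Fintype.sum_prod_type]
    by_cases h1 : D.N (Y'.lab j') (Z'.lab l') f' = true
    · rw [if_pos ⟨h1, h2⟩]
      apply Finset.sum_congr rfl; intro i _
      apply Finset.sum_congr rfl; intro j _
      apply Finset.sum_congr rfl; intro l _
      rw [Finset.sum_eq_single f']
      · rw [tHom_m]
        by_cases hg : Hom.m g j j' = 0
        · simp [hg]
        by_cases hh : Hom.m h l l' = 0
        · simp [hh]
        rw [if_pos ⟨rfl, by rw [Hom.eq g hg, Hom.eq h hh]; exact h1⟩]
        ring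
      · intro b _ hb
        rw [tHom_m, if_neg (fun hh => hb hh.1), mul_zero, mul_zero]
      · intro hh; exact absurd (Finset.mem_univ _) hh
    · rw [if_neg (fun hh => h1 hh.1)]
      apply Finset.sum_eq_zero; intro i _
      apply Finset.sum_eq_zero; intro j _
      apply Finset.sum_eq_zero; intro l _
      apply Finset.sum_eq_zero; intro b _
      rw [tHom_m]
      by_cases hg : Hom.m g j j' = 0
      · simp [hg]
      by_cases hh : Hom.m h l l' = 0
      · simp [hh]
      rw [if_neg, mul_zero, mul_zero]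
      rintro ⟨rfl, h3⟩
      rw [Hom.eq g hg, Hom.eq h hh] at h3
      exact h1 h3
  · rw [if_neg h2, if_neg (fun hh => h2 hh.2)]

theorem assoc_naturality {X X' Y Y' Z Z' : Fam D} (f : X ⟶ X') (g : Y ⟶ Y') (h : Z ⟶ Z') :
    tHom (tHom f g) h ≫ tAssoc X' Y' Z' = tAssoc X Y Z ≫ tHom f (tHom g h) := by
  apply act_ext
  rintro v ⟨i', ⟨j', l', f'⟩, d'⟩
  rw [act_comp, act_comp]
  -- canonical form
  have hL : act (tAssoc X' Y' Z') (act (tHom (tHom f g) h) v) (i', (j', l', f'), d') =
      ∑ i, ∑ j, ∑ l, ∑ e, v ((i, j, e), l, d') *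
        D.F (X'.lab i') (Y'.lab j') (Z'.lab l') d' e f' *
          (Hom.m f i i' * Hom.m g j j' * Hom.m h l l') := by
    rw [act_assoc]
    by_cases hp : X'.pres i' = true ∧ Y'.pres j' = true ∧ Z'.pres l' = true
    · rw [if_pos hp]
      have h1 : ∀ e, act (tHom (tHom f g) h) v ((i', j', e), l', d') *
          D.F (X'.lab i') (Y'.lab j') (Z'.lab l') d' e f' =
          ∑ i, ∑ j, ∑ l, v ((i, j, e), l, d') *
            D.F (X'.lab i') (Y'.lab j') (Z'.lab l') d' e f' *
            (Hom.m f i i' * Hom.m g j j' * Hom.m h l l') := by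
        intro e
        rw [FmB_left]
        by_cases hF : D.F (X'.lab i') (Y'.lab j') (Z'.lab l') d' e f' = 0
        · simp [hF]
        · obtain ⟨a1, a2, a3, a4⟩ := D.F_supp hF
          rw [if_pos ⟨a1, a2⟩]
          simp only [Finset.sum_mul]
          apply Finset.sum_congr rfl; intro i _
          apply Finset.sum_congr rfl; intro j _
          apply Finset.sum_congr rfl; intro l _
          ring
      rw [Finset.sum_congr rfl (fun e _ => h1 e)]
      rw [Finset.sum_comm]
      apply Finset.sum_congr rfl; intro i _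
      rw [Finset.sum_comm]
      apply Finset.sum_congr rfl; intro j _
      rw [Finset.sum_comm]
    · rw [if_neg hp]
      symm
      apply Finset.sum_eq_zero; intro i _
      apply Finset.sum_eq_zero; intro j _
      apply Finset.sum_eq_zero; intro l _
      apply Finset.sum_eq_zero; intro e _
      by_cases hf : Hom.m f i i' = 0
      · simp [hf]
      by_cases hg : Hom.m g j j' = 0
      · simp [hg]
      by_cases hh : Hom.m h l l' = 0
      · simp [hh]
      exact absurd ⟨Hom.pr f hf, Hom.pr g hg, Hom.pr h hh⟩ hp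
  rw [hL, FmB_right]
  by_cases hN : D.N (Y'.lab j') (Z'.lab l') f' = true ∧ D.N (X'.lab i') f' d' = true
  · rw [if_pos hN]
    apply Finset.sum_congr rfl; intro i _
    apply Finset.sum_congr rfl; intro j _
    apply Finset.sum_congr rfl; intro l _
    rw [act_assoc]
    by_cases hf : Hom.m f i i' = 0
    · simp [hf]
    by_cases hg : Hom.m g j j' = 0
    · simp [hg]
    by_cases hh : Hom.m h l l' = 0
    · simp [hh]
    rw [if_pos ⟨Hom.pl f hf, Hom.pl g hg, Hom.pl h hh⟩, Hom.eq f hf, Hom.eq g hg, Hom.eq h hh,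
      Finset.sum_mul]
  · rw [if_neg hN]
    apply Finset.sum_eq_zero; intro i _
    apply Finset.sum_eq_zero; intro j _
    apply Finset.sum_eq_zero; intro l _
    apply Finset.sum_eq_zero; intro e _
    have hF : D.F (X'.lab i') (Y'.lab j') (Z'.lab l') d' e f' = 0 := by
      by_contra hF
      obtain ⟨a1, a2, a3, a4⟩ := D.F_supp hF
      exact hN ⟨a3, a4⟩
    rw [hF, mul_zero, zero_mul]

end Fam
end H24PV
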