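import Pool.Agent.H24.PV.FAct

/-!
# FmC: unitors of families: inverse laws, naturality, triangle

Use `act_ext`, `act_comp` and the action lemmas of `FAct.lean`.  `D.N_one_left`, `D.N_one_right`
say `N one a b = decide (a = b)`.  Triangle: `F a one c d a c = 1` (`D.F_one_mid`) when
`N a c d = true`; other channels do not contribute (`e = lab`, by the target of the unitor).
-/

open CategoryTheory MonoidalCategory

universe u

namespace H24PV
namespace Fam

variable {k : Type u} [Field k] {L : Type} [Fintype L] [DecidableEq L] {D : FData k L}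

theorem lam_inv (X : Fam D) : tLam X ≫ tLamInv X = 𝟙 (tObj (tUnit D) X) := by
  apply act_ext
  rintro v ⟨u, j, c⟩
  rw [act_comp, act_lamInv, act_lam, act_id]
  by_cases h : X.pres j = true
  · by_cases hc : c = X.lab j
    · subst hc
      simp [h, tObj, tUnit, D.N_one_left]
    · have hc' : ¬ X.lab j = c := fun h => hc h.symm
      simp [hc, hc', tObj, tUnit, D.N_one_left]
  · simp [h, tObj, tUnit]

theorem inv_lam (X : Fam D) : tLamInv X ≫ tLam X = 𝟙 X := by
  apply act_ext
  intro v j
  rw [act_comp, act_lam, act_lamInv, act_id]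
  by_cases h : X.pres j = true <;> simp [h]

theorem rho_inv (X : Fam D) : tRho X ≫ tRhoInv X = 𝟙 (tObj X (tUnit D)) := by
  apply act_ext
  rintro v ⟨j, u, c⟩
  rw [act_comp, act_rhoInv, act_rho, act_id]
  by_cases h : X.pres j = true
  · by_cases hc : c = X.lab j
    · subst hc
      simp [h, tObj, tUnit, D.N_one_right]
    · have hc' : ¬ X.lab j = c := fun h => hc h.symm
      simp [hc, hc', tObj, tUnit, D.N_one_right]
  · simp [h, tObj, tUnit]

theorem inv_rho (X : Fam D) : tRhoInv X ≫ tRho X = 𝟙 X := by
  apply act_ext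
  intro v j
  rw [act_comp, act_rho, act_rhoInv, act_id]
  by_cases h : X.pres j = true <;> simp [h]

theorem lam_naturality {X Y : Fam D} (f : X ⟶ Y) :
    tHom (𝟙 (tUnit D)) f ≫ tLam Y = tLam X ≫ f := by
  apply act_ext
  intro v j
  rw [act_comp, act_comp, act_lam, act_wl]
  by_cases h : Y.pres j = true
  · have hN : D.N ((tUnit D).lab ()) (Y.lab j) (Y.lab j) = true ∧ (tUnit D).pres () = true := by
      simp [tUnit, D.N_one_left]
    rw [if_pos h, if_pos hN]
    unfold act
    refine Finset.sum_congr rfl fun i _ => ?_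
    by_cases h1 : Hom.m f i j = 0
    · rw [h1, mul_zero, mul_zero]
    · have e := act_lam X v i
      unfold act at e
      rw [e, if_pos (Hom.pl f h1), Hom.eq f h1]
  · rw [if_neg h]
    unfold act
    refine (Finset.sum_eq_zero fun i _ => ?_).symm
    have h1 : Hom.m f i j = 0 := by
      by_contra h2
      exact h (Hom.pr f h2)
    rw [h1, mul_zero]

theorem rho_naturality {X Y : Fam D} (f : X ⟶ Y) :
    tHom f (𝟙 (tUnit D)) ≫ tRho Y = tRho X ≫ f := by
  apply act_ext
  intro v j
  rw [act_comp, act_comp, act_rho, act_wr]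
  by_cases h : Y.pres j = true
  · have hN : D.N (Y.lab j) ((tUnit D).lab ()) (Y.lab j) = true ∧ (tUnit D).pres () = true := by
      simp [tUnit, D.N_one_right]
    rw [if_pos h, if_pos hN]
    unfold act
    refine Finset.sum_congr rfl fun i _ => ?_
    by_cases h1 : Hom.m f i j = 0
    · rw [h1, mul_zero, mul_zero]
    · have e := act_rho X v i
      unfold act at e
      rw [e, if_pos (Hom.pl f h1), Hom.eq f h1]
  · rw [if_neg h]
    unfold act
    refine (Finset.sum_eq_zero fun i _ => ?_).symm
    have h1 : Hom.m f i j = 0 := by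
      by_contra h2
      exact h (Hom.pr f h2)
    rw [h1, mul_zero]

theorem triangle' (X Y : Fam D) :
    tAssoc X (tUnit D) Y ≫ tHom (𝟙 X) (tLam Y) = tHom (tRho X) (𝟙 Y) := by
  apply act_ext
  rintro v ⟨i, j, c⟩
  rw [act_comp, act_wl, act_wr, act_lam, act_rho]
  by_cases hN : D.N (X.lab i) (Y.lab j) c = true
  · by_cases hi : X.pres i = true
    · by_cases hj : Y.pres j = true
      · rw [if_pos ⟨hN, hi⟩, if_pos hj, if_pos ⟨hN, hj⟩, if_pos hi, act_assoc,
          if_pos ⟨hi, rfl, hj⟩, Finset.sum_eq_single (X.lab i)]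
        · show v ((i, (), X.lab i), j, c) * D.F (X.lab i) D.one (Y.lab j) c (X.lab i) (Y.lab j) = _
          rw [D.F_one_mid _ _ _ hN, mul_one]
        · intro e _ he
          by_cases h1 : D.F (X.lab i) D.one (Y.lab j) c e (Y.lab j) = 0
          · show v ((i, (), e), j, c) * D.F (X.lab i) D.one (Y.lab j) c e (Y.lab j) = 0
            rw [h1, mul_zero]
          · have h2 := (D.F_supp h1).1
            rw [D.N_one_right, decide_eq_true_eq] at h2
            exact absurd h2.symm he
        · intro h
          exact absurd (Finset.mem_univ _) h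
      · rw [if_pos ⟨hN, hi⟩, if_neg hj, if_neg (fun h => hj h.2)]
    · rw [if_neg (fun h => hi h.2)]
      by_cases hj : Y.pres j = true
      · rw [if_pos ⟨hN, hj⟩, if_neg hi]
      · rw [if_neg (fun h => hj h.2)]
  · rw [if_neg (fun h => hN h.1), if_neg (fun h => hN h.1)]

end Fam
end H24PV
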