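import Pool.Agent.H24.PV.FAct

/-!
# FmD: the pentagon for families

Use `act_ext`, `act_comp`, `act_wl`, `act_wr`, `act_assoc` (`FAct.lean`).
On the target index `(a, (b, (c, d, l), m), e)` and a vector `v` on
`(((a, b, f), c, g), d, e)` (labels `A, B, C, E` of `a, b, c, d`):
left side `∑_h (∑_g (∑_f v * F A B C g f h) * F A h E e g m) * F B C E m h l`,
right side `∑_f (∑_g v * F f C E e g l) * F A B l e f m`; swap sums and use `D.pentagon`.
The presence conditions on the inner indices (`N f C g = true` etc. in `act_wr` / `act_wl` and in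
`tObj`) are implied by `D.F_supp` whenever the corresponding `F` is nonzero; a sum of terms with
such an `if` equals the sum without it (`Finset.sum_congr`, split on `F = 0`).
-/

open CategoryTheory MonoidalCategory

universe u

namespace H24PV
namespace Fam

variable {k : Type u} [Field k] {L : Type} [Fintype L] [DecidableEq L] {D : FData k L}

private theorem pent_lhs (W X Y Z : Fam D) (v : (tObj (tObj (tObj W X) Y) Z).ι → k)
    (a b c d l m e) (ha : W.pres a = true) (hb : X.pres b = true) (hc : Y.pres c = true)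
    (hd : Z.pres d = true) :
    act (tHom (𝟙 W) (tAssoc X Y Z)) (act (tAssoc W (tObj X Y) Z)
      (act (tHom (tAssoc W X Y) (𝟙 Z)) v)) (a, (b, (c, d, l), m), e) =
    if D.N (W.lab a) m e = true then
      ∑ h, (∑ g, (∑ f, v (((a, b, f), c, g), d, e) *
        D.F (W.lab a) (X.lab b) (Y.lab c) g f h) *
          D.F (W.lab a) h (Z.lab d) e g m) * D.F (X.lab b) (Y.lab c) (Z.lab d) m h l else 0 := by
  rw [act_wl]
  by_cases hN : D.N (W.lab a) m e = true
  · rw [if_pos ⟨hN, ha⟩, if_pos hN, act_assoc, if_pos ⟨hb, hc, hd⟩]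
    apply Finset.sum_congr rfl; intro h _
    by_cases h0 : D.F (X.lab b) (Y.lab c) (Z.lab d) m h l = 0
    · rw [h0, mul_zero, mul_zero]
    have hs := D.F_supp h0
    congr 1
    rw [act_assoc, if_pos ⟨ha, by simp [hb, hc, hs.1], hd⟩]
    apply Finset.sum_congr rfl; intro g _
    by_cases h1 : D.F (W.lab a) h (Z.lab d) e g m = 0
    · have h1' : D.F (W.lab a) ((tObj X Y).lab (b, c, h)) (Z.lab d) e g m = 0 := h1
      rw [h1', mul_zero, mul_zero]
    have hs' := D.F_supp h1
    congr 1
    rw [act_wr, if_pos ⟨hs'.2.1, hd⟩, act_assoc, if_pos ⟨ha, hb, hc⟩]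
  · rw [if_neg (fun h => hN h.1), if_neg hN]

private theorem pent_rhs (W X Y Z : Fam D) (v : (tObj (tObj (tObj W X) Y) Z).ι → k)
    (a b c d l m e) (ha : W.pres a = true) (hb : X.pres b = true) (hc : Y.pres c = true)
    (hd : Z.pres d = true) :
    act (tAssoc W X (tObj Y Z)) (act (tAssoc (tObj W X) Y Z) v) (a, (b, (c, d, l), m), e) =
    if D.N (Y.lab c) (Z.lab d) l = true then
      ∑ f, (∑ g, v (((a, b, f), c, g), d, e) *
        D.F f (Y.lab c) (Z.lab d) e g l) *
          D.F (W.lab a) (X.lab b) l e f m else 0 := by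
  rw [act_assoc]
  by_cases hN : D.N (Y.lab c) (Z.lab d) l = true
  · rw [if_pos ⟨ha, hb, by simp [hc, hd, hN]⟩, if_pos hN]
    apply Finset.sum_congr rfl; intro f _
    by_cases h0 : D.F (W.lab a) (X.lab b) l e f m = 0
    · have h0' : D.F (W.lab a) (X.lab b) ((tObj Y Z).lab (c, d, l)) e f m = 0 := h0
      rw [h0', mul_zero, mul_zero]
    have hs := D.F_supp h0
    congr 1
    rw [act_assoc, if_pos ⟨by simp [ha, hb, hs.1], hc, hd⟩]
  · rw [if_neg hN, if_neg]
    rintro ⟨-, -, h⟩
    apply hN
    simp [hc, hd] at h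
    exact h

theorem pentagon' (W X Y Z : Fam D) :
    tHom (tAssoc W X Y) (𝟙 Z) ≫ tAssoc W (tObj X Y) Z ≫ tHom (𝟙 W) (tAssoc X Y Z) =
      tAssoc (tObj W X) Y Z ≫ tAssoc W X (tObj Y Z) := by
  apply act_ext
  rintro v ⟨a, ⟨b, ⟨c, d, l⟩, m⟩, e⟩
  rw [act_comp, act_comp, act_comp]
  by_cases ha : W.pres a = true
  swap
  · rw [act_wl, if_neg (fun h => ha h.2), act_assoc, if_neg (fun h => ha h.1)]
  by_cases hb : X.pres b = true
  swap
  · rw [act_wl, act_assoc, act_assoc, if_neg (c := X.pres b = true ∧ _) (fun h => hb h.1),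
      ite_self, if_neg (fun h => hb h.2.1)]
  by_cases hcd : Y.pres c = true ∧ Z.pres d = true
  swap
  · rw [act_wl, act_assoc, act_assoc, if_neg (c := X.pres b = true ∧ _) (fun h => hcd h.2),
      ite_self, if_neg]
    rintro ⟨-, -, h⟩
    apply hcd
    simp at h
    exact h.1
  obtain ⟨hc, hd⟩ := hcd
  rw [pent_lhs W X Y Z v a b c d l m e ha hb hc hd, pent_rhs W X Y Z v a b c d l m e ha hb hc hd]
  by_cases hN1 : D.N (W.lab a) m e = true
  · rw [if_pos hN1]
    by_cases hN2 : D.N (Y.lab c) (Z.lab d) l = true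
    · rw [if_pos hN2]
      simp only [Finset.sum_mul]
      calc ∑ h, ∑ g, ∑ f, v (((a, b, f), c, g), d, e) *
            D.F (W.lab a) (X.lab b) (Y.lab c) g f h * D.F (W.lab a) h (Z.lab d) e g m *
              D.F (X.lab b) (Y.lab c) (Z.lab d) m h l
          = ∑ f, ∑ g, ∑ h, v (((a, b, f), c, g), d, e) *
            D.F (W.lab a) (X.lab b) (Y.lab c) g f h * D.F (W.lab a) h (Z.lab d) e g m *
              D.F (X.lab b) (Y.lab c) (Z.lab d) m h l := by
            rw [Finset.sum_comm]
            exact (Finset.sum_congr rfl (fun g _ => Finset.sum_comm)).trans Finset.sum_comm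
        _ = _ := by
            apply Finset.sum_congr rfl; intro f _
            apply Finset.sum_congr rfl; intro g _
            have := D.pentagon (W.lab a) (X.lab b) (Y.lab c) (Z.lab d) e f g m l
            simp only [mul_assoc]
            rw [← Finset.mul_sum, this]
            simp only [mul_assoc]
    · rw [if_neg hN2]
      apply Finset.sum_eq_zero; intro h _
      rw [mul_eq_zero]; right
      by_contra h0
      exact hN2 (D.F_supp h0).2.2.1
  · rw [if_neg hN1]
    by_cases hN2 : D.N (Y.lab c) (Z.lab d) l = true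
    · rw [if_pos hN2]
      symm
      apply Finset.sum_eq_zero; intro f _
      rw [mul_eq_zero]; right
      by_contra h0
      exact hN1 (D.F_supp h0).2.2.2
    · rw [if_neg hN2]

end Fam
end H24PV
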