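import Pool.Agent.H24.PV.FmA
import Pool.Agent.H24.PV.FmB
import Pool.Agent.H24.PV.FmC
import Pool.Agent.H24.PV.FmD

/-!
# The monoidal category of families
-/

open CategoryTheory MonoidalCategory

universe u

namespace H24PV
namespace Fam

variable {k : Type u} [Field k] {L : Type} [Fintype L] [DecidableEq L] {D : FData k L}

instance : MonoidalCategoryStruct (Fam D) where
  tensorObj X Y := tObj X Y
  tensorHom f g := tHom f g
  whiskerLeft X _ _ g := tHom (𝟙 X) g
  whiskerRight f Y := tHom f (𝟙 Y)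
  tensorUnit := tUnit D
  associator X Y Z := ⟨tAssoc X Y Z, tAssocInv X Y Z, assoc_inv X Y Z, inv_assoc X Y Z⟩
  leftUnitor X := ⟨tLam X, tLamInv X, lam_inv X, inv_lam X⟩
  rightUnitor X := ⟨tRho X, tRhoInv X, rho_inv X, inv_rho X⟩

instance : MonoidalCategory (Fam D) :=
  MonoidalCategory.ofTensorHom
    (id_tensorHom_id := fun X Y => tHom_id X Y)
    (id_tensorHom := fun X {Y Y'} f => rfl)
    (tensorHom_id := fun {X X'} f Y => rfl)
    (tensorHom_comp_tensorHom := fun f₁ f₂ g₁ g₂ => (tHom_comp f₁ g₁ f₂ g₂).symm)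
    (associator_naturality := fun f g h => assoc_naturality f g h)
    (leftUnitor_naturality := fun f => lam_naturality f)
    (rightUnitor_naturality := fun f => rho_naturality f)
    (pentagon := fun W X Y Z => pentagon' W X Y Z)
    (triangle := fun X Y => triangle' X Y)

theorem tensorObj_eq (X Y : Fam D) : X ⊗ Y = tObj X Y := rfl
theorem tensorHom_eq {X X' Y Y' : Fam D} (f : X ⟶ X') (g : Y ⟶ Y') : f ⊗ₘ g = tHom f g := rfl
theorem whiskerLeft_eq (X : Fam D) {Y Y' : Fam D} (g : Y ⟶ Y') : X ◁ g = tHom (𝟙 X) g := rfl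
theorem whiskerRight_eq {X X' : Fam D} (f : X ⟶ X') (Y : Fam D) : f ▷ Y = tHom f (𝟙 Y) := rfl
theorem unit_eq : 𝟙_ (Fam D) = tUnit D := rfl
theorem associator_hom_eq (X Y Z : Fam D) : (α_ X Y Z).hom = tAssoc X Y Z := rfl
theorem associator_inv_eq (X Y Z : Fam D) : (α_ X Y Z).inv = tAssocInv X Y Z := rfl
theorem leftUnitor_hom_eq (X : Fam D) : (λ_ X).hom = tLam X := rfl
theorem leftUnitor_inv_eq (X : Fam D) : (λ_ X).inv = tLamInv X := rfl
theorem rightUnitor_hom_eq (X : Fam D) : (ρ_ X).hom = tRho X := rfl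
theorem rightUnitor_inv_eq (X : Fam D) : (ρ_ X).inv = tRhoInv X := rfl

end Fam
end H24PV
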