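import Mathlib

/-!
# Fusion categories and pivotal structures

`FusionCat k` : a fusion category over a field `k`: a `k`-linear abelian monoidal category with
bilinear tensor product, rigid, with finite-dimensional Hom spaces, simple unit object, in which
every object is a finite direct sum of simple objects and with finitely many isomorphism classes
of simple objects.

`PivotalStructure C` : a monoidal natural isomorphism from the identity functor to the double dual
functor `X ↦ Xᘁᘁ`.  (Mathlib's `Xᘁ` with `η_ X Xᘁ : 𝟙_ ⟶ X ⊗ Xᘁ`, `ε_ X Xᘁ : Xᘁ ⊗ X ⟶ 𝟙_` is what is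
called the left dual `X*` in the literature on tensor categories.)
-/

open CategoryTheory MonoidalCategory CategoryTheory.Limits

universe u v w

namespace H24PV

/-- A fusion category over a field `k`. -/
structure FusionCat (k : Type u) [Field k] where
  C : Type w
  [cat : Category.{v} C]
  [ab : Abelian C]
  [lin : Linear k C]
  [mon : MonoidalCategory C]
  [monPre : MonoidalPreadditive C]
  [monLin : MonoidalLinear k C]
  [rig : RigidCategory C]
  finHom : ∀ X Y : C, FiniteDimensional k (X ⟶ Y)
  unit_simple : Simple (𝟙_ C)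
  semisimple : ∀ X : C, ∃ (n : ℕ) (S : Fin n → C) (π : ∀ i, X ⟶ S i) (ι : ∀ i, S i ⟶ X),
    (∀ i, Simple (S i)) ∧ (∀ i j, i ≠ j → ι i ≫ π j = 0) ∧ (∀ i, ι i ≫ π i = 𝟙 (S i)) ∧
    ∑ i, π i ≫ ι i = 𝟙 X
  finite : ∃ (n : ℕ) (S : Fin n → C), ∀ X : C, Simple X → ∃ i, Nonempty (X ≅ S i)

attribute [instance] FusionCat.cat FusionCat.ab FusionCat.lin FusionCat.mon FusionCat.monPre
  FusionCat.monLin FusionCat.rig

section
variable {C : Type w} [Category.{v} C] [MonoidalCategory C] [RigidCategory C]

/-- The dual object `X*` (Mathlib: `Xᘁ`), with `𝟙_ ⟶ X ⊗ X*` and `X* ⊗ X ⟶ 𝟙_`. -/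
abbrev du (X : C) : C := HasRightDual.rightDual X

/-- The dual morphism `f* : Y* ⟶ X*` of `f : X ⟶ Y`. -/
abbrev duMap {X Y : C} (f : X ⟶ Y) : du Y ⟶ du X := rightAdjointMate f

/-- The chosen exact pairing of `X` and `X*`. -/
abbrev duPair (X : C) : ExactPairing X (du X) := HasRightDual.exact

/-- The canonical isomorphism `𝟙* ≅ 𝟙`. -/
def dualUnitIso (C : Type w) [Category.{v} C] [MonoidalCategory C] [RigidCategory C] :
    du (𝟙_ C) ≅ 𝟙_ C :=
  rightDualIso (duPair (𝟙_ C)) exactPairingUnit

/-- The canonical isomorphism `(X ⊗ Y)** ≅ X** ⊗ Y**` (its hom part), obtained from the canonical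
isomorphisms `(X ⊗ Y)* ≅ Y* ⊗ X*`. -/
def ddTensor (X Y : C) : du (du (X ⊗ Y)) ⟶ du (du X) ⊗ du (du Y) :=
  duMap (rightDualTensorIso X Y).inv ≫ (rightDualTensorIso (du Y) (du X)).hom

/-- The canonical isomorphism `𝟙** ≅ 𝟙` (its hom part). -/
def ddUnit (C : Type w) [Category.{v} C] [MonoidalCategory C] [RigidCategory C] :
    du (du (𝟙_ C)) ⟶ 𝟙_ C :=
  duMap (dualUnitIso C).inv ≫ (dualUnitIso C).hom

end

/-- A pivotal structure: an isomorphism of monoidal functors from the identity functor to the
double dual functor. -/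
structure PivotalStructure (C : Type w) [Category.{v} C] [MonoidalCategory C]
    [RigidCategory C] where
  a : ∀ X : C, X ≅ du (du X)
  naturality : ∀ {X Y : C} (f : X ⟶ Y), f ≫ (a Y).hom = (a X).hom ≫ duMap (duMap f)
  tensor : ∀ X Y : C, (a (X ⊗ Y)).hom ≫ ddTensor X Y = ((a X).hom ⊗ₘ (a Y).hom)
  unit : (a (𝟙_ C)).hom ≫ ddUnit C = 𝟙 _

/-- The left dimension of an object with respect to a pivotal structure. -/
def PivotalStructure.dim {C : Type w} [Category.{v} C] [MonoidalCategory C]
    [RigidCategory C] (P : PivotalStructure C) (X : C) : 𝟙_ C ⟶ 𝟙_ C :=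
  η_ X (du X) ≫ ((P.a X).hom ▷ du X) ≫ ε_ (du X) (du (du X))

/-- A spherical structure: a pivotal structure such that `dim X = dim X*` for all `X`. -/
structure SphericalStructure (C : Type w) [Category.{v} C] [MonoidalCategory C]
    [RigidCategory C] extends PivotalStructure C where
  spherical : ∀ X : C, toPivotalStructure.dim X = toPivotalStructure.dim (du X)

end H24PV
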