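import Pool.Agent.H24.PV.KlG

/-!
# KlL: a central commutative monoid `B` centralised by `A` gives one in `Kl A`

All fields except `β_nat` are images under `J A` of the fields of `B` (use `wl_J`, `wr_J`,
`assoc_eq`, `lam_eq`, `rho_eq`, `← (J A).map_comp`, `congrArg`; inverses of associators:
`(α_ X Y Z).inv = (J A).map _` by `rfl`).

`β_nat` for `f : U ⟶ V` in `Kl A`, i.e. `f : U.un ⟶ V.un ⊗ A`:  (use `comp_J_f`, `J_comp_f`)
left: `(B ◁ f) ≫ α⁻¹ ≫ (B.β V).hom ▷ A`;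
right: `(B.β U).hom ≫ (f ▷ B) ≫ α ≫ V ◁ (A.β B).hom ≫ α⁻¹`.
By `B.β_nat f` and `B.β_tensor V A` the right side is
`B ◁ f ≫ α⁻¹ ≫ (B.β V).hom ▷ A ≫ α ≫ V ◁ ((B.β A).hom ≫ (A.β B).hom) ≫ α⁻¹`, and
`(B.β A).hom ≫ (A.β B).hom = 𝟙` follows from `Centralize A B` (`(A.β B).hom ≫ (B.β A).hom = 𝟙`,
both isomorphisms: `(B.β A).hom = (A.β B).inv`).
-/

open CategoryTheory MonoidalCategory

universe v w

namespace H24PV
variable {C : Type w} [Category.{v} C] [MonoidalCategory C]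
namespace Kl

section aux
variable {A : CCM C}

theorem KlL_comp {X Y Z : C} (f : X ⟶ Y) (g : Y ⟶ Z) {h : X ⟶ Z} (e : f ≫ g = h) :
    (J A).map f ≫ (J A).map g = (J A).map h := by
  rw [← (J A).map_comp, e]

end aux

/-- naturality of the half braiding of the transported monoid -/
theorem KlL_nat (A B : CCM C) (h : Centralize A B) {U V : Kl A} (f : U ⟶ V) :
    ((⟨B.A⟩ : Kl A) ◁ f) ≫ (J A).map (B.β V.un).hom =
      (show (⟨B.A⟩ : Kl A) ⊗ U ⟶ U ⊗ ⟨B.A⟩ from (J A).map (B.β U.un).hom) ≫ (f ▷ (⟨B.A⟩ : Kl A)) := by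
  have hinv : (B.β A.A).hom ≫ (A.β B.A).hom = 𝟙 _ := by
    have h' : (A.β B.A).hom ≫ (B.β A.A).hom = 𝟙 _ := h
    have h2 : (B.β A.A).hom = (A.β B.A).inv := by
      rw [← cancel_epi (A.β B.A).hom, h', Iso.hom_inv_id]
    rw [h2, Iso.inv_hom_id]
  apply Hom.ext
  refine (comp_J_f _ _).trans (Eq.trans ?_ (J_comp_f _ _).symm)
  obtain ⟨f⟩ := f
  rw [wl_f, wr_f]
  change A.kwl B.A f ≫ ((B.β V.un).hom ▷ A.A) = (B.β U.un).hom ≫ A.kwr f B.A
  unfold CCM.kwl CCM.kwr
  have hn := B.β_nat f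
  have ht := B.β_tensor V.un A.A
  calc (B.A ◁ f ≫ (α_ B.A V.un A.A).inv) ≫ (B.β V.un).hom ▷ A.A
      = B.A ◁ f ≫ (α_ B.A V.un A.A).inv ≫ (B.β V.un).hom ▷ A.A ≫ (α_ V.un B.A A.A).hom ≫
          V.un ◁ ((B.β A.A).hom ≫ (A.β B.A).hom) ≫ (α_ V.un B.A A.A).inv := by
        rw [hinv]; simp
    _ = B.A ◁ f ≫ (B.β (V.un ⊗ A.A)).hom ≫ (α_ V.un A.A B.A).hom ≫ V.un ◁ (A.β B.A).hom ≫
          (α_ V.un B.A A.A).inv := by
        rw [ht]; simp
    _ = _ := by
        rw [← Category.assoc, hn]; simp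

/-- The central commutative monoid of `Kl A` given by a central commutative monoid of `C`
which centralises `A`. -/
def transport (A B : CCM C) (h : Centralize A B) : CCM (Kl A) where
  A := ⟨B.A⟩
  mul := (J A).map B.mul
  one := (J A).map B.one
  β U := jIso (B.β U.un)
  one_mul := by
    erw [wr_J, KlL_comp _ _ B.one_mul]
    rfl
  mul_one := by
    erw [wl_J, KlL_comp _ _ B.mul_one]
    rfl
  mul_assoc := by
    erw [wr_J, wl_J, KlL_comp _ _ B.mul_assoc, assoc_eq]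
    erw [← (J A).map_comp, ← (J A).map_comp]
  β_nat {U V} f := KlL_nat A B h f
  β_unit := by
    refine (congrArg (J A).map B.β_unit).trans ?_
    rw [(J A).map_comp]
    rfl
  β_tensor U V := by
    refine (congrArg (J A).map (B.β_tensor U.un V.un)).trans ?_
    rw [(J A).map_comp, (J A).map_comp, (J A).map_comp, (J A).map_comp]
    erw [← wr_J, ← wl_J]
    rfl
  one_central U := by
    erw [wr_J, wl_J]
    refine ((J A).map_comp _ _).symm.trans ((congrArg (J A).map (B.one_central U.un)).trans ?_)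
    rw [(J A).map_comp, (J A).map_comp]
    rfl
  mul_central U := by
    erw [wr_J, wl_J, wl_J, wr_J]
    refine ((J A).map_comp _ _).symm.trans ((congrArg (J A).map (B.mul_central U.un)).trans ?_)
    rw [(J A).map_comp, (J A).map_comp, (J A).map_comp, (J A).map_comp, (J A).map_comp]
    rfl
  comm := ((J A).map_comp _ _).symm.trans (congrArg (J A).map B.comm)

/-- The image of a Casimir element. -/
def transportCas (A B : CCM C) (h : Centralize A B) (c : Casimir B) :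
    Casimir (transport A B h) where
  e := (J A).map c.e
  e_mul := ((J A).map_comp _ _).symm.trans (congrArg (J A).map c.e_mul)
  cas := by
    change (J A).map (λ_ B.A).inv ≫ ((J A).map c.e ▷ (⟨B.A⟩ : Kl A)) ≫ (J A).map (α_ _ _ _).hom ≫
      ((⟨B.A⟩ : Kl A) ◁ (J A).map B.mul) = (J A).map (ρ_ B.A).inv ≫ ((⟨B.A⟩ : Kl A) ◁ (J A).map c.e) ≫
      (J A).map (α_ _ _ _).inv ≫ ((J A).map B.mul ▷ (⟨B.A⟩ : Kl A))
    erw [wr_J, wl_J, wl_J, wr_J]
    refine Eq.trans ?_ ((congrArg (J A).map c.cas).trans ?_)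
    · rw [(J A).map_comp, (J A).map_comp, (J A).map_comp]
      rfl
    · rw [(J A).map_comp, (J A).map_comp, (J A).map_comp]
      rfl

end Kl
end H24PV
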