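import Pool.Agent.H24.PV.ZaDef

/-!
# ZbDef: embeddings of fusion data, and the product of five factors

`D5 D₁ D₂ D₃ = (D₁ × D₁) × (D₂ × (D₃ × D₃))`.  `F_one6`: `F_one_left` with `N_one_left`;
`G_one6`: from `FG` (the only channel is `one`) and `F_one6`; `R_one3`: `R_one_left`.
-/

universe u

namespace H24PV

variable {k : Type u} [Field k]

theorem FData.F_one6 {L : Type} [Fintype L] [DecidableEq L] (D : FData k L) :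
    D.F D.one D.one D.one D.one D.one D.one = 1 :=
  D.F_one_left D.one D.one D.one (by rw [D.N_one_left]; exact decide_eq_true rfl)

theorem FData.G_one6 {L : Type} [Fintype L] [DecidableEq L] (D : FData k L) :
    D.G D.one D.one D.one D.one D.one D.one = 1 := by
  have hN : D.N D.one D.one D.one = true := by rw [D.N_one_left]; exact decide_eq_true rfl
  have h := D.FG D.one D.one D.one D.one D.one D.one
  rw [if_pos ⟨rfl, hN, hN⟩, Finset.sum_eq_single D.one, D.F_one6, one_mul] at h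
  · exact h
  · intro f _ hf
    by_contra hne
    have h1 := (D.F_supp (left_ne_zero_of_mul hne)).2.2.1
    rw [D.N_one_left, decide_eq_true_eq] at h1
    exact hf h1.symm
  · intro h1
    exact absurd (Finset.mem_univ _) h1

theorem ZbDef_N1 {L : Type} [Fintype L] [DecidableEq L] (D : FData k L) :
    D.N D.one D.one D.one = true := by rw [D.N_one_left]; exact decide_eq_true rfl

section
variable {L₁ L₂ L₃ : Type} [Fintype L₁] [DecidableEq L₁] [Fintype L₂] [DecidableEq L₂]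
  [Fintype L₃] [DecidableEq L₃] (D₁ : FData k L₁) (D₂ : FData k L₂) (D₃ : FData k L₃)

/-- Composition of embeddings. -/
def FEmb.comp {D₁ : FData k L₁} {D₂ : FData k L₂} {D₃ : FData k L₃} (i : FEmb D₁ D₂)
    (j : FEmb D₂ D₃) : FEmb D₁ D₃ where
  φ a := j.φ (i.φ a)
  inj := j.inj.comp i.inj
  one_eq := by rw [i.one_eq, j.one_eq]
  N_eq a b c := by rw [j.N_eq, i.N_eq]
  N_im a b c' h := by
    obtain ⟨c, rfl⟩ := j.N_im _ _ _ h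
    rw [j.N_eq] at h
    obtain ⟨d, rfl⟩ := i.N_im _ _ _ h
    exact ⟨d, rfl⟩
  F_eq a b c d e f := by rw [j.F_eq, i.F_eq]
  G_eq a b c d f e := by rw [j.G_eq, i.G_eq]

/-- Embedding of the first factor. -/
def FEmb.inl : FEmb D₁ (D₁.prod D₂) where
  φ a := (a, D₂.one)
  inj := by
    intro a b h
    exact (Prod.ext_iff.1 h).1
  one_eq := rfl
  N_eq := by
    intro a b c
    show (D₁.N a b c && D₂.N D₂.one D₂.one D₂.one) = D₁.N a b c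
    rw [ZbDef_N1, Bool.and_true]
  N_im := by
    intro a b c' h
    have h' : (D₁.N a b c'.1 && D₂.N D₂.one D₂.one c'.2) = true := h
    rw [Bool.and_eq_true, D₂.N_one_left, decide_eq_true_eq] at h'
    exact ⟨c'.1, Prod.ext rfl h'.2.symm⟩
  F_eq := by
    intro a b c d e f
    show D₁.F a b c d e f * D₂.F D₂.one D₂.one D₂.one D₂.one D₂.one D₂.one = _
    rw [D₂.F_one6, mul_one]
  G_eq := by
    intro a b c d f e
    show D₁.G a b c d f e * D₂.G D₂.one D₂.one D₂.one D₂.one D₂.one D₂.one = _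
    rw [D₂.G_one6, mul_one]

/-- Embedding of the second factor. -/
def FEmb.inr : FEmb D₂ (D₁.prod D₂) where
  φ a := (D₁.one, a)
  inj := by
    intro a b h
    exact (Prod.ext_iff.1 h).2
  one_eq := rfl
  N_eq := by
    intro a b c
    show (D₁.N D₁.one D₁.one D₁.one && D₂.N a b c) = D₂.N a b c
    rw [ZbDef_N1, Bool.true_and]
  N_im := by
    intro a b c' h
    have h' : (D₁.N D₁.one D₁.one c'.1 && D₂.N a b c'.2) = true := h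
    rw [Bool.and_eq_true, D₁.N_one_left, decide_eq_true_eq] at h'
    exact ⟨c'.2, Prod.ext h'.1.symm rfl⟩
  F_eq := by
    intro a b c d e f
    show D₁.F D₁.one D₁.one D₁.one D₁.one D₁.one D₁.one * D₂.F a b c d e f = _
    rw [D₁.F_one6, one_mul]
  G_eq := by
    intro a b c d f e
    show D₁.G D₁.one D₁.one D₁.one D₁.one D₁.one D₁.one * D₂.G a b c d f e = _
    rw [D₁.G_one6, one_mul]

/-- Embedding `D₁ × D₂ → D₁ × (D₂ × D₃)`. -/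
def FEmb.embL : FEmb (D₁.prod D₂) (D₁.prod (D₂.prod D₃)) where
  φ a := (a.1, (a.2, D₃.one))
  inj := by
    intro a b h
    have h1 := Prod.ext_iff.1 h
    exact Prod.ext h1.1 (Prod.ext_iff.1 h1.2).1
  one_eq := rfl
  N_eq := by
    intro a b c
    show (D₁.N a.1 b.1 c.1 && (D₂.N a.2 b.2 c.2 && D₃.N D₃.one D₃.one D₃.one)) =
      (D₁.N a.1 b.1 c.1 && D₂.N a.2 b.2 c.2)
    rw [ZbDef_N1, Bool.and_true]
  N_im := by
    intro a b c' h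
    have h' : (D₁.N a.1 b.1 c'.1 && (D₂.N a.2 b.2 c'.2.1 && D₃.N D₃.one D₃.one c'.2.2)) = true :=
      h
    rw [Bool.and_eq_true, Bool.and_eq_true, D₃.N_one_left, decide_eq_true_eq] at h'
    exact ⟨(c'.1, c'.2.1), Prod.ext rfl (Prod.ext rfl h'.2.2.symm)⟩
  F_eq := by
    intro a b c d e f
    show D₁.F a.1 b.1 c.1 d.1 e.1 f.1 * (D₂.F a.2 b.2 c.2 d.2 e.2 f.2 *
      D₃.F D₃.one D₃.one D₃.one D₃.one D₃.one D₃.one) =
      D₁.F a.1 b.1 c.1 d.1 e.1 f.1 * D₂.F a.2 b.2 c.2 d.2 e.2 f.2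
    rw [D₃.F_one6, mul_one]
  G_eq := by
    intro a b c d f e
    show D₁.G a.1 b.1 c.1 d.1 f.1 e.1 * (D₂.G a.2 b.2 c.2 d.2 f.2 e.2 *
      D₃.G D₃.one D₃.one D₃.one D₃.one D₃.one D₃.one) =
      D₁.G a.1 b.1 c.1 d.1 f.1 e.1 * D₂.G a.2 b.2 c.2 d.2 f.2 e.2
    rw [D₃.G_one6, mul_one]

/-- Embedding `D₃ × D₂ → D₁ × (D₂ × D₃)`. -/
def FEmb.embR : FEmb (D₃.prod D₂) (D₁.prod (D₂.prod D₃)) where
  φ a := (D₁.one, (a.2, a.1))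
  inj := by
    intro a b h
    have h1 := Prod.ext_iff.1 (Prod.ext_iff.1 h).2
    exact Prod.ext h1.2 h1.1
  one_eq := rfl
  N_eq := by
    intro a b c
    show (D₁.N D₁.one D₁.one D₁.one && (D₂.N a.2 b.2 c.2 && D₃.N a.1 b.1 c.1)) =
      (D₃.N a.1 b.1 c.1 && D₂.N a.2 b.2 c.2)
    rw [ZbDef_N1, Bool.true_and, Bool.and_comm]
  N_im := by
    intro a b c' h
    have h' : (D₁.N D₁.one D₁.one c'.1 && (D₂.N a.2 b.2 c'.2.1 && D₃.N a.1 b.1 c'.2.2)) = true :=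
      h
    rw [Bool.and_eq_true, D₁.N_one_left, decide_eq_true_eq] at h'
    exact ⟨(c'.2.2, c'.2.1), Prod.ext h'.1.symm rfl⟩
  F_eq := by
    intro a b c d e f
    show D₁.F D₁.one D₁.one D₁.one D₁.one D₁.one D₁.one *
      (D₂.F a.2 b.2 c.2 d.2 e.2 f.2 * D₃.F a.1 b.1 c.1 d.1 e.1 f.1) =
      D₃.F a.1 b.1 c.1 d.1 e.1 f.1 * D₂.F a.2 b.2 c.2 d.2 e.2 f.2
    rw [D₁.F_one6, one_mul, mul_comm]
  G_eq := by
    intro a b c d f e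
    show D₁.G D₁.one D₁.one D₁.one D₁.one D₁.one D₁.one *
      (D₂.G a.2 b.2 c.2 d.2 f.2 e.2 * D₃.G a.1 b.1 c.1 d.1 f.1 e.1) =
      D₃.G a.1 b.1 c.1 d.1 f.1 e.1 * D₂.G a.2 b.2 c.2 d.2 f.2 e.2
    rw [D₁.G_one6, one_mul, mul_comm]

end

theorem BData.R_one3 {L : Type} [Fintype L] [DecidableEq L] {D : FData k L} (B : BData D) :
    B.R D.one D.one D.one = 1 := B.R_one_left D.one

section
variable {L₁ L₂ L₃ : Type} [Fintype L₁] [DecidableEq L₁] [Fintype L₂] [DecidableEq L₂]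
  [Fintype L₃] [DecidableEq L₃] {D₁ : FData k L₁} {D₂ : FData k L₂} {D₃ : FData k L₃}
  (B₁ : BData D₁) (B₂ : BData D₂) (B₃ : BData D₃)

theorem embL_R (a b c : L₁ × L₂) :
    (B₁.prod (B₂.prod B₃)).R ((FEmb.embL D₁ D₂ D₃).φ a) ((FEmb.embL D₁ D₂ D₃).φ b)
      ((FEmb.embL D₁ D₂ D₃).φ c) = (B₁.prod B₂).R a b c := by
  show B₁.R a.1 b.1 c.1 * (B₂.R a.2 b.2 c.2 * B₃.R D₃.one D₃.one D₃.one) =
    B₁.R a.1 b.1 c.1 * B₂.R a.2 b.2 c.2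
  rw [B₃.R_one3, mul_one]

theorem embR_R (a b c : L₃ × L₂) :
    (B₁.prod (B₂.prod B₃)).R ((FEmb.embR D₁ D₂ D₃).φ a) ((FEmb.embR D₁ D₂ D₃).φ b)
      ((FEmb.embR D₁ D₂ D₃).φ c) = (B₃.prod B₂).R a b c := by
  show B₁.R D₁.one D₁.one D₁.one * (B₂.R a.2 b.2 c.2 * B₃.R a.1 b.1 c.1) =
    B₃.R a.1 b.1 c.1 * B₂.R a.2 b.2 c.2
  rw [B₁.R_one3, one_mul, mul_comm]

/-- The product of five factors is invariant under the simultaneous swap. -/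
theorem fsym5 (D₁ : FData k L₁) (D₂ : FData k L₂) (D₃ : FData k L₃) :
    FSym ((D₁.prod D₁).prod (D₂.prod (D₃.prod D₃))) Z4 := by
  refine FSym.ofSwap rfl ?_ ?_ ?_
  · intro a b c
    show ((D₁.N a.1.2 b.1.2 c.1.2 && D₁.N a.1.1 b.1.1 c.1.1) && (D₂.N a.2.1 b.2.1 c.2.1 &&
      (D₃.N a.2.2.2 b.2.2.2 c.2.2.2 && D₃.N a.2.2.1 b.2.2.1 c.2.2.1))) =
      ((D₁.N a.1.1 b.1.1 c.1.1 && D₁.N a.1.2 b.1.2 c.1.2) && (D₂.N a.2.1 b.2.1 c.2.1 &&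
      (D₃.N a.2.2.1 b.2.2.1 c.2.2.1 && D₃.N a.2.2.2 b.2.2.2 c.2.2.2)))
    rw [Bool.and_comm (D₁.N a.1.2 b.1.2 c.1.2), Bool.and_comm (D₃.N a.2.2.2 b.2.2.2 c.2.2.2)]
  · intro a b c d e f
    show (D₁.F a.1.2 b.1.2 c.1.2 d.1.2 e.1.2 f.1.2 * D₁.F a.1.1 b.1.1 c.1.1 d.1.1 e.1.1 f.1.1) *
      (D₂.F a.2.1 b.2.1 c.2.1 d.2.1 e.2.1 f.2.1 *
        (D₃.F a.2.2.2 b.2.2.2 c.2.2.2 d.2.2.2 e.2.2.2 f.2.2.2 *
          D₃.F a.2.2.1 b.2.2.1 c.2.2.1 d.2.2.1 e.2.2.1 f.2.2.1)) =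
      (D₁.F a.1.1 b.1.1 c.1.1 d.1.1 e.1.1 f.1.1 * D₁.F a.1.2 b.1.2 c.1.2 d.1.2 e.1.2 f.1.2) *
      (D₂.F a.2.1 b.2.1 c.2.1 d.2.1 e.2.1 f.2.1 *
        (D₃.F a.2.2.1 b.2.2.1 c.2.2.1 d.2.2.1 e.2.2.1 f.2.2.1 *
          D₃.F a.2.2.2 b.2.2.2 c.2.2.2 d.2.2.2 e.2.2.2 f.2.2.2))
    ring
  · intro a b c d f e
    show (D₁.G a.1.2 b.1.2 c.1.2 d.1.2 f.1.2 e.1.2 * D₁.G a.1.1 b.1.1 c.1.1 d.1.1 f.1.1 e.1.1) *
      (D₂.G a.2.1 b.2.1 c.2.1 d.2.1 f.2.1 e.2.1 *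
        (D₃.G a.2.2.2 b.2.2.2 c.2.2.2 d.2.2.2 f.2.2.2 e.2.2.2 *
          D₃.G a.2.2.1 b.2.2.1 c.2.2.1 d.2.2.1 f.2.2.1 e.2.2.1)) =
      (D₁.G a.1.1 b.1.1 c.1.1 d.1.1 f.1.1 e.1.1 * D₁.G a.1.2 b.1.2 c.1.2 d.1.2 f.1.2 e.1.2) *
      (D₂.G a.2.1 b.2.1 c.2.1 d.2.1 f.2.1 e.2.1 *
        (D₃.G a.2.2.1 b.2.2.1 c.2.2.1 d.2.2.1 f.2.2.1 e.2.2.1 *
          D₃.G a.2.2.2 b.2.2.2 c.2.2.2 d.2.2.2 f.2.2.2 e.2.2.2))
    ring

theorem R_inv5 (a b c : (L₁ × L₁) × (L₂ × (L₃ × L₃))) :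
    ((B₁.prod B₁).prod (B₂.prod (B₃.prod B₃))).R (Inv2.s a) (Inv2.s b) (Inv2.s c) =
      ((B₁.prod B₁).prod (B₂.prod (B₃.prod B₃))).R a b c := by
  show (B₁.R a.1.2 b.1.2 c.1.2 * B₁.R a.1.1 b.1.1 c.1.1) * (B₂.R a.2.1 b.2.1 c.2.1 *
      (B₃.R a.2.2.2 b.2.2.2 c.2.2.2 * B₃.R a.2.2.1 b.2.2.1 c.2.2.1)) =
    (B₁.R a.1.1 b.1.1 c.1.1 * B₁.R a.1.2 b.1.2 c.1.2) * (B₂.R a.2.1 b.2.1 c.2.1 *
      (B₃.R a.2.2.1 b.2.2.1 c.2.2.1 * B₃.R a.2.2.2 b.2.2.2 c.2.2.2))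
  ring

/-- The braidings with mutually inverse middle factors are mutually inverse on the images of
`embL` and `embR`. -/
theorem centr5 (B₁ : BData D₁) (B₂ B₂' : BData D₂) (B₃ : BData D₃)
    (h : ∀ i j c, D₂.N i j c = true → B₂.R i j c * B₂'.R j i c = 1)
    (a : L₁ × L₂) (b : L₃ × L₂) (c : L₁ × (L₂ × L₃))
    (hN : (D₁.prod (D₂.prod D₃)).N ((FEmb.embL D₁ D₂ D₃).φ a) ((FEmb.embR D₁ D₂ D₃).φ b) c =
      true) :
    (B₁.prod (B₂.prod B₃)).R ((FEmb.embL D₁ D₂ D₃).φ a) ((FEmb.embR D₁ D₂ D₃).φ b) c *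
      (B₁.prod (B₂'.prod B₃)).R ((FEmb.embR D₁ D₂ D₃).φ b) ((FEmb.embL D₁ D₂ D₃).φ a) c = 1 := by
  obtain ⟨a1, a2⟩ := a
  obtain ⟨b3, b2⟩ := b
  obtain ⟨c1, c2, c3⟩ := c
  have h' : (D₁.N a1 D₁.one c1 && (D₂.N a2 b2 c2 && D₃.N D₃.one b3 c3)) = true := hN
  rw [Bool.and_eq_true, Bool.and_eq_true, D₃.N_one_left, decide_eq_true_eq, D₁.N_one_right,
    decide_eq_true_eq] at h'
  obtain ⟨h1, h2, h3⟩ := h'
  subst h1
  subst h3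
  show (B₁.R a1 D₁.one a1 * (B₂.R a2 b2 c2 * B₃.R D₃.one b3 b3)) *
    (B₁.R D₁.one a1 a1 * (B₂'.R b2 a2 c2 * B₃.R b3 D₃.one b3)) = 1
  rw [B₁.R_one_right, B₁.R_one_left, B₃.R_one_left, B₃.R_one_right, one_mul, one_mul, mul_one,
    mul_one]
  exact h a2 b2 c2 h2

end
end H24PV
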