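import Pool.Agent.H24.PV.ZbDef

/-!
# ZcDef: dimension functions of fusion data

`mul_uniq`: `Finset.sum_eq_single`.  `pull`: for `c'` outside the image `N = false` (`N_im`);
sum over the image by injectivity (`Finset.sum_image`, or `Finset.sum_subset` with
`Finset.univ.map`).  `conj`: with `t = (one, g)`: `N t (x, 1) c ↔ c = (g • x, g)` and
`N (g • x, 1) t c ↔ c = (g • x, g)`, `N t t⁻¹ c ↔ c = (one, 1)`, so `δ t ≠ 0`.
-/

universe u

namespace H24PV

variable {k : Type u} [Field k] {L : Type} [Fintype L] [DecidableEq L]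

/-- A dimension function: a character of the fusion ring. -/
structure DimFn (D : FData k L) where
  δ : L → k
  one : δ D.one = 1
  mul : ∀ a b, δ a * δ b = ∑ c, if D.N a b c = true then δ c else 0

namespace DimFn
variable {D : FData k L} (T : DimFn D)

theorem mul_uniq {a b d : L} (h : ∀ c, D.N a b c = true ↔ c = d) : T.δ a * T.δ b = T.δ d := by
  rw [T.mul a b, Finset.sum_eq_single d]
  · rw [if_pos ((h d).2 rfl)]
  · intro c _ hc
    rw [if_neg (fun h' => hc ((h c).1 h'))]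
  · intro h'
    exact absurd (Finset.mem_univ d) h'

/-- Restriction to an embedded fusion datum. -/
def pull {L' : Type} [Fintype L'] [DecidableEq L'] {D' : FData k L'} (T : DimFn D')
    (i : FEmb D D') : DimFn D where
  δ a := T.δ (i.φ a)
  one := by rw [i.one_eq, T.one]
  mul a b := by
    rw [T.mul (i.φ a) (i.φ b)]
    symm
    refine Fintype.sum_of_injective i.φ i.inj _ _ ?_ ?_
    · intro c' hc'
      rw [if_neg]
      intro h
      obtain ⟨c, rfl⟩ := i.N_im _ _ _ h
      exact hc' ⟨c, rfl⟩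
    · intro c
      rw [i.N_eq]

end DimFn

section
variable {Γ : Type} [Group Γ] [Fintype Γ] [DecidableEq Γ] [MulAction Γ L]

/-- Embedding into the crossed product. -/
def FEmb.crs (D : FData k L) (S : FSym D Γ) : FEmb D (D.cross Γ S) where
  φ a := (a, 1)
  inj := by
    intro a b h
    exact (Prod.mk.inj h).1
  one_eq := rfl
  N_eq := by
    intro a b c
    show (D.N a ((1 : Γ) • b) c && decide ((1 : Γ) = 1 * 1)) = D.N a b c
    rw [one_smul, mul_one, decide_eq_true rfl, Bool.and_true]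
  N_im := by
    rintro a b ⟨c1, c2⟩ h
    replace h : (D.N a ((1 : Γ) • b) c1 && decide (c2 = 1 * 1)) = true := h
    rw [Bool.and_eq_true, decide_eq_true_iff, mul_one] at h
    exact ⟨c1, by rw [h.2]⟩
  F_eq := by
    intro a b c d e f
    show (if (1 : Γ) = 1 * 1 ∧ (1 : Γ) = 1 * 1 ∧ (1 : Γ) = 1 * 1 * 1 then
      D.F a ((1 : Γ) • b) (((1 : Γ) * 1) • c) d e ((1 : Γ) • f) else 0) = D.F a b c d e f
    rw [mul_one, mul_one, one_smul, one_smul, one_smul, if_pos ⟨rfl, rfl, rfl⟩]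
  G_eq := by
    intro a b c d f e
    show (if (1 : Γ) = 1 * 1 ∧ (1 : Γ) = 1 * 1 ∧ (1 : Γ) = 1 * 1 * 1 then
      D.G a ((1 : Γ) • b) (((1 : Γ) * 1) • c) d ((1 : Γ) • f) e else 0) = D.G a b c d f e
    rw [mul_one, mul_one, one_smul, one_smul, one_smul, if_pos ⟨rfl, rfl, rfl⟩]

theorem DimFn.conj {D : FData k L} (S : FSym D Γ) (T : DimFn (D.cross Γ S)) (g : Γ) (x : L) :
    T.δ (g • x, 1) = T.δ (x, 1) := by
  have h1 : T.δ (D.one, g) * T.δ (x, 1) = T.δ (g • x, g) := by
    apply T.mul_uniq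
    rintro ⟨c1, c2⟩
    show (D.N D.one (g • x) c1 && decide (c2 = g * 1)) = true ↔ (c1, c2) = (g • x, g)
    rw [D.N_one_left, Bool.and_eq_true, decide_eq_true_iff, decide_eq_true_iff, mul_one,
      Prod.mk.injEq, eq_comm (a := g • x)]
  have h2 : T.δ (g • x, 1) * T.δ (D.one, g) = T.δ (g • x, g) := by
    apply T.mul_uniq
    rintro ⟨c1, c2⟩
    show (D.N (g • x) ((1 : Γ) • D.one) c1 && decide (c2 = 1 * g)) = true ↔ (c1, c2) = (g • x, g)
    rw [one_smul, D.N_one_right, Bool.and_eq_true, decide_eq_true_iff, decide_eq_true_iff, one_mul,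
      Prod.mk.injEq, eq_comm (a := g • x)]
  have h3 : T.δ (D.one, g) * T.δ (D.one, g⁻¹) = 1 := by
    rw [← T.one]
    apply T.mul_uniq
    rintro ⟨c1, c2⟩
    show (D.N D.one (g • D.one) c1 && decide (c2 = g * g⁻¹)) = true ↔ (c1, c2) = (D.one, 1)
    rw [S.one_inv, D.N_one_left, Bool.and_eq_true, decide_eq_true_iff, decide_eq_true_iff,
      mul_inv_cancel, Prod.mk.injEq, eq_comm (a := D.one)]
  have h4 : T.δ (D.one, g) ≠ 0 := left_ne_zero_of_mul_eq_one h3
  apply mul_right_cancel₀ h4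
  rw [h2, ← h1, mul_comm]

end

section
variable {L₁ L₂ : Type} [Fintype L₁] [DecidableEq L₁] [Fintype L₂] [DecidableEq L₂]

theorem DimFn.prod_eq {D₁ : FData k L₁} {D₂ : FData k L₂} (T : DimFn (D₁.prod D₂)) (a : L₁)
    (b : L₂) : T.δ (a, b) = T.δ (a, D₂.one) * T.δ (D₁.one, b) := by
  symm
  apply T.mul_uniq
  rintro ⟨c1, c2⟩
  show (D₁.N a D₁.one c1 && D₂.N D₂.one b c2) = true ↔ (c1, c2) = (a, b)
  rw [D₁.N_one_right, D₂.N_one_left, Bool.and_eq_true, decide_eq_true_iff, decide_eq_true_iff,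
    Prod.mk.injEq, eq_comm (a := a), eq_comm (a := b)]

end
end H24PV
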