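import Pool.Agent.H24.PV.AtG
import Pool.Agent.H24.PV.ZbDef
import Pool.Agent.H24.PV.ZcDef
import Pool.Agent.H24.PV.FcG
import Pool.Agent.H24.PV.KlL
import Pool.Agent.H24.PV.CkSA
import Pool.Agent.H24.PV.CkSB
import Pool.Agent.H24.PV.CkIS
import Pool.Agent.H24.PV.CkLA
import Pool.Agent.H24.PV.CkLB

/-!
# FzA: the two central commutative algebras over a field with `2 ≠ 0`, `z ^ 16 = -1`
-/

open CategoryTheory MonoidalCategory

universe u

namespace H24PV

/-- The labels of the product of five factors. -/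
abbrev L5 : Type := (Fin 7 × Fin 7) × (Fin 3 × (Fin 7 × Fin 7))

/-- The swap of the twelve components. -/
instance inst12 : Inv2 (Fin 12) where
  s := ![0, 2, 1, 3, 4, 5, 7, 6, 9, 8, 11, 10]
  ss := by decide

theorem LA_sw (p : Fin 12) : LA.sw p = ((Inv2.s p : Fin 12) : ℕ) := by
  revert p; decide +kernel

theorem LB_sw (p : Fin 12) : LB.sw p = ((Inv2.s p : Fin 12) : ℕ) := by
  revert p; decide +kernel

section
variable {k : Type u} [Field k] (z : k) (hz : z ^ 16 = -1) (h4 : (4 : k) ≠ 0)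

/-- `SU(2)_6`. -/
noncomputable def DA : FData k (Fin 7) := SA.fdata z hz (by norm_num) h4 SA_ok
/-- The zested Galois conjugate. -/
noncomputable def DB : FData k (Fin 7) := SB.fdata z hz (by norm_num) h4 SB_ok
/-- Ising. -/
noncomputable def DI : FData k (Fin 3) := IS.fdata z hz (by norm_num) h4 IS_ok

/-- The product of five factors. -/
noncomputable def D5 : FData k L5 :=
  ((DA z hz h4).prod (DA z hz h4)).prod ((DI z hz h4).prod ((DB z hz h4).prod (DB z hz h4)))

/-- Braiding of `DA`. -/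
noncomputable def RA : BData (DA z hz h4) := SA.bdata z hz (by norm_num) h4 SA_ok SAb SAb_ok
/-- Braiding of `DB`. -/
noncomputable def RB : BData (DB z hz h4) := SB.bdata z hz (by norm_num) h4 SB_ok SBb SBb_ok
/-- Braiding of `DI`. -/
noncomputable def RI9 : BData (DI z hz h4) := IS.bdata z hz (by norm_num) h4 IS_ok IS9 IS9_ok
/-- Reversed braiding of `DI`. -/
noncomputable def RI7 : BData (DI z hz h4) := IS.bdata z hz (by norm_num) h4 IS_ok IS7 IS7_ok

/-- The first braiding of `D5`. -/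
noncomputable def BA : BData (D5 z hz h4) :=
  ((RA z hz h4).prod (RA z hz h4)).prod ((RI9 z hz h4).prod ((RB z hz h4).prod (RB z hz h4)))
/-- The second braiding of `D5`. -/
noncomputable def BB : BData (D5 z hz h4) :=
  ((RA z hz h4).prod (RA z hz h4)).prod ((RI7 z hz h4).prod ((RB z hz h4).prod (RB z hz h4)))

/-- `SU(2)_6 × SU(2)_6 × Ising`. -/
noncomputable def algA :
    Alg (((DA z hz h4).prod (DA z hz h4)).prod (DI z hz h4)) (Fin 12) :=
  LA.alg SA IS z hz (by norm_num) (by norm_num) (by norm_num) h4 SA_ok IS_ok LA_ok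
/-- The second algebra. -/
noncomputable def algB :
    Alg (((DB z hz h4).prod (DB z hz h4)).prod (DI z hz h4)) (Fin 12) :=
  LB.alg SB IS z hz (by norm_num) (by norm_num) (by norm_num) h4 SB_ok IS_ok LB_ok

/-- The first algebra in the product of five factors. -/
noncomputable def AA : Alg (D5 z hz h4) (Fin 12) := (algA z hz h4).map (FEmb.embL _ _ _)
/-- The second algebra in the product of five factors. -/
noncomputable def AB : Alg (D5 z hz h4) (Fin 12) := (algB z hz h4).map (FEmb.embR _ _ _)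

theorem AA_comm : (AA z hz h4).Comm (BA z hz h4) :=
  Alg.map_comm (algA z hz h4) (FEmb.embL _ _ _)
    (((RA z hz h4).prod (RA z hz h4)).prod (RI9 z hz h4)) (BA z hz h4)
    (fun a b c => embL_R _ _ _ a b c)
    (LA.alg_comm SA IS z hz (by norm_num) (by norm_num) (by norm_num) h4 SA_ok IS_ok SAb_ok
      IS9_ok LA_ok)

theorem AB_comm : (AB z hz h4).Comm (BB z hz h4) :=
  Alg.map_comm (algB z hz h4) (FEmb.embR _ _ _)
    (((RB z hz h4).prod (RB z hz h4)).prod (RI7 z hz h4)) (BB z hz h4)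
    (fun a b c => embR_R _ _ _ a b c)
    (LB.alg_comm SB IS z hz (by norm_num) (by norm_num) (by norm_num) h4 SB_ok IS_ok SBb_ok
      IS7_ok LB_ok)

/-- The symmetry. -/
theorem S5 : FSym (D5 z hz h4) Z4 := fsym5 _ _ _

variable (y : k) (hy : y ^ 2 = ev z hz (wd wS2)) (hy0 : y ≠ 0)

/-- Equivariance of the first algebra. -/
noncomputable def QA : EqAlg (AA z hz h4) (BA z hz h4) Z4 :=
  EqAlg.ofSwap (AA z hz h4) (BA z hz h4) (fun p => LA.lk z hz y p)
    (fun p => by
      obtain ⟨h1, h2, h3⟩ := LA.x_sw LA_ok.Sw p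
      rw [LA_sw p] at h1 h2 h3
      refine Prod.ext (Prod.ext (Fin.ext h1) (Fin.ext h2)) (Prod.ext (Fin.ext h3) rfl))
    (show (Inv2.s (0 : Fin 12) : Fin 12) = 0 by decide)
    (fun p => by
      have := LA.lk_swap z hz h4 LA_ok.Sw y hy p
      rw [LA_sw p] at this
      rw [this]
      split_ifs <;> ring)
    (LA.lk_zero z hz h4 LA_ok.Sw y)
    (fun p q r => by
      have := LA.muk_swap z hz h4 LA_ok.Sw y hy0 hy p q r
      rw [LA_sw p, LA_sw q, LA_sw r] at this
      exact this)
    (fun a b c => R_inv5 _ _ _ a b c)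

/-- Equivariance of the second algebra. -/
noncomputable def QB : EqAlg (AB z hz h4) (BB z hz h4) Z4 :=
  EqAlg.ofSwap (AB z hz h4) (BB z hz h4) (fun p => LB.lk z hz y p)
    (fun p => by
      obtain ⟨h1, h2, h3⟩ := LB.x_sw LB_ok.Sw p
      rw [LB_sw p] at h1 h2 h3
      refine Prod.ext rfl (Prod.ext (Fin.ext h3) (Prod.ext (Fin.ext h1) (Fin.ext h2))))
    (show (Inv2.s (0 : Fin 12) : Fin 12) = 0 by decide)
    (fun p => by
      have := LB.lk_swap z hz h4 LB_ok.Sw y hy p
      rw [LB_sw p] at this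
      rw [this]
      split_ifs <;> ring)
    (LB.lk_zero z hz h4 LB_ok.Sw y)
    (fun p q r => by
      have := LB.muk_swap z hz h4 LB_ok.Sw y hy0 hy p q r
      rw [LB_sw p, LB_sw q, LB_sw r] at this
      exact this)
    (fun a b c => R_inv5 _ _ _ a b c)

end
end H24PV
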