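import Pool.Agent.H24.PV.KaB

/-!
# KaC: linear structure on the Karoubi envelope

`Karoubi` of a preadditive category is preadditive in Mathlib (`Idempotents/Karoubi.lean`;
`Karoubi.hom_ext`, additive structure on `f.f`).  Here: `k`-linear, monoidal preadditive and
monoidal linear, and the Homs are finite-dimensional (injective linear map `f ↦ f.f` to
`P.X ⟶ Q.X`).
-/

open CategoryTheory MonoidalCategory CategoryTheory.Idempotents

universe v w u

namespace H24PV
namespace Ka
variable {C : Type w} [Category.{v} C] [Preadditive C]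

section
variable (k : Type u) [Field k] [Linear k C]

instance instSMul (P Q : Karoubi C) : SMul k (P ⟶ Q) where
  smul r f := ⟨r • f.f, by
    rw [Linear.smul_comp, Linear.comp_smul, f.comm]⟩

theorem smul_f {P Q : Karoubi C} (r : k) (f : P ⟶ Q) : (r • f).f = r • f.f := rfl

instance instModule (P Q : Karoubi C) : Module k (P ⟶ Q) where
  one_smul f := by
    apply Karoubi.hom_ext
    show (1 : k) • f.f = f.f
    rw [one_smul]
  mul_smul r s f := by
    apply Karoubi.hom_ext
    show (r * s) • f.f = r • s • f.f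
    rw [mul_smul]
  smul_zero r := by
    apply Karoubi.hom_ext
    show r • (0 : P.X ⟶ Q.X) = 0
    rw [smul_zero]
  smul_add r f g := by
    apply Karoubi.hom_ext
    show r • (f.f + g.f) = r • f.f + r • g.f
    rw [smul_add]
  add_smul r s f := by
    apply Karoubi.hom_ext
    show (r + s) • f.f = r • f.f + s • f.f
    rw [add_smul]
  zero_smul f := by
    apply Karoubi.hom_ext
    show (0 : k) • f.f = 0
    rw [zero_smul]

/-- The Karoubi envelope of a `k`-linear category is `k`-linear. -/
instance instLinear : Linear k (Karoubi C) where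
  homModule P Q := inferInstance
  smul_comp X Y Z r f g := by
    apply Karoubi.hom_ext
    show (r • f.f) ≫ g.f = r • (f.f ≫ g.f)
    rw [Linear.smul_comp]
  comp_smul X Y Z f r g := by
    apply Karoubi.hom_ext
    show f.f ≫ (r • g.f) = r • (f.f ≫ g.f)
    rw [Linear.comp_smul]

theorem finDim (h : ∀ X Y : C, FiniteDimensional k (X ⟶ Y)) (P Q : Karoubi C) :
    FiniteDimensional k (P ⟶ Q) := by
  have := h P.X Q.X
  let φ : (P ⟶ Q) →ₗ[k] (P.X ⟶ Q.X) :=
    { toFun := fun f => f.f
      map_add' := fun f g => rfl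
      map_smul' := fun r f => rfl }
  exact FiniteDimensional.of_injective φ (fun f g hfg => Karoubi.hom_ext _ _ hfg)

end

section
variable [MonoidalCategory C] [MonoidalPreadditive C]

instance : MonoidalPreadditive (Karoubi C) where
  whiskerLeft_zero := by
    intro X Y Z
    apply Karoubi.hom_ext
    show (X.p ⊗ₘ (0 : Y.X ⟶ Z.X)) = 0
    rw [MonoidalPreadditive.tensor_zero]
  zero_whiskerRight := by
    intro X Y Z
    apply Karoubi.hom_ext
    show ((0 : Y.X ⟶ Z.X) ⊗ₘ X.p) = 0
    rw [MonoidalPreadditive.zero_tensor]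
  whiskerLeft_add := by
    intro X Y Z f g
    apply Karoubi.hom_ext
    show (X.p ⊗ₘ (f.f + g.f)) = (X.p ⊗ₘ f.f) + (X.p ⊗ₘ g.f)
    rw [MonoidalPreadditive.tensor_add]
  add_whiskerRight := by
    intro X Y Z f g
    apply Karoubi.hom_ext
    show ((f.f + g.f) ⊗ₘ X.p) = (f.f ⊗ₘ X.p) + (g.f ⊗ₘ X.p)
    rw [MonoidalPreadditive.add_tensor]

variable (k : Type u) [Field k] [Linear k C] [MonoidalLinear k C]

instance : MonoidalLinear k (Karoubi C) where
  whiskerLeft_smul := by
    intro X Y Z r f
    apply Karoubi.hom_ext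
    show (X.p ⊗ₘ (r • f.f)) = r • (X.p ⊗ₘ f.f)
    rw [MonoidalCategory.tensorHom_def, MonoidalCategory.tensorHom_def, MonoidalLinear.whiskerLeft_smul, Linear.comp_smul]
  smul_whiskerRight := by
    intro r Y Z f X
    apply Karoubi.hom_ext
    show ((r • f.f) ⊗ₘ X.p) = r • (f.f ⊗ₘ X.p)
    rw [MonoidalCategory.tensorHom_def, MonoidalCategory.tensorHom_def, MonoidalLinear.smul_whiskerRight, Linear.smul_comp]

end
end Ka
end H24PV
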