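import Pool.Agent.H24.PV.KaB

/-!
# KaD: the Karoubi envelope of a rigid monoidal category is rigid

For an exact pairing `(X, Y)` in `C` and an idempotent `p` of `X` let
`q : Y ⟶ Y` be its mate: `q = (ρ_ Y).inv ≫ Y ◁ coev ≫ Y ◁ (p ▷ Y) ≫ α⁻¹ ≫ ev ▷ Y ≫ (λ_ Y).hom`
(for `Y = Xᘁ` this is Mathlib's `rightAdjointMate p`).  Characterised by
`coev ≫ (p ▷ Y) = coev ≫ (X ◁ q)` and `(q ▷ X) ≫ ev = (Y ◁ p) ≫ ev`
(Mathlib: `coevaluation_comp_rightAdjointMate`, `rightAdjointMate_comp_evaluation`,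
`comp_rightAdjointMate` for `q ≫ q = q`).
Exact pairing of `(X, p)` and `(Y, q)` in the envelope: coevaluation `coev ≫ (p ⊗ₘ q)`,
evaluation `(q ⊗ₘ p) ≫ ev`.  The zigzag equations: both idempotents can be moved to the single
strand, where they give `q` (resp. `p`), which is the identity of the object of the envelope.
-/

open CategoryTheory MonoidalCategory CategoryTheory.Idempotents

universe v w

namespace H24PV
namespace Ka
variable {C : Type w} [Category.{v} C] [MonoidalCategory C]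

/-- The mate of an endomorphism for an exact pairing. -/
def mate {X Y : C} (e : ExactPairing X Y) (p : X ⟶ X) : Y ⟶ Y :=
  (ρ_ Y).inv ≫ Y ◁ e.coevaluation' ≫ Y ◁ (p ▷ Y) ≫ (α_ Y X Y).inv ≫ e.evaluation' ▷ Y ≫
    (λ_ Y).hom

theorem KaD_mate {X Y : C} (e : ExactPairing X Y) (p : X ⟶ X) :
    mate e p = @rightAdjointMate C _ _ X X ⟨Y⟩ ⟨Y⟩ p := rfl

theorem mate_idem {X Y : C} (e : ExactPairing X Y) (p : X ⟶ X) (hp : p ≫ p = p) :
    mate e p ≫ mate e p = mate e p := by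
  let _ : HasRightDual X := ⟨Y⟩
  rw [KaD_mate]
  exact (comp_rightAdjointMate (f := p) (g := p)).symm.trans (by rw [hp])

theorem coev_mate {X Y : C} (e : ExactPairing X Y) (p : X ⟶ X) :
    e.coevaluation' ≫ (p ▷ Y) = e.coevaluation' ≫ (X ◁ mate e p) := by
  let _ : HasRightDual X := ⟨Y⟩
  rw [KaD_mate]
  exact (coevaluation_comp_rightAdjointMate p).symm

theorem mate_ev {X Y : C} (e : ExactPairing X Y) (p : X ⟶ X) :
    (mate e p ▷ X) ≫ e.evaluation' = (Y ◁ p) ≫ e.evaluation' := by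
  let _ : HasRightDual X := ⟨Y⟩
  rw [KaD_mate]
  exact rightAdjointMate_comp_evaluation p

theorem KaD_c {X Y : C} (e : ExactPairing X Y) (p : X ⟶ X) (q : Y ⟶ Y) (hq : q ≫ q = q)
    (h1 : e.coevaluation' ≫ (p ▷ Y) = e.coevaluation' ≫ (X ◁ q)) :
    e.coevaluation' ≫ (p ⊗ₘ q) = e.coevaluation' ≫ (X ◁ q) := by
  rw [MonoidalCategory.tensorHom_def, ← Category.assoc, h1, Category.assoc, ← MonoidalCategory.whiskerLeft_comp, hq]

theorem KaD_c' {X Y : C} (e : ExactPairing X Y) (p : X ⟶ X) (q : Y ⟶ Y) (hp : p ≫ p = p)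
    (h1 : e.coevaluation' ≫ (p ▷ Y) = e.coevaluation' ≫ (X ◁ q)) :
    e.coevaluation' ≫ (p ⊗ₘ q) = e.coevaluation' ≫ (p ▷ Y) := by
  rw [MonoidalCategory.tensorHom_def', ← Category.assoc, ← h1, Category.assoc, ← comp_whiskerRight, hp]

theorem KaD_e {X Y : C} (e : ExactPairing X Y) (p : X ⟶ X) (q : Y ⟶ Y) (hq : q ≫ q = q)
    (h2 : (q ▷ X) ≫ e.evaluation' = (Y ◁ p) ≫ e.evaluation') :
    (q ⊗ₘ p) ≫ e.evaluation' = (q ▷ X) ≫ e.evaluation' := by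
  rw [MonoidalCategory.tensorHom_def, Category.assoc, ← h2, ← Category.assoc, ← comp_whiskerRight, hq]

theorem KaD_e' {X Y : C} (e : ExactPairing X Y) (p : X ⟶ X) (q : Y ⟶ Y) (hp : p ≫ p = p)
    (h2 : (q ▷ X) ≫ e.evaluation' = (Y ◁ p) ≫ e.evaluation') :
    (q ⊗ₘ p) ≫ e.evaluation' = (Y ◁ p) ≫ e.evaluation' := by
  rw [MonoidalCategory.tensorHom_def', Category.assoc, h2, ← Category.assoc, ← MonoidalCategory.whiskerLeft_comp, hp]

theorem KaD_zig {X Y : C} (e : ExactPairing X Y) (p : X ⟶ X) (q : Y ⟶ Y) (hp : p ≫ p = p)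
    (hq : q ≫ q = q)
    (h1 : e.coevaluation' ≫ (p ▷ Y) = e.coevaluation' ≫ (X ◁ q))
    (h2 : (q ▷ X) ≫ e.evaluation' = (Y ◁ p) ≫ e.evaluation') :
    (q ⊗ₘ (e.coevaluation' ≫ (p ⊗ₘ q))) ≫ ((q ⊗ₘ (p ⊗ₘ q)) ≫ (α_ Y X Y).inv) ≫
      (((q ⊗ₘ p) ≫ e.evaluation') ⊗ₘ q) = ((ρ_ Y).hom ≫ q) ≫ (q ≫ (λ_ Y).inv) := by
  have a1 : (q ⊗ₘ (e.coevaluation' ≫ (p ⊗ₘ q))) ≫ (q ⊗ₘ (p ⊗ₘ q)) =
      q ▷ 𝟙_ C ≫ Y ◁ e.coevaluation' ≫ Y ◁ (X ◁ q) := by
    rw [tensorHom_comp_tensorHom, hq, Category.assoc, tensorHom_comp_tensorHom, hp, hq,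
      KaD_c e p q hq h1, MonoidalCategory.tensorHom_def, MonoidalCategory.whiskerLeft_comp]
  have a2 : (((q ⊗ₘ p) ≫ e.evaluation') ⊗ₘ q) =
      (q ▷ X) ▷ Y ≫ e.evaluation' ▷ Y ≫ 𝟙_ C ◁ q := by
    rw [KaD_e e p q hq h2, MonoidalCategory.tensorHom_def, comp_whiskerRight, Category.assoc]
  have a3 := ExactPairing.coevaluation_evaluation' (self := e)
  have a4 : (Y ⊗ X) ◁ q ≫ (q ▷ X) ▷ Y = (q ▷ X) ▷ Y ≫ (Y ⊗ X) ◁ q := whisker_exchange _ _
  have a5 : (Y ⊗ X) ◁ q ≫ e.evaluation' ▷ Y = e.evaluation' ▷ Y ≫ 𝟙_ C ◁ q := whisker_exchange _ _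
  have a6 : Y ◁ e.coevaluation' ≫ q ▷ (X ⊗ Y) = q ▷ 𝟙_ C ≫ Y ◁ e.coevaluation' :=
    whisker_exchange _ _
  calc _ = ((q ⊗ₘ (e.coevaluation' ≫ (p ⊗ₘ q))) ≫ (q ⊗ₘ (p ⊗ₘ q))) ≫ (α_ Y X Y).inv ≫
      (((q ⊗ₘ p) ≫ e.evaluation') ⊗ₘ q) := by simp only [Category.assoc]
    _ = q ▷ 𝟙_ C ≫ Y ◁ e.coevaluation' ≫ (Y ◁ (X ◁ q) ≫ (α_ Y X Y).inv) ≫
        (q ▷ X) ▷ Y ≫ e.evaluation' ▷ Y ≫ 𝟙_ C ◁ q := by
      rw [a1, a2]; simp only [Category.assoc]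
    _ = q ▷ 𝟙_ C ≫ Y ◁ e.coevaluation' ≫ (α_ Y X Y).inv ≫ ((Y ⊗ X) ◁ q ≫
        (q ▷ X) ▷ Y) ≫ e.evaluation' ▷ Y ≫ 𝟙_ C ◁ q := by
      rw [associator_inv_naturality_right]; simp only [Category.assoc]
    _ = q ▷ 𝟙_ C ≫ Y ◁ e.coevaluation' ≫ ((α_ Y X Y).inv ≫ (q ▷ X) ▷ Y) ≫ ((Y ⊗ X) ◁ q ≫
        e.evaluation' ▷ Y) ≫ 𝟙_ C ◁ q := by
      rw [a4]; simp only [Category.assoc]
    _ = q ▷ 𝟙_ C ≫ (Y ◁ e.coevaluation' ≫ q ▷ (X ⊗ Y)) ≫ (α_ Y X Y).inv ≫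
        e.evaluation' ▷ Y ≫ 𝟙_ C ◁ q ≫ 𝟙_ C ◁ q := by
      rw [a5, ← associator_inv_naturality_left]; simp only [Category.assoc]
    _ = q ▷ 𝟙_ C ≫ q ▷ 𝟙_ C ≫ (Y ◁ e.coevaluation' ≫ (α_ Y X Y).inv ≫
        e.evaluation' ▷ Y) ≫ 𝟙_ C ◁ q ≫ 𝟙_ C ◁ q := by
      rw [a6]; simp only [Category.assoc]
    _ = (q ▷ 𝟙_ C ≫ (ρ_ Y).hom) ≫ (λ_ Y).inv ≫ 𝟙_ C ◁ q := by
      rw [a3, ← MonoidalCategory.whiskerLeft_comp, hq, ← Category.assoc, ← comp_whiskerRight, hq]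
      simp only [Category.assoc]
    _ = _ := by
      rw [rightUnitor_naturality, ← leftUnitor_inv_naturality]

theorem KaD_zag {X Y : C} (e : ExactPairing X Y) (p : X ⟶ X) (q : Y ⟶ Y) (hp : p ≫ p = p)
    (hq : q ≫ q = q)
    (h1 : e.coevaluation' ≫ (p ▷ Y) = e.coevaluation' ≫ (X ◁ q))
    (h2 : (q ▷ X) ≫ e.evaluation' = (Y ◁ p) ≫ e.evaluation') :
    ((e.coevaluation' ≫ (p ⊗ₘ q)) ⊗ₘ p) ≫ (((p ⊗ₘ q) ⊗ₘ p) ≫ (α_ X Y X).hom) ≫
      (p ⊗ₘ ((q ⊗ₘ p) ≫ e.evaluation')) = ((λ_ X).hom ≫ p) ≫ (p ≫ (ρ_ X).inv) := by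
  have a1 : ((e.coevaluation' ≫ (p ⊗ₘ q)) ⊗ₘ p) ≫ ((p ⊗ₘ q) ⊗ₘ p) =
      𝟙_ C ◁ p ≫ e.coevaluation' ▷ X ≫ (p ▷ Y) ▷ X := by
    rw [tensorHom_comp_tensorHom, hp, Category.assoc, tensorHom_comp_tensorHom, hp, hq,
      KaD_c' e p q hp h1, MonoidalCategory.tensorHom_def', comp_whiskerRight]
  have a2 : (p ⊗ₘ ((q ⊗ₘ p) ≫ e.evaluation')) =
      X ◁ (Y ◁ p) ≫ X ◁ e.evaluation' ≫ p ▷ 𝟙_ C := by
    rw [KaD_e' e p q hp h2, MonoidalCategory.tensorHom_def', MonoidalCategory.whiskerLeft_comp, Category.assoc]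
  have a3 := ExactPairing.evaluation_coevaluation' (self := e)
  have a4 : p ▷ (Y ⊗ X) ≫ X ◁ (Y ◁ p) = X ◁ (Y ◁ p) ≫ p ▷ (Y ⊗ X) := (whisker_exchange _ _).symm
  have a5 : p ▷ (Y ⊗ X) ≫ X ◁ e.evaluation' = X ◁ e.evaluation' ≫ p ▷ 𝟙_ C :=
    (whisker_exchange _ _).symm
  have a6 : e.coevaluation' ▷ X ≫ (X ⊗ Y) ◁ p = 𝟙_ C ◁ p ≫ e.coevaluation' ▷ X :=
    (whisker_exchange _ _).symm
  calc _ = (((e.coevaluation' ≫ (p ⊗ₘ q)) ⊗ₘ p) ≫ ((p ⊗ₘ q) ⊗ₘ p)) ≫ (α_ X Y X).hom ≫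
      (p ⊗ₘ ((q ⊗ₘ p) ≫ e.evaluation')) := by simp only [Category.assoc]
    _ = 𝟙_ C ◁ p ≫ e.coevaluation' ▷ X ≫ ((p ▷ Y) ▷ X ≫ (α_ X Y X).hom) ≫
        X ◁ (Y ◁ p) ≫ X ◁ e.evaluation' ≫ p ▷ 𝟙_ C := by
      rw [a1, a2]; simp only [Category.assoc]
    _ = 𝟙_ C ◁ p ≫ e.coevaluation' ▷ X ≫ (α_ X Y X).hom ≫ (p ▷ (Y ⊗ X) ≫
        X ◁ (Y ◁ p)) ≫ X ◁ e.evaluation' ≫ p ▷ 𝟙_ C := by
      rw [associator_naturality_left]; simp only [Category.assoc]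
    _ = 𝟙_ C ◁ p ≫ e.coevaluation' ▷ X ≫ ((α_ X Y X).hom ≫ X ◁ (Y ◁ p)) ≫ (p ▷ (Y ⊗ X) ≫
        X ◁ e.evaluation') ≫ p ▷ 𝟙_ C := by
      rw [a4]; simp only [Category.assoc]
    _ = 𝟙_ C ◁ p ≫ (e.coevaluation' ▷ X ≫ (X ⊗ Y) ◁ p) ≫ (α_ X Y X).hom ≫
        X ◁ e.evaluation' ≫ p ▷ 𝟙_ C ≫ p ▷ 𝟙_ C := by
      rw [a5, ← associator_naturality_right]; simp only [Category.assoc]
    _ = 𝟙_ C ◁ p ≫ 𝟙_ C ◁ p ≫ (e.coevaluation' ▷ X ≫ (α_ X Y X).hom ≫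
        X ◁ e.evaluation') ≫ p ▷ 𝟙_ C ≫ p ▷ 𝟙_ C := by
      rw [a6]; simp only [Category.assoc]
    _ = (𝟙_ C ◁ p ≫ (λ_ X).hom) ≫ (ρ_ X).inv ≫ p ▷ 𝟙_ C := by
      rw [a3, ← comp_whiskerRight, hp, ← Category.assoc, ← MonoidalCategory.whiskerLeft_comp, hp]
      simp only [Category.assoc]
    _ = _ := by
      rw [leftUnitor_naturality, ← rightUnitor_inv_naturality]

/-- The dual of an object of the envelope. -/
def dualR (P : Karoubi C) {Y : C} (e : ExactPairing P.X Y) : Karoubi C where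
  X := Y
  p := mate e P.p
  idem := mate_idem e P.p P.idem

/-- The exact pairing in the Karoubi envelope. -/
@[reducible] def pairKa (P : Karoubi C) {Y : C} (e : ExactPairing P.X Y) :
    ExactPairing P (dualR P e) where
  coevaluation' := { f := e.coevaluation' ≫ (P.p ⊗ₘ mate e P.p)
                     comm := by
                      change 𝟙 _ ≫ (e.coevaluation' ≫ (P.p ⊗ₘ mate e P.p)) ≫
                        (P.p ⊗ₘ mate e P.p) = _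
                      rw [Category.id_comp, Category.assoc, tensorHom_comp_tensorHom, P.idem,
                        mate_idem e P.p P.idem]
                      rfl }
  evaluation' := { f := (mate e P.p ⊗ₘ P.p) ≫ e.evaluation'
                   comm := by
                    change (mate e P.p ⊗ₘ P.p) ≫ ((mate e P.p ⊗ₘ P.p) ≫ e.evaluation') ≫ 𝟙 _ = _
                    rw [Category.comp_id, ← Category.assoc, tensorHom_comp_tensorHom, P.idem,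
                      mate_idem e P.p P.idem]
                    rfl }
  coevaluation_evaluation' := by
    apply Karoubi.hom_ext
    exact KaD_zig e P.p (mate e P.p) P.idem (mate_idem e P.p P.idem) (coev_mate e P.p)
      (mate_ev e P.p)
  evaluation_coevaluation' := by
    apply Karoubi.hom_ext
    exact KaD_zag e P.p (mate e P.p) P.idem (mate_idem e P.p P.idem) (coev_mate e P.p)
      (mate_ev e P.p)

/-- The left version: the mate of an endomorphism of the second object. -/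
def mateL {X Y : C} (e : ExactPairing X Y) (q : Y ⟶ Y) : X ⟶ X :=
  (λ_ X).inv ≫ e.coevaluation' ▷ X ≫ (X ◁ q) ▷ X ≫ (α_ X Y X).hom ≫ X ◁ e.evaluation' ≫
    (ρ_ X).hom

theorem KaD_mateL {X Y : C} (e : ExactPairing X Y) (q : Y ⟶ Y) :
    mateL e q = @leftAdjointMate C _ _ Y Y ⟨X⟩ ⟨X⟩ q := rfl

theorem mateL_idem {X Y : C} (e : ExactPairing X Y) (q : Y ⟶ Y) (hq : q ≫ q = q) :
    mateL e q ≫ mateL e q = mateL e q := by
  let _ : HasLeftDual Y := ⟨X⟩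
  rw [KaD_mateL]
  exact (comp_leftAdjointMate (f := q) (g := q)).symm.trans (by rw [hq])

theorem KaD_coevL {X Y : C} (e : ExactPairing X Y) (q : Y ⟶ Y) :
    e.coevaluation' ≫ (mateL e q ▷ Y) = e.coevaluation' ≫ (X ◁ q) := by
  let _ : HasLeftDual Y := ⟨X⟩
  rw [KaD_mateL]
  exact coevaluation_comp_leftAdjointMate q

theorem KaD_evL {X Y : C} (e : ExactPairing X Y) (q : Y ⟶ Y) :
    (q ▷ X) ≫ e.evaluation' = (Y ◁ mateL e q) ≫ e.evaluation' := by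
  let _ : HasLeftDual Y := ⟨X⟩
  rw [KaD_mateL]
  exact (leftAdjointMate_comp_evaluation q).symm

/-- The left dual of an object of the envelope. -/
def dualL (Q : Karoubi C) {X : C} (e : ExactPairing X Q.X) : Karoubi C where
  X := X
  p := mateL e Q.p
  idem := mateL_idem e Q.p Q.idem

/-- The exact pairing in the Karoubi envelope, left version. -/
@[reducible] def pairKaL (Q : Karoubi C) {X : C} (e : ExactPairing X Q.X) :
    ExactPairing (dualL Q e) Q where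
  coevaluation' := { f := e.coevaluation' ≫ (mateL e Q.p ⊗ₘ Q.p)
                     comm := by
                      change 𝟙 _ ≫ (e.coevaluation' ≫ (mateL e Q.p ⊗ₘ Q.p)) ≫
                        (mateL e Q.p ⊗ₘ Q.p) = _
                      rw [Category.id_comp, Category.assoc, tensorHom_comp_tensorHom, Q.idem,
                        mateL_idem e Q.p Q.idem]
                      rfl }
  evaluation' := { f := (Q.p ⊗ₘ mateL e Q.p) ≫ e.evaluation'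
                   comm := by
                    change (Q.p ⊗ₘ mateL e Q.p) ≫ ((Q.p ⊗ₘ mateL e Q.p) ≫ e.evaluation') ≫ 𝟙 _ = _
                    rw [Category.comp_id, ← Category.assoc, tensorHom_comp_tensorHom, Q.idem,
                      mateL_idem e Q.p Q.idem]
                    rfl }
  coevaluation_evaluation' := by
    apply Karoubi.hom_ext
    exact KaD_zig e (mateL e Q.p) Q.p (mateL_idem e Q.p Q.idem) Q.idem (KaD_coevL e Q.p)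
      (KaD_evL e Q.p)
  evaluation_coevaluation' := by
    apply Karoubi.hom_ext
    exact KaD_zag e (mateL e Q.p) Q.p (mateL_idem e Q.p Q.idem) Q.idem (KaD_coevL e Q.p)
      (KaD_evL e Q.p)

/-- The Karoubi envelope of a rigid category is rigid. -/
@[reducible] def rigid [RigidCategory C] : RigidCategory (Karoubi C) where
  rightDual P := { rightDual := dualR P (HasRightDual.exact (X := P.X))
                   exact := pairKa P HasRightDual.exact }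
  leftDual P := { leftDual := dualL P (HasLeftDual.exact (Y := P.X))
                  exact := pairKaL P HasLeftDual.exact }

end Ka
end H24PV
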