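import Pool.Agent.H24.PV.KlDef

/-!
# KaE: a regular idempotent complete additive category is abelian

`Regular C`: every `f : X ⟶ Y` has `g : Y ⟶ X` with `f ≫ g ≫ f = f`.  Then `e = f ≫ g` and
`e' = g ≫ f` are idempotents.  Kernel of `f`: split the idempotent `𝟙 - f ≫ g` of `X`
(`IsIdempotentComplete.idempotents_split`; `f = (f ≫ g) ≫ f`, so `i ≫ f = 0` for the inclusion `i`,
and `t ≫ f = 0` implies `t = t ≫ (𝟙 - f ≫ g)`).  Cokernel: split `𝟙 - g ≫ f` of `Y`.
A mono `f`: `f ≫ g = 𝟙`, and `f` is the kernel of `𝟙 - g ≫ f : Y ⟶ Y`.  An epi `f`: `g ≫ f = 𝟙`,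
and `f` is the cokernel of `𝟙 - f ≫ g : X ⟶ X`.
-/

open CategoryTheory CategoryTheory.Limits

universe v w

namespace H24PV
variable {C : Type w} [Category.{v} C] [Preadditive C]

theorem Regular.hasKernels [IsIdempotentComplete C] (h : Regular C) : HasKernels C := by
  refine ⟨fun {X Y} f => ?_⟩
  obtain ⟨g, hg⟩ := h f
  have hp : (𝟙 X - f ≫ g) ≫ (𝟙 X - f ≫ g) = 𝟙 X - f ≫ g := by
    simp only [Preadditive.sub_comp, Preadditive.comp_sub, Category.id_comp, Category.comp_id,
      Category.assoc]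
    have : f ≫ g ≫ f ≫ g = f ≫ g := by
      calc f ≫ g ≫ f ≫ g = (f ≫ g ≫ f) ≫ g := by simp only [Category.assoc]
        _ = f ≫ g := by rw [hg]
    rw [this]
    abel
  obtain ⟨K, i, e, h1, h2⟩ := IsIdempotentComplete.idempotents_split X _ hp
  have h3 : (𝟙 X - f ≫ g) ≫ f = 0 := by
    rw [Preadditive.sub_comp, Category.id_comp, Category.assoc, hg, sub_self]
  have h4 : i ≫ f = 0 := by
    calc i ≫ f = (i ≫ e) ≫ i ≫ f := by rw [h1, Category.id_comp]
      _ = i ≫ (e ≫ i) ≫ f := by simp only [Category.assoc]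
      _ = 0 := by rw [h2, h3, comp_zero]
  exact HasLimit.mk ⟨_, KernelFork.IsLimit.ofι i h4 (fun t _ => t ≫ e)
    (fun t ht => by
      rw [Category.assoc, h2, Preadditive.comp_sub, Category.comp_id, ← Category.assoc, ht,
        zero_comp, sub_zero])
    (fun t _ m hm => by rw [← hm, Category.assoc, h1, Category.comp_id])⟩

theorem Regular.hasCokernels [IsIdempotentComplete C] (h : Regular C) : HasCokernels C := by
  refine ⟨fun {X Y} f => ?_⟩
  obtain ⟨g, hg⟩ := h f
  have hp : (𝟙 Y - g ≫ f) ≫ (𝟙 Y - g ≫ f) = 𝟙 Y - g ≫ f := by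
    simp only [Preadditive.sub_comp, Preadditive.comp_sub, Category.id_comp, Category.comp_id,
      Category.assoc]
    rw [hg]
    abel
  obtain ⟨Q, i, e, h1, h2⟩ := IsIdempotentComplete.idempotents_split Y _ hp
  have h3 : f ≫ (𝟙 Y - g ≫ f) = 0 := by
    rw [Preadditive.comp_sub, Category.comp_id, hg, sub_self]
  have h4 : f ≫ e = 0 := by
    calc f ≫ e = f ≫ e ≫ i ≫ e := by rw [h1, Category.comp_id]
      _ = (f ≫ (e ≫ i)) ≫ e := by simp only [Category.assoc]
      _ = 0 := by rw [h2, h3, zero_comp]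
  exact HasColimit.mk ⟨_, CokernelCofork.IsColimit.ofπ e h4 (fun t _ => i ≫ t)
    (fun t ht => by
      rw [← Category.assoc, h2, Preadditive.sub_comp, Category.id_comp, Category.assoc, ht,
        comp_zero, sub_zero])
    (fun t _ m hm => by rw [← hm, ← Category.assoc, h1, Category.id_comp])⟩

theorem Regular.normalMono (h : Regular C) : IsNormalMonoCategory C := by
  refine ⟨fun {X Y} f hf => ?_⟩
  obtain ⟨g, hg⟩ := h f
  have h3 : f ≫ (𝟙 Y - g ≫ f) = 0 := by
    rw [Preadditive.comp_sub, Category.comp_id, hg, sub_self]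
  have hl : IsLimit (KernelFork.ofι f h3) := KernelFork.IsLimit.ofι f h3 (fun t _ => t ≫ g)
      (fun t ht => by
        rw [Preadditive.comp_sub, Category.comp_id, sub_eq_zero] at ht
        rw [Category.assoc, ← ht])
      (fun t ht m hm => by
        rw [Preadditive.comp_sub, Category.comp_id, sub_eq_zero] at ht
        rw [← cancel_mono f, hm, Category.assoc, ← ht])
  exact ⟨⟨Y, 𝟙 Y - g ≫ f, h3, hl⟩⟩

theorem Regular.normalEpi (h : Regular C) : IsNormalEpiCategory C := by
  refine ⟨fun {X Y} f hf => ?_⟩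
  obtain ⟨g, hg⟩ := h f
  have h3 : (𝟙 X - f ≫ g) ≫ f = 0 := by
    rw [Preadditive.sub_comp, Category.id_comp, Category.assoc, hg, sub_self]
  have hl : IsColimit (CokernelCofork.ofπ f h3) :=
    CokernelCofork.IsColimit.ofπ f h3 (fun t _ => g ≫ t)
      (fun t ht => by
        rw [Preadditive.sub_comp, Category.id_comp, sub_eq_zero, Category.assoc] at ht
        exact ht.symm)
      (fun t ht m hm => by
        rw [Preadditive.sub_comp, Category.id_comp, sub_eq_zero, Category.assoc] at ht
        rw [← cancel_epi f, hm, ← ht])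
  exact ⟨⟨X, 𝟙 X - f ≫ g, h3, hl⟩⟩

/-- A regular idempotent complete additive category is abelian. -/
@[reducible] def Regular.abelian [IsIdempotentComplete C] [HasFiniteBiproducts C]
    (h : Regular C) : Abelian C :=
  { (inferInstance : Preadditive C), h.normalMono, h.normalEpi with
    has_finite_products := inferInstance
    has_kernels := h.hasKernels
    has_cokernels := h.hasCokernels }

end H24PV
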