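import Pool.Agent.H24.PV.KlI

/-!
# KaG: every object is a finite direct sum of simple objects

Strong induction on `finrank k (X ⟶ X)`.  If `𝟙 X = 0` then `n = 0`.
If `X` is simple, `n = 1`.  Otherwise there is a mono `f : Y ⟶ X`, `f ≠ 0`, not an isomorphism
(if every mono to `X` satisfies the equivalence of `Simple` then `X` is simple; the failure of the
equivalence for `f` gives: `f` iso and `f = 0`, impossible since then `𝟙 X = 0`; or `f` not iso and
`f ≠ 0`).  Regularity: `f ≫ g ≫ f = f`, so `f ≫ g = 𝟙 Y`.  Split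
the idempotent `𝟙 X - g ≫ f` as `X ⟶ Z ⟶ X` (`IsIdempotentComplete.idempotents_split`).  Then
`Y`, `Z` are nonzero (`Z = 0` would give `g ≫ f = 𝟙`, `f` iso) and
`finrank End Y < finrank End X`, `finrank End Z < finrank End X`
(the map `End Y × End Z → End X`, `(a, b) ↦ g ≫ a ≫ f + p ≫ b ≫ i` is linear and injective and
`finrank End Y, finrank End Z ≥ 1`).  Combine the decompositions of `Y` and `Z`
(best: prove first the statement with an arbitrary `Fintype` index type, combine over `I ⊕ J`, and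
transport to `Fin n` at the end with `Fintype.equivFin`).
-/

open CategoryTheory CategoryTheory.Limits

universe v w u

namespace H24PV
variable {C : Type w} [Category.{v} C] [Preadditive C]

omit [Preadditive C] in
private theorem kag_fin [Preadditive C] {X : C} (hX : ∃ (I : Type) (_ : Fintype I) (S : I → C)
    (π : ∀ i, X ⟶ S i) (j : ∀ i, S i ⟶ X), (∀ i, Simple (S i)) ∧
    (∀ a b, a ≠ b → j a ≫ π b = 0) ∧ (∀ a, j a ≫ π a = 𝟙 (S a)) ∧ ∑ a, π a ≫ j a = 𝟙 X) :
    ∃ (n : ℕ) (S : Fin n → C) (π : ∀ i, X ⟶ S i) (ι : ∀ i, S i ⟶ X),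
    (∀ i, Simple (S i)) ∧ (∀ i j, i ≠ j → ι i ≫ π j = 0) ∧ (∀ i, ι i ≫ π i = 𝟙 (S i)) ∧
    ∑ i, π i ≫ ι i = 𝟙 X := by
  obtain ⟨I, _, S, π, j, h1, h2, h3, h4⟩ := hX
  let e := (Fintype.equivFin I).symm
  refine ⟨Fintype.card I, fun i => S (e i), fun i => π (e i), fun i => j (e i),
    fun i => h1 _, fun a b hab => h2 _ _ (fun hh => hab (e.injective hh)), fun a => h3 _, ?_⟩
  rw [← h4]
  exact Equiv.sum_comp e (fun a => π a ≫ j a)

private theorem kag_main (k : Type u) [Field k] [Linear k C] [IsIdempotentComplete C]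
    (h : Regular C) (hf : ∀ X Y : C, FiniteDimensional k (X ⟶ Y)) (n : ℕ) :
    ∀ X : C, Module.finrank k (X ⟶ X) = n → ∃ (I : Type) (_ : Fintype I) (S : I → C)
    (π : ∀ i, X ⟶ S i) (j : ∀ i, S i ⟶ X), (∀ i, Simple (S i)) ∧
    (∀ a b, a ≠ b → j a ≫ π b = 0) ∧ (∀ a, j a ≫ π a = 𝟙 (S a)) ∧
    ∑ a, π a ≫ j a = 𝟙 X := by
  induction n using Nat.strong_induction_on with
  | _ n ih =>
  intro X hn
  by_cases hX0 : 𝟙 X = 0
  · refine ⟨Empty, inferInstance, fun i => i.elim, fun i => i.elim, fun i => i.elim,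
      fun i => i.elim, fun i => i.elim, fun i => i.elim, ?_⟩
    rw [hX0]; simp
  by_cases hS : Simple X
  · refine ⟨Unit, inferInstance, fun _ => X, fun _ => 𝟙 X, fun _ => 𝟙 X, fun _ => hS,
      fun a b hab => (hab (Subsingleton.elim _ _)).elim, fun _ => Category.comp_id _, ?_⟩
    simp
  -- a non trivial mono
  have hex : ∃ (Y : C) (f : Y ⟶ X), Mono f ∧ ¬ IsIso f ∧ f ≠ 0 := by
    by_contra hne
    push Not at hne
    apply hS
    refine ⟨fun {Y} f hm => ⟨fun hi h0 => ?_, fun h0 => ?_⟩⟩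
    · subst h0
      apply hX0
      rw [← IsIso.inv_hom_id (0 : Y ⟶ X)]
      simp
    · by_contra hi
      exact h0 (hne Y f hm hi)
  obtain ⟨Y, f, hm, hni, hf0⟩ := hex
  obtain ⟨g, hg⟩ := h f
  have hfg : f ≫ g = 𝟙 Y := by
    rw [← cancel_mono f, Category.assoc, hg, Category.id_comp]
  have he : (𝟙 X - g ≫ f) ≫ (𝟙 X - g ≫ f) = 𝟙 X - g ≫ f := by
    have h1 : (g ≫ f) ≫ (g ≫ f) = g ≫ f := by
      rw [Category.assoc, hg]
    simp only [Preadditive.comp_sub, Preadditive.sub_comp, Category.comp_id, Category.id_comp, h1]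
    abel
  obtain ⟨Z, i, p, hip, hpi⟩ := IsIdempotentComplete.idempotents_split X _ he
  have hfp : f ≫ p = 0 := by
    have h1 : (f ≫ p) ≫ i = 0 := by
      rw [Category.assoc, hpi, Preadditive.comp_sub, Category.comp_id, hg, sub_self]
    calc f ≫ p = ((f ≫ p) ≫ i) ≫ p := by rw [Category.assoc, hip, Category.comp_id]
      _ = 0 := by rw [h1, zero_comp]
  have hgf : g ≫ f = 𝟙 X - p ≫ i := by rw [hpi]; abel
  have hig : i ≫ g = 0 := by
    rw [← cancel_mono f, Category.assoc, hgf, Preadditive.comp_sub, Category.comp_id,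
      ← Category.assoc, hip, Category.id_comp, sub_self, zero_comp]
  have hY0 : 𝟙 Y ≠ 0 := by
    intro h0
    apply hf0
    rw [← Category.id_comp f, h0, zero_comp]
  have hZ0 : 𝟙 Z ≠ 0 := by
    intro h0
    apply hni
    have h1 : g ≫ f = 𝟙 X := by
      have : p ≫ i = 0 := by rw [← Category.id_comp i, h0, zero_comp, comp_zero]
      rw [hgf, this, sub_zero]
    exact ⟨g, hfg, h1⟩
  haveI := hf Y Y
  haveI := hf Z Z
  haveI := hf X X
  haveI : Nontrivial (Y ⟶ Y) := ⟨𝟙 Y, 0, hY0⟩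
  haveI : Nontrivial (Z ⟶ Z) := ⟨𝟙 Z, 0, hZ0⟩
  let Φ : ((Y ⟶ Y) × (Z ⟶ Z)) →ₗ[k] (X ⟶ X) :=
    { toFun := fun x => g ≫ x.1 ≫ f + p ≫ x.2 ≫ i
      map_add' := by
        intro x y
        simp only [Prod.fst_add, Prod.snd_add, Preadditive.add_comp, Preadditive.comp_add]
        abel
      map_smul' := by
        intro c x
        simp only [Prod.smul_fst, Prod.smul_snd, Linear.smul_comp, Linear.comp_smul,
          RingHom.id_apply, smul_add] }
  have hΦ : Function.Injective Φ := by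
    rw [← LinearMap.ker_eq_bot, LinearMap.ker_eq_bot']
    rintro ⟨a, b⟩ hab
    have hab' : g ≫ a ≫ f + p ≫ b ≫ i = 0 := hab
    have ha : a = 0 := by
      have h1 : f ≫ (g ≫ a ≫ f + p ≫ b ≫ i) ≫ g = a := by
        simp only [Preadditive.add_comp, Preadditive.comp_add, Category.assoc, hfg, hig,
          comp_zero, add_zero, Category.comp_id]
        rw [← Category.assoc, hfg, Category.id_comp]
      rw [← h1, hab', zero_comp, comp_zero]
    have hb : b = 0 := by
      have h1 : i ≫ (g ≫ a ≫ f + p ≫ b ≫ i) ≫ p = b := by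
        simp only [Preadditive.add_comp, Preadditive.comp_add, Category.assoc, hip, hfp,
          comp_zero, zero_add, Category.comp_id]
        rw [← Category.assoc, hip, Category.id_comp]
      rw [← h1, hab', zero_comp, comp_zero]
    rw [ha, hb]; rfl
  have hle : Module.finrank k (Y ⟶ Y) + Module.finrank k (Z ⟶ Z) ≤ n := by
    rw [← hn, ← Module.finrank_prod]
    exact LinearMap.finrank_le_finrank_of_injective hΦ
  have hYp : 0 < Module.finrank k (Y ⟶ Y) := Module.finrank_pos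
  have hZp : 0 < Module.finrank k (Z ⟶ Z) := Module.finrank_pos
  obtain ⟨I, _, S, π, j, h1, h2, h3, h4⟩ := ih _ (by omega) Y rfl
  obtain ⟨I', _, S', π', j', h1', h2', h3', h4'⟩ := ih (Module.finrank k (Z ⟶ Z)) (by omega) Z rfl
  refine ⟨I ⊕ I', inferInstance, Sum.elim S S',
    fun x => match x with | .inl a => g ≫ π a | .inr a => p ≫ π' a,
    fun x => match x with | .inl a => j a ≫ f | .inr a => j' a ≫ i, ?_, ?_, ?_, ?_⟩
  · rintro (a | a)
    · exact h1 a
    · exact h1' a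
  · rintro (a | a) (b | b) hab
    · show (j a ≫ f) ≫ (g ≫ π b) = 0
      rw [Category.assoc, ← Category.assoc f, hfg, Category.id_comp]
      exact h2 a b (fun hh => hab (by rw [hh]))
    · show (j a ≫ f) ≫ (p ≫ π' b) = 0
      rw [Category.assoc, ← Category.assoc f, hfp, zero_comp, comp_zero]
    · show (j' a ≫ i) ≫ (g ≫ π b) = 0
      rw [Category.assoc, ← Category.assoc i, hig, zero_comp, comp_zero]
    · show (j' a ≫ i) ≫ (p ≫ π' b) = 0
      rw [Category.assoc, ← Category.assoc i, hip, Category.id_comp]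
      exact h2' a b (fun hh => hab (by rw [hh]))
  · rintro (a | a)
    · show (j a ≫ f) ≫ (g ≫ π a) = 𝟙 (S a)
      rw [Category.assoc, ← Category.assoc f, hfg, Category.id_comp, h3]
    · show (j' a ≫ i) ≫ (p ≫ π' a) = 𝟙 (S' a)
      rw [Category.assoc, ← Category.assoc i, hip, Category.id_comp, h3']
  · rw [Fintype.sum_sum_type]
    show ∑ a, (g ≫ π a) ≫ (j a ≫ f) + ∑ a, (p ≫ π' a) ≫ (j' a ≫ i) = 𝟙 X
    have e1 : ∑ a, (g ≫ π a) ≫ (j a ≫ f) = g ≫ f := by
      have : g ≫ (∑ a, π a ≫ j a) ≫ f = g ≫ f := by rw [h4, Category.id_comp]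
      rw [← this, Preadditive.sum_comp, Preadditive.comp_sum]
      exact Finset.sum_congr rfl (fun a _ => by simp only [Category.assoc])
    have e2 : ∑ a, (p ≫ π' a) ≫ (j' a ≫ i) = p ≫ i := by
      have : p ≫ (∑ a, π' a ≫ j' a) ≫ i = p ≫ i := by rw [h4', Category.id_comp]
      rw [← this, Preadditive.sum_comp, Preadditive.comp_sum]
      exact Finset.sum_congr rfl (fun a _ => by simp only [Category.assoc])
    rw [e1, e2, hgf]; abel

theorem decomp (k : Type u) [Field k] [Linear k C] [IsIdempotentComplete C]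
    (h : Regular C) (hf : ∀ X Y : C, FiniteDimensional k (X ⟶ Y)) (X : C) :
    ∃ (n : ℕ) (S : Fin n → C) (π : ∀ i, X ⟶ S i) (ι : ∀ i, S i ⟶ X),
    (∀ i, Simple (S i)) ∧ (∀ i j, i ≠ j → ι i ≫ π j = 0) ∧ (∀ i, ι i ≫ π i = 𝟙 (S i)) ∧
    ∑ i, π i ≫ ι i = 𝟙 X :=
  kag_fin (kag_main k h hf _ X rfl)

end H24PV
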