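import Pool.Agent.H24.PV.KaF
import Pool.Agent.H24.PV.KaG

/-!
# KaH: finitely many simple objects

Let `G : I → C` (`I` finite) generate.  Decompose each `G i` (`decomp`); every
simple `S` is isomorphic to one of the simple summands: `𝟙 S ≠ 0` lies in the subgroup generated
by the `a ≫ b` with `a : S ⟶ G i`, so some `a : S ⟶ G i` is nonzero (`AddSubgroup.closure_induction`
or: otherwise the generating set is `{0}`); `a = ∑ a ≫ π_j ≫ ι_j`, so some
`a ≫ π_j : S ⟶ S_j` is nonzero, hence an isomorphism by `iso_of_simple`.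
The finite list: all summands of all `G i` (index type `Σ i, Fin (n i)`, then `Fintype.equivFin`).
-/

open CategoryTheory CategoryTheory.Limits

universe v w u

namespace H24PV
variable {C : Type w} [Category.{v} C] [Preadditive C]

theorem finite_simples (k : Type u) [Field k] [Linear k C] [IsIdempotentComplete C]
    (h : Regular C) (hf : ∀ X Y : C, FiniteDimensional k (X ⟶ Y))
    {I : Type} [Finite I] (G : I → C) (hG : Gen C G) :
    ∃ (n : ℕ) (S : Fin n → C), ∀ X : C, Simple X → ∃ i, Nonempty (X ≅ S i) := by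
  choose n S π ι hS _ _ hsum using fun i => decomp k h hf (G i)
  obtain ⟨N, ⟨eq⟩⟩ := Finite.exists_equiv_fin (Σ i, Fin (n i))
  refine ⟨N, fun j => S (eq.symm j).1 (eq.symm j).2, fun X hX => ?_⟩
  have hid : 𝟙 X ≠ 0 := id_nonzero X
  have hex : ∃ (i : I) (a : X ⟶ G i), a ≠ 0 := by
    by_contra hcon
    push Not at hcon
    apply hid
    have hle : AddSubgroup.closure {f : X ⟶ X | ∃ (i : I) (a : X ⟶ G i) (b : G i ⟶ X), f = a ≫ b}
        ≤ ⊥ := by
      rw [AddSubgroup.closure_le]
      rintro f ⟨i, a, b, rfl⟩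
      rw [hcon i a, zero_comp]
      exact AddSubgroup.zero_mem _
    exact AddSubgroup.mem_bot.1 (hle (hG X))
  obtain ⟨i, a, ha⟩ := hex
  have hj : ∃ j, a ≫ π i j ≠ 0 := by
    by_contra hcon
    push Not at hcon
    apply ha
    rw [← Category.comp_id a, ← hsum i, Preadditive.comp_sum]
    refine Finset.sum_eq_zero fun j _ => ?_
    rw [← Category.assoc, hcon j, zero_comp]
  obtain ⟨j, hj⟩ := hj
  refine ⟨eq ⟨i, j⟩, ?_⟩
  have hiso : IsIso (a ≫ π i j) := iso_of_simple h hX (hS i j) _ hj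
  have e1 : (eq.symm (eq ⟨i, j⟩)) = ⟨i, j⟩ := eq.symm_apply_apply _
  show Nonempty (X ≅ S (eq.symm (eq ⟨i, j⟩)).1 (eq.symm (eq ⟨i, j⟩)).2)
  rw [e1]
  exact ⟨asIso (a ≫ π i j)⟩

end H24PV
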