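import Pool.Agent.H24.PV.KlG

/-!
# KlK: the Kleisli category is rigid

`J A` is strictly monoidal: `wl_J`, `wr_J`, `assoc_eq`, `lam_eq`, `rho_eq` (in `KlG.lean`) turn the
two zigzag equations into images under `(J A).map` of the zigzag equations of `C`
(model: the proof of `pentagon` in `KlG.lean`: `erw [wl_J, ← (J A).map_comp]; exact congrArg _ _`).
For the inverse of the associator: `(α_ X Y Z).inv = (J A).map (α_ ..).inv` by `rfl`.
-/

open CategoryTheory MonoidalCategory

universe v w

namespace H24PV
variable {C : Type w} [Category.{v} C] [MonoidalCategory C]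
namespace Kl

/-- The image of an exact pairing. -/
@[reducible] def pairJ (A : CCM C) {X Y : C} (p : ExactPairing X Y) :
    ExactPairing ((J A).obj X) ((J A).obj Y) where
  coevaluation' := (J A).map p.coevaluation'
  evaluation' := (J A).map p.evaluation'
  coevaluation_evaluation' := by
    have h := congrArg (J A).map p.coevaluation_evaluation'
    rw [(J A).map_comp, (J A).map_comp, (J A).map_comp] at h
    have h1 := wl_J (A := A) ((J A).obj Y) p.coevaluation'
    have h2 := wr_J (A := A) p.evaluation' ((J A).obj Y)
    exact (congrArg₂ (fun a b => a ≫ (J A).map (α_ Y X Y).inv ≫ b) h1 h2).trans h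
  evaluation_coevaluation' := by
    have h := congrArg (J A).map p.evaluation_coevaluation'
    rw [(J A).map_comp, (J A).map_comp, (J A).map_comp] at h
    have h1 := wr_J (A := A) p.coevaluation' ((J A).obj X)
    have h2 := wl_J (A := A) ((J A).obj X) p.evaluation'
    exact (congrArg₂ (fun a b => a ≫ (J A).map (α_ X Y X).hom ≫ b) h1 h2).trans h

/-- The Kleisli category is rigid, with the duals of `C`. -/
@[reducible] def rigid (A : CCM C) [RigidCategory C] : RigidCategory (Kl A) where
  rightDual X := { rightDual := ⟨X.unᘁ⟩, exact := pairJ A (HasRightDual.exact (X := X.un)) }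
  leftDual X := { leftDual := ⟨ᘁX.un⟩, exact := pairJ A (HasLeftDual.exact (Y := X.un)) }

end Kl
end H24PV
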