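import Pool.Agent.H24.PV.KlG

/-!
# KlN: regularity of the Kleisli category

For `f : X ⟶ Y ⊗ A` put `ext f : X ⊗ A ⟶ Y ⊗ A := (f ▷ A) ≫ α ≫ Y ◁ mul`, and for
`h : Y ⊗ A ⟶ X ⊗ A` put
`avg h : Y ⟶ X ⊗ A := ρ⁻¹ ≫ (Y ◁ e) ≫ α⁻¹ ≫ (h ▷ A) ≫ α ≫ (X ◁ mul)`.
-/

open CategoryTheory MonoidalCategory

universe v w

namespace H24PV
variable {C : Type w} [Category.{v} C] [MonoidalCategory C]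

namespace CCM
variable (A : CCM C)

/-- The free `A`-module map given by a Kleisli morphism. -/
def kext {X Y : C} (f : A.H X Y) : X ⊗ A.A ⟶ Y ⊗ A.A := (f ▷ A.A) ≫ (α_ _ _ _).hom ≫ (Y ◁ A.mul)

/-- Averaging with a Casimir element. -/
def kavg (c : Casimir A) {X Y : C} (h : Y ⊗ A.A ⟶ X ⊗ A.A) : A.H Y X :=
  (ρ_ Y).inv ≫ (Y ◁ c.e) ≫ (α_ _ _ _).inv ≫ (h ▷ A.A) ≫ (α_ _ _ _).hom ≫ (X ◁ A.mul)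

/-- Associativity with a spectator on the left. -/
theorem kln_key (Z : C) : (α_ Z A.A A.A).hom ▷ A.A ≫ (Z ◁ A.mul) ▷ A.A ≫
    (α_ Z A.A A.A).hom ≫ Z ◁ A.mul =
    (α_ (Z ⊗ A.A) A.A A.A).hom ≫ (Z ⊗ A.A) ◁ A.mul ≫ (α_ Z A.A A.A).hom ≫ Z ◁ A.mul := by
  calc (α_ Z A.A A.A).hom ▷ A.A ≫ (Z ◁ A.mul) ▷ A.A ≫ (α_ Z A.A A.A).hom ≫ Z ◁ A.mul
      = (α_ Z A.A A.A).hom ▷ A.A ≫ (α_ Z (A.A ⊗ A.A) A.A).hom ≫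
          Z ◁ ((A.mul ▷ A.A) ≫ A.mul) := by monoidal
    _ = (α_ Z A.A A.A).hom ▷ A.A ≫ (α_ Z (A.A ⊗ A.A) A.A).hom ≫
          Z ◁ ((α_ A.A A.A A.A).hom ≫ (A.A ◁ A.mul) ≫ A.mul) := by rw [A.mul_assoc]
    _ = _ := by monoidal

/-- The multiplication moved through `h ▷ A ▷ A`. -/
theorem kln_move {X Z : C} (h : X ⟶ Z ⊗ A.A) :
    (h ▷ A.A) ▷ A.A ≫ (α_ Z A.A A.A).hom ▷ A.A ≫ (Z ◁ A.mul) ▷ A.A ≫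
      (α_ Z A.A A.A).hom ≫ Z ◁ A.mul =
    (α_ X A.A A.A).hom ≫ X ◁ A.mul ≫ h ▷ A.A ≫ (α_ Z A.A A.A).hom ≫ Z ◁ A.mul := by
  rw [kln_key, ← Category.assoc ((h ▷ A.A) ▷ A.A), associator_naturality_left, Category.assoc,
    ← whisker_exchange_assoc]

theorem kavg_left (c : Casimir A) {X Y Z : C} (f : A.H X Y) (h : Y ⊗ A.A ⟶ Z ⊗ A.A) :
    A.kcomp f (A.kavg c h) = A.kavg c (A.kext f ≫ h) := by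
  calc A.kcomp f (A.kavg c h)
      = f ≫ (ρ_ Y).inv ▷ A.A ≫ (Y ◁ c.e) ▷ A.A ≫ (α_ Y A.A A.A).inv ▷ A.A ≫
          ((h ▷ A.A) ▷ A.A ≫ (α_ Z A.A A.A).hom ▷ A.A ≫ (Z ◁ A.mul) ▷ A.A ≫
          (α_ Z A.A A.A).hom ≫ Z ◁ A.mul) := by
        unfold kcomp kavg
        simp only [comp_whiskerRight, Category.assoc]
    _ = f ≫ (ρ_ Y).inv ▷ A.A ≫ (Y ◁ c.e) ▷ A.A ≫ (α_ Y A.A A.A).inv ▷ A.A ≫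
          (α_ (Y ⊗ A.A) A.A A.A).hom ≫ (Y ⊗ A.A) ◁ A.mul ≫ h ▷ A.A ≫
          (α_ Z A.A A.A).hom ≫ Z ◁ A.mul := by
        rw [kln_move]
    _ = f ≫ (Y ◁ ((λ_ A.A).inv ≫ (c.e ▷ A.A) ≫ (α_ _ _ _).hom ≫ (A.A ◁ A.mul))) ≫
          (α_ Y A.A A.A).inv ≫ h ▷ A.A ≫ (α_ Z A.A A.A).hom ≫ Z ◁ A.mul := by monoidal
    _ = f ≫ (Y ◁ ((ρ_ A.A).inv ≫ (A.A ◁ c.e) ≫ (α_ _ _ _).inv ≫ (A.mul ▷ A.A))) ≫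
          (α_ Y A.A A.A).inv ≫ h ▷ A.A ≫ (α_ Z A.A A.A).hom ≫ Z ◁ A.mul := by rw [c.cas]
    _ = f ≫ (ρ_ (Y ⊗ A.A)).inv ≫ (Y ⊗ A.A) ◁ c.e ≫ (α_ (Y ⊗ A.A) A.A A.A).inv ≫
          (α_ Y A.A A.A).hom ▷ A.A ≫ (Y ◁ A.mul) ▷ A.A ≫ h ▷ A.A ≫
          (α_ Z A.A A.A).hom ≫ Z ◁ A.mul := by monoidal
    _ = (ρ_ X).inv ≫ (f ▷ (𝟙_ C) ≫ (Y ⊗ A.A) ◁ c.e) ≫ (α_ (Y ⊗ A.A) A.A A.A).inv ≫
          (α_ Y A.A A.A).hom ▷ A.A ≫ (Y ◁ A.mul) ▷ A.A ≫ h ▷ A.A ≫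
          (α_ Z A.A A.A).hom ≫ Z ◁ A.mul := by monoidal
    _ = (ρ_ X).inv ≫ (X ◁ c.e ≫ f ▷ (A.A ⊗ A.A)) ≫ (α_ (Y ⊗ A.A) A.A A.A).inv ≫
          (α_ Y A.A A.A).hom ▷ A.A ≫ (Y ◁ A.mul) ▷ A.A ≫ h ▷ A.A ≫
          (α_ Z A.A A.A).hom ≫ Z ◁ A.mul := by rw [whisker_exchange]
    _ = A.kavg c (A.kext f ≫ h) := by
        unfold kavg kext
        monoidal

theorem kavg_right (c : Casimir A) {X Y Z : C} (h : X ⊗ A.A ⟶ Y ⊗ A.A) (g : A.H Y Z) :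
    A.kavg c (h ≫ A.kext g) = A.kcomp (A.kavg c h) g := by
  calc A.kavg c (h ≫ A.kext g)
      = (ρ_ X).inv ≫ (X ◁ c.e) ≫ (α_ _ _ _).inv ≫ (h ▷ A.A) ≫
          ((g ▷ A.A) ▷ A.A ≫ (α_ Z A.A A.A).hom ▷ A.A ≫ (Z ◁ A.mul) ▷ A.A ≫
          (α_ Z A.A A.A).hom ≫ Z ◁ A.mul) := by
        unfold kavg kext
        simp only [comp_whiskerRight, Category.assoc]
    _ = (ρ_ X).inv ≫ (X ◁ c.e) ≫ (α_ _ _ _).inv ≫ (h ▷ A.A) ≫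
          (α_ Y A.A A.A).hom ≫ Y ◁ A.mul ≫ g ▷ A.A ≫ (α_ Z A.A A.A).hom ≫ Z ◁ A.mul := by
        rw [kln_move]
    _ = A.kcomp (A.kavg c h) g := by
        unfold kcomp kavg
        simp only [Category.assoc]

theorem kavg_ext (c : Casimir A) {X Y : C} (f : A.H X Y) : A.kavg c (A.kext f) = f := by
  calc A.kavg c (A.kext f)
      = (ρ_ X).inv ≫ (X ◁ c.e) ≫ (α_ _ _ _).inv ≫
          ((f ▷ A.A) ▷ A.A ≫ (α_ Y A.A A.A).hom ▷ A.A ≫ (Y ◁ A.mul) ▷ A.A ≫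
          (α_ Y A.A A.A).hom ≫ Y ◁ A.mul) := by
        unfold kavg kext
        simp only [comp_whiskerRight, Category.assoc]
    _ = (ρ_ X).inv ≫ (X ◁ c.e) ≫ (α_ _ _ _).inv ≫
          (α_ X A.A A.A).hom ≫ X ◁ A.mul ≫ f ▷ A.A ≫ (α_ Y A.A A.A).hom ≫ Y ◁ A.mul := by
        rw [kln_move]
    _ = (ρ_ X).inv ≫ X ◁ (c.e ≫ A.mul) ≫ f ▷ A.A ≫ (α_ Y A.A A.A).hom ≫ Y ◁ A.mul := by
        monoidal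
    _ = (ρ_ X).inv ≫ (X ◁ A.one ≫ f ▷ A.A) ≫ (α_ Y A.A A.A).hom ≫ Y ◁ A.mul := by
        rw [c.e_mul, Category.assoc]
    _ = (ρ_ X).inv ≫ (f ▷ (𝟙_ C) ≫ (Y ⊗ A.A) ◁ A.one) ≫ (α_ Y A.A A.A).hom ≫ Y ◁ A.mul := by
        rw [whisker_exchange]
    _ = f ≫ (ρ_ (Y ⊗ A.A)).inv ≫ (α_ Y A.A (𝟙_ C)).hom ≫ Y ◁ ((A.A ◁ A.one) ≫ A.mul) := by
        monoidal
    _ = f := by
        rw [A.mul_one]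
        monoidal

end CCM

theorem Kl.regular (A : CCM C) (c : Casimir A) (h : Regular C) : Regular (Kl A) := by
  intro X Y f
  obtain ⟨g, hg⟩ := h (A.kext (Kl.Hom.f f))
  refine ⟨(⟨A.kavg c g⟩ : Kl.Hom Y X), ?_⟩
  apply Kl.hom_ext
  rw [Kl.comp_f, Kl.comp_f]
  show A.kcomp (Kl.Hom.f f) (A.kcomp (A.kavg c g) (Kl.Hom.f f)) = Kl.Hom.f f
  rw [← A.kavg_right c g, A.kavg_left c, hg, A.kavg_ext c]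

end H24PV
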