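import Pool.Agent.H24.PV.Fusion
import Pool.Agent.H24.PV.FX
import Pool.Agent.H24.PV.FB
import Pool.Agent.H24.PV.FR
import Pool.Agent.H24.PV.FcG
import Pool.Agent.H24.PV.KlI
import Pool.Agent.H24.PV.KlK
import Pool.Agent.H24.PV.KlL
import Pool.Agent.H24.PV.KlN
import Pool.Agent.H24.PV.KaC
import Pool.Agent.H24.PV.KaD
import Pool.Agent.H24.PV.KaE
import Pool.Agent.H24.PV.KaH

/-!
# FzB: the fusion category of two commuting central commutative algebras
-/

open CategoryTheory MonoidalCategory CategoryTheory.Limits CategoryTheory.Idempotents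

universe u v w

namespace H24PV

section
variable {C : Type w} [Category.{v} C] [Preadditive C]

theorem Regular.karoubi (h : Regular C) : Regular (Karoubi C) := by
  intro P Q f
  obtain ⟨g, hg⟩ := h f.f
  refine ⟨⟨Q.p ≫ g ≫ P.p, ?_⟩, ?_⟩
  · simp only [← Category.assoc]
    rw [Q.idem]
    simp only [Category.assoc]
    rw [P.idem]
  · apply Karoubi.hom_ext
    show f.f ≫ (Q.p ≫ g ≫ P.p) ≫ f.f = f.f
    have h1 : f.f ≫ Q.p = f.f := Karoubi.comp_p f
    have h2 : P.p ≫ f.f = f.f := Karoubi.p_comp f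
    rw [Category.assoc, Category.assoc, h2, ← Category.assoc, h1, hg]

theorem Gen.karoubi {I : Type} {G : I → C} (h : Gen C G) :
    Gen (Karoubi C) (fun i => (toKaroubi C).obj (G i)) := by
  intro P
  let φ : (P.X ⟶ P.X) →+ (P ⟶ P) :=
    { toFun := fun f => ⟨P.p ≫ f ≫ P.p, by
        simp only [← Category.assoc]
        rw [P.idem]
        simp only [Category.assoc]
        rw [P.idem]⟩
      map_zero' := by
        apply Karoubi.hom_ext
        show P.p ≫ 0 ≫ P.p = 0
        simp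
      map_add' := fun a b => by
        apply Karoubi.hom_ext
        show P.p ≫ (a + b) ≫ P.p = P.p ≫ a ≫ P.p + P.p ≫ b ≫ P.p
        simp }
  have h1 : φ (𝟙 P.X) = 𝟙 P := by
    apply Karoubi.hom_ext
    show P.p ≫ 𝟙 P.X ≫ P.p = P.p
    rw [Category.id_comp, P.idem]
  rw [← h1]
  have h2 := h P.X
  refine AddSubgroup.closure_induction (p := fun x _ => φ x ∈ AddSubgroup.closure
    {f : P ⟶ P | ∃ (i : I) (a : P ⟶ (toKaroubi C).obj (G i))
      (b : (toKaroubi C).obj (G i) ⟶ P), f = a ≫ b}) ?_ ?_ ?_ ?_ h2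
  · rintro x ⟨i, a, b, rfl⟩
    apply AddSubgroup.subset_closure
    refine ⟨i, ⟨P.p ≫ a, ?_⟩, ⟨b ≫ P.p, ?_⟩, ?_⟩
    · show P.p ≫ (P.p ≫ a) ≫ 𝟙 _ = _
      rw [Category.comp_id, ← Category.assoc, P.idem]
    · show 𝟙 _ ≫ (b ≫ P.p) ≫ P.p = _
      rw [Category.id_comp, Category.assoc, P.idem]
    · apply Karoubi.hom_ext
      show P.p ≫ (a ≫ b) ≫ P.p = (P.p ≫ a) ≫ (b ≫ P.p)
      simp
  · rw [map_zero]; exact AddSubgroup.zero_mem _
  · intro a b _ _ ha hb
    rw [map_add]; exact AddSubgroup.add_mem _ ha hb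
  · intro a _ ha
    rw [map_neg]; exact AddSubgroup.neg_mem _ ha

end

section
variable {k : Type u} [Field k] {L P Q : Type} [Fintype L] [DecidableEq L] [Fintype P]
  [DecidableEq P] [Fintype Q] [DecidableEq Q] {D : FData k L} (cA : CData D P) (cB : CData D Q)
  (hc : Centralize cA.ccm cB.ccm)

/-- The iterated Kleisli category. -/
abbrev K2 : Type 1 := Kl (Kl.transport cA.ccm cB.ccm hc)

/-- The functor from families. -/
abbrev J2 : Fam D ⥤ K2 cA cB hc :=
  Kl.J cA.ccm ⋙ Kl.J (Kl.transport cA.ccm cB.ccm hc)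

theorem K2.regular (eA : CasData cA) (eB : CasData cB) : Regular (K2 cA cB hc) :=
  Kl.regular _ (Kl.transportCas cA.ccm cB.ccm hc eB.casimir)
    (Kl.regular _ eA.casimir (Fam.regular D))

theorem K2.finDim (X Y : K2 cA cB hc) : FiniteDimensional k (X ⟶ Y) :=
  Kl.finDim (fun X Y => Kl.finDim (fun X Y => Fam.finDim X Y) X Y) X Y

theorem K2.gen : Gen (K2 cA cB hc) (fun x : L => (J2 cA cB hc).obj (Fam.lb D x)) :=
  Kl.gen _ (Kl.gen _ (Fam.gen D))

theorem K2.hasFiniteBiproducts : HasFiniteBiproducts (K2 cA cB hc) := by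
  haveI := Fam.hasFiniteBiproducts (D := D)
  haveI : HasFiniteBiproducts (Kl cA.ccm) := Kl.hasFiniteBiproducts
  exact Kl.hasFiniteBiproducts

/-- Homs of the iterated Kleisli category. -/
noncomputable def K2.homLin (X Y : K2 cA cB hc) :
    (X ⟶ Y) ≃ₗ[k] (X.un.un ⟶ ((Y.un.un ⊗ cB.obj) ⊗ cA.obj : Fam D)) :=
  (Kl.homLin X Y).trans (Kl.homLin _ _)

/-- The iterated Kleisli category is rigid. -/
@[reducible] def K2.rigid (E : FDual D) : RigidCategory (K2 cA cB hc) :=
  letI := E.rigid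
  letI : RigidCategory (Kl cA.ccm) := Kl.rigid cA.ccm
  Kl.rigid _

/-- Its Karoubi envelope is abelian. -/
@[reducible] noncomputable def KK.abelian (eA : CasData cA) (eB : CasData cB) :
    Abelian (Karoubi (K2 cA cB hc)) :=
  haveI := K2.hasFiniteBiproducts cA cB hc
  haveI : HasFiniteBiproducts (Karoubi (K2 cA cB hc)) := Karoubi.karoubi_hasFiniteBiproducts
  (K2.regular cA cB hc eA eB).karoubi.abelian

theorem KK.finDim (X Y : Karoubi (K2 cA cB hc)) : FiniteDimensional k (X ⟶ Y) :=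
  Ka.finDim k (K2.finDim cA cB hc) X Y

end
end H24PV
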