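import Pool.Agent.H24.PV.FzB

/-!
# FzC: the fusion category
-/

open CategoryTheory MonoidalCategory CategoryTheory.Limits CategoryTheory.Idempotents

universe u v w

namespace H24PV

variable {k : Type u} [Field k] {L P Q : Type} [Fintype L] [DecidableEq L] [Fintype P]
  [DecidableEq P] [Fintype Q] [DecidableEq Q] {D : FData k L} (cA : CData D P) (cB : CData D Q)
  (hc : Centralize cA.ccm cB.ccm)

theorem KK.finrank_unit (h1 : Module.finrank k (𝟙_ (K2 cA cB hc) ⟶ 𝟙_ (K2 cA cB hc)) = 1) :
    Module.finrank k (𝟙_ (Karoubi (K2 cA cB hc)) ⟶ 𝟙_ (Karoubi (K2 cA cB hc))) = 1 := by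
  rw [← h1]
  let e : (𝟙_ (Karoubi (K2 cA cB hc)) ⟶ 𝟙_ (Karoubi (K2 cA cB hc))) ≃ₗ[k]
      (𝟙_ (K2 cA cB hc) ⟶ 𝟙_ (K2 cA cB hc)) :=
    { toFun := fun f => f.f
      invFun := fun f => ⟨f, by
        show 𝟙 _ ≫ f ≫ 𝟙 _ = f
        rw [Category.comp_id, Category.id_comp]⟩
      left_inv := fun f => rfl
      right_inv := fun f => rfl
      map_add' := fun f g => rfl
      map_smul' := fun r f => rfl }
  exact LinearEquiv.finrank_eq e

/-- The fusion category of two commuting central commutative algebras. -/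
noncomputable def mkFusion (eA : CasData cA) (eB : CasData cB) (E : FDual D)
    (h1 : Module.finrank k (𝟙_ (K2 cA cB hc) ⟶ 𝟙_ (K2 cA cB hc)) = 1) : FusionCat k :=
  letI ab := KK.abelian cA cB hc eA eB
  letI rg := K2.rigid cA cB hc E
  { C := Karoubi (K2 cA cB hc)
    ab := ab
    lin := Ka.instLinear k
    mon := inferInstance
    monPre := (inferInstance : MonoidalPreadditive (Karoubi (K2 cA cB hc)))
    monLin := (inferInstance : MonoidalLinear k (Karoubi (K2 cA cB hc)))
    rig := Ka.rigid
    finHom := KK.finDim cA cB hc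
    unit_simple := simple_of_end k (K2.regular cA cB hc eA eB).karoubi _
      (KK.finrank_unit cA cB hc h1)
    semisimple := decomp k (K2.regular cA cB hc eA eB).karoubi (KK.finDim cA cB hc)
    finite := finite_simples k (K2.regular cA cB hc eA eB).karoubi (KK.finDim cA cB hc)
      _ (K2.gen cA cB hc).karoubi }

end H24PV
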