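import Pool.Agent.H24.PV.PvDef

/-!
# PvB: a flip on the Karoubi envelope restricts to a flip on the category

`X ↦ (toKaroubi C).obj X = (X, 𝟙)`.  The tensor product in the envelope is
`(X, 𝟙) ⊗ (Y, 𝟙) = (X ⊗ Y, 𝟙 ⊗ₘ 𝟙)` (`KaB.lean`), which is not syntactically `(X ⊗ Y, 𝟙)`; for
`tensor` compare `kaPair (tensor p q)` with `tensor (kaPair p) (kaPair q)` by `F.nat` applied to the
morphisms with `.f = 𝟙`.  `unit`: `kaPair exactPairingUnit` and `exactPairingUnit` on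
`(𝟙_, 𝟙)`, compare again with `F.nat` (`f = 𝟙`, `g = 𝟙`).
-/

open CategoryTheory MonoidalCategory CategoryTheory.Idempotents

universe u v w

namespace H24PV
variable {C : Type w} [Category.{v} C] [MonoidalCategory C]

theorem PvB_coev {X₁ Y₁ X₂ Y₂ : C} (p : ExactPairing X₁ Y₁) (q : ExactPairing X₂ Y₂) :
    (@ExactPairing.tensor C _ _ X₁ X₂ Y₁ Y₂ p q).coevaluation' =
      p.coevaluation' ≫ (X₁ ◁ ((λ_ Y₁).inv ≫ (q.coevaluation' ▷ Y₁) ≫ (α_ X₂ Y₂ Y₁).hom)) ≫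
        (α_ X₁ X₂ (Y₂ ⊗ Y₁)).inv := by
  show (@ExactPairing.coevaluation C _ _ X₁ Y₁ p) ⊗≫ (X₁ ◁ (@ExactPairing.coevaluation C _ _ X₂ Y₂ q)) ▷ Y₁ ⊗≫ 𝟙 _ = _
  have h1 : p.coevaluation' = @ExactPairing.coevaluation C _ _ X₁ Y₁ p := rfl
  have h2 : q.coevaluation' = @ExactPairing.coevaluation C _ _ X₂ Y₂ q := rfl
  rw [h1, h2]
  monoidal

/-- The image of an exact pairing in the Karoubi envelope. -/
@[reducible] def kaPair {X Y : C} (p : ExactPairing X Y) :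
    ExactPairing ((toKaroubi C).obj X) ((toKaroubi C).obj Y) where
  coevaluation' := { f := p.coevaluation'
                     comm := by
                       show 𝟙 (𝟙_ C) ≫ p.coevaluation' ≫ (𝟙 X ⊗ₘ 𝟙 Y) = p.coevaluation'
                       simp }
  evaluation' := { f := p.evaluation'
                   comm := by
                     show (𝟙 Y ⊗ₘ 𝟙 X) ≫ p.evaluation' ≫ 𝟙 (𝟙_ C) = p.evaluation'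
                     simp }
  coevaluation_evaluation' := by
    ext
    show (𝟙 Y ⊗ₘ p.coevaluation') ≫ ((𝟙 Y ⊗ₘ (𝟙 X ⊗ₘ 𝟙 Y)) ≫ (α_ Y X Y).inv) ≫
      (p.evaluation' ⊗ₘ 𝟙 Y) = ((ρ_ Y).hom ≫ 𝟙 Y) ≫ (𝟙 Y ≫ (λ_ Y).inv)
    have h := p.coevaluation_evaluation'
    simp only [id_tensorHom, tensorHom_id, id_whiskerRight, Category.comp_id,
      Category.id_comp]
    exact h
  evaluation_coevaluation' := by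
    ext
    show (p.coevaluation' ⊗ₘ 𝟙 X) ≫ (((𝟙 X ⊗ₘ 𝟙 Y) ⊗ₘ 𝟙 X) ≫ (α_ X Y X).hom) ≫
      (𝟙 X ⊗ₘ p.evaluation') = ((λ_ X).hom ≫ 𝟙 X) ≫ (𝟙 X ≫ (ρ_ X).inv)
    have h := p.evaluation_coevaluation'
    simp only [id_tensorHom, tensorHom_id, id_whiskerRight, Category.comp_id, Category.id_comp]
    exact h

/-- Restriction of a flip. -/
def Flip.restrict (F : Flip (Karoubi C)) : Flip C where
  ev {X Y} p := (F.ev (kaPair p)).f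
  nat {X Y X' Y'} p p' f g h := by
    have hK := F.nat (kaPair p) (kaPair p') ((toKaroubi C).map f) ((toKaroubi C).map g) (by
      ext
      show p.coevaluation' ≫ (f ⊗ₘ 𝟙 Y) = p'.coevaluation' ≫ (𝟙 X' ⊗ₘ g)
      rw [tensorHom_id, id_tensorHom]
      exact h)
    have hf := congrArg (fun m => m.f) hK
    have hf' : (f ⊗ₘ 𝟙 Y') ≫ (F.ev (kaPair p')).f = (𝟙 X ⊗ₘ g) ≫ (F.ev (kaPair p)).f := hf
    rw [tensorHom_id, id_tensorHom] at hf'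
    exact hf'
  tensor {X₁ Y₁ X₂ Y₂} p q := by
    have ht := F.tensor (kaPair p) (kaPair q)
    have hK := F.nat (kaPair (@ExactPairing.tensor C _ _ X₁ X₂ Y₁ Y₂ p q))
      (@ExactPairing.tensor (Karoubi C) _ _ _ _ _ _ (kaPair p) (kaPair q))
      { f := 𝟙 (X₁ ⊗ X₂)
        comm := by
          show 𝟙 (X₁ ⊗ X₂) ≫ 𝟙 (X₁ ⊗ X₂) ≫ (𝟙 X₁ ⊗ₘ 𝟙 X₂) = 𝟙 (X₁ ⊗ X₂)
          rw [id_tensorHom_id, Category.comp_id, Category.comp_id] }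
      { f := 𝟙 (Y₂ ⊗ Y₁)
        comm := by
          show (𝟙 Y₂ ⊗ₘ 𝟙 Y₁) ≫ 𝟙 (Y₂ ⊗ Y₁) ≫ 𝟙 (Y₂ ⊗ Y₁) = 𝟙 (Y₂ ⊗ Y₁)
          rw [id_tensorHom_id, Category.comp_id, Category.comp_id] } (by
      rw [PvB_coev]
      ext
      show (@ExactPairing.tensor C _ _ X₁ X₂ Y₁ Y₂ p q).coevaluation' ≫
          (𝟙 (X₁ ⊗ X₂) ⊗ₘ 𝟙 (Y₂ ⊗ Y₁)) =
        (p.coevaluation' ≫ (𝟙 X₁ ⊗ₘ ((𝟙 Y₁ ≫ (λ_ Y₁).inv) ≫ (q.coevaluation' ⊗ₘ 𝟙 Y₁) ≫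
          (((𝟙 X₂ ⊗ₘ 𝟙 Y₂) ⊗ₘ 𝟙 Y₁) ≫ (α_ X₂ Y₂ Y₁).hom))) ≫
          ((𝟙 X₁ ⊗ₘ (𝟙 X₂ ⊗ₘ (𝟙 Y₂ ⊗ₘ 𝟙 Y₁))) ≫ (α_ X₁ X₂ (Y₂ ⊗ Y₁)).inv)) ≫
          ((𝟙 X₁ ⊗ₘ 𝟙 X₂) ⊗ₘ 𝟙 (Y₂ ⊗ Y₁))
      rw [PvB_coev]
      simp only [id_tensorHom, tensorHom_id, id_whiskerRight, whiskerLeft_id, Category.comp_id,
        Category.id_comp, Category.assoc])
    have hf := congrArg (fun m => m.f) hK
    have hf' : (𝟙 (X₁ ⊗ X₂) ⊗ₘ (𝟙 Y₂ ⊗ₘ 𝟙 Y₁)) ≫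
        (F.ev (@ExactPairing.tensor (Karoubi C) _ _ _ _ _ _ (kaPair p) (kaPair q))).f =
        (𝟙 (X₁ ⊗ X₂) ⊗ₘ 𝟙 (Y₂ ⊗ Y₁)) ≫
        (F.ev (kaPair (@ExactPairing.tensor C _ _ X₁ X₂ Y₁ Y₂ p q))).f := hf
    rw [id_tensorHom_id, id_tensorHom_id] at hf'
    have hf2 : (F.ev (@ExactPairing.tensor (Karoubi C) _ _ _ _ _ _ (kaPair p) (kaPair q))).f =
        (F.ev (kaPair (@ExactPairing.tensor C _ _ X₁ X₂ Y₁ Y₂ p q))).f :=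
      (Category.id_comp _).symm.trans (hf'.trans (Category.id_comp _))
    have hf3 := congrArg (fun m => m.f) ht
    have hf4 : (F.ev (@ExactPairing.tensor (Karoubi C) _ _ _ _ _ _ (kaPair p) (kaPair q))).f =
        (((𝟙 X₁ ⊗ₘ 𝟙 X₂) ⊗ₘ (𝟙 Y₂ ⊗ₘ 𝟙 Y₁)) ≫ (α_ X₁ X₂ (Y₂ ⊗ Y₁)).hom) ≫
        (𝟙 X₁ ⊗ₘ (((𝟙 X₂ ⊗ₘ (𝟙 Y₂ ⊗ₘ 𝟙 Y₁)) ≫ (α_ X₂ Y₂ Y₁).inv) ≫
          ((F.ev (kaPair q)).f ⊗ₘ 𝟙 Y₁) ≫ ((λ_ Y₁).hom ≫ 𝟙 Y₁))) ≫ (F.ev (kaPair p)).f := hf3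
    rw [← hf2, hf4]
    simp only [id_tensorHom, tensorHom_id, id_whiskerRight, whiskerLeft_id, Category.comp_id,
      Category.id_comp, Category.assoc]
  unit := by
    have hK := F.nat (kaPair (@exactPairingUnit C _ _)) (@exactPairingUnit (Karoubi C) _ _)
      (𝟙 (𝟙_ (Karoubi C))) (𝟙 (𝟙_ (Karoubi C))) (by
      ext
      show (ρ_ (𝟙_ C)).inv ≫ (𝟙 (𝟙_ C) ⊗ₘ 𝟙 (𝟙_ C)) =
        (𝟙 (𝟙_ C) ≫ (ρ_ (𝟙_ C)).inv) ≫ (𝟙 (𝟙_ C) ⊗ₘ 𝟙 (𝟙_ C))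
      rw [Category.id_comp])
    have hf := congrArg (fun m => m.f) hK
    have hf' : (𝟙 (𝟙_ C) ⊗ₘ 𝟙 (𝟙_ C)) ≫ (F.ev (@exactPairingUnit (Karoubi C) _ _)).f =
        (𝟙 (𝟙_ C) ⊗ₘ 𝟙 (𝟙_ C)) ≫ (F.ev (kaPair (@exactPairingUnit C _ _))).f := hf
    rw [id_tensorHom_id] at hf'
    have hf2 : (F.ev (@exactPairingUnit (Karoubi C) _ _)).f =
        (F.ev (kaPair (@exactPairingUnit C _ _))).f :=
      (Category.id_comp _).symm.trans (hf'.trans (Category.id_comp _))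
    have hf3 := congrArg (fun m => m.f) F.unit
    have hf4 : (F.ev (@exactPairingUnit (Karoubi C) _ _)).f =
        (λ_ (𝟙_ C)).hom ≫ 𝟙 (𝟙_ C) := hf3
    rw [← hf2, hf4, Category.comp_id]

end H24PV
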