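import Pool.Agent.H24.PV.ZdDef

/-!
# ZeDef: a flip on a category receiving the families gives a dimension function

`lbDec`: `lb a ⊗ lb b` is the direct sum of the `lb c` with `N a b c = true`:
`π c` has the entry `((), (), c') → ()` equal to `[c' = c ∧ N a b c]`, and `ι c` the transpose.
Index type `{c : L // D.N a b c = true}`.
`dimFn`: apply `sdim_sum` to the images under `J` (additive) and `hT`, `h1'`.
-/

open CategoryTheory MonoidalCategory

universe u v w

namespace H24PV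
variable {k : Type u} [Field k] {L : Type} [Fintype L] [DecidableEq L] {D : FData k L}

def Fam.lbPi (a b : L) (c : {c : L // D.N a b c = true}) :
    Fam.tObj (Fam.lb D a) (Fam.lb D b) ⟶ Fam.lb D c.1 :=
  Fam.Hom.mk (X := Fam.tObj (Fam.lb D a) (Fam.lb D b)) (Y := Fam.lb D c.1)
    (fun (t : Unit × Unit × L) (_ : Unit) => if t.2.2 = c.1 then 1 else 0) (by
    apply Fam.Hom.ofne
    rintro ⟨u, v, x⟩ w h
    by_cases hc : x = c.1
    · subst hc
      simp [Fam.tObj, c.2]
    · exact absurd (if_neg hc) h)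

theorem Fam.lbPi_m (a b : L) (c : {c : L // D.N a b c = true}) (u v : Unit) (x : L) (w : Unit) :
    Fam.Hom.m (Fam.lbPi a b c) (u, v, x) w = if x = c.1 then 1 else 0 := rfl

def Fam.lbIo (a b : L) (c : {c : L // D.N a b c = true}) :
    Fam.lb D c.1 ⟶ Fam.tObj (Fam.lb D a) (Fam.lb D b) :=
  Fam.Hom.mk (X := Fam.lb D c.1) (Y := Fam.tObj (Fam.lb D a) (Fam.lb D b))
    (fun (_ : Unit) (t : Unit × Unit × L) => if t.2.2 = c.1 then 1 else 0) (by
    apply Fam.Hom.ofne
    rintro w ⟨u, v, x⟩ h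
    by_cases hc : x = c.1
    · subst hc
      simp [Fam.tObj, c.2]
    · exact absurd (if_neg hc) h)

theorem Fam.lbIo_m (a b : L) (c : {c : L // D.N a b c = true}) (u v : Unit) (x : L) (w : Unit) :
    Fam.Hom.m (Fam.lbIo a b c) w (u, v, x) = if x = c.1 then 1 else 0 := rfl

theorem Fam.lb_io_pi (a b : L) (c : {c : L // D.N a b c = true}) :
    Fam.lbIo a b c ≫ Fam.lbPi a b c = 𝟙 (Fam.lb D c.1) := by
  apply Fam.hom_ext
  rintro ⟨⟩ ⟨⟩
  rw [Fam.comp_m, Fam.id_m]
  have h : ∀ t : Unit × Unit × L, Fam.Hom.m (Fam.lbIo a b c) () t *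
      Fam.Hom.m (Fam.lbPi a b c) t () = if t.2.2 = c.1 then 1 else 0 := by
    rintro ⟨u, v, x⟩
    rw [Fam.lbIo_m, Fam.lbPi_m]
    by_cases hx : x = c.1 <;> simp [hx]
  rw [if_pos ⟨rfl, rfl⟩]
  calc ∑ t : Unit × Unit × L, Fam.Hom.m (Fam.lbIo a b c) () t *
      Fam.Hom.m (Fam.lbPi a b c) t () = ∑ t : Unit × Unit × L, if t.2.2 = c.1 then 1 else 0 :=
        Finset.sum_congr rfl fun t _ => h t
    _ = 1 := by
        rw [Fintype.sum_prod_type, Fintype.sum_unique, Fintype.sum_prod_type, Fintype.sum_unique]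
        simp

theorem Fam.lb_pi_io (a b : L) :
    ∑ c : {c : L // D.N a b c = true}, Fam.lbPi a b c ≫ Fam.lbIo a b c =
      𝟙 (Fam.tObj (Fam.lb D a) (Fam.lb D b)) := by
  apply Fam.hom_ext
  rintro ⟨u, v, x⟩ ⟨u', v', x'⟩
  rw [Fam.FB_sum_m, Fam.id_m]
  have h : ∀ c : {c : L // D.N a b c = true},
      Fam.Hom.m (Fam.lbPi a b c ≫ Fam.lbIo a b c) (u, v, x) (u', v', x') =
        if x = c.1 ∧ x' = c.1 then 1 else 0 := by
    intro c
    rw [Fam.comp_m]
    calc ∑ l : Unit, Fam.Hom.m (Fam.lbPi a b c) (u, v, x) l *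
        Fam.Hom.m (Fam.lbIo a b c) l (u', v', x') =
        Fam.Hom.m (Fam.lbPi a b c) (u, v, x) () * Fam.Hom.m (Fam.lbIo a b c) () (u', v', x') :=
          Fintype.sum_unique _
      _ = _ := by
        rw [Fam.lbPi_m, Fam.lbIo_m]
        by_cases hx : x = c.1 <;> by_cases hx' : x' = c.1 <;> simp [hx, hx']
  rw [Finset.sum_congr rfl fun c _ => h c]
  by_cases hx : D.N a b x = true
  · by_cases he : x = x'
    · subst he
      rw [Finset.sum_eq_single (⟨x, hx⟩ : {c : L // D.N a b c = true})]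
      · rw [if_pos ⟨rfl, rfl⟩, if_pos]
        refine ⟨rfl, ?_⟩
        simp [Fam.tObj, hx]
      · intro c _ hc
        rw [if_neg]
        rintro ⟨h1, -⟩
        exact hc (Subtype.ext h1.symm)
      · intro h
        exact absurd (Finset.mem_univ _) h
    · rw [if_neg, Finset.sum_eq_zero]
      · intro c _
        rw [if_neg]
        rintro ⟨h1, h2⟩
        exact he (h1.trans h2.symm)
      · rintro ⟨h1, -⟩
        exact he (congrArg (fun t : Unit × Unit × L => t.2.2) h1)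
  · rw [if_neg, Finset.sum_eq_zero]
    · intro c _
      rw [if_neg]
      rintro ⟨h1, -⟩
      exact hx (h1 ▸ c.2)
    · rintro ⟨-, h2⟩
      apply hx
      simpa [Fam.tObj] using h2

theorem Fam.lbDec (a b : L) :
    ∃ (π : ∀ c : {c : L // D.N a b c = true}, (Fam.lb D a ⊗ Fam.lb D b : Fam D) ⟶
      Fam.lb D c.1) (ι : ∀ c : {c : L // D.N a b c = true}, Fam.lb D c.1 ⟶
      (Fam.lb D a ⊗ Fam.lb D b : Fam D)),
      (∀ c, ι c ≫ π c = 𝟙 _) ∧ ∑ c, π c ≫ ι c = 𝟙 _ :=
  ⟨fun c => Fam.lbPi a b c, fun c => Fam.lbIo a b c, fun c => Fam.lb_io_pi a b c,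
    Fam.lb_pi_io a b⟩

/-- The dimension function of a flip. -/
noncomputable def dimFn {C : Type w} [Category.{v} C] [MonoidalCategory C] [Preadditive C]
    [MonoidalPreadditive C] [Linear k C] [MonoidalLinear k C] [RigidCategory C] (F : Flip C)
    (h1 : Module.finrank k (𝟙_ C ⟶ 𝟙_ C) = 1) (J : Fam D ⥤ C) [J.Additive]
    (hT : ∀ X Y : Fam D, Nonempty (J.obj (X ⊗ Y) ≅ J.obj X ⊗ J.obj Y))
    (hU : Nonempty (J.obj (𝟙_ (Fam D)) ≅ 𝟙_ C)) : DimFn D where
  δ a := sdim F h1 (J.obj (Fam.lb D a))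
  one := by
    obtain ⟨e⟩ := hU
    have h := sdim_iso (k := k) F h1 e
    rw [sdim_unit] at h
    exact h
  mul a b := by
    obtain ⟨π, ι, e1, e2⟩ := Fam.lbDec (D := D) a b
    obtain ⟨e⟩ := hT (Fam.lb D a) (Fam.lb D b)
    have h2 := sdim_iso (k := k) F h1 e
    have h3 := sdim_sum (k := k) F h1 (J.obj (Fam.lb D a ⊗ Fam.lb D b))
      (fun c : {c : L // D.N a b c = true} => J.obj (Fam.lb D c.1)) (fun c => J.map (π c))
      (fun c => J.map (ι c)) (fun c => by rw [← J.map_comp, e1, J.map_id]) (by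
        have : ∑ c, J.map (π c) ≫ J.map (ι c) = J.map (∑ c, π c ≫ ι c) := by
          rw [J.map_sum]
          exact Finset.sum_congr rfl fun c _ => (J.map_comp _ _).symm
        rw [this, e2, J.map_id])
    rw [← sdim_tensor, ← h2, h3]
    rw [← Finset.sum_filter]
    exact (Finset.sum_subtype (Finset.univ.filter fun c => D.N a b c = true)
      (fun c => by simp) (fun c => sdim F h1 (J.obj (Fam.lb D c)))).symm

end H24PV
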