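import Pool.Agent.H24.PV.KlG

/-!
# The Kleisli category: preadditive and linear structure
-/

open CategoryTheory MonoidalCategory

universe v w u

namespace H24PV

variable {C : Type w} [Category.{v} C] [MonoidalCategory C]

namespace Kl
variable {A : CCM C}

/-- Morphisms as morphisms of `C`. -/
def homEquiv (X Y : Kl A) : (X ⟶ Y) ≃ (X.un ⟶ Y.un ⊗ A.A) where
  toFun f := Hom.f f
  invFun f := ⟨f⟩
  left_inv _ := rfl
  right_inv _ := rfl

section
variable [Preadditive C]

instance (X Y : Kl A) : AddCommGroup (X ⟶ Y) := (homEquiv X Y).addCommGroup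

theorem add_f {X Y : Kl A} (f g : X ⟶ Y) : Hom.f (f + g) = Hom.f f + Hom.f g := rfl
theorem zero_f {X Y : Kl A} : Hom.f (0 : X ⟶ Y) = 0 := rfl
theorem neg_f {X Y : Kl A} (f : X ⟶ Y) : Hom.f (-f) = -Hom.f f := rfl

variable [MonoidalPreadditive C]

instance : Preadditive (Kl A) where
  homGroup X Y := inferInstance
  add_comp X Y Z f g h := by
    apply Hom.ext
    show A.kcomp (Hom.f f + Hom.f g) (Hom.f h) =
      A.kcomp (Hom.f f) (Hom.f h) + A.kcomp (Hom.f g) (Hom.f h)
    simp only [CCM.kcomp, Preadditive.add_comp]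
  comp_add X Y Z f g h := by
    apply Hom.ext
    show A.kcomp (Hom.f f) (Hom.f g + Hom.f h) =
      A.kcomp (Hom.f f) (Hom.f g) + A.kcomp (Hom.f f) (Hom.f h)
    simp only [CCM.kcomp, MonoidalPreadditive.add_whiskerRight, Preadditive.add_comp,
      Preadditive.comp_add]

instance : (J A).Additive where
  map_add {X Y} f g := by
    apply Hom.ext
    show A.kJ (f + g) = A.kJ f + A.kJ g
    simp only [CCM.kJ, Preadditive.add_comp]

instance : MonoidalPreadditive (Kl A) where
  whiskerLeft_zero {X Y Z} := by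
    apply Hom.ext
    show A.kwl X.un 0 = 0
    simp [CCM.kwl]
  zero_whiskerRight {X Y Z} := by
    apply Hom.ext
    show A.kwr 0 X.un = 0
    simp [CCM.kwr]
  whiskerLeft_add {X Y Z} f g := by
    apply Hom.ext
    show A.kwl X.un (Hom.f f + Hom.f g) = A.kwl X.un (Hom.f f) + A.kwl X.un (Hom.f g)
    simp [CCM.kwl]
  add_whiskerRight {X Y Z} f g := by
    apply Hom.ext
    show A.kwr (Hom.f f + Hom.f g) X.un = A.kwr (Hom.f f) X.un + A.kwr (Hom.f g) X.un
    simp [CCM.kwr]

variable {k : Type u} [Field k] [Linear k C]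

instance (X Y : Kl A) : Module k (X ⟶ Y) := (homEquiv X Y).module k

theorem smul_f {X Y : Kl A} (r : k) (f : X ⟶ Y) : Hom.f (r • f) = r • Hom.f f := rfl

/-- Morphisms as morphisms of `C`, linearly. -/
def homLin (X Y : Kl A) : (X ⟶ Y) ≃ₗ[k] (X.un ⟶ Y.un ⊗ A.A) where
  toFun f := Hom.f f
  invFun f := ⟨f⟩
  left_inv _ := rfl
  right_inv _ := rfl
  map_add' _ _ := rfl
  map_smul' _ _ := rfl

variable [MonoidalLinear k C]

instance : Linear k (Kl A) where
  homModule X Y := inferInstance
  smul_comp X Y Z r f g := by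
    apply Hom.ext
    show A.kcomp (r • Hom.f f) (Hom.f g) = r • A.kcomp (Hom.f f) (Hom.f g)
    simp only [CCM.kcomp, Linear.smul_comp]
  comp_smul X Y Z f r g := by
    apply Hom.ext
    show A.kcomp (Hom.f f) (r • Hom.f g) = r • A.kcomp (Hom.f f) (Hom.f g)
    simp only [CCM.kcomp, MonoidalLinear.smul_whiskerRight, Linear.smul_comp, Linear.comp_smul]

instance : MonoidalLinear k (Kl A) where
  whiskerLeft_smul X {Y Z} r f := by
    apply Hom.ext
    show A.kwl X.un (r • Hom.f f) = r • A.kwl X.un (Hom.f f)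
    simp [CCM.kwl]
  smul_whiskerRight r {Y Z} f X := by
    apply Hom.ext
    show A.kwr (r • Hom.f f) X.un = r • A.kwr (Hom.f f) X.un
    simp [CCM.kwr]

end
end Kl
end H24PV
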