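import Pool.Agent.H24.PV.FR
import Pool.Agent.H24.PV.FcG
import Pool.Agent.H24.PV.KlL
import Pool.Agent.H24.PV.KlH
import Pool.Agent.H24.PV.ZbDef
import Pool.Agent.H24.PV.AtDef

/-!
# ZfDef: counting Homs

* `finrank_lb`: `Fam.finrank_hom` with `X = lb x`, index set of the target
  `(Unit × Q × L) × P × L`; `cmp` says `N y (xB q) e`, `N e (xA p) z`, `x = z`.  Write the
  cardinality as a sum of `if .. then 1 else 0` (`Fintype.card_subtype`, `Finset.card_filter`,
  `Fintype.sum_prod_type`).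
* `hcount_crs`: labels with trivial group component (the channel `e` has trivial component).
* `hcount5`: for labels `x, y` of `D₁ × (D₂ × D₃)`: `N y (one, (j, c)) e` forces `e.1 = y.1`,
  `N e (a, (i, one)) x` forces `e.2.2 = x.2.2` (`N_one_left`, `N_one_right`).
-/

open CategoryTheory MonoidalCategory

universe u

namespace H24PV
variable {k : Type u} [Field k]

/-- The number of triples `(q, p, e)` with `y ⊗ xB q ∋ e`, `e ⊗ xA p ∋ x`. -/
def hcount {L P Q : Type} [Fintype L] [DecidableEq L] [Fintype P] [Fintype Q] (D : FData k L)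
    (xA : P → L) (xB : Q → L) (x y : L) : ℕ :=
  ∑ q, ∑ p, ∑ e, if D.N y (xB q) e = true ∧ D.N e (xA p) x = true then 1 else 0

theorem finrank_lb {L P Q : Type} [Fintype L] [DecidableEq L] [Fintype P] [DecidableEq P]
    [Fintype Q] [DecidableEq Q] {D : FData k L} (cA : CData D P) (cB : CData D Q) (x y : L) :
    Module.finrank k (Fam.lb D x ⟶ ((Fam.lb D y ⊗ cB.obj) ⊗ cA.obj : Fam D)) =
      hcount D cA.x cB.x x y := by
  rw [Fam.finrank_hom, Fintype.card_subtype, Finset.card_filter]
  show ∑ p : Unit × ((Unit × Q × L) × P × L), (if Fam.cmp (Fam.lb D x)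
    (Fam.tObj (Fam.tObj (Fam.lb D y) cB.obj) cA.obj) p.1 p.2 = true then 1 else 0) = _
  have hc : ∀ (u v : Unit) (q : Q) (e : L) (p : P) (z : L),
      (if Fam.cmp (Fam.lb D x) (Fam.tObj (Fam.tObj (Fam.lb D y) cB.obj) cA.obj) u ((v, q, e), p, z)
        = true then 1 else 0) = if x = z then (if D.N y (cB.x q) e = true ∧ D.N e (cA.x p) x = true
        then 1 else 0) else 0 := by
    intro u v q e p z
    by_cases h : x = z
    · subst h
      rw [if_pos rfl]
      simp [Fam.cmp]
    · rw [if_neg h, if_neg]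
      simp [Fam.cmp, h]
  simp only [Fintype.sum_prod_type, hc, Finset.sum_ite_eq, Finset.mem_univ, if_true]
  rw [hcount]
  simp only [Finset.univ_unique, Finset.sum_singleton]
  exact Finset.sum_congr rfl fun q _ => Finset.sum_comm

theorem hcount_crs {L P Q : Type} [Fintype L] [DecidableEq L] [Fintype P] [Fintype Q]
    {Γ : Type} [Group Γ] [Fintype Γ] [DecidableEq Γ] [MulAction Γ L] (D : FData k L)
    (S : FSym D Γ) (xA : P → L) (xB : Q → L) (x y : L) :
    hcount (D.cross Γ S) (fun p => (xA p, 1)) (fun q => (xB q, 1)) (x, 1) (y, 1) =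
      hcount D xA xB x y := by
  unfold hcount
  refine Finset.sum_congr rfl fun q _ => Finset.sum_congr rfl fun p _ => ?_
  rw [Fintype.sum_prod_type]
  refine Finset.sum_congr rfl fun e _ => ?_
  rw [Finset.sum_eq_single (1 : Γ)]
  · simp [FData.cross]
  · intro g _ hg
    rw [if_neg]
    simp [FData.cross, hg]
  · intro h
    exact absurd (Finset.mem_univ _) h

theorem hcount5 {L₁ L₂ L₃ P Q : Type} [Fintype L₁] [DecidableEq L₁] [Fintype L₂]
    [DecidableEq L₂] [Fintype L₃] [DecidableEq L₃] [Fintype P] [Fintype Q]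
    (D₁ : FData k L₁) (D₂ : FData k L₂) (D₃ : FData k L₃) (a : P → L₁ × L₂) (b : Q → L₃ × L₂)
    (x y : L₁ × (L₂ × L₃)) :
    hcount (D₁.prod (D₂.prod D₃)) (fun p => (FEmb.embL D₁ D₂ D₃).φ (a p))
      (fun q => (FEmb.embR D₁ D₂ D₃).φ (b q)) x y =
      ∑ q, ∑ p, ∑ e, if (D₁.N y.1 (a p).1 x.1 = true ∧ D₃.N y.2.2 (b q).1 x.2.2 = true) ∧
        (D₂.N y.2.1 (b q).2 e = true ∧ D₂.N e (a p).2 x.2.1 = true) then 1 else 0 := by
  unfold hcount
  refine Finset.sum_congr rfl fun q _ => Finset.sum_congr rfl fun p _ => ?_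
  obtain ⟨y1, y2, y3⟩ := y
  obtain ⟨x1, x2, x3⟩ := x
  have hc : ∀ (e1 : L₁) (e2 : L₂) (e3 : L₃),
      (if (D₁.prod (D₂.prod D₃)).N (y1, y2, y3) ((FEmb.embR D₁ D₂ D₃).φ (b q)) (e1, e2, e3) = true ∧
        (D₁.prod (D₂.prod D₃)).N (e1, e2, e3) ((FEmb.embL D₁ D₂ D₃).φ (a p)) (x1, x2, x3) = true
        then 1 else 0) = if y1 = e1 then (if e3 = x3 then
        (if (D₁.N y1 (a p).1 x1 = true ∧ D₃.N y3 (b q).1 x3 = true) ∧
        (D₂.N y2 (b q).2 e2 = true ∧ D₂.N e2 (a p).2 x2 = true) then 1 else 0) else 0) else 0 := by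
    intro e1 e2 e3
    by_cases h1 : y1 = e1
    · subst h1
      by_cases h3 : e3 = x3
      · subst h3
        rw [if_pos rfl, if_pos rfl]
        simp only [FData.prod, FEmb.embL, FEmb.embR, FData.N_one_right, Bool.and_eq_true,
          decide_true, true_and, and_true]
        congr 1
        apply propext
        tauto
      · rw [if_pos rfl, if_neg h3, if_neg]
        simp [FData.prod, FEmb.embL, FEmb.embR, FData.N_one_right, h3]
    · rw [if_neg h1, if_neg]
      simp [FData.prod, FEmb.embL, FEmb.embR, FData.N_one_right, h1]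
  simp only [Fintype.sum_prod_type, hc]
  rw [Finset.sum_eq_single y1]
  · refine Finset.sum_congr rfl fun e _ => ?_
    rw [Finset.sum_eq_single x3]
    · simp
    · intro z _ hz
      simp [hz]
    · intro h
      exact absurd (Finset.mem_univ _) h
  · intro z _ hz
    simp [Ne.symm hz]
  · intro h
    exact absurd (Finset.mem_univ _) h

/-- Sum over `Fin n` of a function of the value. -/
theorem sumN_eq (n : ℕ) (f : ℕ → ℕ) : ∑ i : Fin n, f i = sumN n f := by
  induction n with
  | zero => simp [sumN]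
  | succ n ih =>
    rw [Fin.sum_univ_castSucc]
    simp only [Fin.val_castSucc, Fin.val_last]
    rw [ih, add_comm]
    rfl

end H24PV
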