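import Pool.Agent.H24.PV.FzB
import Pool.Agent.H24.PV.ZeDef
import Pool.Agent.H24.PV.ZfDef
import Pool.Agent.H24.PV.PvB

/-!
# FzD: relations between the dimensions of the labels
-/

open CategoryTheory MonoidalCategory CategoryTheory.Limits CategoryTheory.Idempotents

universe u v w

namespace H24PV

variable {k : Type u} [Field k] {L P Q : Type} [Fintype L] [DecidableEq L] [Fintype P]
  [DecidableEq P] [Fintype Q] [DecidableEq Q] {D : FData k L} (cA : CData D P) (cB : CData D Q)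
  (hc : Centralize cA.ccm cB.ccm)

/-- The object of a label. -/
abbrev OL (x : L) : K2 cA cB hc := (J2 cA cB hc).obj (Fam.lb D x)

theorem finrank_OL (x y : L) :
    Module.finrank k (OL cA cB hc x ⟶ OL cA cB hc y) = hcount D cA.x cB.x x y := by
  rw [← finrank_lb cA cB x y]
  exact LinearEquiv.finrank_eq (K2.homLin cA cB hc (OL cA cB hc x) (OL cA cB hc y))

theorem finrank_unit_OL :
    Module.finrank k (𝟙_ (K2 cA cB hc) ⟶ 𝟙_ (K2 cA cB hc)) = hcount D cA.x cB.x D.one D.one :=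
  finrank_OL cA cB hc D.one D.one

theorem scal_of_finrank {C : Type w} [Category.{v} C] [Preadditive C] [Linear k C] {X : C}
    (h : Module.finrank k (X ⟶ X) = 1) (f : X ⟶ X) : ∃ s : k, f = s • 𝟙 X := by
  have hne : (𝟙 X : X ⟶ X) ≠ 0 := by
    intro h0
    have : Subsingleton (X ⟶ X) := by
      constructor
      intro a b
      rw [← Category.comp_id a, ← Category.comp_id b, h0, comp_zero, comp_zero]
    have := Module.finrank_zero_of_subsingleton (R := k) (M := (X ⟶ X))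
    omega
  obtain ⟨s, hs⟩ := (finrank_eq_one_iff_of_nonzero' (𝟙 X) hne).mp h f
  exact ⟨s, hs.symm⟩

section
variable (E : FDual D)

/-- The dimension function of a flip of the iterated Kleisli category. -/
noncomputable def dimFn2 (F : Flip (K2 cA cB hc))
    (h1 : Module.finrank k (𝟙_ (K2 cA cB hc) ⟶ 𝟙_ (K2 cA cB hc)) = 1) : DimFn D :=
  letI := K2.rigid cA cB hc E
  dimFn F h1 (J2 cA cB hc) (fun _ _ => ⟨Iso.refl _⟩) ⟨Iso.refl _⟩

theorem dimFn2_spec (F : Flip (K2 cA cB hc))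
    (h1 : Module.finrank k (𝟙_ (K2 cA cB hc) ⟶ 𝟙_ (K2 cA cB hc)) = 1) (x : L)
    {Y : K2 cA cB hc} (p : ExactPairing (OL cA cB hc x) Y) :
    F.dim p = (dimFn2 cA cB hc E F h1).δ x • 𝟙 (𝟙_ (K2 cA cB hc)) := by
  letI := K2.rigid cA cB hc E
  exact sdim_spec F h1 p

theorem J_smul {C : Type w} [Category.{v} C] [MonoidalCategory C] [Preadditive C]
    [MonoidalPreadditive C] [Linear k C] [MonoidalLinear k C] (A : CCM C) {X Y : C} (r : k)
    (f : X ⟶ Y) : (Kl.J A).map (r • f) = r • (Kl.J A).map f := by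
  apply Kl.Hom.ext
  show (r • f) ≫ A.kid Y = r • (f ≫ A.kid Y)
  rw [Linear.smul_comp]

omit [Fintype P] [DecidableEq P] [Fintype Q] [DecidableEq Q] in
theorem coev_evm' (x : L) : E.coev (Fam.lb D x) ≫ E.evm' (Fam.lb D x) =
    E.evc (E.dual x) • 𝟙 (Fam.tUnit D) := by
  ext u v
  rw [Fam.comp_m, Fam.smul_m, Fam.id_m]
  show ∑ s : Unit × Unit × L, (if s.1 = s.2.1 ∧ s.2.2 = D.one ∧ true = true then (1 : k) else 0) *
    (if s.1 = s.2.1 ∧ s.2.2 = D.one ∧ true = true then E.evc (E.dual x) else 0) = _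
  rw [Fintype.sum_prod_type, Fintype.sum_unique, Fintype.sum_prod_type, Fintype.sum_unique,
    Finset.sum_eq_single D.one]
  · simp [Fam.tUnit]
  · intro b _ hb
    simp [hb]
  · simp

omit [Fintype P] [DecidableEq P] [Fintype Q] [DecidableEq Q] in
theorem coev'_evm (x : L) : E.coev' (Fam.lb D x) ≫ E.evm (Fam.lb D x) =
    E.evc x • 𝟙 (Fam.tUnit D) := by
  ext u v
  rw [Fam.comp_m, Fam.smul_m, Fam.id_m]
  show ∑ s : Unit × Unit × L, (if s.1 = s.2.1 ∧ s.2.2 = D.one ∧ true = true then (1 : k) else 0) *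
    (if s.1 = s.2.1 ∧ s.2.2 = D.one ∧ true = true then E.evc x else 0) = _
  rw [Fintype.sum_prod_type, Fintype.sum_unique, Fintype.sum_prod_type, Fintype.sum_unique,
    Finset.sum_eq_single D.one]
  · simp [Fam.tUnit]
  · intro b _ hb
    simp [hb]
  · simp

theorem dim_sqnorm (F : Flip (K2 cA cB hc))
    (h1 : Module.finrank k (𝟙_ (K2 cA cB hc) ⟶ 𝟙_ (K2 cA cB hc)) = 1) (x : L)
    (hx : hcount D cA.x cB.x x x = 1) (hx' : hcount D cA.x cB.x (E.dual x) (E.dual x) = 1) :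
    (dimFn2 cA cB hc E F h1).δ x * (dimFn2 cA cB hc E F h1).δ (E.dual x) =
      E.evc x * E.evc (E.dual x) := by
  let p : ExactPairing (OL cA cB hc x) (OL cA cB hc (E.dual x)) :=
    Kl.pairJ _ (Kl.pairJ _ (E.pair (Fam.lb D x)))
  let q : ExactPairing (OL cA cB hc (E.dual x)) (OL cA cB hc x) :=
    Kl.pairJ _ (Kl.pairJ _ (E.pair' (Fam.lb D x)))
  have h := F.sqnorm (k := k) p q
    (scal_of_finrank (by rw [finrank_OL]; exact hx))
    (scal_of_finrank (by rw [finrank_OL]; exact hx'))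
  rw [dimFn2_spec cA cB hc E F h1 x p, dimFn2_spec cA cB hc E F h1 (E.dual x) q] at h
  have e1 : p.coevaluation' ≫ q.evaluation' = E.evc (E.dual x) • 𝟙 (𝟙_ (K2 cA cB hc)) := by
    show (Kl.J _).map ((Kl.J _).map (E.coev (Fam.lb D x))) ≫
      (Kl.J _).map ((Kl.J _).map (E.evm' (Fam.lb D x))) = _
    rw [← Functor.map_comp, ← Functor.map_comp, coev_evm', J_smul, J_smul]
    exact congrArg (fun t => E.evc (E.dual x) • t)
      ((congrArg (Kl.J _).map ((Kl.J cA.ccm).map_id _)).trans ((Kl.J _).map_id _))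
  have e2 : q.coevaluation' ≫ p.evaluation' = E.evc x • 𝟙 (𝟙_ (K2 cA cB hc)) := by
    show (Kl.J _).map ((Kl.J _).map (E.coev' (Fam.lb D x))) ≫
      (Kl.J _).map ((Kl.J _).map (E.evm (Fam.lb D x))) = _
    rw [← Functor.map_comp, ← Functor.map_comp, coev'_evm, J_smul, J_smul]
    exact congrArg (fun t => E.evc x • t)
      ((congrArg (Kl.J _).map ((Kl.J cA.ccm).map_id _)).trans ((Kl.J _).map_id _))
  rw [e1, e2] at h
  simp only [Linear.smul_comp, Linear.comp_smul, Category.comp_id, smul_smul] at h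
  have := scalar_inj h1 h
  linear_combination this

theorem dim_two_OL (F : Flip (K2 cA cB hc)) (eA : CasData cA) (eB : CasData cB)
    (h1 : Module.finrank k (𝟙_ (K2 cA cB hc) ⟶ 𝟙_ (K2 cA cB hc)) = 1) (x y₁ y₂ : L)
    (hx : hcount D cA.x cB.x x x = 2) (hy₁ : hcount D cA.x cB.x y₁ y₁ = 1)
    (hy₂ : hcount D cA.x cB.x y₂ y₂ = 1) (h12 : hcount D cA.x cB.x y₁ y₂ = 0)
    (h21 : hcount D cA.x cB.x y₂ y₁ = 0) (hx1 : hcount D cA.x cB.x x y₁ ≠ 0)
    (hx2 : hcount D cA.x cB.x x y₂ ≠ 0) :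
    (dimFn2 cA cB hc E F h1).δ x = (dimFn2 cA cB hc E F h1).δ y₁ +
      (dimFn2 cA cB hc E F h1).δ y₂ := by
  let p : ∀ x : L, ExactPairing (OL cA cB hc x) (OL cA cB hc (E.dual x)) := fun x =>
    Kl.pairJ _ (Kl.pairJ _ (E.pair (Fam.lb D x)))
  haveI := K2.finDim cA cB hc
  have z0 : ∀ a b : L, hcount D cA.x cB.x a b = 0 →
      ∀ f : OL cA cB hc a ⟶ OL cA cB hc b, f = 0 := by
    intro a b hab f
    have := finrank_OL cA cB hc a b
    rw [hab] at this
    have := Module.finrank_zero_iff.mp this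
    exact Subsingleton.elim _ _
  have z1 : ∀ a b : L, hcount D cA.x cB.x a b ≠ 0 →
      ∃ f : OL cA cB hc a ⟶ OL cA cB hc b, f ≠ 0 := by
    intro a b hab
    by_contra hcon
    push_neg at hcon
    apply hab
    rw [← finrank_OL cA cB hc a b]
    haveI : Subsingleton (OL cA cB hc a ⟶ OL cA cB hc b) :=
      ⟨fun f g => by rw [hcon f, hcon g]⟩
    exact Module.finrank_zero_of_subsingleton
  have h := F.dim_two (k := k) (K2.regular cA cB hc eA eB) (p x) (p y₁) (p y₂)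
    (by rw [finrank_OL]; exact hy₁) (by rw [finrank_OL]; exact hy₂)
    (z0 _ _ h12) (z0 _ _ h21) (z1 _ _ hx1) (z1 _ _ hx2) (by rw [finrank_OL]; exact hx)
  rw [dimFn2_spec cA cB hc E F h1 x (p x), dimFn2_spec cA cB hc E F h1 y₁ (p y₁),
    dimFn2_spec cA cB hc E F h1 y₂ (p y₂), ← add_smul] at h
  exact scalar_inj h1 h

end
end H24PV
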