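import Pool.Agent.H24.PV.ZcDef
import Pool.Agent.H24.PV.DtG

/-!
# ZiDef: the sign argument, numerically

`DA` and `DB` are abstract fusion data on `Fin 7` with the fusion rules of the tables.
`partA`: `δ 1 ^ 2 = 2 + r` (`hn`), `1 ⊗ 1 = 0 + 2`, `1 ⊗ 2 = 1 + 3`; hence `δ 2 = 1 + r`,
`δ 3 = r * δ 1`, `δ 1 * δ 3 = r * (2 + r)`; with `hs : δ 1 * δ 3 = s * (1 + δ 2)` and
`2 + r ≠ 0` get `s = r`.
`partB`: `δ 1 * δ 5 = 2 - r`, `1 ⊗ 5 = 0 + 2`, `1 ⊗ 2 = 1 + 3`, `6 ⊗ 3 = 3`, `6 ⊗ 1 = 5`.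
-/

universe u

namespace H24PV
variable {k : Type u} [Field k]

theorem partA (δ : Fin 7 → k) (r s : k) (hr : r ^ 2 = 2) (h2 : (2 : k) ≠ 0)
    (h11 : δ 1 * δ 1 = 1 + δ 2) (h12 : δ 1 * δ 2 = δ 1 + δ 3)
    (hn : δ 1 * δ 1 = 2 + r) (hs : δ 1 * δ 3 = s * (1 + δ 2)) : s = r := by
  have e2 : δ 2 = 1 + r := by linear_combination hn - h11
  have e3 : δ 3 = r * δ 1 := by rw [e2] at h12; linear_combination -h12
  have hne : (2 + r) ≠ 0 := by
    intro h0
    apply h2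
    have : (2 + r) * (2 - r) = 2 := by linear_combination -hr
    rw [← this, h0, zero_mul]
  rw [e2, e3] at hs
  have h3 : (s - r) * (2 + r) = 0 := by linear_combination r * hn - hs
  rcases mul_eq_zero.mp h3 with h4 | h4
  · linear_combination h4
  · exact absurd h4 hne

theorem partB (δ : Fin 7 → k) (r s : k) (hr : r ^ 2 = 2) (h2 : (2 : k) ≠ 0)
    (h15 : δ 1 * δ 5 = 1 + δ 2) (h12 : δ 1 * δ 2 = δ 1 + δ 3) (h63 : δ 6 * δ 3 = δ 3)
    (h61 : δ 6 * δ 1 = δ 5)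
    (hn : δ 1 * δ 5 = 2 - r) (hs : δ 1 * δ 3 = s * (1 + δ 2)) : s = -r := by
  have hne : (2 - r) ≠ 0 := by
    intro h0
    apply h2
    have : (2 + r) * (2 - r) = 2 := by linear_combination -hr
    rw [← this, h0, mul_zero]
  have hr0 : r ≠ 0 := by
    intro h0
    apply h2
    rw [← hr, h0]; ring
  have hd1 : δ 1 ≠ 0 := by
    intro h0
    rw [h0, zero_mul] at hn
    exact hne hn.symm
  have e2 : δ 2 = 1 - r := by linear_combination hn - h15
  have e3 : δ 3 = -r * δ 1 := by rw [e2] at h12; linear_combination -h12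
  have hd3 : δ 3 ≠ 0 := by
    rw [e3]; exact mul_ne_zero (neg_ne_zero.mpr hr0) hd1
  have e6 : δ 6 = 1 := by
    have : (δ 6 - 1) * δ 3 = 0 := by linear_combination h63
    rcases mul_eq_zero.mp this with h4 | h4
    · linear_combination h4
    · exact absurd h4 hd3
  have e5 : δ 5 = δ 1 := by rw [← h61, e6, one_mul]
  rw [e5] at hn
  rw [e2, e3] at hs
  have h3 : (s + r) * (2 - r) = 0 := by linear_combination (-r) * hn - hs
  rcases mul_eq_zero.mp h3 with h4 | h4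
  · linear_combination h4
  · exact absurd h4 hne

theorem sign_contra (r s : k) (hr : r ^ 2 = 2) (h2 : (2 : k) ≠ 0) (h1 : s = r) (h1' : s = -r) :
    False := by
  have hr0 : r ≠ 0 := by
    intro h0
    apply h2
    rw [← hr, h0]; ring
  have : 2 * r = 0 := by linear_combination h1' - h1
  rcases mul_eq_zero.mp this with h4 | h4
  · exact h2 h4
  · exact hr0 h4

end H24PV
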