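import Pool.Agent.H24.PV.FzA
import Pool.Agent.H24.PV.FzC
import Pool.Agent.H24.PV.FzD
import Pool.Agent.H24.PV.ZiDef

/-!
# FzE: the crossed product, the two commuting central algebras, Hom counts
-/

open CategoryTheory MonoidalCategory

universe u

namespace H24PV

/-- The number of channels, on the tables. -/
noncomputable def cntN (x1 x2 x3 x4 x5 y1 y2 y3 y4 y5 : ℕ) : ℕ :=
  sumN 12 fun q => sumN 12 fun p => sumN 3 fun e =>
    cnd (andB (andB (andB (SA.N y1 (LA.x1 p) x1) (SA.N y2 (LA.x2 p) x2))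
      (andB (SB.N y4 (LB.x1 q) x4) (SB.N y5 (LB.x2 q) x5)))
      (andB (IS.N y3 (LB.x3 q) e) (IS.N e (LA.x3 p) x3))) 1 0

section
variable {k : Type u} [Field k] (z : k) (hz : z ^ 16 = -1) (h4 : (4 : k) ≠ 0)

/-- The crossed product. -/
noncomputable def T5 : FData k (L5 × Z4) := (D5 z hz h4).cross Z4 (S5 z hz h4)

/-- Duality of `D5`. -/
noncomputable def E5' : FDual (D5 z hz h4) :=
  ((SA.fdual z hz (by norm_num) h4 SA_ok SAd SAd_ok).prod
    (SA.fdual z hz (by norm_num) h4 SA_ok SAd SAd_ok)).prod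
  ((IS.fdual z hz (by norm_num) h4 IS_ok ISd ISd_ok).prod
    ((SB.fdual z hz (by norm_num) h4 SB_ok SBd SBd_ok).prod
      (SB.fdual z hz (by norm_num) h4 SB_ok SBd SBd_ok)))

/-- Duality of `T5`. -/
noncomputable def E5 : FDual (T5 z hz h4) :=
  (E5' z hz h4).cross Z4 (S5 z hz h4) (fun g x => by
    rw [act_eq, act_eq]; split_ifs <;> rfl)

variable (y : k) (hy : y ^ 2 = ev z hz (wd wS2)) (hy0 : y ≠ 0)

/-- The first central algebra. -/
noncomputable def cA : CData (T5 z hz h4) (Fin 12) :=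
  (QA z hz h4 y hy hy0).cdata (S5 z hz h4) (AA_comm z hz h4)
/-- The second central algebra. -/
noncomputable def cB : CData (T5 z hz h4) (Fin 12) :=
  (QB z hz h4 y hy hy0).cdata (S5 z hz h4) (AB_comm z hz h4)
/-- Casimir of the first algebra. -/
noncomputable def eA : CasData (cA z hz h4 y hy hy0) :=
  (QA z hz h4 y hy hy0).cas (S5 z hz h4) (AA_comm z hz h4)
/-- Casimir of the second algebra. -/
noncomputable def eB : CasData (cB z hz h4 y hy hy0) :=
  (QB z hz h4 y hy hy0).cas (S5 z hz h4) (AB_comm z hz h4)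

theorem RI97 (i j c : Fin 3) (hN : (DI z hz h4).N i j c = true) :
    (RI9 z hz h4).R i j c * (RI7 z hz h4).R j i c = 1 := by
  have hN' : IS.N i j c = true := hN
  have hN2 : IS.N j i c = true := by rw [← IS.N_comm IS9 IS9_ok.N i j c]; exact hN'
  have key : ∀ i j c : Fin 3, IS.N i j c = true → (IS9.lR i j c + IS7.lR j i c) % 32 = 0 := by
    decide +kernel
  have h32 : z ^ 32 = 1 := by
    calc z ^ 32 = (z ^ 16) ^ 2 := by ring
      _ = 1 := by rw [hz]; ring
  show ev z hz (if IS.N i j c = true then zp (IS9.lR i j c) else 0) *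
    ev z hz (if IS.N j i c = true then zp (IS7.lR j i c) else 0) = 1
  rw [if_pos hN', if_pos hN2, ev_zp, ev_zp, ← pow_add, pow_eq_pow_mod _ h32,
    key i j c hN', pow_zero]

theorem hcent : Centralize (cA z hz h4 y hy hy0).ccm (cB z hz h4 y hy hy0).ccm := by
  apply CData.centralize
  intro p p' q q' c
  show (QA z hz h4 y hy hy0).hC ((AB z hz h4).x q, 1) p p' c *
    (QB z hz h4 y hy hy0).hC ((AA z hz h4).x p', 1) q q' c = _
  simp only [EqAlg.hC, one_smul]
  have hN : (T5 z hz h4).N ((cA z hz h4 y hy hy0).x p) ((cB z hz h4 y hy hy0).x q) c =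
      ((D5 z hz h4).N ((AA z hz h4).x p) ((AB z hz h4).x q) c.1 && decide (c.2 = 1)) := by
    show ((D5 z hz h4).N ((AA z hz h4).x p) ((1 : Z4) • (AB z hz h4).x q) c.1 &&
      decide (c.2 = 1 * 1)) = _
    rw [one_smul, one_mul]
  rw [hN]
  by_cases hp : p = p'
  · subst hp
    by_cases hq : q = q'
    · subst hq
      by_cases hc : c.2 = 1
      · rw [if_pos ⟨hc, rfl⟩, if_pos ⟨hc, rfl⟩, EqAlg.lam_one, EqAlg.lam_one, mul_one, mul_one]
        by_cases hNN : (D5 z hz h4).N ((AA z hz h4).x p) ((AB z hz h4).x q) c.1 = true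
        · rw [if_pos ⟨rfl, rfl, by rw [hNN, hc]; rfl⟩]
          exact centr5 _ _ _ _ (RI97 z hz h4) _ _ _ hNN
        · rw [if_neg (fun h => hNN (by
            have := h.2.2
            rw [Bool.and_eq_true] at this
            exact this.1))]
          have : (BA z hz h4).R ((AA z hz h4).x p) ((AB z hz h4).x q) c.1 = 0 := by
            by_contra hne
            exact hNN ((BA z hz h4).R_supp hne)
          rw [this, zero_mul]
      · rw [if_neg (fun h => hc h.1), zero_mul, if_neg (fun h => hc (by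
          have := h.2.2
          rw [Bool.and_eq_true] at this
          simpa using this.2))]
    · rw [if_neg (c := c.2 = 1 ∧ q = q') (fun h => hq h.2), mul_zero,
        if_neg (fun h => hq h.2.1)]
  · rw [if_neg (c := c.2 = 1 ∧ p = p') (fun h => hp h.2), zero_mul, if_neg (fun h => hp h.1)]

theorem hcount_cnt (x x' : L5) :
    hcount (T5 z hz h4) (cA z hz h4 y hy hy0).x (cB z hz h4 y hy hy0).x (x, 1) (x', 1) =
      cntN x.1.1 x.1.2 x.2.1 x.2.2.1 x.2.2.2 x'.1.1 x'.1.2 x'.2.1 x'.2.2.1 x'.2.2.2 := by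
  have h1 : hcount (T5 z hz h4) (cA z hz h4 y hy hy0).x (cB z hz h4 y hy hy0).x (x, 1) (x', 1) =
      hcount (D5 z hz h4) (AA z hz h4).x (AB z hz h4).x x x' :=
    hcount_crs (D5 z hz h4) (S5 z hz h4) _ _ x x'
  rw [h1]
  have h2 := hcount5 ((DA z hz h4).prod (DA z hz h4)) (DI z hz h4)
    ((DB z hz h4).prod (DB z hz h4)) (algA z hz h4).x (algB z hz h4).x x x'
  refine h2.trans ?_
  rw [cntN, ← sumN_eq]
  apply Finset.sum_congr rfl
  intro q _
  rw [← sumN_eq]
  apply Finset.sum_congr rfl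
  intro p _
  rw [← sumN_eq]
  apply Finset.sum_congr rfl
  intro e _
  rw [cnd_eq]
  apply if_congr _ rfl rfl
  rw [andB_iff, andB_iff, andB_iff, andB_iff, andB_iff]
  have e1 : (((DA z hz h4).prod (DA z hz h4)).N x'.1 ((algA z hz h4).x p).1 x.1 = true ↔
      SA.N x'.1.1 (LA.x1 p) x.1.1 = true ∧ SA.N x'.1.2 (LA.x2 p) x.1.2 = true) :=
    Bool.and_eq_true_iff
  have e2 : (((DB z hz h4).prod (DB z hz h4)).N x'.2.2 ((algB z hz h4).x q).1 x.2.2 = true ↔
      SB.N x'.2.2.1 (LB.x1 q) x.2.2.1 = true ∧ SB.N x'.2.2.2 (LB.x2 q) x.2.2.2 = true) :=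
    Bool.and_eq_true_iff
  rw [e1, e2]
  rfl

end
end H24PV
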