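import Pool.Agent.H24.PV.FzE

/-!
# FzF: the sign argument
-/

open CategoryTheory MonoidalCategory CategoryTheory.Idempotents

universe u

namespace H24PV

section
variable {k : Type u} [Field k] (z : k) (hz : z ^ 16 = -1) (h4 : (4 : k) ≠ 0)

theorem r_sq : (ev z hz (wd wS2)) ^ 2 = 2 := by
  have h := Rep.ev_eq z hz ((rep_wd wS2).mulM (rep_wd wS2)) (Rep.nat 2) (by decide +kernel)
    (by decide +kernel)
  rw [map_mul, map_natCast] at h
  rw [pow_two, h]; norm_num

theorem evc_word (E : ℕ) (h4 : (4 : k) ≠ 0) (h : eqM (kv E) 4 = true) :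
    ev z hz (wd E) * (4 : k)⁻¹ = 1 := by
  have h := Rep.ev_eq z hz (rep_wd E) (Rep.nat 4) (by decide +kernel) h
  rw [map_natCast] at h
  rw [h]
  push_cast
  exact mul_inv_cancel₀ h4

theorem inv16 (h4 : (4 : k) ≠ 0) : (16 : k) * ((4 : k)⁻¹ * (4 : k)⁻¹) = 1 := by
  have h : (16 : k) = 4 * 4 := by norm_num
  rw [h, mul_mul_mul_comm, mul_inv_cancel₀ h4, one_mul]

include h4 in
theorem evcA : (ev z hz (wd (SAd.lE 1)) * (4 : k)⁻¹) * (ev z hz (wd (SAd.lE 1)) * (4 : k)⁻¹) =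
    2 + ev z hz (wd wS2) := by
  have h := Rep.ev_eq z hz ((rep_wd (SAd.lE 1)).mulM (rep_wd (SAd.lE 1)))
    ((Rep.nat 16).mul ((Rep.nat 2).add (rep_wd wS2))) (by decide +kernel) (by decide +kernel)
  rw [map_mul, map_mul, map_add, map_natCast, map_natCast] at h
  rw [mul_mul_mul_comm, h]
  push_cast
  linear_combination (2 + ev z hz (wd wS2)) * inv16 h4

include h4 in
theorem evcB : (ev z hz (wd (SBd.lE 1)) * (4 : k)⁻¹) * (ev z hz (wd (SBd.lE 5)) * (4 : k)⁻¹) =
    2 - ev z hz (wd wS2) := by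
  have h := Rep.ev_eq z hz (((rep_wd (SBd.lE 1)).mulM (rep_wd (SBd.lE 5))).add
    ((Rep.nat 16).mul (rep_wd wS2))) (Rep.nat 32) (by decide +kernel) (by decide +kernel)
  rw [map_add, map_mul, map_mul, map_natCast, map_natCast] at h
  push_cast at h
  rw [mul_mul_mul_comm]
  linear_combination ((4 : k)⁻¹ * (4 : k)⁻¹) * h + (2 - ev z hz (wd wS2)) * inv16 h4

variable (y : k) (hy : y ^ 2 = ev z hz (wd wS2)) (hy0 : y ≠ 0)

/-- The labels of `D5` as labels of the crossed product. -/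
abbrev lb5 (x : L5) : L5 × Z4 := (x, 1)

theorem end_unit : Module.finrank k
    (𝟙_ (K2 (cA z hz h4 y hy hy0) (cB z hz h4 y hy hy0) (hcent z hz h4 y hy hy0)) ⟶
      𝟙_ (K2 (cA z hz h4 y hy hy0) (cB z hz h4 y hy hy0) (hcent z hz h4 y hy hy0))) = 1 := by
  rw [finrank_unit_OL]
  exact (hcount_cnt z hz h4 y hy hy0 ((0, 0), (0, (0, 0))) ((0, 0), (0, (0, 0)))).trans
    (by decide +kernel)

theorem dual5 (x : L5) : (E5 z hz h4).dual (x, 1) = ((E5' z hz h4).dual x, 1) := by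
  show (((1 : Z4)⁻¹ • (E5' z hz h4).dual x, (1 : Z4)⁻¹) : L5 × Z4) = _
  rw [inv_one, one_smul]

theorem evc5 (x : L5) : (E5 z hz h4).evc (x, 1) = (E5' z hz h4).evc x := rfl

include h4 in
theorem evcA0 : ev z hz (wd (SAd.lE 0)) * (4 : k)⁻¹ = 1 := evc_word z hz _ h4 (by decide +kernel)
include h4 in
theorem evcB0 : ev z hz (wd (SBd.lE 0)) * (4 : k)⁻¹ = 1 := evc_word z hz _ h4 (by decide +kernel)
include h4 in
theorem evcI0 : ev z hz (wd (ISd.lE 0)) * (4 : k)⁻¹ = 1 := evc_word z hz _ h4 (by decide +kernel)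

/-- There is no flip on the iterated Kleisli category. -/
theorem no_flip (h2 : (2 : k) ≠ 0)
    (F : Flip (K2 (cA z hz h4 y hy hy0) (cB z hz h4 y hy hy0) (hcent z hz h4 y hy hy0))) :
    False := by
  set r := ev z hz (wd wS2) with hr
  let T := dimFn2 _ _ _ (E5 z hz h4) F (end_unit z hz h4 y hy hy0)
  -- dimension functions of the factors
  let T5' : DimFn (D5 z hz h4) := T.pull (FEmb.crs (D5 z hz h4) (S5 z hz h4))
  let TAA : DimFn ((DA z hz h4).prod (DA z hz h4)) := T5'.pull (FEmb.inl _ _)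
  let TA : DimFn (DA z hz h4) := TAA.pull (FEmb.inl _ _)
  let TR : DimFn ((DI z hz h4).prod ((DB z hz h4).prod (DB z hz h4))) :=
    T5'.pull (FEmb.inr _ _)
  let TBB : DimFn ((DB z hz h4).prod (DB z hz h4)) := TR.pull (FEmb.inr _ _)
  let TB : DimFn (DB z hz h4) := TBB.pull (FEmb.inl _ _)
  have hmulA : ∀ a b : Fin 7, TA.δ a * TA.δ b = ∑ c : Fin 7,
      if SA.N a b c = true then TA.δ c else 0 := fun a b => TA.mul a b
  have hmulB : ∀ a b : Fin 7, TB.δ a * TB.δ b = ∑ c : Fin 7,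
      if SB.N a b c = true then TB.δ c else 0 := fun a b => TB.mul a b
  have oneA : TA.δ 0 = 1 := TA.one
  have oneB : TB.δ 0 = 1 := TB.one
  have conj : ∀ x : L5, T5'.δ (Inv2.s x) = T5'.δ x := fun x =>
    DimFn.conj (S5 z hz h4) T Z4.gen x
  have hcnt := hcount_cnt z hz h4 y hy hy0
  have sA : T5'.δ ((0, 0), (2, (0, 0))) = r := by
    apply partA TA.δ r _ (r_sq z hz) h2
    · have key : ∀ c : Fin 7, SA.N (1 : Fin 7) (1 : Fin 7) c = decide (c = 0 ∨ c = 2) := by
        decide +kernel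
      rw [hmulA]
      simp only [key]
      simp [Fin.sum_univ_succ, oneA]
    · have key : ∀ c : Fin 7, SA.N (1 : Fin 7) (2 : Fin 7) c = decide (c = 1 ∨ c = 3) := by
        decide +kernel
      rw [hmulA]
      simp only [key]
      simp [Fin.sum_univ_succ]
    · have hd : (E5' z hz h4).dual ((1, 0), (0, (0, 0))) = ((1, 0), (0, (0, 0))) := by
        refine Prod.ext (Prod.ext (Fin.ext ?_) (Fin.ext ?_)) (Prod.ext (Fin.ext ?_)
          (Prod.ext (Fin.ext ?_) (Fin.ext ?_)))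
        · show SAd.du 1 = 1
          decide +kernel
        · show SAd.du 0 = 0
          decide +kernel
        · show ISd.du 0 = 0
          decide +kernel
        · show SBd.du 0 = 0
          decide +kernel
        · show SBd.du 0 = 0
          decide +kernel
      have h := dim_sqnorm _ _ _ (E5 z hz h4) F (end_unit z hz h4 y hy hy0)
        (((1, 0), (0, (0, 0))), 1)
        ((hcnt ((1, 0), (0, (0, 0))) ((1, 0), (0, (0, 0)))).trans (by decide +kernel))
        (by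
          rw [dual5, hd]
          exact (hcnt ((1, 0), (0, (0, 0))) ((1, 0), (0, (0, 0)))).trans (by decide +kernel))
      rw [dual5, hd] at h
      refine h.trans ?_
      show (((ev z hz (wd (SAd.lE 1)) * (4 : k)⁻¹) * (ev z hz (wd (SAd.lE 0)) * (4 : k)⁻¹)) *
        ((ev z hz (wd (ISd.lE 0)) * (4 : k)⁻¹) * ((ev z hz (wd (SBd.lE 0)) * (4 : k)⁻¹) *
          (ev z hz (wd (SBd.lE 0)) * (4 : k)⁻¹)))) *
        (((ev z hz (wd (SAd.lE 1)) * (4 : k)⁻¹) * (ev z hz (wd (SAd.lE 0)) * (4 : k)⁻¹)) *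
        ((ev z hz (wd (ISd.lE 0)) * (4 : k)⁻¹) * ((ev z hz (wd (SBd.lE 0)) * (4 : k)⁻¹) *
          (ev z hz (wd (SBd.lE 0)) * (4 : k)⁻¹)))) = 2 + r
      rw [evcA0 z hz h4, evcB0 z hz h4, evcI0 z hz h4]
      simp only [mul_one]
      exact evcA z hz h4
    · have c1 : TA.δ 3 = T5'.δ ((0, 3), (0, (0, 0))) := (conj ((0, 3), (0, (0, 0))))
      have c2 : T5'.δ ((1, 3), (0, (0, 0))) = TA.δ 1 * T5'.δ ((0, 3), (0, (0, 0))) :=
        TAA.prod_eq 1 3
      have c3 : T5'.δ ((2, 0), (2, (0, 0))) = TA.δ 2 * T5'.δ ((0, 0), (2, (0, 0))) :=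
        T5'.prod_eq (2, 0) (2, (0, 0))
      have c4 : T5'.δ ((1, 3), (0, (0, 0))) = T5'.δ ((0, 0), (2, (0, 0))) +
          T5'.δ ((2, 0), (2, (0, 0))) :=
        dim_two_OL _ _ _ (E5 z hz h4) F (eA z hz h4 y hy hy0) (eB z hz h4 y hy hy0)
          (end_unit z hz h4 y hy hy0) (((1, 3), (0, (0, 0))), 1) (((0, 0), (2, (0, 0))), 1)
          (((2, 0), (2, (0, 0))), 1)
          ((hcnt ((1, 3), (0, (0, 0))) ((1, 3), (0, (0, 0)))).trans (by decide +kernel))
          ((hcnt ((0, 0), (2, (0, 0))) ((0, 0), (2, (0, 0)))).trans (by decide +kernel))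
          ((hcnt ((2, 0), (2, (0, 0))) ((2, 0), (2, (0, 0)))).trans (by decide +kernel))
          ((hcnt ((0, 0), (2, (0, 0))) ((2, 0), (2, (0, 0)))).trans (by decide +kernel))
          ((hcnt ((2, 0), (2, (0, 0))) ((0, 0), (2, (0, 0)))).trans (by decide +kernel))
          (by rw [hcnt]; decide +kernel) (by rw [hcnt]; decide +kernel)
      rw [c1, ← c2, c4, c3]
      ring
  have sB : T5'.δ ((0, 0), (2, (0, 0))) = -r := by
    apply partB TB.δ r _ (r_sq z hz) h2
    · have key : ∀ c : Fin 7, SB.N (1 : Fin 7) (5 : Fin 7) c = decide (c = 0 ∨ c = 2) := by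
        decide +kernel
      rw [hmulB]
      simp only [key]
      simp [Fin.sum_univ_succ, oneB]
    · have key : ∀ c : Fin 7, SB.N (1 : Fin 7) (2 : Fin 7) c = decide (c = 1 ∨ c = 3) := by
        decide +kernel
      rw [hmulB]
      simp only [key]
      simp [Fin.sum_univ_succ]
    · have key : ∀ c : Fin 7, SB.N (6 : Fin 7) (3 : Fin 7) c = decide (c = 3) := by
        decide +kernel
      rw [hmulB]
      simp only [key]
      simp [Fin.sum_univ_succ]
    · have key : ∀ c : Fin 7, SB.N (6 : Fin 7) (1 : Fin 7) c = decide (c = 5) := by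
        decide +kernel
      rw [hmulB]
      simp only [key]
      simp [Fin.sum_univ_succ]
    · have hd : (E5' z hz h4).dual ((0, 0), (0, (1, 0))) = ((0, 0), (0, (5, 0))) := by
        refine Prod.ext (Prod.ext (Fin.ext ?_) (Fin.ext ?_)) (Prod.ext (Fin.ext ?_)
          (Prod.ext (Fin.ext ?_) (Fin.ext ?_)))
        · show SAd.du 0 = 0
          decide +kernel
        · show SAd.du 0 = 0
          decide +kernel
        · show ISd.du 0 = 0
          decide +kernel
        · show SBd.du 1 = 5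
          decide +kernel
        · show SBd.du 0 = 0
          decide +kernel
      have h := dim_sqnorm _ _ _ (E5 z hz h4) F (end_unit z hz h4 y hy hy0)
        (((0, 0), (0, (1, 0))), 1)
        ((hcnt ((0, 0), (0, (1, 0))) ((0, 0), (0, (1, 0)))).trans (by decide +kernel))
        (by
          rw [dual5, hd]
          exact (hcnt ((0, 0), (0, (5, 0))) ((0, 0), (0, (5, 0)))).trans (by decide +kernel))
      rw [dual5, hd] at h
      refine h.trans ?_
      show (((ev z hz (wd (SAd.lE 0)) * (4 : k)⁻¹) * (ev z hz (wd (SAd.lE 0)) * (4 : k)⁻¹)) *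
        ((ev z hz (wd (ISd.lE 0)) * (4 : k)⁻¹) * ((ev z hz (wd (SBd.lE 1)) * (4 : k)⁻¹) *
          (ev z hz (wd (SBd.lE 0)) * (4 : k)⁻¹)))) *
        (((ev z hz (wd (SAd.lE 0)) * (4 : k)⁻¹) * (ev z hz (wd (SAd.lE 0)) * (4 : k)⁻¹)) *
        ((ev z hz (wd (ISd.lE 0)) * (4 : k)⁻¹) * ((ev z hz (wd (SBd.lE 5)) * (4 : k)⁻¹) *
          (ev z hz (wd (SBd.lE 0)) * (4 : k)⁻¹)))) = 2 - r
      rw [evcA0 z hz h4, evcB0 z hz h4, evcI0 z hz h4]
      simp only [mul_one, one_mul]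
      exact evcB z hz h4
    · have c1 : TB.δ 3 = T5'.δ ((0, 0), (0, (0, 3))) := (conj ((0, 0), (0, (0, 3))))
      have c2 : T5'.δ ((0, 0), (0, (1, 3))) = TB.δ 1 * T5'.δ ((0, 0), (0, (0, 3))) :=
        TBB.prod_eq 1 3
      have c3 : T5'.δ ((0, 0), (2, (2, 0))) = T5'.δ ((0, 0), (2, (0, 0))) * TB.δ 2 :=
        TR.prod_eq 2 (2, 0)
      have c4 : T5'.δ ((0, 0), (0, (1, 3))) = T5'.δ ((0, 0), (2, (0, 0))) +
          T5'.δ ((0, 0), (2, (2, 0))) :=
        dim_two_OL _ _ _ (E5 z hz h4) F (eA z hz h4 y hy hy0) (eB z hz h4 y hy hy0)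
          (end_unit z hz h4 y hy hy0) (((0, 0), (0, (1, 3))), 1) (((0, 0), (2, (0, 0))), 1)
          (((0, 0), (2, (2, 0))), 1)
          ((hcnt ((0, 0), (0, (1, 3))) ((0, 0), (0, (1, 3)))).trans (by decide +kernel))
          ((hcnt ((0, 0), (2, (0, 0))) ((0, 0), (2, (0, 0)))).trans (by decide +kernel))
          ((hcnt ((0, 0), (2, (2, 0))) ((0, 0), (2, (2, 0)))).trans (by decide +kernel))
          ((hcnt ((0, 0), (2, (0, 0))) ((0, 0), (2, (2, 0)))).trans (by decide +kernel))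
          ((hcnt ((0, 0), (2, (2, 0))) ((0, 0), (2, (0, 0)))).trans (by decide +kernel))
          (by rw [hcnt]; decide +kernel) (by rw [hcnt]; decide +kernel)
      rw [c1, ← c2, c4, c3]
      ring
  exact sign_contra r _ (r_sq z hz) h2 sA sB

end
end H24PV
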