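import Pool.Agent.H24.PV.FzF

/-!
# FzG: the theorem
-/

open CategoryTheory MonoidalCategory CategoryTheory.Idempotents

universe u

namespace H24PV

/-- The fusion category. -/
noncomputable def theFusionCat {k : Type u} [Field k] (z : k) (hz : z ^ 16 = -1)
    (h4 : (4 : k) ≠ 0) (y : k) (hy : y ^ 2 = ev z hz (wd wS2)) (hy0 : y ≠ 0) :
    FusionCat.{u, u, max 1 u} k :=
  mkFusion (cA z hz h4 y hy hy0) (cB z hz h4 y hy hy0) (hcent z hz h4 y hy hy0)
    (eA z hz h4 y hy hy0) (eB z hz h4 y hy hy0) (E5 z hz h4) (end_unit z hz h4 y hy hy0)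

theorem no_pivotal {k : Type u} [Field k] (z : k) (hz : z ^ 16 = -1)
    (h4 : (4 : k) ≠ 0) (y : k) (hy : y ^ 2 = ev z hz (wd wS2)) (hy0 : y ≠ 0)
    (h2 : (2 : k) ≠ 0) (P : PivotalStructure (theFusionCat z hz h4 y hy hy0).C) : False := by
  letI := K2.rigid (cA z hz h4 y hy hy0) (cB z hz h4 y hy hy0) (hcent z hz h4 y hy hy0)
    (E5 z hz h4)
  letI : RigidCategory (Karoubi (K2 (cA z hz h4 y hy hy0) (cB z hz h4 y hy hy0)
    (hcent z hz h4 y hy hy0))) := Ka.rigid
  have P' : PivotalStructure (Karoubi (K2 (cA z hz h4 y hy hy0) (cB z hz h4 y hy hy0)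
    (hcent z hz h4 y hy hy0))) := P
  exact no_flip z hz h4 y hy hy0 h2 P'.flip.restrict

/-- Over every algebraically closed field of characteristic `≠ 2` there is a fusion category
without any pivotal structure. -/
theorem exists_no_pivotal (k : Type u) [Field k] [IsAlgClosed k] (h2 : (2 : k) ≠ 0) :
    ∃ F : FusionCat.{u, u, max 1 u} k, IsEmpty (PivotalStructure F.C) ∧
      IsEmpty (SphericalStructure F.C) := by
  have h4 : (4 : k) ≠ 0 := by
    have : (4 : k) = 2 * 2 := by norm_num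
    rw [this]; exact mul_ne_zero h2 h2
  obtain ⟨z, hz⟩ := IsAlgClosed.exists_pow_nat_eq (-1 : k) (n := 16) (by norm_num)
  obtain ⟨y, hy⟩ := IsAlgClosed.exists_pow_nat_eq (ev z hz (wd wS2)) (n := 2) (by norm_num)
  have hy0 : y ≠ 0 := by
    intro h0
    apply h2
    rw [← r_sq z hz, ← hy, h0]; ring
  exact ⟨theFusionCat z hz h4 y hy hy0, ⟨fun P => no_pivotal z hz h4 y hy hy0 h2 P⟩,
    ⟨fun P => no_pivotal z hz h4 y hy hy0 h2 P.toPivotalStructure⟩⟩

end H24PV
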