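import Mathlib

/-!
# KaB: the Karoubi envelope of a monoidal category is monoidal

Objects `(X, p)`, `(X, p) ⊗ (Y, q) = (X ⊗ Y, p ⊗ₘ q)`; all structure morphisms are those of `C`
composed with the idempotents.  Proofs: `ext`, `show` an equation in `C`, then
`tensorHom_comp_tensorHom`, `associator_naturality`, `leftUnitor_naturality`, `P.idem`,
`Karoubi.p_comp`, `Karoubi.comp_p`, and the pentagon / triangle of `C`.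
(`simp` may loop with `← leftUnitor_naturality`; use `rw` or `simp only`.)
-/

open CategoryTheory MonoidalCategory CategoryTheory.Idempotents

universe v w

namespace H24PV
namespace Ka
variable {C : Type w} [Category.{v} C] [MonoidalCategory C]

/-- Tensor product in the Karoubi envelope. -/
def tObj (P Q : Karoubi C) : Karoubi C where
  X := P.X ⊗ Q.X
  p := P.p ⊗ₘ Q.p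
  idem := by rw [tensorHom_comp_tensorHom, P.idem, Q.idem]

/-- Tensor product of morphisms in the Karoubi envelope. -/
def tHom {P P' Q Q' : Karoubi C} (f : P ⟶ P') (g : Q ⟶ Q') : tObj P Q ⟶ tObj P' Q' where
  f := f.f ⊗ₘ g.f
  comm := by
    show (P.p ⊗ₘ Q.p) ≫ (f.f ⊗ₘ g.f) ≫ (P'.p ⊗ₘ Q'.p) = _
    rw [tensorHom_comp_tensorHom, tensorHom_comp_tensorHom, f.comm, g.comm]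

@[reassoc]
theorem idem2 (P Q : Karoubi C) : (P.p ⊗ₘ Q.p) ≫ (P.p ⊗ₘ Q.p) = (P.p ⊗ₘ Q.p) := by
  rw [tensorHom_comp_tensorHom, P.idem, Q.idem]

@[reassoc]
theorem idem3 (P Q R : Karoubi C) :
    ((P.p ⊗ₘ Q.p) ⊗ₘ R.p) ≫ ((P.p ⊗ₘ Q.p) ⊗ₘ R.p) = ((P.p ⊗ₘ Q.p) ⊗ₘ R.p) := by
  rw [tensorHom_comp_tensorHom, idem2, R.idem]

@[reassoc]
theorem idem3' (P Q R : Karoubi C) :
    (P.p ⊗ₘ (Q.p ⊗ₘ R.p)) ≫ (P.p ⊗ₘ (Q.p ⊗ₘ R.p)) = (P.p ⊗ₘ (Q.p ⊗ₘ R.p)) := by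
  rw [tensorHom_comp_tensorHom, idem2, P.idem]

@[reassoc]
theorem lam_nat {X Y : C} (f : X ⟶ Y) : (𝟙 (𝟙_ C) ⊗ₘ f) ≫ (λ_ Y).hom = (λ_ X).hom ≫ f := by
  rw [id_tensorHom, leftUnitor_naturality]

@[reassoc]
theorem lam_inv_nat {X Y : C} (f : X ⟶ Y) :
    (λ_ X).inv ≫ (𝟙 (𝟙_ C) ⊗ₘ f) = f ≫ (λ_ Y).inv := by
  rw [id_tensorHom, leftUnitor_inv_naturality]

@[reassoc]
theorem rho_nat {X Y : C} (f : X ⟶ Y) : (f ⊗ₘ 𝟙 (𝟙_ C)) ≫ (ρ_ Y).hom = (ρ_ X).hom ≫ f := by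
  rw [tensorHom_id, rightUnitor_naturality]

@[reassoc]
theorem rho_inv_nat {X Y : C} (f : X ⟶ Y) :
    (ρ_ X).inv ≫ (f ⊗ₘ 𝟙 (𝟙_ C)) = f ≫ (ρ_ Y).inv := by
  rw [tensorHom_id, rightUnitor_inv_naturality]

/-- Associator in the Karoubi envelope. -/
def assoc (P Q R : Karoubi C) : tObj (tObj P Q) R ≅ tObj P (tObj Q R) where
  hom := { f := ((P.p ⊗ₘ Q.p) ⊗ₘ R.p) ≫ (α_ P.X Q.X R.X).hom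
           comm := by
             show ((P.p ⊗ₘ Q.p) ⊗ₘ R.p) ≫ (((P.p ⊗ₘ Q.p) ⊗ₘ R.p) ≫ (α_ P.X Q.X R.X).hom) ≫
               (P.p ⊗ₘ (Q.p ⊗ₘ R.p)) = _
             rw [Category.assoc, ← associator_naturality, idem3_assoc, idem3_assoc]
             rfl }
  inv := { f := (P.p ⊗ₘ (Q.p ⊗ₘ R.p)) ≫ (α_ P.X Q.X R.X).inv
           comm := by
             show (P.p ⊗ₘ (Q.p ⊗ₘ R.p)) ≫ ((P.p ⊗ₘ (Q.p ⊗ₘ R.p)) ≫ (α_ P.X Q.X R.X).inv) ≫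
               ((P.p ⊗ₘ Q.p) ⊗ₘ R.p) = _
             rw [Category.assoc, ← associator_inv_naturality, idem3'_assoc, idem3'_assoc]
             rfl }
  hom_inv_id := by
    ext
    show (((P.p ⊗ₘ Q.p) ⊗ₘ R.p) ≫ (α_ P.X Q.X R.X).hom) ≫ ((P.p ⊗ₘ (Q.p ⊗ₘ R.p)) ≫
      (α_ P.X Q.X R.X).inv) = ((P.p ⊗ₘ Q.p) ⊗ₘ R.p)
    rw [associator_inv_naturality, Category.assoc, Iso.hom_inv_id_assoc, idem3]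
  inv_hom_id := by
    ext
    show ((P.p ⊗ₘ (Q.p ⊗ₘ R.p)) ≫ (α_ P.X Q.X R.X).inv) ≫ (((P.p ⊗ₘ Q.p) ⊗ₘ R.p) ≫
      (α_ P.X Q.X R.X).hom) = (P.p ⊗ₘ (Q.p ⊗ₘ R.p))
    rw [associator_naturality, Category.assoc, Iso.inv_hom_id_assoc, idem3']

/-- Left unitor in the Karoubi envelope. -/
def lam (P : Karoubi C) : tObj ((toKaroubi C).obj (𝟙_ C)) P ≅ P where
  hom := { f := (λ_ P.X).hom ≫ P.p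
           comm := by
             show (𝟙 (𝟙_ C) ⊗ₘ P.p) ≫ ((λ_ P.X).hom ≫ P.p) ≫ P.p = _
             rw [Category.assoc, P.idem, lam_nat_assoc, P.idem]
             rfl }
  inv := { f := P.p ≫ (λ_ P.X).inv
           comm := by
             show P.p ≫ (P.p ≫ (λ_ P.X).inv) ≫ (𝟙 (𝟙_ C) ⊗ₘ P.p) = _
             rw [Category.assoc, lam_inv_nat, P.idem_assoc, P.idem_assoc]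
             rfl }
  hom_inv_id := by
    ext
    show ((λ_ P.X).hom ≫ P.p) ≫ (P.p ≫ (λ_ P.X).inv) = (𝟙 (𝟙_ C) ⊗ₘ P.p)
    rw [Category.assoc, P.idem_assoc, ← lam_inv_nat, Iso.hom_inv_id_assoc]
  inv_hom_id := by
    ext
    show (P.p ≫ (λ_ P.X).inv) ≫ ((λ_ P.X).hom ≫ P.p) = P.p
    rw [Category.assoc, Iso.inv_hom_id_assoc, P.idem]

/-- Right unitor in the Karoubi envelope. -/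
def rho (P : Karoubi C) : tObj P ((toKaroubi C).obj (𝟙_ C)) ≅ P where
  hom := { f := (ρ_ P.X).hom ≫ P.p
           comm := by
             show (P.p ⊗ₘ 𝟙 (𝟙_ C)) ≫ ((ρ_ P.X).hom ≫ P.p) ≫ P.p = _
             rw [Category.assoc, P.idem, rho_nat_assoc, P.idem]
             rfl }
  inv := { f := P.p ≫ (ρ_ P.X).inv
           comm := by
             show P.p ≫ (P.p ≫ (ρ_ P.X).inv) ≫ (P.p ⊗ₘ 𝟙 (𝟙_ C)) = _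
             rw [Category.assoc, rho_inv_nat, P.idem_assoc, P.idem_assoc]
             rfl }
  hom_inv_id := by
    ext
    show ((ρ_ P.X).hom ≫ P.p) ≫ (P.p ≫ (ρ_ P.X).inv) = (P.p ⊗ₘ 𝟙 (𝟙_ C))
    rw [Category.assoc, P.idem_assoc, ← rho_inv_nat, Iso.hom_inv_id_assoc]
  inv_hom_id := by
    ext
    show (P.p ≫ (ρ_ P.X).inv) ≫ ((ρ_ P.X).hom ≫ P.p) = P.p
    rw [Category.assoc, Iso.inv_hom_id_assoc, P.idem]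

instance : MonoidalCategoryStruct (Karoubi C) where
  tensorObj P Q := tObj P Q
  tensorHom f g := tHom f g
  whiskerLeft P _ _ g := tHom (𝟙 P) g
  whiskerRight f Q := tHom f (𝟙 Q)
  tensorUnit := (toKaroubi C).obj (𝟙_ C)
  associator P Q R := assoc P Q R
  leftUnitor P := lam P
  rightUnitor P := rho P

theorem tensor_X (P Q : Karoubi C) : (P ⊗ Q).X = P.X ⊗ Q.X := rfl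
theorem tensor_p (P Q : Karoubi C) : (P ⊗ Q).p = (P.p ⊗ₘ Q.p) := rfl
theorem tensorHom_f {P P' Q Q' : Karoubi C} (f : P ⟶ P') (g : Q ⟶ Q') :
    (f ⊗ₘ g).f = (f.f ⊗ₘ g.f) := rfl
theorem wl_f (P : Karoubi C) {Q Q' : Karoubi C} (g : Q ⟶ Q') : (P ◁ g).f = (P.p ⊗ₘ g.f) := rfl
theorem wr_f {P P' : Karoubi C} (f : P ⟶ P') (Q : Karoubi C) : (f ▷ Q).f = (f.f ⊗ₘ Q.p) := rfl
theorem unit_X : (𝟙_ (Karoubi C)).X = 𝟙_ C := rfl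
theorem unit_p : (𝟙_ (Karoubi C)).p = 𝟙 (𝟙_ C) := rfl
theorem assoc_f (P Q R : Karoubi C) :
    (α_ P Q R).hom.f = ((P.p ⊗ₘ Q.p) ⊗ₘ R.p) ≫ (α_ P.X Q.X R.X).hom := rfl
theorem assoc_inv_f (P Q R : Karoubi C) :
    (α_ P Q R).inv.f = (P.p ⊗ₘ (Q.p ⊗ₘ R.p)) ≫ (α_ P.X Q.X R.X).inv := rfl
theorem lam_f (P : Karoubi C) : (λ_ P).hom.f = (λ_ P.X).hom ≫ P.p := rfl
theorem rho_f (P : Karoubi C) : (ρ_ P).hom.f = (ρ_ P.X).hom ≫ P.p := rfl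
theorem lam_inv_f (P : Karoubi C) : (λ_ P).inv.f = P.p ≫ (λ_ P.X).inv := rfl
theorem rho_inv_f (P : Karoubi C) : (ρ_ P).inv.f = P.p ≫ (ρ_ P.X).inv := rfl

theorem pent (W X Y Z : Karoubi C) :
    ((((W.p ⊗ₘ X.p) ⊗ₘ Y.p) ≫ (α_ W.X X.X Y.X).hom) ⊗ₘ Z.p) ≫
        (((W.p ⊗ₘ (X.p ⊗ₘ Y.p)) ⊗ₘ Z.p) ≫ (α_ W.X (X.X ⊗ Y.X) Z.X).hom) ≫
          (W.p ⊗ₘ (((X.p ⊗ₘ Y.p) ⊗ₘ Z.p) ≫ (α_ X.X Y.X Z.X).hom)) =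
        ((((W.p ⊗ₘ X.p) ⊗ₘ Y.p) ⊗ₘ Z.p) ≫ (α_ (W.X ⊗ X.X) Y.X Z.X).hom) ≫
          (((W.p ⊗ₘ X.p) ⊗ₘ (Y.p ⊗ₘ Z.p)) ≫ (α_ W.X X.X (Y.X ⊗ Z.X)).hom) := by
  have e1 : ((((W.p ⊗ₘ X.p) ⊗ₘ Y.p) ≫ (α_ W.X X.X Y.X).hom) ⊗ₘ Z.p) =
      (((W.p ⊗ₘ X.p) ⊗ₘ Y.p) ⊗ₘ Z.p) ≫ ((α_ W.X X.X Y.X).hom ⊗ₘ 𝟙 Z.X) := by
    rw [tensorHom_comp_tensorHom, Category.comp_id]
  have e2 : (W.p ⊗ₘ (((X.p ⊗ₘ Y.p) ⊗ₘ Z.p) ≫ (α_ X.X Y.X Z.X).hom)) =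
      (W.p ⊗ₘ ((X.p ⊗ₘ Y.p) ⊗ₘ Z.p)) ≫ (𝟙 W.X ⊗ₘ (α_ X.X Y.X Z.X).hom) := by
    rw [tensorHom_comp_tensorHom, Category.comp_id]
  have e3 : ((α_ W.X X.X Y.X).hom ⊗ₘ 𝟙 Z.X) ≫ ((W.p ⊗ₘ (X.p ⊗ₘ Y.p)) ⊗ₘ Z.p) =
      (((W.p ⊗ₘ X.p) ⊗ₘ Y.p) ⊗ₘ Z.p) ≫ ((α_ W.X X.X Y.X).hom ⊗ₘ 𝟙 Z.X) := by
    rw [tensorHom_comp_tensorHom, tensorHom_comp_tensorHom, associator_naturality,
      Category.id_comp, Category.comp_id]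
  have e4 : (α_ W.X (X.X ⊗ Y.X) Z.X).hom ≫ (W.p ⊗ₘ ((X.p ⊗ₘ Y.p) ⊗ₘ Z.p)) =
      ((W.p ⊗ₘ (X.p ⊗ₘ Y.p)) ⊗ₘ Z.p) ≫ (α_ W.X (X.X ⊗ Y.X) Z.X).hom := by
    rw [associator_naturality]
  have e5 : (α_ (W.X ⊗ X.X) Y.X Z.X).hom ≫ ((W.p ⊗ₘ X.p) ⊗ₘ (Y.p ⊗ₘ Z.p)) =
      (((W.p ⊗ₘ X.p) ⊗ₘ Y.p) ⊗ₘ Z.p) ≫ (α_ (W.X ⊗ X.X) Y.X Z.X).hom := by
    rw [associator_naturality]
  have e6 : (((W.p ⊗ₘ X.p) ⊗ₘ Y.p) ⊗ₘ Z.p) ≫ (((W.p ⊗ₘ X.p) ⊗ₘ Y.p) ⊗ₘ Z.p) =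
      (((W.p ⊗ₘ X.p) ⊗ₘ Y.p) ⊗ₘ Z.p) := by
    rw [tensorHom_comp_tensorHom, idem3, Z.idem]
  have e7 : ((W.p ⊗ₘ (X.p ⊗ₘ Y.p)) ⊗ₘ Z.p) ≫ ((W.p ⊗ₘ (X.p ⊗ₘ Y.p)) ⊗ₘ Z.p) =
      ((W.p ⊗ₘ (X.p ⊗ₘ Y.p)) ⊗ₘ Z.p) := by
    rw [tensorHom_comp_tensorHom, idem3', Z.idem]
  have e8 : ((α_ W.X X.X Y.X).hom ⊗ₘ 𝟙 Z.X) ≫ (α_ W.X (X.X ⊗ Y.X) Z.X).hom ≫
      (𝟙 W.X ⊗ₘ (α_ X.X Y.X Z.X).hom) =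
      (α_ (W.X ⊗ X.X) Y.X Z.X).hom ≫ (α_ W.X X.X (Y.X ⊗ Z.X)).hom := by
    rw [tensorHom_id, id_tensorHom, pentagon]
  rw [e1, e2]
  calc _ = (((W.p ⊗ₘ X.p) ⊗ₘ Y.p) ⊗ₘ Z.p) ≫ (((α_ W.X X.X Y.X).hom ⊗ₘ 𝟙 Z.X) ≫
        ((W.p ⊗ₘ (X.p ⊗ₘ Y.p)) ⊗ₘ Z.p)) ≫ ((α_ W.X (X.X ⊗ Y.X) Z.X).hom ≫
          (W.p ⊗ₘ ((X.p ⊗ₘ Y.p) ⊗ₘ Z.p))) ≫ (𝟙 W.X ⊗ₘ (α_ X.X Y.X Z.X).hom) := by
        simp only [Category.assoc]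
    _ = (((W.p ⊗ₘ X.p) ⊗ₘ Y.p) ⊗ₘ Z.p) ≫ ((α_ W.X X.X Y.X).hom ⊗ₘ 𝟙 Z.X) ≫
        (((W.p ⊗ₘ (X.p ⊗ₘ Y.p)) ⊗ₘ Z.p) ≫ ((W.p ⊗ₘ (X.p ⊗ₘ Y.p)) ⊗ₘ Z.p)) ≫
          (α_ W.X (X.X ⊗ Y.X) Z.X).hom ≫ (𝟙 W.X ⊗ₘ (α_ X.X Y.X Z.X).hom) := by
        rw [e4]; simp only [Category.assoc]
    _ = (((W.p ⊗ₘ X.p) ⊗ₘ Y.p) ⊗ₘ Z.p) ≫ (((α_ W.X X.X Y.X).hom ⊗ₘ 𝟙 Z.X) ≫
        ((W.p ⊗ₘ (X.p ⊗ₘ Y.p)) ⊗ₘ Z.p)) ≫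
          (α_ W.X (X.X ⊗ Y.X) Z.X).hom ≫ (𝟙 W.X ⊗ₘ (α_ X.X Y.X Z.X).hom) := by
        rw [e7]; simp only [Category.assoc]
    _ = ((((W.p ⊗ₘ X.p) ⊗ₘ Y.p) ⊗ₘ Z.p) ≫ (((W.p ⊗ₘ X.p) ⊗ₘ Y.p) ⊗ₘ Z.p)) ≫
        ((α_ W.X X.X Y.X).hom ⊗ₘ 𝟙 Z.X) ≫
          (α_ W.X (X.X ⊗ Y.X) Z.X).hom ≫ (𝟙 W.X ⊗ₘ (α_ X.X Y.X Z.X).hom) := by
        rw [e3]; simp only [Category.assoc]
    _ = (((W.p ⊗ₘ X.p) ⊗ₘ Y.p) ⊗ₘ Z.p) ≫ (α_ (W.X ⊗ X.X) Y.X Z.X).hom ≫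
        (α_ W.X X.X (Y.X ⊗ Z.X)).hom := by
        rw [e6, e8]
    _ = (((((W.p ⊗ₘ X.p) ⊗ₘ Y.p) ⊗ₘ Z.p) ≫ (((W.p ⊗ₘ X.p) ⊗ₘ Y.p) ⊗ₘ Z.p)) ≫
        (α_ (W.X ⊗ X.X) Y.X Z.X).hom) ≫ (α_ W.X X.X (Y.X ⊗ Z.X)).hom := by
        rw [e6]; simp only [Category.assoc]
    _ = (((W.p ⊗ₘ X.p) ⊗ₘ Y.p) ⊗ₘ Z.p) ≫ ((α_ (W.X ⊗ X.X) Y.X Z.X).hom ≫
        ((W.p ⊗ₘ X.p) ⊗ₘ (Y.p ⊗ₘ Z.p))) ≫ (α_ W.X X.X (Y.X ⊗ Z.X)).hom := by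
        rw [e5]; simp only [Category.assoc]
    _ = _ := by simp only [Category.assoc]

theorem tria (X Y : Karoubi C) :
    (((X.p ⊗ₘ 𝟙 (𝟙_ C)) ⊗ₘ Y.p) ≫ (α_ X.X (𝟙_ C) Y.X).hom) ≫
        (X.p ⊗ₘ ((λ_ Y.X).hom ≫ Y.p)) = (((ρ_ X.X).hom ≫ X.p) ⊗ₘ Y.p) := by
  have e1 : (X.p ⊗ₘ ((λ_ Y.X).hom ≫ Y.p)) = (𝟙 X.X ⊗ₘ (λ_ Y.X).hom) ≫ (X.p ⊗ₘ Y.p) := by
    rw [tensorHom_comp_tensorHom, Category.id_comp]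
  have e2 : (((ρ_ X.X).hom ≫ X.p) ⊗ₘ Y.p) = ((ρ_ X.X).hom ⊗ₘ 𝟙 Y.X) ≫ (X.p ⊗ₘ Y.p) := by
    rw [tensorHom_comp_tensorHom, Category.id_comp]
  have e3 : ((X.p ⊗ₘ 𝟙 (𝟙_ C)) ⊗ₘ Y.p) ≫ ((ρ_ X.X).hom ⊗ₘ 𝟙 Y.X) =
      ((ρ_ X.X).hom ⊗ₘ 𝟙 Y.X) ≫ (X.p ⊗ₘ Y.p) := by
    rw [tensorHom_comp_tensorHom, tensorHom_comp_tensorHom, rho_nat, Category.id_comp,
      Category.comp_id]
  have e4 : (α_ X.X (𝟙_ C) Y.X).hom ≫ (𝟙 X.X ⊗ₘ (λ_ Y.X).hom) = ((ρ_ X.X).hom ⊗ₘ 𝟙 Y.X) := by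
    rw [id_tensorHom, tensorHom_id, triangle]
  rw [e1, e2, Category.assoc, ← Category.assoc (α_ X.X (𝟙_ C) Y.X).hom, e4, ← Category.assoc, e3,
    Category.assoc, idem2]

/-- The Karoubi envelope of a monoidal category is monoidal. -/
instance : MonoidalCategory (Karoubi C) :=
  MonoidalCategory.ofTensorHom
    (id_tensorHom_id := fun P Q => rfl)
    (id_tensorHom := fun P {Q Q'} f => rfl)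
    (tensorHom_id := fun {P P'} f Q => rfl)
    (tensorHom_comp_tensorHom := fun {P P' P'' Q Q' Q''} f₁ f₂ g₁ g₂ => by
      ext
      show (f₁.f ⊗ₘ f₂.f) ≫ (g₁.f ⊗ₘ g₂.f) = ((f₁.f ≫ g₁.f) ⊗ₘ (f₂.f ≫ g₂.f))
      rw [tensorHom_comp_tensorHom])
    (associator_naturality := fun {X₁ X₂ X₃ Y₁ Y₂ Y₃} f₁ f₂ f₃ => by
      ext
      show ((f₁.f ⊗ₘ f₂.f) ⊗ₘ f₃.f) ≫ (((Y₁.p ⊗ₘ Y₂.p) ⊗ₘ Y₃.p) ≫ (α_ Y₁.X Y₂.X Y₃.X).hom) =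
        (((X₁.p ⊗ₘ X₂.p) ⊗ₘ X₃.p) ≫ (α_ X₁.X X₂.X X₃.X).hom) ≫ (f₁.f ⊗ₘ (f₂.f ⊗ₘ f₃.f))
      rw [Category.assoc, ← associator_naturality, ← Category.assoc, ← Category.assoc]
      simp only [tensorHom_comp_tensorHom, Karoubi.p_comp, Karoubi.comp_p])
    (leftUnitor_naturality := fun {X Y} f => by
      ext
      show (𝟙 (𝟙_ C) ⊗ₘ f.f) ≫ ((λ_ Y.X).hom ≫ Y.p) = ((λ_ X.X).hom ≫ X.p) ≫ f.f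
      rw [lam_nat_assoc, Category.assoc, Karoubi.comp_p, Karoubi.p_comp])
    (rightUnitor_naturality := fun {X Y} f => by
      ext
      show (f.f ⊗ₘ 𝟙 (𝟙_ C)) ≫ ((ρ_ Y.X).hom ≫ Y.p) = ((ρ_ X.X).hom ≫ X.p) ≫ f.f
      rw [rho_nat_assoc, Category.assoc, Karoubi.comp_p, Karoubi.p_comp])
    (pentagon := fun W X Y Z => by
      ext
      show (((((W.p ⊗ₘ X.p) ⊗ₘ Y.p) ≫ (α_ W.X X.X Y.X).hom) ⊗ₘ Z.p) ≫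
        (((W.p ⊗ₘ (X.p ⊗ₘ Y.p)) ⊗ₘ Z.p) ≫ (α_ W.X (X.X ⊗ Y.X) Z.X).hom) ≫
          (W.p ⊗ₘ (((X.p ⊗ₘ Y.p) ⊗ₘ Z.p) ≫ (α_ X.X Y.X Z.X).hom))) =
        ((((W.p ⊗ₘ X.p) ⊗ₘ Y.p) ⊗ₘ Z.p) ≫ (α_ (W.X ⊗ X.X) Y.X Z.X).hom) ≫
          (((W.p ⊗ₘ X.p) ⊗ₘ (Y.p ⊗ₘ Z.p)) ≫ (α_ W.X X.X (Y.X ⊗ Z.X)).hom)
      exact pent W X Y Z)
    (triangle := fun X Y => by
      ext
      show (((X.p ⊗ₘ 𝟙 (𝟙_ C)) ⊗ₘ Y.p) ≫ (α_ X.X (𝟙_ C) Y.X).hom) ≫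
        (X.p ⊗ₘ ((λ_ Y.X).hom ≫ Y.p)) = (((ρ_ X.X).hom ≫ X.p) ⊗ₘ Y.p)
      exact tria X Y)

end Ka
end H24PV
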