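import Pool.Agent.H24.PV.KlI

/-!
# KaF: simple objects in regular idempotent complete categories

* `simple_idem`: split `e` (`IsIdempotentComplete.idempotents_split`): `e = p ≫ i`, `i ≫ p = 𝟙 Y`,
  `i : Y ⟶ X` is a (split) mono, nonzero because `e ≠ 0`, hence an isomorphism by simplicity; then
  `p = inv i` and `e = 𝟙`.
* `iso_of_simple`: `t ≫ g ≫ t = t` (regularity); `t ≫ g` is a nonzero idempotent of `X` and
  `g ≫ t` a nonzero idempotent of `Y`.
* `simple_of_end`: for a mono `f : Y ⟶ X` with `f ≫ g ≫ f = f` we get `f ≫ g = 𝟙 Y`; `g ≫ f` is an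
  idempotent scalar `c • 𝟙 X` with `c² = c`; `f ≠ 0` iff `c ≠ 0` iff `c = 1` iff `f` iso
  (`𝟙 X ≠ 0` since the endomorphism space is one-dimensional).
-/

open CategoryTheory CategoryTheory.Limits

universe v w u

namespace H24PV
variable {C : Type w} [Category.{v} C] [Preadditive C]

theorem simple_idem [IsIdempotentComplete C] {X : C} (hX : Simple X) (e : X ⟶ X)
    (he : e ≫ e = e) (h0 : e ≠ 0) : e = 𝟙 X := by
  obtain ⟨Y, i, p, hip, hpi⟩ := IsIdempotentComplete.idempotents_split X e he
  have hmono : Mono i := by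
    refine ⟨fun a b hab => ?_⟩
    have := congrArg (fun t => t ≫ p) hab
    simpa [Category.assoc, hip] using this
  have hi0 : i ≠ 0 := by
    intro h
    apply h0
    rw [← hpi, h, comp_zero]
  have hiso : IsIso i := (hX.mono_isIso_iff_nonzero i).2 hi0
  have hp : p = inv i := by
    rw [← cancel_epi i, hip, IsIso.hom_inv_id]
  rw [← hpi, hp, IsIso.inv_hom_id]

theorem iso_of_simple [IsIdempotentComplete C] (h : Regular C) {X Y : C} (hX : Simple X)
    (hY : Simple Y) (t : X ⟶ Y) (ht : t ≠ 0) : IsIso t := by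
  obtain ⟨g, hg⟩ := h t
  have h1 : t ≫ g = 𝟙 X := by
    refine simple_idem hX (t ≫ g) ?_ ?_
    · rw [← Category.assoc, Category.assoc t g t, hg]
    · intro h0
      apply ht
      rw [← hg, ← Category.assoc, h0, zero_comp]
  have h2 : g ≫ t = 𝟙 Y := by
    refine simple_idem hY (g ≫ t) ?_ ?_
    · rw [Category.assoc, hg]
    · intro h0
      apply ht
      rw [← hg, h0, comp_zero]
  exact ⟨⟨g, h1, h2⟩⟩

/-- An object with one-dimensional endomorphism algebra is simple. -/
theorem simple_of_end (k : Type u) [Field k] [Linear k C]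
    (h : Regular C) (X : C) (h1 : Module.finrank k (X ⟶ X) = 1) : Simple X := by
  have hid : (𝟙 X : X ⟶ X) ≠ 0 := by
    intro h0
    have hsub : Subsingleton (X ⟶ X) := ⟨fun a b => by
      rw [← Category.comp_id a, ← Category.comp_id b, h0, comp_zero, comp_zero]⟩
    rw [Module.finrank_zero_of_subsingleton] at h1
    exact zero_ne_one h1
  refine ⟨fun {Y} f hf => ⟨fun hiso h0 => ?_, fun hne => ?_⟩⟩
  · apply hid
    have h2 : inv f ≫ f = 0 := (congrArg (fun t => inv f ≫ t) h0).trans comp_zero
    rw [← IsIso.inv_hom_id f]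
    exact h2
  · obtain ⟨g, hg⟩ := h f
    have hfg : f ≫ g = 𝟙 Y := by
      rw [← cancel_mono f, Category.assoc, hg, Category.id_comp]
    obtain ⟨c, hc⟩ := (finrank_eq_one_iff_of_nonzero' (𝟙 X) hid).1 h1 (g ≫ f)
    have hidem : (g ≫ f) ≫ (g ≫ f) = g ≫ f := by
      rw [Category.assoc, hg]
    have hcc : (c * c - c) • (𝟙 X : X ⟶ X) = 0 := by
      rw [sub_smul, sub_eq_zero, mul_smul, hc]
      conv_rhs => rw [← hidem]
      conv_rhs => enter [1]; rw [← hc]
      rw [Linear.smul_comp, Category.id_comp]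
    have hc2 : c * c - c = 0 := by
      by_contra hne'
      exact hid ((smul_eq_zero.1 hcc).resolve_left hne')
    have hc3 : c = 0 ∨ c = 1 := by
      have : c * (c - 1) = 0 := by rw [← hc2]; ring
      rcases mul_eq_zero.1 this with h | h
      · exact Or.inl h
      · exact Or.inr (sub_eq_zero.1 h)
    rcases hc3 with h0 | h1'
    · exfalso
      apply hne
      rw [h0, zero_smul] at hc
      rw [← hg, ← hc, comp_zero]
    · rw [h1', one_smul] at hc
      exact ⟨⟨g, hfg, hc.symm⟩⟩

end H24PV
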