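import Pool.Agent.H24.PV.KlDef

open CategoryTheory MonoidalCategory

universe v w

namespace H24PV
namespace CCM
variable {C : Type w} [Category.{v} C] [MonoidalCategory C] (A : CCM C)

theorem kid_comp {X Y : C} (f : A.H X Y) : A.kcomp (A.kid X) f = f := by
  unfold kcomp kid
  calc _ = 𝟙 _ ⊗≫ (X ◁ A.one ≫ f ▷ A.A) ⊗≫ (Y ◁ A.mul) := by monoidal
    _ = f ⊗≫ Y ◁ ((A.A ◁ A.one) ≫ A.mul) := by
      rw [whisker_exchange]; monoidal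
    _ = f := by rw [A.mul_one]; monoidal

theorem kcomp_id {X Y : C} (f : A.H X Y) : A.kcomp f (A.kid Y) = f := by
  unfold kcomp kid
  calc _ = f ⊗≫ Y ◁ ((A.one ▷ A.A) ≫ A.mul) := by monoidal
    _ = f := by rw [A.one_mul]; monoidal

theorem kcomp_assoc {X Y Z W : C} (f : A.H X Y) (g : A.H Y Z) (h : A.H Z W) :
    A.kcomp (A.kcomp f g) h = A.kcomp f (A.kcomp g h) := by
  unfold kcomp
  calc _ = f ⊗≫ (g ▷ A.A) ⊗≫ (Z ◁ A.mul ≫ h ▷ A.A) ⊗≫ (W ◁ A.mul) := by monoidal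
    _ = f ⊗≫ (g ▷ A.A) ⊗≫ (h ▷ (A.A ⊗ A.A)) ⊗≫ (W ◁ (A.A ◁ A.mul ≫ A.mul)) := by
      rw [whisker_exchange]; monoidal
    _ = f ⊗≫ (g ▷ A.A) ⊗≫ (h ▷ (A.A ⊗ A.A)) ⊗≫
        (W ◁ ((α_ _ _ _).inv ≫ (A.mul ▷ A.A) ≫ A.mul)) := by
      rw [A.mul_assoc]; simp
    _ = _ := by monoidal

end CCM
end H24PV
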