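import Pool.Agent.H24.PV.KlDef

/-!
# KlB: functoriality of the Kleisli whiskerings

Definitions in `KlDef.lean`.  Model proofs: `KlA.lean` (calc blocks with `⊗≫` and `monoidal`).

* `kwl_id`, `kwl_comp`: only the definition and coherence (`kwl` does not use the half braiding).
* `kwr_id`: `one_central` (turn `X ◁ (one ▷ W ≫ (β W).hom)` into `λ ≫ ρ⁻¹ ≫ W ◁ one`).
* `kwr_comp`: left side: `f ▷ W`, then `g ▷ A ▷ W`, then `Z ◁ (mul ▷ W ≫ (β W).hom)`; rewrite with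
  `mul_central`; right side: `f ▷ W`, `Y ◁ β_W`, `g ▷ (W ⊗ A)` ..., move `Y ◁ β_W` past
  `g ▷ (A ⊗ W)` with `whisker_exchange`.
-/

open CategoryTheory MonoidalCategory

universe v w

namespace H24PV
namespace CCM
variable {C : Type w} [Category.{v} C] [MonoidalCategory C] (A : CCM C)

theorem kwl_id (X Y : C) : A.kwl X (A.kid Y) = A.kid (X ⊗ Y) := by
  unfold kwl kid
  monoidal

theorem kwl_comp (X : C) {Y Z W : C} (f : A.H Y Z) (g : A.H Z W) :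
    A.kwl X (A.kcomp f g) = A.kcomp (A.kwl X f) (A.kwl X g) := by
  unfold kwl kcomp
  monoidal

theorem kwr_id (X Y : C) : A.kwr (A.kid X) Y = A.kid (X ⊗ Y) := by
  unfold kwr kid
  calc _ = 𝟙 _ ⊗≫ (X ◁ ((A.one ▷ Y) ≫ (A.β Y).hom)) ⊗≫ 𝟙 _ := by monoidal
    _ = 𝟙 _ ⊗≫ (X ◁ ((λ_ Y).hom ≫ (ρ_ Y).inv ≫ (Y ◁ A.one))) ⊗≫ 𝟙 _ := by
      rw [A.one_central]
    _ = _ := by monoidal

theorem kwr_comp {X Y Z : C} (f : A.H X Y) (g : A.H Y Z) (W : C) :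
    A.kwr (A.kcomp f g) W = A.kcomp (A.kwr f W) (A.kwr g W) := by
  unfold kwr kcomp
  calc _ = (f ▷ W) ⊗≫ (g ▷ (A.A ⊗ W)) ⊗≫ (Z ◁ ((A.mul ▷ W) ≫ (A.β W).hom)) ⊗≫ 𝟙 _ := by
        monoidal
    _ = (f ▷ W) ⊗≫ (g ▷ (A.A ⊗ W)) ⊗≫ (Z ◁ ((α_ A.A A.A W).hom ≫ (A.A ◁ (A.β W).hom) ≫
          (α_ A.A W A.A).inv ≫ ((A.β W).hom ▷ A.A) ≫ (α_ W A.A A.A).hom ≫
          (W ◁ A.mul))) ⊗≫ 𝟙 _ := by
        rw [A.mul_central]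
    _ = (f ▷ W) ⊗≫ (g ▷ (A.A ⊗ W) ≫ (Z ⊗ A.A) ◁ (A.β W).hom) ⊗≫
          (Z ◁ ((A.β W).hom ▷ A.A)) ⊗≫ (Z ◁ (W ◁ A.mul)) ⊗≫ 𝟙 _ := by
        monoidal
    _ = (f ▷ W) ⊗≫ (Y ◁ (A.β W).hom ≫ g ▷ (W ⊗ A.A)) ⊗≫
          (Z ◁ ((A.β W).hom ▷ A.A)) ⊗≫ (Z ◁ (W ◁ A.mul)) ⊗≫ 𝟙 _ := by
        rw [← whisker_exchange]
    _ = _ := by monoidal

end CCM
end H24PV
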