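import Pool.Agent.H24.PV.KlDef

/-!
# KlC: the exchange law of the Kleisli category

Both sides are `(f ⊗ g)`, then bring `A ⊗ A` to the right, then `mul`.
Left side: `W ◁ g`, `f ▷ (Z ⊗ A)`, then (`β` of `Z ⊗ A` resp. of `Z` and the multiplication):
the left side multiplies (A from f) past Z and then (A_f)(A_g) in the order `A_g A_f`?? -- precisely:
left: `W ◁ g ≫ f ▷ (Z ⊗ A)` gives `X ⊗ A_f ⊗ Z ⊗ A_g`; kcomp multiplies in the order given by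
whiskering `kwr f Z ▷ A`: `X ⊗ Z ⊗ (A_f ⊗ A_g)` after moving `A_f` past `Z` only.
right: `f ▷ Y ≫ X ◁ β_Y ≫ (X ⊗ Y) ▷ A`, then `g ▷ A_f`: `X ⊗ Z ⊗ (A_g ⊗ A_f)` where `A_f` was moved
past `Y`; by naturality `β_nat` for `g : Y ⟶ Z ⊗ A` this is `A_f` moved past `Z ⊗ A_g`, i.e.
(by `β_tensor`) past `Z` and then past `A_g` with `β_A`; now `comm : (β A).hom ≫ mul = mul`.
-/

open CategoryTheory MonoidalCategory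

universe v w

namespace H24PV
namespace CCM
variable {C : Type w} [Category.{v} C] [MonoidalCategory C] (A : CCM C)

theorem kexch {W X Y Z : C} (f : A.H W X) (g : A.H Y Z) :
    A.kcomp (A.kwl W g) (A.kwr f Z) = A.kcomp (A.kwr f Y) (A.kwl X g) := by
  unfold kcomp kwl kwr
  calc _ = 𝟙 _ ⊗≫ (W ◁ g ≫ f ▷ (Z ⊗ A.A)) ⊗≫ X ◁ ((A.β Z).hom ▷ A.A) ⊗≫
        X ◁ Z ◁ A.mul ⊗≫ 𝟙 _ := by monoidal
    _ = 𝟙 _ ⊗≫ (f ▷ Y ≫ (X ⊗ A.A) ◁ g) ⊗≫ X ◁ ((A.β Z).hom ▷ A.A) ⊗≫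
        X ◁ Z ◁ ((A.β A.A).hom ≫ A.mul) ⊗≫ 𝟙 _ := by
      rw [whisker_exchange, A.comm]
    _ = 𝟙 _ ⊗≫ f ▷ Y ⊗≫ X ◁ (A.A ◁ g ≫ ((α_ _ _ _).inv ≫ ((A.β Z).hom ▷ A.A) ≫
          (α_ _ _ _).hom ≫ (Z ◁ (A.β A.A).hom) ≫ (α_ _ _ _).inv)) ⊗≫
        X ◁ Z ◁ A.mul ⊗≫ 𝟙 _ := by monoidal
    _ = 𝟙 _ ⊗≫ f ▷ Y ⊗≫ X ◁ ((A.β Y).hom ≫ (g ▷ A.A)) ⊗≫
        X ◁ Z ◁ A.mul ⊗≫ 𝟙 _ := by
      rw [← A.β_tensor, A.β_nat]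
    _ = _ := by monoidal

end CCM
end H24PV
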