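import Pool.Agent.H24.PV.KlDef

/-!
# KlD: images of morphisms of `C` in the Kleisli category

`kJ f = f ≫ ρ⁻¹ ≫ Y ◁ one`.  `kJ_comp_left`: move `g ▷ A` ... with `whisker_exchange` and `mul_one`
as in `KlA.kid_comp`; `kcomp_kJ_right`: `one_mul`; `kwl_kJ`: coherence; `kwr_kJ`: `one_central`.
-/

open CategoryTheory MonoidalCategory

universe v w

namespace H24PV
namespace CCM
variable {C : Type w} [Category.{v} C] [MonoidalCategory C] (A : CCM C)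

private theorem kld_kid_comp {X Y : C} (f : A.H X Y) : A.kcomp (A.kid X) f = f := by
  unfold kcomp kid
  calc _ = 𝟙 _ ⊗≫ (X ◁ A.one ≫ f ▷ A.A) ⊗≫ (Y ◁ A.mul) := by monoidal
    _ = f ⊗≫ Y ◁ ((A.A ◁ A.one) ≫ A.mul) := by
      rw [whisker_exchange]; monoidal
    _ = f := by rw [A.mul_one]; monoidal

private theorem kld_comp_id {X Y : C} (f : A.H X Y) : A.kcomp f (A.kid Y) = f := by
  unfold kcomp kid
  calc _ = f ⊗≫ Y ◁ ((A.one ▷ A.A) ≫ A.mul) := by monoidal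
    _ = f := by rw [A.one_mul]; monoidal

theorem kJ_id (X : C) : A.kJ (𝟙 X) = A.kid X := by
  unfold kJ
  rw [Category.id_comp]

theorem kcomp_kJ_left {X Y Z : C} (f : X ⟶ Y) (g : A.H Y Z) : A.kcomp (A.kJ f) g = f ≫ g := by
  have h : A.kcomp (A.kJ f) g = f ≫ A.kcomp (A.kid Y) g := by
    unfold kcomp kJ
    rw [Category.assoc]
  rw [h, kld_kid_comp]

theorem kcomp_kJ_right {X Y Z : C} (f : A.H X Y) (g : Y ⟶ Z) :
    A.kcomp f (A.kJ g) = f ≫ (g ▷ A.A) := by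
  have h : A.kcomp f (A.kJ g) = A.kcomp (f ≫ (g ▷ A.A)) (A.kid Z) := by
    unfold kcomp kJ
    rw [comp_whiskerRight]
    simp only [Category.assoc]
  rw [h, kld_comp_id]

theorem kJ_comp {X Y Z : C} (f : X ⟶ Y) (g : Y ⟶ Z) :
    A.kcomp (A.kJ f) (A.kJ g) = A.kJ (f ≫ g) := by
  rw [kcomp_kJ_left]
  unfold kJ
  rw [Category.assoc]

theorem kwl_kJ (X : C) {Y Z : C} (f : Y ⟶ Z) : A.kwl X (A.kJ f) = A.kJ (X ◁ f) := by
  unfold kwl kJ kid
  monoidal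

theorem kwr_kJ {X Y : C} (f : X ⟶ Y) (W : C) : A.kwr (A.kJ f) W = A.kJ (f ▷ W) := by
  unfold kwr kJ kid
  calc _ = (f ▷ W) ⊗≫ Y ◁ ((A.one ▷ W) ≫ (A.β W).hom) ⊗≫ 𝟙 _ := by monoidal
    _ = _ := by rw [A.one_central]; monoidal

end CCM
end H24PV
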