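import Pool.Agent.H24.PV.KlDef

/-!
# KlE: naturality of the associator and of the unitors in the Kleisli category

Stated without `kJ` (row KlD turns `kcomp f (kJ α)` into `f ≫ α ▷ A` and `kcomp (kJ α) g` into
`α ≫ g`).  `assoc_right` uses `β_tensor`, `rho_nat` uses `β_unit`; the others are coherence
(`unfold kwl kwr; monoidal` or calc blocks as in `KlA.lean`).
-/

open CategoryTheory MonoidalCategory

universe v w

namespace H24PV
namespace CCM
variable {C : Type w} [Category.{v} C] [MonoidalCategory C] (A : CCM C)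

theorem assoc_left (X Y : C) {Z W : C} (f : A.H Z W) :
    A.kwl (X ⊗ Y) f ≫ ((α_ X Y W).hom ▷ A.A) = (α_ X Y Z).hom ≫ A.kwl X (A.kwl Y f) := by
  unfold kwl
  monoidal

theorem assoc_mid (X : C) {Y Z : C} (f : A.H Y Z) (W : C) :
    A.kwr (A.kwl X f) W ≫ ((α_ X Z W).hom ▷ A.A) = (α_ X Y W).hom ≫ A.kwl X (A.kwr f W) := by
  unfold kwl kwr
  monoidal

theorem assoc_right {X Y : C} (f : A.H X Y) (Z W : C) :
    A.kwr (A.kwr f Z) W ≫ ((α_ Y Z W).hom ▷ A.A) = (α_ X Z W).hom ≫ A.kwr f (Z ⊗ W) := by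
  unfold kwr
  rw [A.β_tensor]
  monoidal

theorem lam_nat {X Y : C} (f : A.H X Y) :
    A.kwl (𝟙_ C) f ≫ ((λ_ Y).hom ▷ A.A) = (λ_ X).hom ≫ f := by
  unfold kwl
  monoidal

theorem rho_nat {X Y : C} (f : A.H X Y) :
    A.kwr f (𝟙_ C) ≫ ((ρ_ Y).hom ▷ A.A) = (ρ_ X).hom ≫ f := by
  unfold kwr
  rw [A.β_unit]
  monoidal

end CCM
end H24PV
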