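import Pool.Agent.H24.PV.KlA
import Pool.Agent.H24.PV.KlB
import Pool.Agent.H24.PV.KlC
import Pool.Agent.H24.PV.KlD
import Pool.Agent.H24.PV.KlE

/-!
# The Kleisli category of a central commutative monoid is a monoidal category
-/

open CategoryTheory MonoidalCategory

universe v w

namespace H24PV

variable {C : Type w} [Category.{v} C] [MonoidalCategory C]

/-- The Kleisli category: same objects as `C`. -/
structure Kl (A : CCM C) where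
  un : C

namespace Kl
variable {A : CCM C}

/-- Morphisms of the Kleisli category. -/
@[ext] structure Hom (X Y : Kl A) where
  f : X.un ⟶ Y.un ⊗ A.A

instance : Category (Kl A) where
  Hom X Y := Hom X Y
  id X := ⟨A.kid X.un⟩
  comp f g := ⟨A.kcomp f.f g.f⟩
  id_comp f := Hom.ext (A.kid_comp f.f)
  comp_id f := Hom.ext (A.kcomp_id f.f)
  assoc f g h := Hom.ext (A.kcomp_assoc f.f g.f h.f)

theorem id_f (X : Kl A) : Hom.f (𝟙 X) = A.kid X.un := rfl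
theorem comp_f {X Y Z : Kl A} (f : X ⟶ Y) (g : Y ⟶ Z) :
    Hom.f (f ≫ g) = A.kcomp (Hom.f f) (Hom.f g) := rfl
@[ext] theorem hom_ext {X Y : Kl A} {f g : X ⟶ Y} (h : Hom.f f = Hom.f g) : f = g := Hom.ext h

/-- The identity-on-objects functor from `C`. -/
def J (A : CCM C) : C ⥤ Kl A where
  obj X := ⟨X⟩
  map f := ⟨A.kJ f⟩
  map_id X := Hom.ext (A.kJ_id X)
  map_comp f g := Hom.ext (A.kJ_comp f g).symm

theorem J_map_f {X Y : C} (f : X ⟶ Y) : Hom.f ((J A).map f) = A.kJ f := rfl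

/-- Isomorphism between objects of the Kleisli category coming from `C`. -/
def jIso {X Y : C} (e : X ≅ Y) : (⟨X⟩ : Kl A) ≅ ⟨Y⟩ := (J A).mapIso e

instance : MonoidalCategoryStruct (Kl A) where
  tensorObj X Y := ⟨X.un ⊗ Y.un⟩
  whiskerLeft X _ _ f := ⟨A.kwl X.un (Hom.f f)⟩
  whiskerRight f Y := ⟨A.kwr (Hom.f f) Y.un⟩
  tensorUnit := ⟨𝟙_ C⟩
  associator X Y Z := jIso (α_ X.un Y.un Z.un)
  leftUnitor X := jIso (λ_ X.un)
  rightUnitor X := jIso (ρ_ X.un)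

theorem tensor_un (X Y : Kl A) : (X ⊗ Y).un = X.un ⊗ Y.un := rfl
theorem unit_un : (𝟙_ (Kl A)).un = 𝟙_ C := rfl
theorem wl_f (X : Kl A) {Y Z : Kl A} (f : Y ⟶ Z) : Hom.f (X ◁ f) = A.kwl X.un (Hom.f f) := rfl
theorem wr_f {X Y : Kl A} (f : X ⟶ Y) (Z : Kl A) : Hom.f (f ▷ Z) = A.kwr (Hom.f f) Z.un := rfl
theorem assoc_eq (X Y Z : Kl A) : (α_ X Y Z).hom = (J A).map (α_ X.un Y.un Z.un).hom := rfl
theorem lam_eq (X : Kl A) : (λ_ X).hom = (J A).map (λ_ X.un).hom := rfl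
theorem rho_eq (X : Kl A) : (ρ_ X).hom = (J A).map (ρ_ X.un).hom := rfl
theorem tensorHom_eq {X Y Z W : Kl A} (f : X ⟶ Y) (g : Z ⟶ W) :
    f ⊗ₘ g = (f ▷ Z) ≫ (Y ◁ g) := rfl

theorem wl_J (X : Kl A) {Y Z : C} (f : Y ⟶ Z) :
    X ◁ (J A).map f = (J A).map (X.un ◁ f) := Hom.ext (A.kwl_kJ X.un f)
theorem wr_J {X Y : C} (f : X ⟶ Y) (Z : Kl A) :
    (J A).map f ▷ Z = (J A).map (f ▷ Z.un) := Hom.ext (A.kwr_kJ f Z.un)

theorem comp_J_f {X Y : Kl A} {Z : C} (f : X ⟶ Y) (g : Y.un ⟶ Z) :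
    Hom.f (f ≫ (show Y ⟶ (⟨Z⟩ : Kl A) from (J A).map g)) = Hom.f f ≫ (g ▷ A.A) :=
  A.kcomp_kJ_right (Hom.f f) g
theorem J_comp_f {X : C} {Y Z : Kl A} (f : X ⟶ Y.un) (g : Y ⟶ Z) :
    Hom.f ((show (⟨X⟩ : Kl A) ⟶ Y from (J A).map f) ≫ g) = f ≫ Hom.f g :=
  A.kcomp_kJ_left f (Hom.f g)

theorem wl_comp (X : Kl A) {Y Z W : Kl A} (f : Y ⟶ Z) (g : Z ⟶ W) :
    X ◁ (f ≫ g) = X ◁ f ≫ X ◁ g := Hom.ext (A.kwl_comp X.un (Hom.f f) (Hom.f g))
theorem wr_comp {X Y Z : Kl A} (f : X ⟶ Y) (g : Y ⟶ Z) (W : Kl A) :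
    (f ≫ g) ▷ W = f ▷ W ≫ g ▷ W := Hom.ext (A.kwr_comp (Hom.f f) (Hom.f g) W.un)
theorem exch {W X Y Z : Kl A} (f : W ⟶ X) (g : Y ⟶ Z) :
    W ◁ g ≫ f ▷ Z = f ▷ Y ≫ X ◁ g := Hom.ext (A.kexch (Hom.f f) (Hom.f g))

instance : MonoidalCategory (Kl A) where
  tensorHom_def f g := rfl
  id_tensorHom_id X Y := by
    rw [tensorHom_eq]
    have h1 : (𝟙 X ▷ Y) = 𝟙 (X ⊗ Y) := Hom.ext (A.kwr_id X.un Y.un)
    have h2 : (X ◁ 𝟙 Y) = 𝟙 (X ⊗ Y) := Hom.ext (A.kwl_id X.un Y.un)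
    rw [h1, h2, Category.comp_id]
  tensorHom_comp_tensorHom f₁ f₂ g₁ g₂ := by
    simp only [tensorHom_eq, wl_comp, wr_comp, Category.assoc]
    congr 1
    rw [← Category.assoc, exch, Category.assoc]
  whiskerLeft_id X Y := Hom.ext (A.kwl_id X.un Y.un)
  id_whiskerRight X Y := Hom.ext (A.kwr_id X.un Y.un)
  associator_naturality {X₁ X₂ X₃ Y₁ Y₂ Y₃} f₁ f₂ f₃ := by
    have h1 : ∀ (X Y : Kl A) {Z W : Kl A} (f : Z ⟶ W),
        ((X ⊗ Y) ◁ f) ≫ (α_ X Y W).hom = (α_ X Y Z).hom ≫ (X ◁ (Y ◁ f)) := by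
      intro X Y Z W f
      apply Hom.ext
      exact (comp_J_f _ _).trans ((A.assoc_left X.un Y.un (Hom.f f)).trans (J_comp_f _ _).symm)
    have h2 : ∀ (X : Kl A) {Y Z : Kl A} (f : Y ⟶ Z) (W : Kl A),
        ((X ◁ f) ▷ W) ≫ (α_ X Z W).hom = (α_ X Y W).hom ≫ (X ◁ (f ▷ W)) := by
      intro X Y Z f W
      apply Hom.ext
      exact (comp_J_f _ _).trans ((A.assoc_mid X.un (Hom.f f) W.un).trans (J_comp_f _ _).symm)
    have h3 : ∀ {X Y : Kl A} (f : X ⟶ Y) (Z W : Kl A),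
        ((f ▷ Z) ▷ W) ≫ (α_ Y Z W).hom = (α_ X Z W).hom ≫ (f ▷ (Z ⊗ W)) := by
      intro X Y f Z W
      apply Hom.ext
      exact (comp_J_f _ _).trans ((A.assoc_right (Hom.f f) Z.un W.un).trans (J_comp_f _ _).symm)
    simp only [tensorHom_eq, wl_comp, wr_comp, Category.assoc]
    rw [h1, ← Category.assoc ((Y₁ ◁ f₂) ▷ X₃), h2, Category.assoc,
      ← Category.assoc (f₁ ▷ X₂ ▷ X₃), h3, Category.assoc]
  leftUnitor_naturality f := Hom.ext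
    ((comp_J_f _ _).trans ((A.lam_nat (Hom.f f)).trans (J_comp_f _ _).symm))
  rightUnitor_naturality f := Hom.ext
    ((comp_J_f _ _).trans ((A.rho_nat (Hom.f f)).trans (J_comp_f _ _).symm))
  pentagon W X Y Z := by
    rw [assoc_eq, assoc_eq, assoc_eq, assoc_eq, assoc_eq]
    erw [wr_J, wl_J]
    erw [← (J A).map_comp, ← (J A).map_comp, ← (J A).map_comp]
    exact congrArg _ (MonoidalCategory.pentagon W.un X.un Y.un Z.un)
  triangle X Y := by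
    rw [assoc_eq, lam_eq, rho_eq]
    erw [wl_J, wr_J, ← (J A).map_comp]
    exact congrArg _ (MonoidalCategory.triangle X.un Y.un)

end Kl
end H24PV
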