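import Pool.Agent.H24.PV.PvDef

/-!
# PvA: a pivotal structure gives a flip

`ev p := (a X ⊗ (canonical iso Y ≅ X*)) ≫ ε_{X*}` with `ε_ (du X) (du (du X)) : X** ⊗ X* ⟶ 𝟙`.

Tools: for exact pairings `p : (X, Y)`, `p' : (X', Y')` and `f : X ⟶ X'` a morphism `g : Y' ⟶ Y`
with `p.coev ≫ (f ▷ Y) = p'.coev ≫ (X' ◁ g)` is unique and equals the right adjoint mate
(Mathlib: `coevaluation_comp_rightAdjointMate`, `rightAdjointMate_comp_evaluation`; uniqueness by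
the zigzag equation, e.g. `tensorLeftHomEquiv`), and it also satisfies
`(g ▷ X) ≫ p.ev = (Y' ◁ f) ≫ p'.ev`.  Prove these in general first (`mate_unique`, `mate_ev`).
`rightDualIso p₁ p₂` is the mate of `𝟙` (Mathlib, by definition).

* `nat`: with `g` the mate of `f`, the square `Y' ⟶ Y ⟶ X*`, `Y' ⟶ X'* ⟶ X*` commutes (mates
  compose), then `naturality` of `a` and `(f**)` is the mate of `f*`:
  `(f** ⊗ 1) ≫ ε_{X'*} = (1 ⊗ f*) ≫ ε_{X*}`.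
* `tensor`: `rightDualTensorIso X₁ X₂ : (X₁ ⊗ X₂)* ≅ X₂* ⊗ X₁*` is the mate of `𝟙` for the pairings
  `duPair (X₁ ⊗ X₂)` and `tensor`.  So `ε_{(X₁⊗X₂)*}` equals
  `(ddTensor ⊗ rightDualTensorIso.hom) ≫ ε_{tensor pairing of (X₂*, X₂**), (X₁*, X₁**)}`, and now
  use `a.tensor` and `ExactPairing.tensor_evaluation`.
* `unit`: similarly with `a.unit` and `ddUnit`.
-/

open CategoryTheory MonoidalCategory

universe u v w

namespace H24PV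
variable {C : Type w} [Category.{v} C] [MonoidalCategory C]

theorem mate_unique {X Y X' Y' : C} (p : ExactPairing X Y) (p' : ExactPairing X' Y')
    (f : X ⟶ X') (g g' : Y' ⟶ Y)
    (h : p'.coevaluation' ≫ (X' ◁ g) = p'.coevaluation' ≫ (X' ◁ g')) : g = g' := by
  have h1 := tensorLeftHomEquiv_symm_coevaluation_comp_whiskerLeft (Y := X') (Y' := Y') g
  have h2 := tensorLeftHomEquiv_symm_coevaluation_comp_whiskerLeft (Y := X') (Y' := Y') g'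
  have h3 : η_ X' Y' ≫ X' ◁ g = η_ X' Y' ≫ X' ◁ g' := h
  rw [h3, h2] at h1
  exact ((Iso.cancel_iso_hom_left _ _ _).1 h1).symm

theorem mate_exists {X Y X' Y' : C} (p : ExactPairing X Y) (p' : ExactPairing X' Y')
    (f : X ⟶ X') :
    ∃ g : Y' ⟶ Y, p.coevaluation' ≫ (f ▷ Y) = p'.coevaluation' ≫ (X' ◁ g) :=
  ⟨@rightAdjointMate C _ _ X X' (@HasRightDual.mk C _ _ X Y p) (@HasRightDual.mk C _ _ X' Y' p') f,
    (@coevaluation_comp_rightAdjointMate C _ _ X X' (@HasRightDual.mk C _ _ X Y p)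
      (@HasRightDual.mk C _ _ X' Y' p') f).symm⟩

theorem mate_ev' {X Y X' Y' : C} (p : ExactPairing X Y) (p' : ExactPairing X' Y')
    (f : X ⟶ X') (g : Y' ⟶ Y)
    (h : p.coevaluation' ≫ (f ▷ Y) = p'.coevaluation' ≫ (X' ◁ g)) :
    (g ▷ X) ≫ p.evaluation' = (Y' ◁ f) ≫ p'.evaluation' := by
  have h1 := @coevaluation_comp_rightAdjointMate C _ _ X X' (@HasRightDual.mk C _ _ X Y p)
      (@HasRightDual.mk C _ _ X' Y' p') f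
  have h2 := @rightAdjointMate_comp_evaluation C _ _ X X' (@HasRightDual.mk C _ _ X Y p)
      (@HasRightDual.mk C _ _ X' Y' p') f
  have h3 : g = @rightAdjointMate C _ _ X X' (@HasRightDual.mk C _ _ X Y p)
      (@HasRightDual.mk C _ _ X' Y' p') f :=
    mate_unique p p' f _ _ (h.symm.trans h1.symm)
  rw [h3]
  exact h2

/-- `g` is the mate of `f`. -/
def PvA_IsMate {X Y X' Y' : C} (p : ExactPairing X Y) (p' : ExactPairing X' Y')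
    (f : X ⟶ X') (g : Y' ⟶ Y) : Prop :=
  p.coevaluation' ≫ (f ▷ Y) = p'.coevaluation' ≫ (X' ◁ g)

theorem PvA_mk {X Y X' Y' : C} (p : ExactPairing X Y) (p' : ExactPairing X' Y')
    (f : X ⟶ X') : PvA_IsMate p p' f (@rightAdjointMate C _ _ X X' (@HasRightDual.mk C _ _ X Y p)
      (@HasRightDual.mk C _ _ X' Y' p') f) :=
  (@coevaluation_comp_rightAdjointMate C _ _ X X' (@HasRightDual.mk C _ _ X Y p)
      (@HasRightDual.mk C _ _ X' Y' p') f).symm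

theorem PvA_uniq {X Y X' Y' : C} {p : ExactPairing X Y} {p' : ExactPairing X' Y'}
    {f : X ⟶ X'} {g g' : Y' ⟶ Y} (h : PvA_IsMate p p' f g) (h' : PvA_IsMate p p' f g') : g = g' :=
  mate_unique p p' f g g' (h.symm.trans h')

theorem PvA_comp {X Y X' Y' X'' Y'' : C} {p : ExactPairing X Y} {p' : ExactPairing X' Y'}
    {p'' : ExactPairing X'' Y''} {f : X ⟶ X'} {g : Y' ⟶ Y} {f' : X' ⟶ X''} {g' : Y'' ⟶ Y'}
    (h : PvA_IsMate p p' f g) (h' : PvA_IsMate p' p'' f' g') :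
    PvA_IsMate p p'' (f ≫ f') (g' ≫ g) := by
  unfold PvA_IsMate at *
  rw [comp_whiskerRight, ← Category.assoc, h, Category.assoc, whisker_exchange, ← Category.assoc,
    h', Category.assoc, MonoidalCategory.whiskerLeft_comp]

theorem PvA_iso {X Y₁ Y₂ : C} (p₁ : ExactPairing X Y₁) (p₂ : ExactPairing X Y₂) :
    PvA_IsMate p₂ p₁ (𝟙 X) (rightDualIso p₁ p₂).hom := PvA_mk p₂ p₁ (𝟙 X)

theorem PvA_iso_inv {X Y₁ Y₂ : C} (p₁ : ExactPairing X Y₁) (p₂ : ExactPairing X Y₂) :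
    PvA_IsMate p₁ p₂ (𝟙 X) (rightDualIso p₁ p₂).inv := PvA_mk p₁ p₂ (𝟙 X)

theorem PvA_tensor {X Y Y' Z W W' : C} {p : ExactPairing X Y} {p' : ExactPairing X Y'}
    {q : ExactPairing Z W} {q' : ExactPairing Z W'} {g : Y' ⟶ Y} {g₂ : W' ⟶ W}
    (h : PvA_IsMate p p' (𝟙 X) g) (h₂ : PvA_IsMate q q' (𝟙 Z) g₂) :
    PvA_IsMate (@ExactPairing.tensor C _ _ X Z Y W p q) (@ExactPairing.tensor C _ _ X Z Y' W' p' q')
      (𝟙 (X ⊗ Z)) (g₂ ⊗ₘ g) := by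
  unfold PvA_IsMate at *
  rw [id_whiskerRight, Category.comp_id] at h h₂ ⊢
  change p.coevaluation' ⊗≫ (X ◁ q.coevaluation') ▷ Y ⊗≫ 𝟙 _ =
    (p'.coevaluation' ⊗≫ (X ◁ q'.coevaluation') ▷ Y' ⊗≫ 𝟙 _) ≫ _
  rw [h, h₂]
  generalize p'.coevaluation' = a
  generalize q'.coevaluation' = b
  calc (a ≫ X ◁ g) ⊗≫ (X ◁ (b ≫ Z ◁ g₂)) ▷ Y ⊗≫ 𝟙 _
      = a ⊗≫ X ◁ ((𝟙_ C) ◁ g ≫ (b ≫ Z ◁ g₂) ▷ Y) ⊗≫ 𝟙 _ := by monoidal
    _ = a ⊗≫ X ◁ ((b ≫ Z ◁ g₂) ▷ Y' ≫ (Z ⊗ W) ◁ g) ⊗≫ 𝟙 _ := by rw [whisker_exchange]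
    _ = _ := by rw [MonoidalCategory.tensorHom_def]; monoidal

theorem PvA_slide {X₁ X₂ Y₁ Y₂ A₁ A₂ B₁ B₂ : C} (a₁ : X₁ ⟶ A₁) (a₂ : X₂ ⟶ A₂) (rq : Y₂ ⟶ B₂)
    (rp : Y₁ ⟶ B₁) (e₂ : A₂ ⊗ B₂ ⟶ 𝟙_ C) (e₁ : A₁ ⊗ B₁ ⟶ 𝟙_ C) :
    ((a₁ ⊗ₘ a₂) ⊗ₘ (rq ⊗ₘ rp)) ≫ (𝟙 _ ⊗≫ A₁ ◁ (e₂ ▷ B₁) ⊗≫ e₁) =
      (α_ X₁ X₂ (Y₂ ⊗ Y₁)).hom ≫ (X₁ ◁ ((α_ X₂ Y₂ Y₁).inv ≫ (((a₂ ⊗ₘ rq) ≫ e₂) ▷ Y₁) ≫
        (λ_ Y₁).hom)) ≫ ((a₁ ⊗ₘ rp) ≫ e₁) := by
  calc ((a₁ ⊗ₘ a₂) ⊗ₘ (rq ⊗ₘ rp)) ≫ (𝟙 _ ⊗≫ A₁ ◁ (e₂ ▷ B₁) ⊗≫ e₁)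
      = 𝟙 _ ⊗≫ (a₁ ▷ ((X₂ ⊗ Y₂) ⊗ Y₁) ≫
          A₁ ◁ ((a₂ ⊗ₘ rq) ▷ Y₁ ≫ ((A₂ ⊗ B₂) ◁ rp ≫ e₂ ▷ B₁))) ⊗≫ e₁ := by
        simp only [MonoidalCategory.tensorHom_def]
        monoidal
    _ = 𝟙 _ ⊗≫ (a₁ ▷ ((X₂ ⊗ Y₂) ⊗ Y₁) ≫
          A₁ ◁ ((a₂ ⊗ₘ rq) ▷ Y₁ ≫ (e₂ ▷ Y₁ ≫ (𝟙_ C) ◁ rp))) ⊗≫ e₁ := by
        rw [whisker_exchange]
    _ = 𝟙 _ ⊗≫ (X₁ ◁ ((a₂ ⊗ₘ rq) ▷ Y₁ ≫ (e₂ ▷ Y₁ ≫ (𝟙_ C) ◁ rp)) ≫
          a₁ ▷ ((𝟙_ C) ⊗ B₁)) ⊗≫ e₁ := by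
        rw [whisker_exchange]
    _ = 𝟙 _ ⊗≫ X₁ ◁ ((a₂ ⊗ₘ rq) ▷ Y₁ ≫ e₂ ▷ Y₁) ⊗≫ (X₁ ◁ rp ≫ a₁ ▷ B₁) ≫ e₁ := by
        monoidal
    _ = _ := by
        rw [← tensorHom_def' a₁ rp]
        monoidal

/-- The flip of a pivotal structure. -/
def PivotalStructure.flip [RigidCategory C] (P : PivotalStructure C) : Flip C where
  ev {X Y} p := ((P.a X).hom ⊗ₘ (rightDualIso p (duPair X)).hom) ≫
    (duPair (du X)).evaluation'
  nat {X Y X' Y'} p p' f g h := by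
    have e1 : (rightDualIso p' (duPair X')).hom ≫ duMap f = g ≫ (rightDualIso p (duPair X)).hom := by
      have m1 : PvA_IsMate (duPair X) p' (f ≫ 𝟙 X')
          ((rightDualIso p' (duPair X')).hom ≫ duMap f) :=
        PvA_comp (PvA_mk (duPair X) (duPair X') f) (PvA_iso p' (duPair X'))
      have m2 : PvA_IsMate (duPair X) p' (𝟙 X ≫ f) (g ≫ (rightDualIso p (duPair X)).hom) :=
        PvA_comp (PvA_iso p (duPair X)) h
      rw [Category.comp_id] at m1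
      rw [Category.id_comp] at m2
      exact PvA_uniq m1 m2
    have e2 : (duMap (duMap f) ▷ du X') ≫ (duPair (du X')).evaluation' =
        (du (du X) ◁ duMap f) ≫ (duPair (du X)).evaluation' :=
      rightAdjointMate_comp_evaluation (duMap f)
    have l1 : (f ▷ Y') ≫ ((P.a X').hom ⊗ₘ (rightDualIso p' (duPair X')).hom) =
        ((P.a X).hom ⊗ₘ (rightDualIso p' (duPair X')).hom) ≫ (duMap (duMap f) ▷ du X') := by
      rw [← tensorHom_id, tensorHom_comp_tensorHom, Category.id_comp, P.naturality,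
        ← tensorHom_id, tensorHom_comp_tensorHom, Category.comp_id]
    have l2 : ((P.a X).hom ⊗ₘ (rightDualIso p' (duPair X')).hom) ≫ (du (du X) ◁ duMap f) =
        (X ◁ g) ≫ ((P.a X).hom ⊗ₘ (rightDualIso p (duPair X)).hom) := by
      rw [← id_tensorHom, tensorHom_comp_tensorHom, Category.comp_id, e1,
        ← id_tensorHom, tensorHom_comp_tensorHom, Category.id_comp]
    rw [← Category.assoc, l1, Category.assoc, e2, ← Category.assoc, l2, Category.assoc]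
  tensor {X₁ Y₁ X₂ Y₂} p q := by
    have m1 : PvA_IsMate (@ExactPairing.tensor C _ _ (du X₂) (du X₁) (du (du X₂)) (du (du X₁))
        (duPair (du X₂)) (duPair (du X₁))) (duPair (du (X₁ ⊗ X₂)))
        (𝟙 (du X₂ ⊗ du X₁) ≫ (rightDualTensorIso X₁ X₂).inv) (ddTensor X₁ X₂) :=
      PvA_comp (PvA_iso (duPair (du X₂ ⊗ du X₁)) _) (PvA_mk (duPair (du X₂ ⊗ du X₁))
        (duPair (du (X₁ ⊗ X₂))) (rightDualTensorIso X₁ X₂).inv)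
    rw [Category.id_comp] at m1
    have m2 := mate_ev' _ _ _ _ m1
    have e1 : (duPair (du (X₁ ⊗ X₂))).evaluation' =
        (ddTensor X₁ X₂ ⊗ₘ (rightDualTensorIso X₁ X₂).hom) ≫
        (@ExactPairing.tensor C _ _ (du X₂) (du X₁) (du (du X₂)) (du (du X₁))
          (duPair (du X₂)) (duPair (du X₁))).evaluation' := by
      rw [tensorHom_def', Category.assoc, m2, ← Category.assoc,
        ← MonoidalCategory.whiskerLeft_comp, Iso.hom_inv_id, MonoidalCategory.whiskerLeft_id,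
        Category.id_comp]
    have m3 : PvA_IsMate (@ExactPairing.tensor C _ _ X₁ X₂ (du X₁) (du X₂) (duPair X₁) (duPair X₂))
        (@ExactPairing.tensor C _ _ X₁ X₂ Y₁ Y₂ p q) (𝟙 (X₁ ⊗ X₂))
        ((rightDualIso q (duPair X₂)).hom ⊗ₘ (rightDualIso p (duPair X₁)).hom) :=
      PvA_tensor (PvA_iso p (duPair X₁)) (PvA_iso q (duPair X₂))
    have m4 : PvA_IsMate (@ExactPairing.tensor C _ _ X₁ X₂ (du X₁) (du X₂) (duPair X₁) (duPair X₂))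
        (@ExactPairing.tensor C _ _ X₁ X₂ Y₁ Y₂ p q) (𝟙 (X₁ ⊗ X₂) ≫ 𝟙 (X₁ ⊗ X₂))
        ((rightDualIso (@ExactPairing.tensor C _ _ X₁ X₂ Y₁ Y₂ p q) (duPair (X₁ ⊗ X₂))).hom ≫
          (rightDualTensorIso X₁ X₂).hom) :=
      PvA_comp (PvA_iso (duPair (X₁ ⊗ X₂)) _) (PvA_iso _ (duPair (X₁ ⊗ X₂)))
    rw [Category.comp_id] at m4
    have e2 := PvA_uniq m4 m3
    rw [e1, ← Category.assoc, tensorHom_comp_tensorHom, e2, P.tensor]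
    exact PvA_slide _ _ _ _ (duPair (du X₂)).evaluation' (duPair (du X₁)).evaluation'
  unit := by
    have m1 : PvA_IsMate (exactPairingUnit : ExactPairing (𝟙_ C) (𝟙_ C)) (duPair (du (𝟙_ C)))
        (𝟙 (𝟙_ C) ≫ (dualUnitIso C).inv) (ddUnit C) :=
      PvA_comp (PvA_iso (duPair (𝟙_ C)) exactPairingUnit)
        (PvA_mk (duPair (𝟙_ C)) (duPair (du (𝟙_ C))) (dualUnitIso C).inv)
    rw [Category.id_comp] at m1
    have m2 := mate_ev' _ _ _ _ m1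
    have e1 : (rightDualIso (exactPairingUnit : ExactPairing (𝟙_ C) (𝟙_ C)) (duPair (𝟙_ C))).hom =
        (dualUnitIso C).inv := rfl
    have e2 : (exactPairingUnit : ExactPairing (𝟙_ C) (𝟙_ C)).evaluation' = (ρ_ (𝟙_ C)).hom := rfl
    rw [e1, MonoidalCategory.tensorHom_def, Category.assoc, ← m2, ← Category.assoc,
      ← comp_whiskerRight, P.unit, id_whiskerRight, Category.id_comp, e2, unitors_equal]

end H24PV
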