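import Pool.Agent.H24.PV.PvDef

/-!
# PvC: traces and dimensions

* `tr_cyc`: let `m : Y ⟶ Y'` be the mate of `g : X' ⟶ X` (`p'.coev ≫ (g ▷ Y') = p.coev ≫ (X ◁ m)`,
  see `mate_exists` in row PvA; it is repeated here as a hypothesis-free lemma `mate_exists'`).
  `F.nat p' p g m` says `(g ▷ Y) ≫ ev p = (X' ◁ m) ≫ ev p'`.  Hence
  `tr p (f ≫ g) = coev_p ≫ f ▷ Y ≫ g ▷ Y ≫ ev p = coev_p ≫ f ▷ Y ≫ X' ◁ m ≫ ev p'
   = coev_p ≫ X ◁ m ≫ f ▷ Y' ≫ ev p' = coev_p' ≫ g ▷ Y' ≫ f ▷ Y' ≫ ev p' = tr p' (g ≫ f)`.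
* `dim_tensor`: by `F.tensor` and `ExactPairing.tensor_coevaluation`:
  `coev_p ≫ (X₁ ◁ coev_q ▷ Y₁) ≫ (X₁ ◁ ev q ▷ Y₁) ≫ ev p`; the inner part is the scalar `dim q` of
  `𝟙_`, move it out with naturality of the unitors (`𝟙_ ⟶ 𝟙_` commute:
  `whisker_exchange`, `unitors_equal`).
* `dim_sum`: `𝟙 X = ∑ π i ≫ ι i` and `tr_cyc`.
-/

open CategoryTheory MonoidalCategory

universe u v w

namespace H24PV
namespace Flip
variable {C : Type w} [Category.{v} C] [MonoidalCategory C] (F : Flip C)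

theorem mate_exists' {X Y X' Y' : C} (p : ExactPairing X Y) (p' : ExactPairing X' Y')
    (f : X ⟶ X') :
    ∃ g : Y' ⟶ Y, p.coevaluation' ≫ (f ▷ Y) = p'.coevaluation' ≫ (X' ◁ g) := by
  let i1 : HasRightDual X := { rightDual := Y, exact := p }
  let i2 : HasRightDual X' := { rightDual := Y', exact := p' }
  exact ⟨@rightAdjointMate C _ _ X X' i1 i2 f,
    (@coevaluation_comp_rightAdjointMate C _ _ X X' i1 i2 f).symm⟩

theorem tr_cyc {X Y X' Y' : C} (p : ExactPairing X Y) (p' : ExactPairing X' Y')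
    (f : X ⟶ X') (g : X' ⟶ X) : F.tr p (f ≫ g) = F.tr p' (g ≫ f) := by
  obtain ⟨m, hm⟩ := mate_exists' p' p g
  have h := F.nat p' p g m hm
  unfold tr
  rw [comp_whiskerRight, comp_whiskerRight, Category.assoc, Category.assoc, h,
    ← whisker_exchange_assoc, ← Category.assoc, ← hm, Category.assoc]

theorem dim_iso {X Y X' Y' : C} (p : ExactPairing X Y) (p' : ExactPairing X' Y')
    (e : X ≅ X') : F.dim p = F.dim p' := by
  unfold dim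
  rw [← e.hom_inv_id, ← e.inv_hom_id]
  exact F.tr_cyc p p' e.hom e.inv

theorem dim_unit : F.dim exactPairingUnit = 𝟙 (𝟙_ C) := by
  unfold dim tr
  rw [F.unit, id_whiskerRight, Category.id_comp]
  show (ρ_ (𝟙_ C)).inv ≫ (λ_ (𝟙_ C)).hom = 𝟙 (𝟙_ C)
  rw [unitors_equal, Iso.inv_hom_id]

/-- The hypothesis `hs` (left and right action of the scalars on `Y₁` agree) is needed: without it
the statement is false for two by two matrices of vector spaces. -/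
theorem dim_tensor {X₁ Y₁ X₂ Y₂ : C} (p : ExactPairing X₁ Y₁) (q : ExactPairing X₂ Y₂)
    (hs : ∀ s : 𝟙_ C ⟶ 𝟙_ C, (s ▷ Y₁) ≫ (λ_ Y₁).hom =
      (λ_ Y₁).hom ≫ (ρ_ Y₁).inv ≫ (Y₁ ◁ s) ≫ (ρ_ Y₁).hom) :
    F.dim (@ExactPairing.tensor C _ _ X₁ X₂ Y₁ Y₂ p q) = F.dim p ≫ F.dim q := by
  have hq : F.dim q = q.coevaluation' ≫ F.ev q := by
    unfold dim tr
    rw [id_whiskerRight, Category.id_comp]
  have hp : F.dim p = p.coevaluation' ≫ F.ev p := by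
    unfold dim tr
    rw [id_whiskerRight, Category.id_comp]
  have h1 : F.dim (@ExactPairing.tensor C _ _ X₁ X₂ Y₁ Y₂ p q) =
      (p.coevaluation' ⊗≫ (X₁ ◁ q.coevaluation') ▷ Y₁ ⊗≫ 𝟙 ((X₁ ⊗ X₂) ⊗ (Y₂ ⊗ Y₁))) ≫
        (α_ X₁ X₂ (Y₂ ⊗ Y₁)).hom ≫
          (X₁ ◁ ((α_ X₂ Y₂ Y₁).inv ≫ (F.ev q ▷ Y₁) ≫ (λ_ Y₁).hom)) ≫ F.ev p := by
    unfold dim tr
    rw [id_whiskerRight, Category.id_comp, F.tensor]
    rfl
  rw [h1, hp]
  have h2 : (p.coevaluation' ⊗≫ (X₁ ◁ q.coevaluation') ▷ Y₁ ⊗≫ 𝟙 ((X₁ ⊗ X₂) ⊗ (Y₂ ⊗ Y₁))) ≫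
        (α_ X₁ X₂ (Y₂ ⊗ Y₁)).hom ≫
          (X₁ ◁ ((α_ X₂ Y₂ Y₁).inv ≫ (F.ev q ▷ Y₁) ≫ (λ_ Y₁).hom)) ≫ F.ev p =
      p.coevaluation' ≫ (X₁ ◁ ((λ_ Y₁).inv ≫ ((q.coevaluation' ≫ F.ev q) ▷ Y₁) ≫ (λ_ Y₁).hom)) ≫
        F.ev p := by
    monoidal
  rw [h2, ← hq, hs, Iso.inv_hom_id_assoc]
  have h3 : X₁ ◁ ((ρ_ Y₁).inv ≫ (Y₁ ◁ F.dim q) ≫ (ρ_ Y₁).hom) ≫ F.ev p =
      (ρ_ (X₁ ⊗ Y₁)).inv ≫ (((X₁ ⊗ Y₁) ◁ F.dim q) ≫ (F.ev p ▷ 𝟙_ C)) ≫ (ρ_ (𝟙_ C)).hom := by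
    monoidal
  rw [h3, whisker_exchange]
  have h4 : p.coevaluation' ≫ (ρ_ (X₁ ⊗ Y₁)).inv ≫
      ((F.ev p ▷ 𝟙_ C) ≫ ((𝟙_ C) ◁ F.dim q)) ≫ (ρ_ (𝟙_ C)).hom =
      (p.coevaluation' ≫ F.ev p) ≫ F.dim q := by
    rw [← unitors_equal, Category.assoc, leftUnitor_naturality, unitors_equal,
      rightUnitor_naturality_assoc]
    simp
  exact h4

variable [Preadditive C] [MonoidalPreadditive C]

theorem tr_add {X Y : C} (p : ExactPairing X Y) (f g : X ⟶ X) :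
    F.tr p (f + g) = F.tr p f + F.tr p g := by
  unfold tr
  rw [MonoidalPreadditive.add_whiskerRight, Preadditive.add_comp, Preadditive.comp_add]

theorem tr_smul {k : Type u} [Field k] [Linear k C] [MonoidalLinear k C]
    {X Y : C} (p : ExactPairing X Y) (r : k) (f : X ⟶ X) :
    F.tr p (r • f) = r • F.tr p f := by
  unfold tr
  rw [MonoidalLinear.smul_whiskerRight, Linear.smul_comp, Linear.comp_smul]

/-- Multiplicativity of dimensions when the dimension of the second object is a scalar. -/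
theorem dim_tensor_lin {k : Type u} [Field k] [Linear k C] [MonoidalLinear k C]
    {X₁ Y₁ X₂ Y₂ : C} (p : ExactPairing X₁ Y₁) (q : ExactPairing X₂ Y₂)
    (hs : ∀ s : 𝟙_ C ⟶ 𝟙_ C, ∃ r : k, s = r • 𝟙 (𝟙_ C)) :
    F.dim (@ExactPairing.tensor C _ _ X₁ X₂ Y₁ Y₂ p q) = F.dim p ≫ F.dim q := by
  apply F.dim_tensor p q
  intro s
  obtain ⟨r, rfl⟩ := hs s
  rw [MonoidalLinear.smul_whiskerRight, MonoidalLinear.whiskerLeft_smul, id_whiskerRight,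
    whiskerLeft_id, Linear.smul_comp, Category.id_comp, Linear.smul_comp, Category.id_comp,
    Linear.comp_smul, Linear.comp_smul, Iso.inv_hom_id, Category.comp_id]

theorem dim_sum {I : Type} [Fintype I] {X Y : C} (p : ExactPairing X Y) (S T : I → C)
    (q : ∀ i, ExactPairing (S i) (T i)) (π : ∀ i, X ⟶ S i) (ι : ∀ i, S i ⟶ X)
    (h1 : ∀ i, ι i ≫ π i = 𝟙 (S i)) (h2 : ∑ i, π i ≫ ι i = 𝟙 X) :
    F.dim p = ∑ i, F.dim (q i) := by
  classical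
  have hsum : ∀ (s : Finset I) (f : I → (X ⟶ X)), F.tr p (∑ i ∈ s, f i) =
      ∑ i ∈ s, F.tr p (f i) := by
    intro s f
    induction s using Finset.induction_on with
    | empty =>
      rw [Finset.sum_empty, Finset.sum_empty]
      have h0 := F.tr_add p (0 : X ⟶ X) 0
      rw [add_zero] at h0
      exact left_eq_add.mp h0
    | insert i s his ih => rw [Finset.sum_insert his, Finset.sum_insert his, F.tr_add, ih]
  unfold dim
  rw [← h2, hsum]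
  refine Finset.sum_congr rfl (fun i _ => ?_)
  rw [F.tr_cyc p (q i) (π i) (ι i), h1]

end Flip
end H24PV
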