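import Pool.Agent.H24.PV.PvDef

/-!
# PvD: the squared norm

`p : (X, Y)` with `c : 𝟙 ⟶ X ⊗ Y`, `e : Y ⊗ X ⟶ 𝟙` and `q : (Y, X)` with `c' : 𝟙 ⟶ Y ⊗ X`,
`e' : X ⊗ Y ⟶ 𝟙`, and all endomorphisms of `X` and of `Y` are scalars.
(1) Every `t : X ⊗ Y ⟶ 𝟙` is a multiple of `e'`: the endomorphism
    `X ⟶ X ⊗ (Y ⊗ X) ⟶ (X ⊗ Y) ⊗ X ⟶ X` (`X ◁ c'`, `t ▷ X`) is `s • 𝟙`, and `t` is recovered from
    it by the zigzag equation (`tensorRightHomEquiv`), so `t = s • e'`.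
    So `F.ev p = s • e'` and `F.ev q = s' • e`.
(2) `F.nat` for `f = c : 𝟙 ⟶ X ⊗ Y`, the pairings `exactPairingUnit` of `(𝟙, 𝟙)` and
    `tensor p q` of `(X ⊗ Y, X ⊗ Y)` (`p : (X, Y)`, `q : (Y, X)`), and the mate
    `g = e' : X ⊗ Y ⟶ 𝟙` (check the mate condition
    `unit.coev ≫ (c ▷ 𝟙) = (tensor p q).coev ≫ ((X ⊗ Y) ◁ e')`:
    `(tensor p q).coev = c ⊗≫ X ◁ c' ▷ Y`, and `c' , e'` satisfy a zigzag for `(Y, X)`).
    It gives `(c ▷ (X ⊗ Y)) ≫ F.ev (tensor p q) = (𝟙 ◁ e') ≫ F.ev unit = λ ≫ e'`.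
    With `F.tensor` the left side is `s s' •` (c, then `e` on the inner `Y ⊗ X`, then `e'`)
    `= s s' • (λ ≫ e')` by the zigzag equation of `p`.  So `(s s' - 1) • e' = 0`.
(3) `dim p = c ≫ F.ev p = s • (c ≫ e')`, `dim q = s' • (c' ≫ e)`; so
    `dim p ≫ dim q = (s s') • ((c ≫ e') ≫ (c' ≫ e)) = (c ≫ e') ≫ (c' ≫ e)`.
-/

open CategoryTheory MonoidalCategory

universe u v w

namespace H24PV

section
variable {C : Type w} [Category.{v} C] [MonoidalCategory C]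

theorem PvD_zig {X Y : C} (q : ExactPairing Y X) (t : X ⊗ Y ⟶ 𝟙_ C) :
    (((ρ_ X).inv ≫ X ◁ q.coevaluation' ≫ (α_ X Y X).inv ≫ t ▷ X ≫ (λ_ X).hom) ▷ Y) ≫
      q.evaluation' = t := by
  calc _ = 𝟙 _ ⊗≫ X ◁ q.coevaluation' ▷ Y ⊗≫
        (t ▷ (X ⊗ Y) ≫ 𝟙_ C ◁ q.evaluation') ⊗≫ 𝟙 _ := by monoidal
    _ = 𝟙 _ ⊗≫ X ◁ (q.coevaluation' ▷ Y ⊗≫ Y ◁ q.evaluation') ⊗≫ t := by
        rw [← whisker_exchange]; monoidal
    _ = t := by
        have h : q.coevaluation' ▷ Y ⊗≫ Y ◁ q.evaluation' = ⊗𝟙.hom :=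
          @ExactPairing.evaluation_coevaluation'' C _ _ Y X q
        rw [h]; monoidal

theorem PvD_snake {X Y : C} (p : ExactPairing X Y) (t : X ⊗ Y ⟶ 𝟙_ C) :
    (p.coevaluation' ▷ (X ⊗ Y)) ≫ (α_ X Y (X ⊗ Y)).hom ≫
      (X ◁ ((α_ Y X Y).inv ≫ (p.evaluation' ▷ Y) ≫ (λ_ Y).hom)) ≫ t = (λ_ (X ⊗ Y)).hom ≫ t := by
  have h : p.coevaluation' ▷ X ⊗≫ X ◁ p.evaluation' = ⊗𝟙.hom :=
    @ExactPairing.evaluation_coevaluation'' C _ _ X Y p
  calc _ = 𝟙 _ ⊗≫ (p.coevaluation' ▷ X ⊗≫ X ◁ p.evaluation') ▷ Y ⊗≫ t := by monoidal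
    _ = _ := by rw [h]; monoidal

theorem PvD_mate {X Y : C} (p : ExactPairing X Y) (q : ExactPairing Y X) :
    (exactPairingUnit (C := C)).coevaluation' ≫ (p.coevaluation' ▷ 𝟙_ C) =
      (@ExactPairing.tensor C _ _ X Y Y X p q).coevaluation' ≫ ((X ⊗ Y) ◁ q.evaluation') := by
  have h : q.coevaluation' ▷ Y ⊗≫ Y ◁ q.evaluation' = ⊗𝟙.hom :=
    @ExactPairing.evaluation_coevaluation'' C _ _ Y X q
  have h1 : (@ExactPairing.tensor C _ _ X Y Y X p q).coevaluation' =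
      p.coevaluation' ⊗≫ (X ◁ q.coevaluation') ▷ Y ⊗≫ 𝟙 _ := rfl
  have h2 : (exactPairingUnit (C := C)).coevaluation' = (ρ_ (𝟙_ C)).inv := rfl
  rw [h1, h2]
  symm
  calc _ = p.coevaluation' ⊗≫ X ◁ (q.coevaluation' ▷ Y ⊗≫ Y ◁ q.evaluation') ⊗≫ 𝟙 _ := by
        monoidal
    _ = _ := by rw [h]; monoidal

end

namespace Flip
variable {C : Type w} [Category.{v} C] [MonoidalCategory C] (F : Flip C)
  [Preadditive C] [MonoidalPreadditive C]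

theorem PvD_mult {k : Type u} [Field k] [Linear k C] [MonoidalLinear k C] {X Y : C}
    (q : ExactPairing Y X) (hX : ∀ f : X ⟶ X, ∃ s : k, f = s • 𝟙 X) (t : X ⊗ Y ⟶ 𝟙_ C) :
    ∃ s : k, t = s • q.evaluation' := by
  obtain ⟨s, hs⟩ := hX ((ρ_ X).inv ≫ X ◁ q.coevaluation' ≫ (α_ X Y X).inv ≫ t ▷ X ≫ (λ_ X).hom)
  refine ⟨s, ?_⟩
  have h := PvD_zig q t
  rw [hs, MonoidalLinear.smul_whiskerRight, Linear.smul_comp, id_whiskerRight,
    Category.id_comp] at h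
  exact h.symm

theorem sqnorm {k : Type u} [Field k] [Linear k C] [MonoidalLinear k C] {X Y : C}
    (p : ExactPairing X Y) (q : ExactPairing Y X)
    (hX : ∀ f : X ⟶ X, ∃ s : k, f = s • 𝟙 X) (hY : ∀ f : Y ⟶ Y, ∃ s : k, f = s • 𝟙 Y) :
    F.dim p ≫ F.dim q =
      (p.coevaluation' ≫ q.evaluation') ≫ (q.coevaluation' ≫ p.evaluation') := by
  obtain ⟨s, hs⟩ := PvD_mult q hX (F.ev p)
  obtain ⟨s', hs'⟩ := PvD_mult p hY (F.ev q)
  have h1 := F.nat (exactPairingUnit (C := C)) (@ExactPairing.tensor C _ _ X Y Y X p q)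
    p.coevaluation' q.evaluation' (PvD_mate p q)
  rw [F.tensor p q, F.unit, hs, hs'] at h1
  have h2 : (s * s') • q.evaluation' = q.evaluation' := by
    have h3 := PvD_snake p q.evaluation'
    simp only [MonoidalLinear.smul_whiskerRight, MonoidalLinear.whiskerLeft_smul,
      Linear.smul_comp, Linear.comp_smul, smul_smul] at h1
    rw [h3, leftUnitor_naturality] at h1
    have h4 : (λ_ (X ⊗ Y)).hom ≫ ((s * s') • q.evaluation') =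
        (λ_ (X ⊗ Y)).hom ≫ q.evaluation' := by
      rw [Linear.comp_smul]; exact h1
    exact (cancel_epi _).1 h4
  unfold dim tr
  rw [hs, hs']
  have h5 : (p.coevaluation' ≫ q.evaluation') = (s * s') • (p.coevaluation' ≫ q.evaluation') := by
    rw [← Linear.comp_smul, h2]
  conv_rhs => rw [h5]
  simp only [id_whiskerRight, Category.id_comp, Linear.comp_smul, Linear.smul_comp, smul_smul]
  rw [mul_comm s s']

end Flip
end H24PV
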