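import Pool.Agent.H24.PV.Fusion
import Pool.Agent.H24.PV.KaB

/-!
# Flips: the evaluations `X ⊗ X* ⟶ 𝟙` coming from a pivotal structure
-/

open CategoryTheory MonoidalCategory

universe u v w

namespace H24PV

/-- A coherent choice of morphisms `X ⊗ Y ⟶ 𝟙` for all exact pairings `(X, Y)`
(`𝟙 ⟶ X ⊗ Y`, `Y ⊗ X ⟶ 𝟙`); a pivotal structure gives one. -/
structure Flip (C : Type w) [Category.{v} C] [MonoidalCategory C] where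
  ev : ∀ {X Y : C}, ExactPairing X Y → (X ⊗ Y ⟶ 𝟙_ C)
  nat : ∀ {X Y X' Y' : C} (p : ExactPairing X Y) (p' : ExactPairing X' Y') (f : X ⟶ X')
    (g : Y' ⟶ Y), p.coevaluation' ≫ (f ▷ Y) = p'.coevaluation' ≫ (X' ◁ g) →
    (f ▷ Y') ≫ ev p' = (X ◁ g) ≫ ev p
  tensor : ∀ {X₁ Y₁ X₂ Y₂ : C} (p : ExactPairing X₁ Y₁) (q : ExactPairing X₂ Y₂),
    ev (@ExactPairing.tensor C _ _ X₁ X₂ Y₁ Y₂ p q) =
      (α_ X₁ X₂ (Y₂ ⊗ Y₁)).hom ≫ (X₁ ◁ ((α_ X₂ Y₂ Y₁).inv ≫ (ev q ▷ Y₁) ≫ (λ_ Y₁).hom)) ≫ ev p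
  unit : ev exactPairingUnit = (λ_ (𝟙_ C)).hom

namespace Flip
variable {C : Type w} [Category.{v} C] [MonoidalCategory C] (F : Flip C)

/-- Trace of an endomorphism. -/
def tr {X Y : C} (p : ExactPairing X Y) (f : X ⟶ X) : 𝟙_ C ⟶ 𝟙_ C :=
  p.coevaluation' ≫ (f ▷ Y) ≫ F.ev p

/-- Dimension. -/
def dim {X Y : C} (p : ExactPairing X Y) : 𝟙_ C ⟶ 𝟙_ C := F.tr p (𝟙 X)

end Flip
end H24PV
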