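import Pool.Agent.H24.PV.PvC
import Pool.Agent.H24.PV.KlDef

/-!
# PvE: dimension of an object with two known summands

Regularity: `f₁ ≫ g₁ ≫ f₁ = f₁` with `g₁ : Y₁ ⟶ X`; `g₁ ≫ f₁ : Y₁ ⟶ Y₁` is a scalar `c • 𝟙` with
`c² = c` and `c ≠ 0` (as `f₁ ≠ 0`), so `g₁ ≫ f₁ = 𝟙`.  Same for `f₂, g₂`.  `e_i = f_i ≫ g_i` are
idempotents of `X`, `e₁ ≫ e₂ = f₁ ≫ (g₁ ≫ f₂) ≫ g₂ = 0` as `Hom(Y₁, Y₂) = 0`, and `e₂ ≫ e₁ = 0`.
`e₁, e₂` are linearly independent in the two-dimensional space `X ⟶ X`, so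
`𝟙 - e₁ - e₂ = a • e₁ + b • e₂`; composing with `e₁`, `e₂` gives `a = b = 0`.  So
`𝟙 X = f₁ ≫ g₁ + f₂ ≫ g₂` and `dim_sum` (or `tr_add` and `tr_cyc`) gives the result.
-/

open CategoryTheory MonoidalCategory

universe u v w

namespace H24PV
namespace Flip
variable {C : Type w} [Category.{v} C] [MonoidalCategory C] (F : Flip C)
  [Preadditive C] [MonoidalPreadditive C]

omit [MonoidalCategory C] [MonoidalPreadditive C] in
/-- `PvE`: nonzero morphisms to an object with one-dimensional endomorphisms split -/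
private theorem PvE_split {k : Type u} [Field k] [Linear k C]
    (hR : Regular C) {X Y : C} (h1 : Module.finrank k (Y ⟶ Y) = 1) (f : X ⟶ Y) (hf : f ≠ 0) :
    ∃ g : Y ⟶ X, g ≫ f = 𝟙 Y := by
  obtain ⟨g, hg⟩ := hR f
  refine ⟨g, ?_⟩
  have h0 : (𝟙 Y : Y ⟶ Y) ≠ 0 := by
    intro h
    apply hf
    rw [← Category.comp_id f, h, Limits.comp_zero]
  obtain ⟨c, hc⟩ := (finrank_eq_one_iff_of_nonzero' (𝟙 Y : Y ⟶ Y) h0).1 h1 (g ≫ f)
  rw [← hc, Linear.comp_smul, Category.comp_id] at hg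
  have h2 : (c - 1) • f = 0 := by rw [sub_smul, hg, one_smul, sub_self]
  have h3 : c = 1 := by
    rcases smul_eq_zero.1 h2 with h | h
    · exact sub_eq_zero.1 h
    · exact absurd h hf
  rw [← hc, h3, one_smul]

theorem dim_two {k : Type u} [Field k] [Linear k C] [MonoidalLinear k C] (hR : Regular C)
    {X X' Y₁ Y₁' Y₂ Y₂' : C}
    (p : ExactPairing X X') (q₁ : ExactPairing Y₁ Y₁') (q₂ : ExactPairing Y₂ Y₂')
    (h1 : Module.finrank k (Y₁ ⟶ Y₁) = 1) (h2 : Module.finrank k (Y₂ ⟶ Y₂) = 1)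
    (h3 : ∀ f : Y₁ ⟶ Y₂, f = 0) (h4 : ∀ f : Y₂ ⟶ Y₁, f = 0)
    (h5 : ∃ f : X ⟶ Y₁, f ≠ 0) (h6 : ∃ f : X ⟶ Y₂, f ≠ 0)
    (h7 : Module.finrank k (X ⟶ X) = 2) :
    F.dim p = F.dim q₁ + F.dim q₂ := by
  obtain ⟨f₁, hf₁⟩ := h5
  obtain ⟨f₂, hf₂⟩ := h6
  obtain ⟨g₁, hg₁⟩ := PvE_split hR h1 f₁ hf₁
  obtain ⟨g₂, hg₂⟩ := PvE_split hR h2 f₂ hf₂
  have e11 : (f₁ ≫ g₁) ≫ (f₁ ≫ g₁) = f₁ ≫ g₁ := by
    rw [Category.assoc, ← Category.assoc g₁ f₁ g₁, hg₁, Category.id_comp]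
  have e22 : (f₂ ≫ g₂) ≫ (f₂ ≫ g₂) = f₂ ≫ g₂ := by
    rw [Category.assoc, ← Category.assoc g₂ f₂ g₂, hg₂, Category.id_comp]
  have e12 : (f₁ ≫ g₁) ≫ (f₂ ≫ g₂) = 0 := by
    rw [Category.assoc, ← Category.assoc g₁ f₂ g₂, h3 (g₁ ≫ f₂), Limits.zero_comp,
      Limits.comp_zero]
  have e21 : (f₂ ≫ g₂) ≫ (f₁ ≫ g₁) = 0 := by
    rw [Category.assoc, ← Category.assoc g₂ f₁ g₁, h4 (g₂ ≫ f₁), Limits.zero_comp,
      Limits.comp_zero]
  have n1 : f₁ ≫ g₁ ≠ 0 := by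
    intro h
    apply hf₁
    have : (f₁ ≫ g₁) ≫ f₁ = f₁ := by rw [Category.assoc, hg₁, Category.comp_id]
    rw [← this, h, Limits.zero_comp]
  have n2 : f₂ ≫ g₂ ≠ 0 := by
    intro h
    apply hf₂
    have : (f₂ ≫ g₂) ≫ f₂ = f₂ := by rw [Category.assoc, hg₂, Category.comp_id]
    rw [← this, h, Limits.zero_comp]
  have hli : LinearIndependent k ![f₁ ≫ g₁, f₂ ≫ g₂] := by
    rw [LinearIndependent.pair_iff]
    intro a b hab
    have ha : a • (f₁ ≫ g₁) = 0 := by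
      have := congrArg (fun t => (f₁ ≫ g₁) ≫ t) hab
      simp only [Preadditive.comp_add, Linear.comp_smul] at this
      rw [e11, e12, smul_zero, add_zero, Limits.comp_zero] at this
      exact this
    have hb : b • (f₂ ≫ g₂) = 0 := by
      have := congrArg (fun t => (f₂ ≫ g₂) ≫ t) hab
      simp only [Preadditive.comp_add, Linear.comp_smul] at this
      rw [e22, e21, smul_zero, zero_add, Limits.comp_zero] at this
      exact this
    exact ⟨(smul_eq_zero.1 ha).resolve_right n1, (smul_eq_zero.1 hb).resolve_right n2⟩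
  have : FiniteDimensional k (X ⟶ X) := Module.finite_of_finrank_pos (by rw [h7]; norm_num)
  have hsp := hli.span_eq_top_of_card_eq_finrank' (by rw [h7]; rfl)
  have hid : (𝟙 X : X ⟶ X) ∈ Submodule.span k (Set.range ![f₁ ≫ g₁, f₂ ≫ g₂]) := by
    rw [hsp]; exact Submodule.mem_top
  have hr : Set.range ![f₁ ≫ g₁, f₂ ≫ g₂] = {f₁ ≫ g₁, f₂ ≫ g₂} := by
    simp [Matrix.range_cons, Matrix.range_empty, Set.pair_comm]
  rw [hr, Submodule.mem_span_pair] at hid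
  obtain ⟨a, b, hab⟩ := hid
  have ha : a • (f₁ ≫ g₁) = f₁ ≫ g₁ := by
    have := congrArg (fun t => (f₁ ≫ g₁) ≫ t) hab
    simp only [Preadditive.comp_add, Linear.comp_smul] at this
    rw [e11, e12, smul_zero, add_zero, Category.comp_id] at this
    exact this
  have hb : b • (f₂ ≫ g₂) = f₂ ≫ g₂ := by
    have := congrArg (fun t => (f₂ ≫ g₂) ≫ t) hab
    simp only [Preadditive.comp_add, Linear.comp_smul] at this
    rw [e22, e21, smul_zero, zero_add, Category.comp_id] at this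
    exact this
  rw [ha, hb] at hab
  unfold dim
  rw [← hab, F.tr_add, F.tr_cyc p q₁ f₁ g₁, F.tr_cyc p q₂ f₂ g₂, hg₁, hg₂]

end Flip
end H24PV
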