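import Pool.Agent.H24.PV.PvA

/-!
# PvSane: the definition of pivotal structure is satisfiable

In a symmetric rigid category the braiding gives a pivotal structure.  For an exact pairing
`p : (X, Y)` put `ev' p = (β_ X Y).hom ≫ p.evaluation' : X ⊗ Y ⟶ 𝟙`.  It satisfies the laws of
`Flip` (`nat`: naturality of the braiding and `mate_ev'`; `tensor`: hexagon, symmetry;
`unit`).  Define `a X : X ⟶ X**` as the unique morphism with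
`(a X ▷ X*) ≫ ε_{X*} = ev' (duPair X)`, i.e.
`a X = (ρ_ X).inv ≫ (X ◁ η_{X*}) ≫ (α_ X X* X**).inv ≫ (ev' (duPair X) ▷ X**) ≫ (λ_ X**).hom`
(zigzag).  Two morphisms `g, g' : X ⟶ X**` are equal iff `(g ▷ X*) ≫ ε_{X*}` agree (zigzag).
Inverse: `(λ_ X**).inv ≫ (η_X ▷ X**) ≫ .. ` using the symmetry `β⁻¹`.  With this characterisation
* naturality: `(f ▷ X'*) ≫ ev' p' = (X ◁ f*) ≫ ev' p` and `(f** ⊗ 1) ≫ ε = (1 ⊗ f*) ≫ ε`;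
* `tensor`, `unit`: as in the proof of `PivotalStructure.flip` in `PvA.lean`, read backwards
  (`ddTensor`, `ddUnit` are mates of identities).
-/

open CategoryTheory MonoidalCategory

universe v w

namespace H24PV

section
variable {C : Type w} [Category.{v} C] [MonoidalCategory C] [SymmetricCategory C]

/-- The swapped pairing. -/
abbrev PvSane_sw {X Y : C} (p : ExactPairing X Y) : ExactPairing Y X :=
  @BraidedCategory.exactPairing_swap C _ _ _ X Y p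

theorem PvSane_coev {X Y : C} (p : ExactPairing X Y) :
    (PvSane_sw p).coevaluation' = p.coevaluation' ≫ (β_ X Y).hom := by
  show p.coevaluation' ≫ (β_ Y X).inv = _
  rw [SymmetricCategory.braiding_swap_eq_inv_braiding Y X]

theorem PvSane_swap {X Y X' Y' : C} {p : ExactPairing X Y} {p' : ExactPairing X' Y'}
    {f : X ⟶ X'} {g : Y' ⟶ Y} (h : PvA_IsMate p p' f g) :
    PvA_IsMate (PvSane_sw p') (PvSane_sw p) g f := by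
  unfold PvA_IsMate at *
  rw [PvSane_coev, PvSane_coev, Category.assoc, ← BraidedCategory.braiding_naturality_right,
    Category.assoc, ← BraidedCategory.braiding_naturality_left, ← Category.assoc, ← h,
    Category.assoc]

theorem PvSane_S1 {A D E : C} (v : 𝟙_ C ⟶ D ⊗ E) :
    A ◁ v ≫ (α_ A D E).inv ≫ (β_ A D).hom ▷ E =
      (ρ_ A).hom ≫ (λ_ A).inv ≫ v ▷ A ≫ (α_ D E A).hom ≫ D ◁ (β_ E A).hom ≫ (α_ D A E).inv := by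
  have h := BraidedCategory.braiding_naturality_right A v
  rw [braiding_tensorUnit_right, BraidedCategory.braiding_tensor_right_hom] at h
  have h2 : D ◁ (β_ A E).hom ≫ D ◁ (β_ E A).hom = 𝟙 _ := by
    rw [← MonoidalCategory.whiskerLeft_comp, SymmetricCategory.symmetry,
      MonoidalCategory.whiskerLeft_id]
  calc A ◁ v ≫ (α_ A D E).inv ≫ (β_ A D).hom ▷ E
      = (A ◁ v ≫ (α_ A D E).inv ≫ (β_ A D).hom ▷ E ≫ (α_ D A E).hom ≫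
          D ◁ (β_ A E).hom ≫ (α_ D E A).inv) ≫ (α_ D E A).hom ≫ D ◁ (β_ E A).hom ≫
          (α_ D A E).inv := by
        simp only [Category.assoc, Iso.inv_hom_id_assoc, reassoc_of% h2, Iso.hom_inv_id,
          Category.comp_id]
    _ = _ := by rw [h]; simp only [Category.assoc]

theorem PvSane_slide {A B D E : C} (u : 𝟙_ C ⟶ A ⊗ B) (v : 𝟙_ C ⟶ D ⊗ E) :
    u ⊗≫ A ◁ (v ▷ B) ⊗≫ (β_ A D).hom ▷ (E ⊗ B) ⊗≫ D ◁ (A ◁ (β_ E B).hom) ⊗≫ 𝟙 (D ⊗ A ⊗ B ⊗ E) =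
      v ⊗≫ D ◁ (u ▷ E) ⊗≫ 𝟙 _ := by
  have h := BraidedCategory.braiding_naturality_right E u
  rw [braiding_tensorUnit_right, BraidedCategory.braiding_tensor_right_hom] at h
  calc u ⊗≫ A ◁ (v ▷ B) ⊗≫ (β_ A D).hom ▷ (E ⊗ B) ⊗≫ D ◁ (A ◁ (β_ E B).hom) ⊗≫
        𝟙 (D ⊗ A ⊗ B ⊗ E)
      = u ⊗≫ (A ◁ v ≫ (α_ A D E).inv ≫ (β_ A D).hom ▷ E) ▷ B ⊗≫
          D ◁ (A ◁ (β_ E B).hom) ⊗≫ 𝟙 _ := by monoidal
    _ = u ⊗≫ ((ρ_ A).hom ≫ (λ_ A).inv ≫ v ▷ A ≫ (α_ D E A).hom ≫ D ◁ (β_ E A).hom ≫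
          (α_ D A E).inv) ▷ B ⊗≫ D ◁ (A ◁ (β_ E B).hom) ⊗≫ 𝟙 _ := by rw [PvSane_S1]
    _ = 𝟙 _ ⊗≫ ((𝟙_ C) ◁ u ≫ v ▷ (A ⊗ B)) ⊗≫ D ◁ ((α_ E A B).inv ≫ (β_ E A).hom ▷ B ≫
          (α_ A E B).hom ≫ A ◁ (β_ E B).hom ≫ (α_ A B E).inv) ⊗≫ 𝟙 _ := by monoidal
    _ = 𝟙 _ ⊗≫ (v ▷ (𝟙_ C) ≫ (D ⊗ E) ◁ u) ⊗≫ D ◁ ((α_ E A B).inv ≫ (β_ E A).hom ▷ B ≫
          (α_ A E B).hom ≫ A ◁ (β_ E B).hom ≫ (α_ A B E).inv) ⊗≫ 𝟙 _ := by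
        rw [whisker_exchange]
    _ = v ⊗≫ D ◁ (E ◁ u ≫ (α_ E A B).inv ≫ (β_ E A).hom ▷ B ≫
          (α_ A E B).hom ≫ A ◁ (β_ E B).hom ≫ (α_ A B E).inv) ⊗≫ 𝟙 _ := by monoidal
    _ = v ⊗≫ D ◁ (((ρ_ E).hom ≫ (λ_ E).inv) ≫ u ▷ E) ⊗≫ 𝟙 _ := by rw [h]
    _ = _ := by monoidal

theorem PvSane_tensor {X₁ Y₁ X₂ Y₂ : C} (p : ExactPairing X₁ Y₁) (q : ExactPairing X₂ Y₂) :
    (PvSane_sw (@ExactPairing.tensor C _ _ X₁ X₂ Y₁ Y₂ p q)).coevaluation' =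
      (@ExactPairing.tensor C _ _ Y₂ Y₁ X₂ X₁ (PvSane_sw q) (PvSane_sw p)).coevaluation' := by
  rw [PvSane_coev]
  change (p.coevaluation' ⊗≫ (X₁ ◁ q.coevaluation') ▷ Y₁ ⊗≫ 𝟙 _) ≫ (β_ (X₁ ⊗ X₂) (Y₂ ⊗ Y₁)).hom =
    (PvSane_sw q).coevaluation' ⊗≫ (Y₂ ◁ (PvSane_sw p).coevaluation') ▷ X₂ ⊗≫ 𝟙 _
  rw [PvSane_coev, PvSane_coev]
  generalize p.coevaluation' = u
  generalize q.coevaluation' = v
  rw [BraidedCategory.braiding_tensor_left_hom, BraidedCategory.braiding_tensor_right_hom,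
    BraidedCategory.braiding_tensor_right_hom]
  calc _ = u ⊗≫ X₁ ◁ ((v ≫ (β_ X₂ Y₂).hom) ▷ Y₁) ⊗≫ ((X₁ ⊗ Y₂) ◁ (β_ X₂ Y₁).hom ≫
        (β_ X₁ Y₂).hom ▷ (Y₁ ⊗ X₂)) ⊗≫ Y₂ ◁ ((β_ X₁ Y₁).hom ▷ X₂) ⊗≫ 𝟙 _ := by monoidal
    _ = u ⊗≫ X₁ ◁ ((v ≫ (β_ X₂ Y₂).hom) ▷ Y₁) ⊗≫ ((β_ X₁ Y₂).hom ▷ (X₂ ⊗ Y₁) ≫
        (Y₂ ⊗ X₁) ◁ (β_ X₂ Y₁).hom) ⊗≫ Y₂ ◁ ((β_ X₁ Y₁).hom ▷ X₂) ⊗≫ 𝟙 _ := by
      rw [whisker_exchange]
    _ = (u ⊗≫ X₁ ◁ ((v ≫ (β_ X₂ Y₂).hom) ▷ Y₁) ⊗≫ (β_ X₁ Y₂).hom ▷ (X₂ ⊗ Y₁) ⊗≫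
        Y₂ ◁ (X₁ ◁ (β_ X₂ Y₁).hom) ⊗≫ 𝟙 (Y₂ ⊗ X₁ ⊗ Y₁ ⊗ X₂)) ⊗≫
        Y₂ ◁ ((β_ X₁ Y₁).hom ▷ X₂) ⊗≫ 𝟙 _ := by monoidal
    _ = ((v ≫ (β_ X₂ Y₂).hom) ⊗≫ Y₂ ◁ (u ▷ X₂) ⊗≫ 𝟙 _) ⊗≫
        Y₂ ◁ ((β_ X₁ Y₁).hom ▷ X₂) ⊗≫ 𝟙 _ := by rw [PvSane_slide]
    _ = _ := by monoidal

theorem PvSane_unit : (PvSane_sw (exactPairingUnit : ExactPairing (𝟙_ C) (𝟙_ C))).coevaluation' =
    (exactPairingUnit : ExactPairing (𝟙_ C) (𝟙_ C)).coevaluation' := by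
  rw [PvSane_coev, braiding_tensorUnit_left, unitors_equal, Iso.hom_inv_id, Category.comp_id]

end

theorem pivotal_of_symmetric {C : Type w} [Category.{v} C] [MonoidalCategory C]
    [SymmetricCategory C] [RigidCategory C] : Nonempty (PivotalStructure C) := by
  have hA : ∀ X : C, PvA_IsMate (duPair (du X)) (PvSane_sw (duPair X)) (𝟙 (du X))
      (rightDualIso (PvSane_sw (duPair X)) (duPair (du X))).hom := fun X =>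
    PvA_iso (PvSane_sw (duPair X)) (duPair (du X))
  refine ⟨⟨fun X => rightDualIso (PvSane_sw (duPair X)) (duPair (du X)), ?_, ?_, ?_⟩⟩
  · intro X Y f
    have m1 := PvA_comp (PvA_mk (duPair (du Y)) (duPair (du X)) (duMap f)) (hA X)
    have m2 := PvA_comp (hA Y) (PvSane_swap (PvA_mk (duPair X) (duPair Y) f))
    rw [Category.comp_id] at m1
    rw [Category.id_comp] at m2
    exact PvA_uniq m2 m1
  · intro X₁ X₂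
    have m1 : PvA_IsMate (@ExactPairing.tensor C _ _ (du X₂) (du X₁) (du (du X₂)) (du (du X₁))
        (duPair (du X₂)) (duPair (du X₁))) (duPair (du (X₁ ⊗ X₂)))
        (𝟙 (du X₂ ⊗ du X₁) ≫ (rightDualTensorIso X₁ X₂).inv) (ddTensor X₁ X₂) :=
      PvA_comp (PvA_iso (duPair (du X₂ ⊗ du X₁)) _) (PvA_mk (duPair (du X₂ ⊗ du X₁))
        (duPair (du (X₁ ⊗ X₂))) (rightDualTensorIso X₁ X₂).inv)
    rw [Category.id_comp] at m1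
    have m2 := PvA_comp m1 (hA (X₁ ⊗ X₂))
    rw [Category.comp_id] at m2
    have m3 : PvA_IsMate (@ExactPairing.tensor C _ _ (du X₂) (du X₁) (du (du X₂)) (du (du X₁))
        (duPair (du X₂)) (duPair (du X₁))) (@ExactPairing.tensor C _ _ (du X₂) (du X₁) X₂ X₁
        (PvSane_sw (duPair X₂)) (PvSane_sw (duPair X₁))) (𝟙 (du X₂ ⊗ du X₁)) _ :=
      PvA_tensor (hA X₂) (hA X₁)
    have m4 : PvA_IsMate (duPair (X₁ ⊗ X₂)) (@ExactPairing.tensor C _ _ X₁ X₂ (du X₁) (du X₂)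
        (duPair X₁) (duPair X₂)) (𝟙 (X₁ ⊗ X₂)) (rightDualTensorIso X₁ X₂).inv :=
      PvA_iso_inv (duPair (X₁ ⊗ X₂)) _
    have m5 := PvSane_swap m4
    have m6 : PvA_IsMate (@ExactPairing.tensor C _ _ (du X₂) (du X₁) X₂ X₁
        (PvSane_sw (duPair X₂)) (PvSane_sw (duPair X₁))) (PvSane_sw (duPair (X₁ ⊗ X₂)))
        (rightDualTensorIso X₁ X₂).inv (𝟙 (X₁ ⊗ X₂)) := by
      unfold PvA_IsMate at m5 ⊢
      rw [← PvSane_tensor]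
      exact m5
    have m7 := PvA_comp m3 m6
    rw [Category.id_comp, Category.id_comp] at m7
    exact PvA_uniq m2 m7
  · have m1 : PvA_IsMate (exactPairingUnit : ExactPairing (𝟙_ C) (𝟙_ C)) (duPair (du (𝟙_ C)))
        (𝟙 (𝟙_ C) ≫ (dualUnitIso C).inv) (ddUnit C) :=
      PvA_comp (PvA_iso (duPair (𝟙_ C)) exactPairingUnit)
        (PvA_mk (duPair (𝟙_ C)) (duPair (du (𝟙_ C))) (dualUnitIso C).inv)
    rw [Category.id_comp] at m1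
    have m2 := PvA_comp m1 (hA (𝟙_ C))
    rw [Category.comp_id] at m2
    have m4 : PvA_IsMate (duPair (𝟙_ C)) (exactPairingUnit : ExactPairing (𝟙_ C) (𝟙_ C))
        (𝟙 (𝟙_ C)) (dualUnitIso C).inv := PvA_iso_inv (duPair (𝟙_ C)) exactPairingUnit
    have m5 := PvSane_swap m4
    have m6 : PvA_IsMate (exactPairingUnit : ExactPairing (𝟙_ C) (𝟙_ C))
        (PvSane_sw (duPair (𝟙_ C))) (dualUnitIso C).inv (𝟙 (𝟙_ C)) := by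
      unfold PvA_IsMate at m5 ⊢
      rw [← PvSane_unit]
      exact m5
    exact PvA_uniq m2 m6

end H24PV
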