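import Pool.Agent.H24.PV.CyG
import Pool.Agent.H24.PV.PrDef
import Pool.Agent.H24.PV.EmDef

/-!
# ZaDef: the cyclic group of order four acting through involutions
-/

universe u

namespace H24PV

/-- The cyclic group of order four. -/
def Z4 : Type := Multiplicative (ZMod 4)

instance : CommGroup Z4 := inferInstanceAs (CommGroup (Multiplicative (ZMod 4)))
instance : Fintype Z4 := inferInstanceAs (Fintype (ZMod 4))
instance : DecidableEq Z4 := inferInstanceAs (DecidableEq (ZMod 4))

namespace Z4

/-- The exponent `0, 1, 2, 3`. -/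
def v (g : Z4) : ℕ := ZMod.val (Multiplicative.toAdd g : ZMod 4)

/-- The generator. -/
def gen : Z4 := Multiplicative.ofAdd (1 : ZMod 4)

theorem v_one : v 1 = 0 := rfl
theorem v_gen : v gen = 1 := rfl
theorem v_lt (g : Z4) : v g < 4 := ZMod.val_lt (n := 4) _
theorem v_mul (g h : Z4) : v (g * h) = (v g + v h) % 4 := ZMod.val_add (n := 4) _ _

end Z4

/-- A type with an involution. -/
class Inv2 (X : Type) where
  s : X → X
  ss : ∀ x, s (s x) = x

instance instAct (X : Type) [Inv2 X] : MulAction Z4 X where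
  smul g x := if Z4.v g % 2 = 1 then Inv2.s x else x
  one_smul x := by
    show (if Z4.v 1 % 2 = 1 then Inv2.s x else x) = x
    rw [Z4.v_one]; simp
  mul_smul g h x := by
    show (if Z4.v (g * h) % 2 = 1 then Inv2.s x else x) =
      (if Z4.v g % 2 = 1 then Inv2.s (if Z4.v h % 2 = 1 then Inv2.s x else x) else
        (if Z4.v h % 2 = 1 then Inv2.s x else x))
    rw [Z4.v_mul]
    have h1 := Z4.v_lt g
    have h2 := Z4.v_lt h
    by_cases c1 : Z4.v g % 2 = 1 <;> by_cases c2 : Z4.v h % 2 = 1
    · rw [if_pos c1, if_pos c2, if_neg (by omega), Inv2.ss]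
    · rw [if_pos c1, if_neg c2, if_pos (by omega)]
    · rw [if_neg c1, if_pos c2, if_pos (by omega)]
    · rw [if_neg c1, if_neg c2, if_neg (by omega)]

theorem act_eq {X : Type} [Inv2 X] (g : Z4) (x : X) :
    g • x = if Z4.v g % 2 = 1 then Inv2.s x else x := rfl

instance inst5 (X Y Z : Type) : Inv2 ((X × X) × (Y × (Z × Z))) where
  s x := ((x.1.2, x.1.1), (x.2.1, (x.2.2.2, x.2.2.1)))
  ss _ := rfl

variable {k : Type u} [Field k] {L : Type} [Fintype L] [DecidableEq L]

theorem FSym.ofSwap [Inv2 L] {D : FData k L} (h1 : Inv2.s D.one = D.one)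
    (hN : ∀ a b c : L, D.N (Inv2.s a) (Inv2.s b) (Inv2.s c) = D.N a b c)
    (hF : ∀ a b c d e f : L, D.F (Inv2.s a) (Inv2.s b) (Inv2.s c) (Inv2.s d) (Inv2.s e)
      (Inv2.s f) = D.F a b c d e f)
    (hG : ∀ a b c d f e : L, D.G (Inv2.s a) (Inv2.s b) (Inv2.s c) (Inv2.s d) (Inv2.s f)
      (Inv2.s e) = D.G a b c d f e) : FSym D Z4 where
  one_inv g := by
    rw [act_eq]; split_ifs <;> simp [h1]
  N_inv g a b c := by
    simp only [act_eq]; split_ifs
    · exact hN a b c
    · rfl
  F_inv g a b c d e f := by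
    simp only [act_eq]; split_ifs
    · exact hF a b c d e f
    · rfl
  G_inv g a b c d f e := by
    simp only [act_eq]; split_ifs
    · exact hG a b c d f e
    · rfl

/-- The swap scalars of the powers of the generator. -/
def powLam {P : Type} [Inv2 P] (l : P → k) (g : Z4) (p : P) : k :=
  if Z4.v g = 0 then 1 else if Z4.v g = 1 then l p else
  if Z4.v g = 2 then l p * l (Inv2.s p) else l p * l (Inv2.s p) * l p

theorem powLam_0 {P : Type} [Inv2 P] (l : P → k) {g : Z4} (h : Z4.v g = 0) (p : P) :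
    powLam l g p = 1 := by
  unfold powLam; rw [if_pos h]

theorem powLam_1 {P : Type} [Inv2 P] (l : P → k) {g : Z4} (h : Z4.v g = 1) (p : P) :
    powLam l g p = l p := by
  unfold powLam; rw [if_neg (by omega), if_pos h]

theorem powLam_2 {P : Type} [Inv2 P] (l : P → k) {g : Z4} (h : Z4.v g = 2) (p : P) :
    powLam l g p = l p * l (Inv2.s p) := by
  unfold powLam; rw [if_neg (by omega), if_neg (by omega), if_pos h]

theorem powLam_3 {P : Type} [Inv2 P] (l : P → k) {g : Z4} (h : Z4.v g = 3) (p : P) :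
    powLam l g p = l p * l (Inv2.s p) * l p := by
  unfold powLam; rw [if_neg (by omega), if_neg (by omega), if_neg (by omega)]

theorem act_odd {X : Type} [Inv2 X] {g : Z4} (h : Z4.v g % 2 = 1) (x : X) :
    g • x = Inv2.s x := by rw [act_eq, if_pos h]

theorem act_even {X : Type} [Inv2 X] {g : Z4} (h : Z4.v g % 2 = 0) (x : X) :
    g • x = x := by rw [act_eq, if_neg (by omega)]

theorem Z4.v_cases (g : Z4) : Z4.v g = 0 ∨ Z4.v g = 1 ∨ Z4.v g = 2 ∨ Z4.v g = 3 := by
  have h1 := Z4.v_lt g
  omega

/-- Equivariance data from a swap. -/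
def EqAlg.ofSwap [Inv2 L] {D : FData k L} {P : Type} [Fintype P] [DecidableEq P] [Inv2 P]
    (A : Alg D P) (B : BData D) (l : P → k)
    (hx : ∀ p, A.x (Inv2.s p) = Inv2.s (A.x p)) (hu : Inv2.s A.u = A.u)
    (hl : ∀ p, (l p * l (Inv2.s p)) * (l p * l (Inv2.s p)) = 1) (lu : l A.u = 1)
    (hm : ∀ p q r, A.m (Inv2.s p) (Inv2.s q) (Inv2.s r) * l r = l p * l q * A.m p q r)
    (hR : ∀ a b c, B.R (Inv2.s a) (Inv2.s b) (Inv2.s c) = B.R a b c) : EqAlg A B Z4 where
  lam := powLam l
  x_eq g p := by
    simp only [act_eq]; split_ifs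
    · exact hx p
    · rfl
  u_eq g := by
    simp only [act_eq]; split_ifs
    · exact hu
    · rfl
  lam_ne g p := by
    have h1 := hl p
    have ha : l p ≠ 0 := by
      intro h0; rw [h0] at h1; simp at h1
    have hb : l (Inv2.s p) ≠ 0 := by
      intro h0; rw [h0] at h1; simp at h1
    rcases Z4.v_cases g with h | h | h | h
    · rw [powLam_0 l h]; exact one_ne_zero
    · rw [powLam_1 l h]; exact ha
    · rw [powLam_2 l h]; exact mul_ne_zero ha hb
    · rw [powLam_3 l h]; exact mul_ne_zero (mul_ne_zero ha hb) ha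
  lam_mul g h p := by
    have h1 := hl p
    have hgh := Z4.v_mul g h
    rcases Z4.v_cases g with c | c | c | c <;> rcases Z4.v_cases h with d | d | d | d <;>
      rw [c, d] at hgh <;> norm_num at hgh
    · rw [powLam_0 l hgh, powLam_0 l c, powLam_0 l d]; ring
    · rw [powLam_1 l hgh, powLam_0 l c, powLam_1 l d]; ring
    · rw [powLam_2 l hgh, powLam_0 l c, powLam_2 l d]; ring
    · rw [powLam_3 l hgh, powLam_0 l c, powLam_3 l d]; ring
    · rw [powLam_1 l hgh, powLam_1 l c, powLam_0 l d, act_even (by omega)]; ring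
    · rw [powLam_2 l hgh, powLam_1 l c, powLam_1 l d, act_odd (by omega)]; ring
    · rw [powLam_3 l hgh, powLam_1 l c, powLam_2 l d, act_even (by omega)]; ring
    · rw [powLam_0 l hgh, powLam_1 l c, powLam_3 l d, act_odd (by omega), ← h1]; ring
    · rw [powLam_2 l hgh, powLam_2 l c, powLam_0 l d, act_even (by omega)]; ring
    · rw [powLam_3 l hgh, powLam_2 l c, powLam_1 l d, act_odd (by omega), Inv2.ss]; ring
    · rw [powLam_0 l hgh, powLam_2 l c, powLam_2 l d, act_even (by omega), ← h1]
    · rw [powLam_1 l hgh, powLam_2 l c, powLam_3 l d, act_odd (by omega), Inv2.ss]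
      calc l p = (l p * l (Inv2.s p) * (l p * l (Inv2.s p))) * l p := by rw [h1, one_mul]
        _ = _ := by ring
    · rw [powLam_3 l hgh, powLam_3 l c, powLam_0 l d, act_even (by omega)]; ring
    · rw [powLam_0 l hgh, powLam_3 l c, powLam_1 l d, act_odd (by omega), Inv2.ss, ← h1]; ring
    · rw [powLam_1 l hgh, powLam_3 l c, powLam_2 l d, act_even (by omega)]
      calc l p = (l p * l (Inv2.s p) * (l p * l (Inv2.s p))) * l p := by rw [h1, one_mul]
        _ = _ := by ring
    · rw [powLam_2 l hgh, powLam_3 l c, powLam_3 l d, act_odd (by omega), Inv2.ss]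
      calc l p * l (Inv2.s p) = (l p * l (Inv2.s p) * (l p * l (Inv2.s p))) * (l p * l (Inv2.s p)) := by
            rw [h1, one_mul]
        _ = _ := by ring
  lam_u g := by
    rcases Z4.v_cases g with h | h | h | h
    · rw [powLam_0 l h]
    · rw [powLam_1 l h, lu]
    · rw [powLam_2 l h, hu, lu, mul_one]
    · rw [powLam_3 l h, hu, lu, mul_one, mul_one]
  m_eq g p q r := by
    have e1 := hm p q r
    have e2 := hm (Inv2.s p) (Inv2.s q) (Inv2.s r)
    rw [Inv2.ss, Inv2.ss, Inv2.ss] at e2
    have e3 : A.m p q r * (l r * l (Inv2.s r)) =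
        (l p * l (Inv2.s p)) * (l q * l (Inv2.s q)) * A.m p q r := by
      calc A.m p q r * (l r * l (Inv2.s r)) = (A.m p q r * l (Inv2.s r)) * l r := by ring
        _ = l (Inv2.s p) * l (Inv2.s q) * (A.m (Inv2.s p) (Inv2.s q) (Inv2.s r) * l r) := by
            rw [e2]; ring
        _ = _ := by rw [e1]; ring
    rcases Z4.v_cases g with h | h | h | h
    · rw [powLam_0 l h, powLam_0 l h, powLam_0 l h, act_even (by omega), act_even (by omega),
        act_even (by omega)]; ring
    · rw [powLam_1 l h, powLam_1 l h, powLam_1 l h, act_odd (by omega), act_odd (by omega),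
        act_odd (by omega)]; exact e1
    · rw [powLam_2 l h, powLam_2 l h, powLam_2 l h, act_even (by omega), act_even (by omega),
        act_even (by omega)]; exact e3
    · rw [powLam_3 l h, powLam_3 l h, powLam_3 l h, act_odd (by omega), act_odd (by omega),
        act_odd (by omega)]
      calc A.m (Inv2.s p) (Inv2.s q) (Inv2.s r) * (l r * l (Inv2.s r) * l r) =
          (A.m (Inv2.s p) (Inv2.s q) (Inv2.s r) * l r) * (l r * l (Inv2.s r)) := by ring
        _ = l p * l q * (A.m p q r * (l r * l (Inv2.s r))) := by rw [e1]; ring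
        _ = _ := by rw [e3]; ring
  R_inv g a b c := by
    simp only [act_eq]; split_ifs
    · exact hR a b c
    · rfl

end H24PV
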