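import Pool.Agent.H24.PV.PvC
import Pool.Agent.H24.PV.PvD
import Pool.Agent.H24.PV.PvE
import Pool.Agent.H24.PV.PvA
import Pool.Agent.H24.PV.FX
import Pool.Agent.H24.PV.FR
import Pool.Agent.H24.PV.FB
import Pool.Agent.H24.PV.ZcDef

/-!
# ZdDef: scalar dimensions

`C` rigid with `End 𝟙 = k`, `F` a flip.  `sdim X` is the scalar of `F.dim (duPair X)`; it does not
depend on the pairing (`dim_iso` with `Iso.refl`).
-/

open CategoryTheory MonoidalCategory

universe u v w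

namespace H24PV

section
variable {C : Type w} [Category.{v} C] [MonoidalCategory C] [Preadditive C]
  [MonoidalPreadditive C] {k : Type u} [Field k] [Linear k C] [MonoidalLinear k C]

theorem ZdDef_one_ne (h1 : Module.finrank k (𝟙_ C ⟶ 𝟙_ C) = 1) : 𝟙 (𝟙_ C) ≠ 0 := by
  intro h
  have hs : Subsingleton (𝟙_ C ⟶ 𝟙_ C) := ⟨fun f g => by
    rw [← Category.id_comp f, ← Category.id_comp g, h, Limits.zero_comp, Limits.zero_comp]⟩
  have h2 : Module.finrank k (𝟙_ C ⟶ 𝟙_ C) = 0 := Module.finrank_zero_of_subsingleton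
  omega

theorem scalar_unique (h1 : Module.finrank k (𝟙_ C ⟶ 𝟙_ C) = 1) (f : 𝟙_ C ⟶ 𝟙_ C) :
    ∃ s : k, f = s • 𝟙 (𝟙_ C) := by
  obtain ⟨c, hc⟩ := (finrank_eq_one_iff_of_nonzero' (𝟙 (𝟙_ C)) (ZdDef_one_ne h1)).1 h1 f
  exact ⟨c, hc.symm⟩

theorem scalar_inj (h1 : Module.finrank k (𝟙_ C ⟶ 𝟙_ C) = 1) {s t : k}
    (h : s • 𝟙 (𝟙_ C) = t • 𝟙 (𝟙_ C)) : s = t := by
  rw [← sub_eq_zero, ← sub_smul, smul_eq_zero, sub_eq_zero] at h
  rcases h with h | h
  · exact h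
  · exact absurd h (ZdDef_one_ne h1)

variable [RigidCategory C] (F : Flip C)

/-- The scalar dimension of an object. -/
noncomputable def sdim (h1 : Module.finrank k (𝟙_ C ⟶ 𝟙_ C) = 1) (X : C) : k :=
  Classical.choose (scalar_unique h1 (F.dim (duPair X)))

variable (h1 : Module.finrank k (𝟙_ C ⟶ 𝟙_ C) = 1)

theorem sdim_spec {X Y : C} (p : ExactPairing X Y) : F.dim p = sdim F h1 X • 𝟙 (𝟙_ C) := by
  rw [F.dim_iso p (duPair X) (Iso.refl X)]
  exact Classical.choose_spec (scalar_unique h1 (F.dim (duPair X)))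

theorem sdim_iso {X Y : C} (e : X ≅ Y) : sdim F h1 X = sdim F h1 Y := by
  apply scalar_inj h1
  rw [← sdim_spec F h1 (duPair X), ← sdim_spec F h1 (duPair Y)]
  exact F.dim_iso _ _ e

theorem sdim_unit : sdim F h1 (𝟙_ C) = 1 := by
  apply scalar_inj h1
  rw [← sdim_spec F h1 exactPairingUnit, F.dim_unit, one_smul]

theorem sdim_tensor (X Y : C) : sdim F h1 (X ⊗ Y) = sdim F h1 X * sdim F h1 Y := by
  apply scalar_inj h1
  rw [← sdim_spec F h1 (@ExactPairing.tensor C _ _ X Y (du X) (du Y) (duPair X) (duPair Y)),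
    F.dim_tensor_lin (duPair X) (duPair Y) (scalar_unique h1), sdim_spec F h1 (duPair X),
    sdim_spec F h1 (duPair Y), Linear.smul_comp, Linear.comp_smul, Category.comp_id, smul_smul]

theorem sdim_sum {I : Type} [Fintype I] (X : C) (S : I → C) (π : ∀ i, X ⟶ S i)
    (ι : ∀ i, S i ⟶ X) (e1 : ∀ i, ι i ≫ π i = 𝟙 (S i)) (e2 : ∑ i, π i ≫ ι i = 𝟙 X) :
    sdim F h1 X = ∑ i, sdim F h1 (S i) := by
  apply scalar_inj h1
  rw [← sdim_spec F h1 (duPair X), Finset.sum_smul,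
    F.dim_sum (duPair X) S (fun i => du (S i)) (fun i => duPair (S i)) π ι e1 e2]
  exact Finset.sum_congr rfl fun i _ => sdim_spec F h1 (duPair (S i))

end
end H24PV
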